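import Pool.Agent.W5h67.NF.Nil2

/-!
Passing to the subgroup generated by the one-parameter groups.
-/

set_option autoImplicit false

namespace Pool.Agent.W5h67.NF

open MeasureTheory

universe u v

section sub

variable {X : Type u} [MeasurableSpace X] {μ : Measure X} {G : Type v} [Group G] [MulAction G X] {K : ℕ}
  {e : (Fin K → ℝ) → G}

/-- the coordinates with values in the subgroup `NN e 0` -/
def eS (ha : ∀ (s t : ℝ) (v : Fin K → ℝ), e ((s + t) • v) = e (s • v) * e (t • v))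
    (hs : ∀ (v : Fin K → ℝ) (r : Fin K) (s : ℝ), e (v + Pi.single r s) * (e v * e (Pi.single r s))⁻¹ ∈ NN e (r + 1))
    (v : Fin K → ℝ) : NN e 0 := ⟨e v, e_mem ha hs v⟩

theorem mem_NN_eS (ha : ∀ (s t : ℝ) (v : Fin K → ℝ), e ((s + t) • v) = e (s • v) * e (t • v))
    (hs : ∀ (v : Fin K → ℝ) (r : Fin K) (s : ℝ), e (v + Pi.single r s) * (e v * e (Pi.single r s))⁻¹ ∈ NN e (r + 1))
    {n : ℕ} {x : NN e 0} (hx : (x : G) ∈ NN e n) : x ∈ NN (eS ha hs) n := by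
  have h : NN e n ≤ (NN (eS ha hs) n).map (NN e 0).subtype := by
    have h1 : Subgroup.closure {g | ∃ (l : Fin K) (s : ℝ), n ≤ (l : ℕ) ∧ g = e (Pi.single l s)} ≤
        (NN (eS ha hs) n).map (NN e 0).subtype := by
      rw [Subgroup.closure_le]
      rintro g ⟨l, s, hl, rfl⟩
      exact ⟨eS ha hs (Pi.single l s), single_mem hl s, rfl⟩
    exact h1
  obtain ⟨y, hy, hyx⟩ := h hx
  have h2 : y = x := Subtype.ext hyx
  rwa [← h2]

theorem nil_sub (ha : ∀ (s t : ℝ) (v : Fin K → ℝ), e ((s + t) • v) = e (s • v) * e (t • v))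
    (hs : ∀ (v : Fin K → ℝ) (r : Fin K) (s : ℝ), e (v + Pi.single r s) * (e v * e (Pi.single r s))⁻¹ ∈ NN e (r + 1))
    (hc : ∀ g ∈ NN e 0, ∀ (r : Fin K) (s : ℝ), g * e (Pi.single r s) * g⁻¹ * (e (Pi.single r s))⁻¹ ∈ NN e (r + 1))
    (hm : Measurable fun p : (Fin K → ℝ) × X => e p.1 • p.2)
    (hp : ∀ v, MeasurePreserving (fun x : X => e v • x) μ μ) : Nil μ (eS ha hs) where
  add s t v := Subtype.ext (ha s t v)
  meas := hm
  mp := hp
  comm g r s := mem_NN_eS ha hs (hc g g.2 r s)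
  split v r s := mem_NN_eS ha hs (hs v r s)

theorem wR_sub (ha : ∀ (s t : ℝ) (v : Fin K → ℝ), e ((s + t) • v) = e (s • v) * e (t • v))
    (hs : ∀ (v : Fin K → ℝ) (r : Fin K) (s : ℝ), e (v + Pi.single r s) * (e v * e (Pi.single r s))⁻¹ ∈ NN e (r + 1))
    {d : ℕ} (t : Fin d → ℝ) (v : Fin d → Fin K → ℝ) : ((wR (eS ha hs) t v : NN e 0) : G) = wR e t v := by
  unfold wR
  rw [Subgroup.val_list_prod, List.map_ofFn]
  rfl

theorem IG_sub (ha : ∀ (s t : ℝ) (v : Fin K → ℝ), e ((s + t) • v) = e (s • v) * e (t • v))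
    (hs : ∀ (v : Fin K → ℝ) (r : Fin K) (s : ℝ), e (v + Pi.single r s) * (e v * e (Pi.single r s))⁻¹ ∈ NN e (r + 1)) :
    IG μ (eS ha hs) = IG μ e := rfl

end sub

end Pool.Agent.W5h67.NF
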