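import Pool.Agent.W5h67.NF.Base
import Pool.Agent.Y957.MC.Flw1

/-!
Words in noncommuting flows at generic times: the square function of the dyadic averages along a flow.
-/

set_option autoImplicit false

namespace Pool.Agent.W5h67.NF

open MeasureTheory Filter Finset
open Pool.Agent.Y957.MC (IsFlow flowInv smo smo_lip prim_bd)
open Pool.Agent.Y48.MC (orb_meas orb_int orb_bd orb_shift smo_meas smo_bd)

universe u

section avg

variable {X : Type u} [MeasurableSpace X] {μ : Measure X} [IsProbabilityMeasure μ] {τ : ℝ → X → X}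
  {f φ ψ : X → ℝ}

omit [IsProbabilityMeasure μ] in
theorem smo_bm (hτ : IsFlow μ τ) (hf : BM f) {L : ℝ} (hL : 0 ≤ L) : BM (smo τ f L) := by
  obtain ⟨h1, C, hC⟩ := hf
  by_cases hX : Nonempty X
  · obtain ⟨x0⟩ := hX
    exact ⟨smo_meas hτ h1 hL, C, smo_bd ((abs_nonneg _).trans (hC x0)) hC hL⟩
  · exact ⟨smo_meas hτ h1 hL, 0, fun x => (hX ⟨x⟩).elim⟩

theorem smo_sq_le (hτ : IsFlow μ τ) (hf : BM f) {L : ℝ} (hL : 0 < L) :
    ∫ x, smo τ f L x ^ 2 ∂μ ≤ ∫ x, f x ^ 2 ∂μ := by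
  have h1 := Phi_self (B := 1) one_pos hτ hf hL
  have h2 := Phi_le (B := 1) hτ hf hf le_rfl le_rfl L
  rw [h1, one_mul] at h2
  exact (le_abs_self _).trans h2

omit [IsProbabilityMeasure μ] in
theorem bm_int (hτ : IsFlow μ τ) (hf : BM f) (x : X) (a b : ℝ) :
    IntervalIntegrable (fun r : ℝ => f (τ r x)) volume a b := by
  obtain ⟨h1, C, hC⟩ := hf
  exact orb_int hτ h1 hC x a b

omit [IsProbabilityMeasure μ] in
theorem smo_double (hτ : IsFlow μ τ) (hf : BM f) {L : ℝ} (hL : 0 < L) (x : X) :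
    smo τ f (2 * L) x = (smo τ f L x + smo τ f L (τ L x)) / 2 := by
  unfold smo
  rw [orb_shift hτ]
  have h1 := intervalIntegral.integral_add_adjacent_intervals (bm_int hτ hf x 0 L) (bm_int hτ hf x L (2 * L))
  rw [← h1, show (0 : ℝ) + L = L by ring, show L + L = 2 * L by ring]
  field_simp

/-- the dyadic averages -/
noncomputable def hk (τ : ℝ → X → X) (φ : X → ℝ) (k : ℕ) (x : X) : ℝ := smo τ φ ((2 : ℝ) ^ k) x

/-- the differences of the dyadic averages -/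
noncomputable def Dk (τ : ℝ → X → X) (φ : X → ℝ) (k : ℕ) (x : X) : ℝ := hk τ φ k x - hk τ φ (k + 1) x

/-- their mean squares -/
noncomputable def dl (μ : Measure X) (τ : ℝ → X → X) (φ : X → ℝ) (k : ℕ) : ℝ := ∫ x, Dk τ φ k x ^ 2 ∂μ

omit [IsProbabilityMeasure μ] in
theorem hk_bm (hτ : IsFlow μ τ) (hφ : BM φ) (k : ℕ) : BM (hk τ φ k) := smo_bm hτ hφ (by positivity)

omit [IsProbabilityMeasure μ] in
theorem Dk_bm (hτ : IsFlow μ τ) (hφ : BM φ) (k : ℕ) : BM (Dk τ φ k) := (hk_bm hτ hφ k).sub (hk_bm hτ hφ (k + 1))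

omit [IsProbabilityMeasure μ] in
theorem hk_succ (hτ : IsFlow μ τ) (hφ : BM φ) (k : ℕ) (x : X) :
    hk τ φ (k + 1) x = (hk τ φ k x + hk τ φ k (τ ((2 : ℝ) ^ k) x)) / 2 := by
  unfold hk
  rw [pow_succ, mul_comm ((2 : ℝ) ^ k) 2, smo_double hτ hφ (by positivity)]

omit [IsProbabilityMeasure μ] in
theorem Dk_eq (hτ : IsFlow μ τ) (hφ : BM φ) (k : ℕ) (x : X) :
    Dk τ φ k x = (hk τ φ k x - hk τ φ k (τ ((2 : ℝ) ^ k) x)) / 2 := by
  rw [Dk, hk_succ hτ hφ]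
  ring

theorem dl_eq (hτ : IsFlow μ τ) (hφ : BM φ) (k : ℕ) :
    dl μ τ φ k = ∫ x, hk τ φ k x ^ 2 ∂μ - ∫ x, hk τ φ (k + 1) x ^ 2 ∂μ := by
  have hb := hk_bm hτ hφ k
  have hb1 := hk_bm hτ hφ (k + 1)
  have hbt : BM (fun x => hk τ φ k (τ ((2 : ℝ) ^ k) x)) := hb.comp (hτ.mp _).measurable
  have h1 : ∀ x, Dk τ φ k x ^ 2 + hk τ φ (k + 1) x ^ 2 =
      (1 / 2) * hk τ φ k x ^ 2 + (1 / 2) * hk τ φ k (τ ((2 : ℝ) ^ k) x) ^ 2 := by
    intro x
    rw [Dk_eq hτ hφ, hk_succ hτ hφ]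
    ring
  have h2 : ∫ x, (Dk τ φ k x ^ 2 + hk τ φ (k + 1) x ^ 2) ∂μ =
      ∫ x, ((1 / 2) * hk τ φ k x ^ 2 + (1 / 2) * hk τ φ k (τ ((2 : ℝ) ^ k) x) ^ 2) ∂μ := by simp only [h1]
  rw [integral_add ((Dk_bm hτ hφ k).sq.int μ) (hb1.sq.int μ),
    integral_add ((hb.sq.smul _).int μ) ((hbt.sq.smul _).int μ), integral_const_mul, integral_const_mul,
    mp_int (hτ.mp _) (f := fun x => hk τ φ k x ^ 2) hb.sq.1] at h2
  rw [dl]
  linarith

theorem dl_nonneg (k : ℕ) : 0 ≤ dl μ τ φ k := integral_nonneg fun _ => sq_nonneg _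

theorem sum_dl (hτ : IsFlow μ τ) (hφ : BM φ) (n : ℕ) : ∑ k ∈ range n, dl μ τ φ k ≤ ∫ x, φ x ^ 2 ∂μ := by
  have h1 : ∑ k ∈ range n, dl μ τ φ k = ∫ x, hk τ φ 0 x ^ 2 ∂μ - ∫ x, hk τ φ n x ^ 2 ∂μ := by
    simp only [dl_eq hτ hφ]
    exact sum_range_sub' (fun k => ∫ x, hk τ φ k x ^ 2 ∂μ) n
  have h2 : 0 ≤ ∫ x, hk τ φ n x ^ 2 ∂μ := integral_nonneg fun _ => sq_nonneg _
  have h3 : ∫ x, hk τ φ 0 x ^ 2 ∂μ ≤ ∫ x, φ x ^ 2 ∂μ := smo_sq_le hτ hφ (by positivity)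
  linarith

theorem summable_dl (hτ : IsFlow μ τ) (hφ : BM φ) : Summable (dl μ τ φ) :=
  summable_of_sum_range_le (fun k => dl_nonneg k) (sum_dl hτ hφ)

theorem hk_expand (k m : ℕ) (x : X) :
    hk τ φ k x = hk τ φ (k + m) x + ∑ i ∈ range m, Dk τ φ (k + i) x := by
  have := sum_range_sub' (fun i => hk τ φ (k + i) x) m
  simp only [add_zero] at this
  have e : ∑ i ∈ range m, Dk τ φ (k + i) x = ∑ i ∈ range m, (hk τ φ (k + i) x - hk τ φ (k + (i + 1)) x) := rfl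
  rw [e, this]
  ring

theorem shift_sq (hτ : IsFlow μ τ) (hφ : BM φ) (k m : ℕ) :
    ∫ x, (hk τ φ k x - hk τ φ k (τ ((2 : ℝ) ^ (k + m)) x)) ^ 2 ∂μ ≤
      4 * ((m : ℝ) + 1) * ∑ i ∈ range (m + 1), dl μ τ φ (k + i) := by
  set T : X → X := τ ((2 : ℝ) ^ (k + m)) with hT
  have hTm : MeasurePreserving T μ μ := hτ.mp _
  set v : ℕ → X → ℝ := fun i x => if i = m then 2 * Dk τ φ (k + m) x else
    Dk τ φ (k + i) x - Dk τ φ (k + i) (T x) with hv
  have hvm : ∀ i, BM (v i) := by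
    intro i
    simp only [hv]
    split_ifs
    · exact (Dk_bm hτ hφ _).smul 2
    · exact (Dk_bm hτ hφ _).sub ((Dk_bm hτ hφ _).comp hTm.measurable)
  have e1 : ∀ x, hk τ φ k x - hk τ φ k (T x) = ∑ i ∈ range (m + 1), v i x := by
    intro x
    rw [sum_range_succ, hk_expand k m x, hk_expand k m (T x)]
    have e2 : v m x = hk τ φ (k + m) x - hk τ φ (k + m) (T x) := by
      simp only [hv, if_true]
      rw [Dk_eq hτ hφ]
      ring
    have e3 : ∑ i ∈ range m, v i x = ∑ i ∈ range m, (Dk τ φ (k + i) x - Dk τ φ (k + i) (T x)) := by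
      refine sum_congr rfl fun i hi => ?_
      rw [mem_range] at hi
      simp only [hv]
      rw [if_neg hi.ne]
    rw [e2, e3, sum_sub_distrib]
    ring
  have e4 : ∀ x, (hk τ φ k x - hk τ φ k (T x)) ^ 2 ≤ ((m : ℝ) + 1) * ∑ i ∈ range (m + 1), v i x ^ 2 := by
    intro x
    rw [e1]
    have := sq_sum_le_card_mul_sum_sq (s := range (m + 1)) (f := fun i => v i x)
    rw [card_range] at this
    push_cast at this
    exact this
  have h5 : ∀ i, ∫ x, v i x ^ 2 ∂μ ≤ 4 * dl μ τ φ (k + i) := by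
    intro i
    have hD := Dk_bm hτ hφ (k + i)
    have hDT : BM (fun x => Dk τ φ (k + i) (T x)) := hD.comp hTm.measurable
    by_cases hi : i = m
    · subst hi
      have : ∀ x, v i x ^ 2 = 4 * Dk τ φ (k + i) x ^ 2 := fun x => by simp only [hv, if_true]; ring
      simp only [this]
      rw [integral_const_mul]
      rfl
    · have h6 : ∀ x, v i x ^ 2 ≤ 2 * Dk τ φ (k + i) x ^ 2 + 2 * Dk τ φ (k + i) (T x) ^ 2 := fun x => by
        simp only [hv]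
        rw [if_neg hi]
        nlinarith [sq_nonneg (Dk τ φ (k + i) x + Dk τ φ (k + i) (T x))]
      refine (integral_mono ((hvm i).sq.int μ) (((hD.sq.smul 2).add (hDT.sq.smul 2)).int μ) h6).trans (le_of_eq ?_)
      rw [integral_add ((hD.sq.smul 2).int μ) ((hDT.sq.smul 2).int μ), integral_const_mul, integral_const_mul,
        mp_int hTm (f := fun x => Dk τ φ (k + i) x ^ 2) hD.sq.1, dl]
      ring
  have hkT : BM (fun x => hk τ φ k (T x)) := (hk_bm hτ hφ k).comp hTm.measurable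
  refine (integral_mono (((hk_bm hτ hφ k).sub hkT).sq.int μ)
    (((BM.sum _ fun i _ => (hvm i).sq).smul _).int μ) e4).trans ?_
  rw [integral_const_mul, integral_finsetSum _ fun i _ => (hvm i).sq.int μ]
  have h7 : ∑ i ∈ range (m + 1), ∫ x, v i x ^ 2 ∂μ ≤ ∑ i ∈ range (m + 1), 4 * dl μ τ φ (k + i) :=
    sum_le_sum fun i _ => h5 i
  rw [← mul_sum] at h7
  calc ((m : ℝ) + 1) * ∑ i ∈ range (m + 1), ∫ x, v i x ^ 2 ∂μ ≤
      ((m : ℝ) + 1) * (4 * ∑ i ∈ range (m + 1), dl μ τ φ (k + i)) := mul_le_mul_of_nonneg_left h7 (by positivity)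
    _ = _ := by ring

omit [IsProbabilityMeasure μ] in
theorem smo_cob (hτ : IsFlow μ τ) {h : X → ℝ} (hh : BM h) {c y : ℝ} (hc : 0 < c) (hy : 0 < y) (x : X) :
    smo τ (fun x => (h x - h (τ c x)) / 2) y x = (c / (2 * y)) * smo τ (fun x => h x - h (τ y x)) c x := by
  have hI := fun a b => bm_int hτ hh x a b
  have e : ∀ a b : ℝ, ∫ r in (0 : ℝ)..a, (h (τ r x) - h (τ b (τ r x))) =
      (∫ r in (0 : ℝ)..a, h (τ r x)) - ∫ r in b..(b + a), h (τ r x) := by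
    intro a b
    have e1 : ∀ r, h (τ b (τ r x)) = h (τ (b + r) x) := fun r => by rw [hτ.add]
    simp only [e1]
    have hI2 : IntervalIntegrable (fun r => h (τ (b + r) x)) volume 0 a := by
      have := bm_int hτ (hh.comp (hτ.mp b).measurable) x 0 a
      simpa only [e1] using this
    rw [intervalIntegral.integral_sub (hI 0 a) hI2, intervalIntegral.integral_comp_add_left (fun r => h (τ r x)) b,
      add_zero]
  unfold smo
  have e2 : ∫ r in (0 : ℝ)..y, (h (τ r x) - h (τ c (τ r x))) / 2 =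
      (1 / 2) * ∫ r in (0 : ℝ)..y, (h (τ r x) - h (τ c (τ r x))) := by
    rw [← intervalIntegral.integral_const_mul]
    congr 1
    funext r
    ring
  rw [e2, e, e]
  have e3 : (∫ r in (0 : ℝ)..y, h (τ r x)) - ∫ r in c..(c + y), h (τ r x) =
      (∫ r in (0 : ℝ)..c, h (τ r x)) - ∫ r in y..(y + c), h (τ r x) := by
    have h1 := intervalIntegral.integral_add_adjacent_intervals (hI 0 y) (hI y (y + c))
    have h2 := intervalIntegral.integral_add_adjacent_intervals (hI 0 c) (hI c (y + c))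
    rw [add_comm c y]
    linarith
  rw [e3]
  field_simp

/-- averages over longer intervals -/
theorem mon (hτ : IsFlow μ τ) (hψ : BM ψ) {y₀ y : ℝ} (h0 : 0 < y₀) (hy : y₀ ≤ y) :
    ∫ x, smo τ ψ y x ^ 2 ∂μ ≤ 2 * ∫ x, smo τ ψ y₀ x ^ 2 ∂μ + 2 * (y₀ / y) ^ 2 * ∫ x, ψ x ^ 2 ∂μ := by
  have hy0 : 0 < y := h0.trans_le hy
  set n : ℕ := ⌊y / y₀⌋₊ with hn
  have hn1 : (n : ℝ) * y₀ ≤ y := by
    have := Nat.floor_le (div_pos hy0 h0).le
    rwa [← hn, le_div_iff₀ h0] at this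
  have hn2 : y < ((n : ℝ) + 1) * y₀ := by
    have := Nat.lt_floor_add_one (y / y₀)
    rwa [← hn, div_lt_iff₀ h0] at this
  set r : ℝ := y - n * y₀ with hr
  have hr0 : 0 ≤ r := by linarith
  have hr1 : r ≤ y₀ := by linarith
  set u : ℕ → X → ℝ := fun i x => smo τ ψ y₀ (τ (i * y₀) x) with hu
  set w : X → ℝ := fun x => r * smo τ ψ r (τ (n * y₀) x) with hw
  have hum : ∀ i, BM (u i) := fun i => (smo_bm hτ hψ h0.le).comp (hτ.mp _).measurable
  have hwm : BM w := ((smo_bm hτ hψ hr0).comp (hτ.mp _).measurable).smul r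
  have e1 : ∀ x, y * smo τ ψ y x = y₀ * ∑ i ∈ range n, u i x + w x := by
    intro x
    have hI := fun a b => bm_int hτ hψ x a b
    have e2 : y * smo τ ψ y x = ∫ s in (0 : ℝ)..y, ψ (τ s x) := by
      unfold smo
      field_simp
    have e3 : ∀ i : ℕ, y₀ * u i x = ∫ s in ((i : ℕ) : ℝ) * y₀..((i + 1 : ℕ) : ℝ) * y₀, ψ (τ s x) := by
      intro i
      simp only [hu]
      unfold smo
      rw [orb_shift hτ]
      have : y₀ * (1 / y₀ * ∫ s in (0 + (i : ℝ) * y₀)..(y₀ + (i : ℝ) * y₀), ψ (τ s x)) =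
          ∫ s in (0 + (i : ℝ) * y₀)..(y₀ + (i : ℝ) * y₀), ψ (τ s x) := by field_simp
      rw [this]
      congr 1
      · ring
      · push_cast; ring
    have e4 : w x = ∫ s in ((n : ℕ) : ℝ) * y₀..y, ψ (τ s x) := by
      simp only [hw]
      unfold smo
      rw [orb_shift hτ]
      rcases hr0.eq_or_lt with h | h
      · rw [← h, zero_mul]
        have : (n : ℝ) * y₀ = y := by linarith
        rw [this]
        simp
      · have : r * (1 / r * ∫ s in (0 + (n : ℝ) * y₀)..(r + (n : ℝ) * y₀), ψ (τ s x)) =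
          ∫ s in (0 + (n : ℝ) * y₀)..(r + (n : ℝ) * y₀), ψ (τ s x) := by field_simp
        rw [this]
        congr 1
        · ring
        · rw [hr]; ring
    have e5 := intervalIntegral.sum_integral_adjacent_intervals (f := fun s => ψ (τ s x)) (μ := volume)
      (a := fun i : ℕ => (i : ℝ) * y₀) (n := n) (fun i _ => hI _ _)
    have e6 := intervalIntegral.integral_add_adjacent_intervals (hI 0 ((n : ℝ) * y₀)) (hI ((n : ℝ) * y₀) y)
    rw [mul_sum]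
    simp only [e3]
    rw [e5, e4, e2, ← e6]
    simp
  have e7 : ∀ x, (y * smo τ ψ y x) ^ 2 ≤ (2 * y₀ ^ 2 * n) * ∑ i ∈ range n, u i x ^ 2 + 2 * w x ^ 2 := by
    intro x
    rw [e1]
    have h1 := sq_sum_le_card_mul_sum_sq (s := range n) (f := fun i => u i x)
    rw [card_range] at h1
    have h2 : (y₀ * ∑ i ∈ range n, u i x + w x) ^ 2 ≤ 2 * (y₀ * ∑ i ∈ range n, u i x) ^ 2 + 2 * w x ^ 2 := by
      nlinarith [sq_nonneg (y₀ * ∑ i ∈ range n, u i x - w x)]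
    refine h2.trans ?_
    have h3 : 2 * (y₀ * ∑ i ∈ range n, u i x) ^ 2 ≤ (2 * y₀ ^ 2) * (n * ∑ i ∈ range n, u i x ^ 2) := by
      rw [mul_pow, ← mul_assoc]
      exact mul_le_mul_of_nonneg_left h1 (by positivity)
    linarith
  have hS := smo_bm hτ hψ hy0.le
  have h8 := integral_mono (((hS.smul y).sq).int μ)
    ((((BM.sum _ fun i _ => (hum i).sq).smul _).add (hwm.sq.smul 2)).int μ) e7
  have h9 : ∀ i, ∫ x, u i x ^ 2 ∂μ = ∫ x, smo τ ψ y₀ x ^ 2 ∂μ := fun i =>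
    mp_int (hτ.mp _) (f := fun x => smo τ ψ y₀ x ^ 2) (smo_bm hτ hψ h0.le).sq.1
  have h10 : ∫ x, w x ^ 2 ∂μ ≤ y₀ ^ 2 * ∫ x, ψ x ^ 2 ∂μ := by
    have hβ : 0 ≤ ∫ x, ψ x ^ 2 ∂μ := integral_nonneg fun _ => sq_nonneg _
    have e8 : ∀ x, w x ^ 2 = r ^ 2 * smo τ ψ r (τ (n * y₀) x) ^ 2 := fun x => by simp only [hw]; ring
    simp only [e8]
    rw [integral_const_mul, mp_int (hτ.mp _) (f := fun x => smo τ ψ r x ^ 2) (smo_bm hτ hψ hr0).sq.1]
    rcases hr0.eq_or_lt with h | h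
    · rw [← h]
      have : 0 ≤ y₀ ^ 2 * ∫ x, ψ x ^ 2 ∂μ := by positivity
      simpa using this
    · have h11 := smo_sq_le hτ hψ h
      have h12 : 0 ≤ ∫ x, smo τ ψ r x ^ 2 ∂μ := integral_nonneg fun _ => sq_nonneg _
      exact mul_le_mul (pow_le_pow_left₀ hr0 hr1 2) h11 h12 (by positivity)
  rw [integral_add (((BM.sum _ fun i _ => (hum i).sq).smul _).int μ) ((hwm.sq.smul 2).int μ), integral_const_mul,
    integral_const_mul, integral_finsetSum _ fun i _ => (hum i).sq.int μ] at h8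
  simp only [h9, sum_const, card_range, nsmul_eq_mul, mul_pow] at h8
  rw [integral_const_mul] at h8
  set V := ∫ x, smo τ ψ y₀ x ^ 2 ∂μ with hV
  set β := ∫ x, ψ x ^ 2 ∂μ with hβd
  have hV0 : 0 ≤ V := integral_nonneg fun _ => sq_nonneg _
  have hβ : 0 ≤ β := integral_nonneg fun _ => sq_nonneg _
  have hny : (n * y₀) ^ 2 ≤ y ^ 2 := pow_le_pow_left₀ (by positivity) hn1 2
  have h13 : y ^ 2 * ∫ x, smo τ ψ y x ^ 2 ∂μ ≤ 2 * y ^ 2 * V + 2 * y₀ ^ 2 * β := by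
    have : 2 * y₀ ^ 2 * n * (n * V) = 2 * (n * y₀) ^ 2 * V := by ring
    nlinarith [mul_le_mul_of_nonneg_right hny hV0]
  have hy2 : 0 < y ^ 2 := by positivity
  have h14 : ∫ x, smo τ ψ y x ^ 2 ∂μ ≤ (2 * y ^ 2 * V + 2 * y₀ ^ 2 * β) / y ^ 2 := by
    rw [le_div_iff₀ hy2]
    linarith
  refine h14.trans (le_of_eq ?_)
  field_simp

/-- averages of the dyadic differences over long intervals -/
theorem smo_Dk (hτ : IsFlow μ τ) (hφ : BM φ) (k t : ℕ) {y : ℝ} (hy : (2 : ℝ) ^ (k + 2 * t) ≤ y) :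
    ∫ x, smo τ (Dk τ φ k) y x ^ 2 ∂μ ≤ 4 * ((t : ℝ) + 1) / 4 ^ t * ∑ i ∈ range (t + 1), dl μ τ φ (k + i) := by
  set y₀ : ℝ := (2 : ℝ) ^ (k + t) with hy₀
  have h0 : 0 < y₀ := by positivity
  have hyy : y₀ * 2 ^ t ≤ y := by
    refine le_trans (le_of_eq ?_) hy
    rw [hy₀, ← pow_add]
    congr 1
    ring
  have h2t : (1 : ℝ) ≤ 2 ^ t := one_le_pow₀ (by norm_num)
  have hy1 : y₀ ≤ y := le_trans (by nlinarith) hyy
  have hypos : 0 < y := h0.trans_le hy1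
  have hψ := Dk_bm hτ hφ k
  have h1 := mon hτ hψ h0 hy1
  have hc : (0 : ℝ) < 2 ^ k := by positivity
  have e1 : Dk τ φ k = fun x => (hk τ φ k x - hk τ φ k (τ ((2 : ℝ) ^ k) x)) / 2 := funext (Dk_eq hτ hφ k)
  have e2 : ∀ x, smo τ (Dk τ φ k) y₀ x = ((2 : ℝ) ^ k / (2 * y₀)) *
      smo τ (fun x => hk τ φ k x - hk τ φ k (τ y₀ x)) ((2 : ℝ) ^ k) x := by
    intro x
    rw [e1]
    exact smo_cob hτ (hk_bm hτ hφ k) hc h0 x
  have hdm : BM (fun x => hk τ φ k x - hk τ φ k (τ y₀ x)) :=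
    (hk_bm hτ hφ k).sub ((hk_bm hτ hφ k).comp (hτ.mp _).measurable)
  have h2 : ∫ x, smo τ (Dk τ φ k) y₀ x ^ 2 ∂μ ≤ ((2 : ℝ) ^ k / (2 * y₀)) ^ 2 *
      (4 * ((t : ℝ) + 1) * ∑ i ∈ range (t + 1), dl μ τ φ (k + i)) := by
    simp only [e2, mul_pow]
    rw [integral_const_mul]
    refine mul_le_mul_of_nonneg_left ?_ (by positivity)
    exact (smo_sq_le hτ hdm hc).trans (shift_sq hτ hφ k t)
  set S := ∑ i ∈ range (t + 1), dl μ τ φ (k + i) with hS
  have hS0 : 0 ≤ S := sum_nonneg fun i _ => dl_nonneg _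
  have hdS : dl μ τ φ k ≤ S := by
    have := single_le_sum (f := fun i => dl μ τ φ (k + i)) (s := range (t + 1)) (fun i _ => dl_nonneg _)
      (mem_range.2 (Nat.succ_pos t))
    simpa using this
  have e3 : ((2 : ℝ) ^ k / (2 * y₀)) ^ 2 = 1 / (4 * 4 ^ t) := by
    rw [hy₀, pow_add, show (4 : ℝ) ^ t = (2 ^ t) ^ 2 by rw [← pow_mul, mul_comm, pow_mul]; norm_num]
    field_simp
    norm_num
  rw [e3] at h2
  have h3 : (y₀ / y) ^ 2 ≤ 1 / 4 ^ t := by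
    have h4 : y₀ / y ≤ 1 / 2 ^ t := by
      rw [div_le_div_iff₀ hypos (by positivity)]
      linarith
    have h5 := pow_le_pow_left₀ (by positivity) h4 2
    refine h5.trans (le_of_eq ?_)
    rw [div_pow, one_pow, ← pow_mul, mul_comm t 2, pow_mul]
    norm_num
  have h6 : 2 * (y₀ / y) ^ 2 * ∫ x, Dk τ φ k x ^ 2 ∂μ ≤ 2 * (1 / 4 ^ t) * S := by
    refine mul_le_mul (by linarith) hdS (dl_nonneg k) (by positivity)
  have h4t : (0 : ℝ) < 4 ^ t := by positivity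
  have h7 : 2 * (1 / (4 * 4 ^ t) * (4 * ((t : ℝ) + 1) * S)) + 2 * (1 / 4 ^ t) * S ≤
      4 * ((t : ℝ) + 1) / 4 ^ t * S := by
    have e4 : 4 * ((t : ℝ) + 1) / 4 ^ t * S - (2 * (1 / (4 * 4 ^ t) * (4 * ((t : ℝ) + 1) * S)) +
        2 * (1 / 4 ^ t) * S) = 2 * t * S / 4 ^ t := by
      field_simp
      ring
    have : 0 ≤ 2 * t * S / 4 ^ t := by positivity
    linarith
  linarith

theorem smo_small (hτ : IsFlow μ τ) (hφm : Measurable φ) {C : ℝ} (hC : ∀ x, |φ x| ≤ C) {y : ℝ} (hy : 0 < y) :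
    ∫ x, smo τ (fun x => φ x - hk τ φ 0 x) y x ^ 2 ∂μ ≤ (2 * C / y) ^ 2 := by
  have hφ : BM φ := ⟨hφm, C, hC⟩
  have h1 : ∀ x, |smo τ (fun x => φ x - hk τ φ 0 x) y x| ≤ 2 * C / y := by
    intro x
    have h2 := prim_bd hτ hφm hC (S := 1) one_pos x hy.le
    unfold smo at h2 ⊢
    unfold hk
    rw [abs_mul, abs_of_pos (by positivity : (0 : ℝ) < 1 / y)]
    have h3 : |∫ r in (0 : ℝ)..y, (φ (τ r x) - smo τ φ (2 ^ 0) (τ r x))| ≤ 2 * C * 1 := by
      unfold smo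
      rw [pow_zero]
      exact h2
    calc 1 / y * |∫ r in (0 : ℝ)..y, (φ (τ r x) - smo τ φ (2 ^ 0) (τ r x))| ≤ 1 / y * (2 * C * 1) :=
          mul_le_mul_of_nonneg_left h3 (by positivity)
      _ = 2 * C / y := by ring
  have h4 : ∀ x, smo τ (fun x => φ x - hk τ φ 0 x) y x ^ 2 ≤ (2 * C / y) ^ 2 := fun x =>
    sq_le_sq' (by have := (abs_le.1 (h1 x)).1; linarith) (abs_le.1 (h1 x)).2
  have hm := smo_bm hτ (hφ.sub (hk_bm hτ hφ 0)) hy.le
  refine (integral_mono (hm.sq.int μ) ((BM.const _).int μ) h4).trans (le_of_eq ?_)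
  simp

end avg

end Pool.Agent.W5h67.NF
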