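import Mathlib
import Pool.Agent.Y957.MC.Spec
import Pool.Agent.Y48.MC.Flwb

/-!
Words in noncommuting flows at generic times: correlations along one flow at a random time.
-/

set_option autoImplicit false

namespace Pool.Agent.W5h67.NF

open MeasureTheory Filter Finset
open Pool.Agent.Y957.MC (IsFlow flowInv smo)
open Pool.Agent.Y48.MC (orb_meas orb_int orb_bd orb_shift smo_meas smo_bd)

universe u

/-- bounded measurable functions -/
def BM {α : Type*} [MeasurableSpace α] (f : α → ℝ) : Prop := Measurable f ∧ ∃ C : ℝ, ∀ x, |f x| ≤ C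

section BM

variable {α β : Type*} [MeasurableSpace α] [MeasurableSpace β] {f g : α → ℝ}

theorem BM.int (hf : BM f) (P : Measure α) [IsFiniteMeasure P] : Integrable f P := by
  obtain ⟨h1, C, hC⟩ := hf
  exact Integrable.of_bound h1.aestronglyMeasurable C (Eventually.of_forall fun v => by simpa using hC v)

theorem BM.add (hf : BM f) (hg : BM g) : BM (fun x => f x + g x) := by
  obtain ⟨h1, C, hC⟩ := hf
  obtain ⟨h2, D, hD⟩ := hg
  exact ⟨h1.add h2, C + D, fun x => (abs_add_le _ _).trans (add_le_add (hC x) (hD x))⟩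

theorem BM.sub (hf : BM f) (hg : BM g) : BM (fun x => f x - g x) := by
  obtain ⟨h1, C, hC⟩ := hf
  obtain ⟨h2, D, hD⟩ := hg
  exact ⟨h1.sub h2, C + D, fun x => (abs_sub _ _).trans (add_le_add (hC x) (hD x))⟩

theorem BM.mul (hf : BM f) (hg : BM g) : BM (fun x => f x * g x) := by
  obtain ⟨h1, C, hC⟩ := hf
  obtain ⟨h2, D, hD⟩ := hg
  refine ⟨h1.mul h2, C * D, fun x => ?_⟩
  rw [abs_mul]
  exact mul_le_mul (hC x) (hD x) (abs_nonneg _) ((abs_nonneg _).trans (hC x))

theorem BM.const (c : ℝ) : BM (fun _ : α => c) := ⟨measurable_const, |c|, fun _ => le_rfl⟩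

theorem BM.smul (c : ℝ) (hf : BM f) : BM (fun x => c * f x) := (BM.const c).mul hf

theorem BM.sq (hf : BM f) : BM (fun x => f x ^ 2) := by
  have := hf.mul hf
  simpa only [pow_two] using this

theorem BM.abs (hf : BM f) : BM (fun x => |f x|) := by
  obtain ⟨h1, C, hC⟩ := hf
  exact ⟨measurable_norm.comp h1, C, fun x => by rw [abs_abs]; exact hC x⟩

theorem BM.comp (hf : BM f) {φ : β → α} (hφ : Measurable φ) : BM (fun y => f (φ y)) := by
  obtain ⟨h1, C, hC⟩ := hf
  exact ⟨h1.comp hφ, C, fun x => hC _⟩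

theorem BM.sum {ι : Type*} (s : Finset ι) {F : ι → α → ℝ} (hF : ∀ i ∈ s, BM (F i)) :
    BM (fun x => ∑ i ∈ s, F i x) := by
  classical
  induction s using Finset.induction_on with
  | empty => simpa using BM.const (α := α) 0
  | insert i s hi ih =>
    simp only [sum_insert hi]
    exact (hF i (mem_insert_self _ _)).add (ih fun j hj => hF j (mem_insert_of_mem hj))

theorem BM.integral {f : α → β → ℝ} (hf : BM (fun p : α × β => f p.1 p.2)) (ν : Measure β)
    [IsFiniteMeasure ν] : BM (fun a => ∫ b, f a b ∂ν) := by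
  obtain ⟨h1, C, hC⟩ := hf
  refine ⟨?_, C * ν.real Set.univ, fun a => ?_⟩
  · exact (h1.stronglyMeasurable.integral_prod_right' (ν := ν)).measurable
  · have := norm_integral_le_of_norm_le_const (μ := ν) (f := fun b => f a b) (C := C)
      (Eventually.of_forall fun b => by simpa using hC (a, b))
    simpa using this

theorem BM.left {f : α → β → ℝ} (hf : BM (fun p : α × β => f p.1 p.2)) (b : β) : BM (fun a => f a b) := by
  obtain ⟨h1, C, hC⟩ := hf
  exact ⟨h1.comp (measurable_id.prodMk measurable_const), C, fun a => hC (a, b)⟩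

theorem BM.right {f : α → β → ℝ} (hf : BM (fun p : α × β => f p.1 p.2)) (a : α) : BM (f a) := by
  obtain ⟨h1, C, hC⟩ := hf
  exact ⟨h1.comp (measurable_const.prodMk measurable_id), C, fun b => hC (a, b)⟩

end BM

theorem mp_int {X : Type u} [MeasurableSpace X] {μ : Measure X} {T : X → X} (hT : MeasurePreserving T μ μ)
    {f : X → ℝ} (hf : Measurable f) : ∫ x, f (T x) ∂μ = ∫ x, f x ∂μ := by
  have h := integral_map (μ := μ) hT.measurable.aemeasurable (f := f) hf.aestronglyMeasurable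
  rw [hT.map_eq] at h
  exact h.symm

/-- the uniform distribution on `(0, 1]` -/
noncomputable def un : Measure ℝ := volume.restrict (Set.Ioc (0 : ℝ) 1)

instance : IsProbabilityMeasure un := ⟨by simp [un]⟩

theorem meas_lam (B : ℝ) : Measurable (fun q : ℝ × ℝ => B * (q.1 - q.2)) :=
  measurable_const.mul (measurable_fst.sub measurable_snd)

/-- the distribution of `B (u - v)`, `u`, `v` independent and uniform in `(0, 1]` -/
noncomputable def lam (B : ℝ) : Measure ℝ := (un.prod un).map (fun q => B * (q.1 - q.2))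

instance (B : ℝ) : IsProbabilityMeasure (lam B) := Measure.isProbabilityMeasure_map (meas_lam B).aemeasurable

theorem int_lam {B : ℝ} {f : ℝ → ℝ} (hf : BM f) :
    ∫ a, f a ∂lam B = ∫ v, ∫ u, f (B * (u - v)) ∂un ∂un := by
  unfold lam
  rw [integral_map (meas_lam B).aemeasurable hf.1.aestronglyMeasurable]
  rw [integral_prod_symm _ ((hf.comp (meas_lam B)).int _)]

section corr

variable {X : Type u} [MeasurableSpace X] {μ : Measure X} [IsProbabilityMeasure μ] {τ : ℝ → X → X}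
  {F G : X → ℝ} {b B : ℝ}

/-- correlations -/
noncomputable def rho (μ : Measure X) (τ : ℝ → X → X) (F G : X → ℝ) (t : ℝ) : ℝ := ∫ x, F (τ t x) * G x ∂μ

omit [IsProbabilityMeasure μ] in
theorem flow_meas (hτ : IsFlow μ τ) (s : ℝ) : Measurable (fun p : ℝ × X => τ (p.1 * s) p.2) :=
  hτ.meas.comp ((measurable_fst.mul_const s).prodMk measurable_snd)

theorem rho_bm (hτ : IsFlow μ τ) (hF : BM F) (hG : BM G) : BM (rho μ τ F G) := by
  refine BM.integral (f := fun (t : ℝ) (x : X) => F (τ t x) * G x) ?_ μ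
  exact (hF.comp hτ.meas).mul (hG.comp measurable_snd)

theorem rho_le (hτ : IsFlow μ τ) (hF : BM F) (hG : BM G) (hFb : ∫ x, F x ^ 2 ∂μ ≤ b)
    (hGb : ∫ x, G x ^ 2 ∂μ ≤ b) (t : ℝ) : |rho μ τ F G t| ≤ b := by
  have hFt : BM (fun x => F (τ t x)) := hF.comp (hτ.mp t).measurable
  unfold rho
  refine (abs_integral_le_integral_abs).trans ?_
  have h1 : ∀ x, |F (τ t x) * G x| ≤ (1 / 2) * (F (τ t x) ^ 2) + (1 / 2) * (G x ^ 2) := by
    intro x
    rw [abs_le]
    constructor <;> nlinarith [sq_nonneg (F (τ t x) + G x), sq_nonneg (F (τ t x) - G x)]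
  have h2 : ∫ x, |F (τ t x) * G x| ∂μ ≤ ∫ x, ((1 / 2) * (F (τ t x) ^ 2) + (1 / 2) * (G x ^ 2)) ∂μ :=
    integral_mono ((hFt.mul hG).abs.int μ) (((hFt.sq.smul _).add (hG.sq.smul _)).int μ) h1
  rw [integral_add ((hFt.sq.smul _).int μ) ((hG.sq.smul _).int μ), integral_const_mul, integral_const_mul] at h2
  have h3 : ∫ x, F (τ t x) ^ 2 ∂μ = ∫ x, F x ^ 2 ∂μ := mp_int (hτ.mp t) (f := fun x => F x ^ 2) hF.sq.1
  rw [h3] at h2
  linarith

/-- regularity of averages over intervals -/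
theorem kap {r : ℝ → ℝ} (hr : Measurable r) (hb : ∀ t, |r t| ≤ b) {v L L' : ℝ} (hv0 : 0 ≤ v) (hv1 : v ≤ 1)
    (hL : 0 < L) (hLL : L ≤ L') :
    |(∫ u in (0 : ℝ)..1, r (L * (u - v))) - ∫ u in (0 : ℝ)..1, r (L' * (u - v))| ≤ 2 * b * (L' - L) / L' := by
  have hb0 : 0 ≤ b := (abs_nonneg _).trans (hb 0)
  have hL' : 0 < L' := hL.trans_le hLL
  have hI : ∀ a c, IntervalIntegrable r volume a c := fun a c => by
    refine (intervalIntegrable_const (c := b)).mono_fun' hr.aestronglyMeasurable ?_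
    filter_upwards with t
    simpa using hb t
  have hB : ∀ a c, |∫ x in a..c, r x| ≤ b * |c - a| := fun a c => by
    have := intervalIntegral.norm_integral_le_of_norm_le_const (f := r) (C := b) (a := a) (b := c)
      (fun x _ => by simpa using hb x)
    simpa using this
  have e : ∀ M : ℝ, 0 < M → ∫ u in (0 : ℝ)..1, r (M * (u - v)) =
      M⁻¹ * ∫ t in (-(M * v))..(M - M * v), r t := by
    intro M hM
    have e1 : ∀ u : ℝ, r (M * (u - v)) = r (M * u - M * v) := fun u => by rw [mul_sub]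
    simp only [e1]
    rw [intervalIntegral.integral_comp_mul_sub (fun t => r t) hM.ne', smul_eq_mul]
    simp
  rw [e L hL, e L' hL']
  have s1 := intervalIntegral.integral_interval_sub_interval_comm (hI (-(L * v)) (L - L * v))
    (hI (-(L' * v)) (L' - L' * v)) (hI (-(L * v)) (-(L' * v)))
  have b1 := hB (-(L * v)) (-(L' * v))
  have b2 := hB (L - L * v) (L' - L' * v)
  have b3 := hB (-(L * v)) (L - L * v)
  rw [show -(L' * v) - -(L * v) = -((L' - L) * v) by ring, abs_neg,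
    abs_of_nonneg (mul_nonneg (sub_nonneg.2 hLL) hv0)] at b1
  rw [show L' - L' * v - (L - L * v) = (L' - L) * (1 - v) by ring,
    abs_of_nonneg (mul_nonneg (sub_nonneg.2 hLL) (sub_nonneg.2 hv1))] at b2
  rw [show L - L * v - -(L * v) = L by ring, abs_of_pos hL] at b3
  generalize (∫ t in (-(L * v))..(L - L * v), r t) = P at *
  generalize (∫ t in (-(L' * v))..(L' - L' * v), r t) = P' at *
  generalize (∫ x in (-(L * v))..(-(L' * v)), r x) = Q1 at *
  generalize (∫ x in (L - L * v)..(L' - L' * v), r x) = Q2 at *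
  have hPP : |P - P'| ≤ b * (L' - L) := by
    rw [s1]
    refine (abs_sub _ _).trans ?_
    calc |Q1| + |Q2| ≤ b * ((L' - L) * v) + b * ((L' - L) * (1 - v)) := add_le_add b1 b2
      _ = b * (L' - L) := by ring
  have e3 : L⁻¹ * P - L'⁻¹ * P' = ((L' - L) * P + L * (P - P')) / (L * L') := by
    field_simp
    ring
  have hLL2 : 0 < L * L' := mul_pos hL hL'
  rw [e3, abs_div, abs_of_pos hLL2, div_le_div_iff₀ hLL2 hL']
  have c1 : |(L' - L) * P + L * (P - P')| ≤ (L' - L) * (b * L) + L * (b * (L' - L)) := by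
    refine (abs_add_le _ _).trans (add_le_add ?_ ?_)
    · rw [abs_mul, abs_of_nonneg (sub_nonneg.2 hLL)]
      exact mul_le_mul_of_nonneg_left b3 (sub_nonneg.2 hLL)
    · rw [abs_mul, abs_of_pos hL]
      exact mul_le_mul_of_nonneg_left hPP hL.le
  calc |(L' - L) * P + L * (P - P')| * L' ≤ ((L' - L) * (b * L) + L * (b * (L' - L))) * L' :=
        mul_le_mul_of_nonneg_right c1 hL'.le
    _ = 2 * b * (L' - L) * (L * L') := by ring

/-- the averaged correlations -/
noncomputable def Phi (B : ℝ) (μ : Measure X) (τ : ℝ → X → X) (F G : X → ℝ) (h : ℝ) : ℝ :=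
  ∫ a, rho μ τ F G (a * h) ∂lam B

theorem Phi_eq (hτ : IsFlow μ τ) (hF : BM F) (hG : BM G) (h : ℝ) :
    Phi B μ τ F G h = ∫ v, ∫ u, rho μ τ F G (B * h * (u - v)) ∂un ∂un := by
  unfold Phi
  rw [int_lam ((rho_bm hτ hF hG).comp (φ := fun a : ℝ => a * h) (measurable_id.mul_const h))]
  congr 1
  funext v
  congr 1
  funext u
  congr 1
  ring

theorem Phi_le (hτ : IsFlow μ τ) (hF : BM F) (hG : BM G) (hFb : ∫ x, F x ^ 2 ∂μ ≤ b)
    (hGb : ∫ x, G x ^ 2 ∂μ ≤ b) (h : ℝ) : |Phi B μ τ F G h| ≤ b := by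
  have := norm_integral_le_of_norm_le_const (μ := lam B) (f := fun a => rho μ τ F G (a * h)) (C := b)
    (Eventually.of_forall fun a => by simpa using rho_le hτ hF hG hFb hGb (a * h))
  simpa [Phi] using this

theorem Phi_neg (hτ : IsFlow μ τ) (hF : BM F) (hG : BM G) (h : ℝ) :
    Phi B μ τ F G (-h) = Phi B μ τ F G h := by
  rw [Phi_eq hτ hF hG, Phi_eq hτ hF hG]
  have hm : BM (fun q : ℝ × ℝ => rho μ τ F G (B * h * (q.1 - q.2))) :=
    (rho_bm hτ hF hG).comp (measurable_const.mul (measurable_fst.sub measurable_snd))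
  rw [integral_integral_swap]
  · congr 1
    funext v
    congr 1
    funext u
    congr 1
    ring
  · exact ((rho_bm hτ hF hG).comp (φ := fun q : ℝ × ℝ => B * (-h) * (q.2 - q.1))
      (measurable_const.mul (measurable_snd.sub measurable_fst))).int _

theorem Phi_abs (hτ : IsFlow μ τ) (hF : BM F) (hG : BM G) (h : ℝ) :
    Phi B μ τ F G |h| = Phi B μ τ F G h := by
  rcases le_total 0 h with h0 | h0
  · rw [abs_of_nonneg h0]
  · rw [abs_of_nonpos h0, Phi_neg hτ hF hG]

theorem un_interval {f : ℝ → ℝ} : ∫ u, f u ∂un = ∫ u in (0 : ℝ)..1, f u := by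
  rw [intervalIntegral.integral_of_le zero_le_one]
  rfl

theorem Phi_kap (hB : 0 < B) (hτ : IsFlow μ τ) (hF : BM F) (hG : BM G) (hFb : ∫ x, F x ^ 2 ∂μ ≤ b)
    (hGb : ∫ x, G x ^ 2 ∂μ ≤ b) {h h' : ℝ} (hh : 0 < h) (hh' : h ≤ h') :
    |Phi B μ τ F G h - Phi B μ τ F G h'| ≤ 2 * b * (h' - h) / h' := by
  have h0' : 0 < h' := hh.trans_le hh'
  have hr := rho_bm hτ hF hG
  rw [Phi_eq hτ hF hG, Phi_eq hτ hF hG]
  have hm : ∀ k : ℝ, BM (fun v => ∫ u, rho μ τ F G (B * k * (u - v)) ∂un) := fun k => by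
    refine BM.integral (f := fun v u => rho μ τ F G (B * k * (u - v))) ?_ un
    exact hr.comp (measurable_const.mul (measurable_snd.sub measurable_fst))
  rw [← integral_sub ((hm h).int un) ((hm h').int un)]
  have key : ∀ v ∈ Set.Ioc (0 : ℝ) 1, |(∫ u, rho μ τ F G (B * h * (u - v)) ∂un) -
      ∫ u, rho μ τ F G (B * h' * (u - v)) ∂un| ≤ 2 * b * (h' - h) / h' := by
    intro v hv
    rw [un_interval, un_interval]
    refine (kap hr.1 (rho_le hτ hF hG hFb hGb) hv.1.le hv.2 (mul_pos hB hh)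
      (mul_le_mul_of_nonneg_left hh' hB.le)).trans (le_of_eq ?_)
    field_simp
  have := norm_integral_le_of_norm_le_const (μ := un)
    (f := fun v => (∫ u, rho μ τ F G (B * h * (u - v)) ∂un) - ∫ u, rho μ τ F G (B * h' * (u - v)) ∂un)
    (C := 2 * b * (h' - h) / h') (by
      unfold un
      rw [ae_restrict_iff' measurableSet_Ioc]
      exact Eventually.of_forall fun v hv => by simpa [un] using key v hv)
  simpa using this

/-- comparison of averaged correlations at two times, of any sign -/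
theorem Phi_cmp (hB : 0 < B) (hτ : IsFlow μ τ) (hF : BM F) (hG : BM G) (hFb : ∫ x, F x ^ 2 ∂μ ≤ b)
    (hGb : ∫ x, G x ^ 2 ∂μ ≤ b) {h h' v w : ℝ} (hw : 0 < w) (h1 : w ≤ |h|) (h2 : w ≤ |h'|) (h3 : |h - h'| ≤ v) :
    |Phi B μ τ F G h - Phi B μ τ F G h'| ≤ 2 * b * v / w := by
  have hb0 : 0 ≤ b := (abs_nonneg _).trans (Phi_le (B := B) hτ hF hG hFb hGb 0)
  rw [← Phi_abs hτ hF hG h, ← Phi_abs hτ hF hG h']
  have h4 : |(|h| - |h'|)| ≤ v := (abs_abs_sub_abs_le_abs_sub _ _).trans h3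
  have h5 : 0 ≤ v := (abs_nonneg _).trans h3
  rcases le_total |h| |h'| with h6 | h6
  · refine (Phi_kap hB hτ hF hG hFb hGb (hw.trans_le h1) h6).trans ?_
    rw [abs_sub_comm, abs_of_nonneg (sub_nonneg.2 h6)] at h4
    exact div_le_div₀ (by positivity) (by gcongr) hw h2
  · rw [abs_sub_comm]
    refine (Phi_kap hB hτ hF hG hFb hGb (hw.trans_le h2) h6).trans ?_
    rw [abs_of_nonneg (sub_nonneg.2 h6)] at h4
    exact div_le_div₀ (by positivity) (by gcongr) hw h1

omit [MeasurableSpace X] in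
theorem smo_un {L : ℝ} (hL : 0 < L) (f : X → ℝ) (x : X) : ∫ u, f (τ (L * u) x) ∂un = smo τ f L x := by
  rw [un_interval, intervalIntegral.integral_comp_mul_left (fun t => f (τ t x)) hL.ne']
  simp [smo]

/-- the averaged autocorrelations are the mean squares of the averages along the flow -/
theorem Phi_self (hB : 0 < B) (hτ : IsFlow μ τ) (hF : BM F) {h : ℝ} (hh : 0 < h) :
    Phi B μ τ F F h = ∫ x, smo τ F (B * h) x ^ 2 ∂μ := by
  have hL : 0 < B * h := mul_pos hB hh
  rw [Phi_eq hτ hF hF]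
  set L := B * h with hLd
  have e1 : ∀ u v : ℝ, rho μ τ F F (L * (u - v)) = ∫ x, F (τ (L * u) x) * F (τ (L * v) x) ∂μ := by
    intro u v
    unfold rho
    have hm : Measurable (fun x => F (τ (L * (u - v)) x) * F x) :=
      (hF.1.comp (hτ.mp _).measurable).mul hF.1
    rw [← mp_int (hτ.mp (L * v)) hm]
    congr 1
    funext x
    rw [← hτ.add]
    congr 3
    ring
  simp only [e1]
  have hm3 : BM (fun q : (ℝ × ℝ) × X => F (τ (L * q.1.2) q.2) * F (τ (L * q.1.1) q.2)) := by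
    refine BM.mul ?_ ?_
    · exact hF.comp (hτ.meas.comp (((measurable_snd.comp measurable_fst).const_mul L).prodMk measurable_snd))
    · exact hF.comp (hτ.meas.comp (((measurable_fst.comp measurable_fst).const_mul L).prodMk measurable_snd))
  have hm2 : BM (fun q : ℝ × ℝ => ∫ x, F (τ (L * q.2) x) * F (τ (L * q.1) x) ∂μ) :=
    BM.integral (f := fun (q : ℝ × ℝ) (x : X) => F (τ (L * q.2) x) * F (τ (L * q.1) x)) hm3 μ
  have e2 : ∫ v, ∫ u, ∫ x, F (τ (L * u) x) * F (τ (L * v) x) ∂μ ∂un ∂un =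
      ∫ q : ℝ × ℝ, ∫ x, F (τ (L * q.2) x) * F (τ (L * q.1) x) ∂μ ∂(un.prod un) := by
    rw [integral_prod _ (hm2.int _)]
  rw [e2]
  rw [integral_integral_swap (hm3.int _)]
  congr 1
  funext x
  have e3 : ∫ q : ℝ × ℝ, F (τ (L * q.2) x) * F (τ (L * q.1) x) ∂(un.prod un) =
      (∫ u, F (τ (L * u) x) ∂un) * ∫ u, F (τ (L * u) x) ∂un := by
    rw [← integral_prod_mul]
    congr 1
    funext q
    ring
  rw [e3, smo_un hL, pow_two]

omit [IsProbabilityMeasure μ] in
/-- correlations at two times -/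
theorem corr2 (hτ : IsFlow μ τ) (hF : BM F) (hG : BM G) (s t : ℝ) :
    ∫ a, ∫ x, F (τ (a * s) x) * G (τ (a * t) x) ∂μ ∂lam B = Phi B μ τ F G (s - t) := by
  unfold Phi
  congr 1
  funext a
  unfold rho
  have hm : Measurable (fun x => F (τ (a * (s - t)) x) * G x) :=
    (hF.1.comp (hτ.mp _).measurable).mul hG.1
  rw [← mp_int (hτ.mp (a * t)) hm]
  congr 1
  funext x
  rw [← hτ.add]
  congr 3
  ring

theorem expand {ι : Type*} (K : Finset ι) (hτ : IsFlow μ τ) {F : ι → X → ℝ} (hF : ∀ k, BM (F k)) (t : ι → ℝ) :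
    ∫ a, ∫ x, (∑ k ∈ K, F k (τ (a * t k) x)) ^ 2 ∂μ ∂lam B =
      ∑ k ∈ K, ∑ l ∈ K, Phi B μ τ (F k) (F l) (t k - t l) := by
  have hm : ∀ k l, BM (fun q : ℝ × X => F k (τ (q.1 * t k) q.2) * F l (τ (q.1 * t l) q.2)) := fun k l =>
    ((hF k).comp (flow_meas hτ (t k))).mul ((hF l).comp (flow_meas hτ (t l)))
  have hmr : ∀ a k l, BM (fun x : X => F k (τ (a * t k) x) * F l (τ (a * t l) x)) := fun a k l =>
    ((hF k).comp (hτ.mp _).measurable).mul ((hF l).comp (hτ.mp _).measurable)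
  have e1 : ∀ a : ℝ, ∫ x, (∑ k ∈ K, F k (τ (a * t k) x)) ^ 2 ∂μ =
      ∑ k ∈ K, ∑ l ∈ K, ∫ x, F k (τ (a * t k) x) * F l (τ (a * t l) x) ∂μ := by
    intro a
    have e2 : ∀ x, (∑ k ∈ K, F k (τ (a * t k) x)) ^ 2 =
        ∑ k ∈ K, ∑ l ∈ K, F k (τ (a * t k) x) * F l (τ (a * t l) x) := fun x => by
      rw [pow_two, sum_mul_sum]
    simp only [e2]
    rw [integral_finsetSum _ fun k _ => (BM.sum K fun l _ => hmr a k l).int μ]
    exact sum_congr rfl fun k _ => integral_finsetSum _ fun l _ => (hmr a k l).int μ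
  simp only [e1]
  have hm2 : ∀ k l, BM (fun a : ℝ => ∫ x, F k (τ (a * t k) x) * F l (τ (a * t l) x) ∂μ) := fun k l =>
    BM.integral (f := fun a x => F k (τ (a * t k) x) * F l (τ (a * t l) x)) (hm k l) μ
  rw [integral_finsetSum _ fun k _ => (BM.sum K fun l _ => hm2 k l).int _]
  refine sum_congr rfl fun k _ => ?_
  rw [integral_finsetSum _ fun l _ => (hm2 k l).int _]
  exact sum_congr rfl fun l _ => corr2 hτ (hF k) (hF l) _ _

end corr

end Pool.Agent.W5h67.NF
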