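import Pool.Agent.W5h67.NF.Ident

/-!
Words in noncommuting flows at generic times: generic elements of groups.
-/

set_option autoImplicit false

namespace Pool.Agent.W5h67.NF

open MeasureTheory Filter Finset
open Pool.Agent.Y957.MC (IsFlow flowInv)

universe u v

/-- compositions, the first map is applied last -/
def cmp {X : Type u} : (d : ℕ) → (Fin d → X → X) → X → X
  | 0, _, x => x
  | d + 1, S, x => S 0 (cmp d (fun i => S i.succ) x)

theorem wd_cmp {X : Type u} (d : ℕ) (τ : Fin d → ℝ → X → X) (t : Fin d → ℝ) (x : X) :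
    wd d τ t x = cmp d (fun i => τ i (t i)) x := by
  induction d with
  | zero => rfl
  | succ d ih =>
    show τ 0 (t 0) _ = τ 0 (t 0) _
    rw [ih (fun i => τ i.succ) (fun i => t i.succ)]

theorem cmp_meas {X : Type u} [MeasurableSpace X] {Ω : Type*} [MeasurableSpace Ω] (d : ℕ) (S : Fin d → Ω → X → X)
    (hS : ∀ i, Measurable fun q : Ω × X => S i q.1 q.2) : Measurable fun q : Ω × X => cmp d (fun i => S i q.1) q.2 := by
  induction d with
  | zero => exact measurable_snd
  | succ d ih => exact (hS 0).comp (measurable_fst.prodMk (ih (fun i => S i.succ) fun i => hS i.succ))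

theorem cmp_smul {X : Type u} {G : Type v} [Group G] [MulAction G X] (d : ℕ) (h : Fin d → G) (x : X) :
    (List.ofFn h).prod • x = cmp d (fun i y => h i • y) x := by
  induction d with
  | zero => simp [cmp]
  | succ d ih =>
    rw [List.ofFn_succ, List.prod_cons, mul_smul, ih]
    rfl

theorem countable_int : Countable (Polynomial ℤ) := by
  let φ : Polynomial ℤ → (Σ s : Finset ℕ, (s → ℤ)) := fun p => ⟨p.support, fun i => p.coeff i⟩
  refine Function.Injective.countable (f := φ) fun p q h => ?_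
  have h1 : p.support = q.support := congrArg Sigma.fst h
  ext n
  by_cases hn : n ∈ p.support
  · have h2 : ∀ (s t : Finset ℕ) (a : s → ℤ) (b : t → ℤ) (hn : n ∈ s) (hn' : n ∈ t),
        (⟨s, a⟩ : Σ s : Finset ℕ, (s → ℤ)) = ⟨t, b⟩ → a ⟨n, hn⟩ = b ⟨n, hn'⟩ := by
      intro s t a b hs ht hst
      obtain ⟨rfl, hab⟩ := Sigma.mk.inj_iff.mp hst
      rw [eq_of_heq hab]
    exact h2 _ _ _ _ hn (h1 ▸ hn) h
  · have hn' : n ∉ q.support := h1 ▸ hn
    rw [Polynomial.notMem_support_iff.mp hn, Polynomial.notMem_support_iff.mp hn']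

/-- from differences to averages -/
theorem avg_of_diff {φ : ℤ → ℂ} {L : ℂ} (h : Tendsto (fun N : ℕ => (1 / (2 * (N : ℂ) + 1)) *
    ∑ n ∈ Icc (-(N : ℤ)) N, (φ n - L)) atTop (nhds 0)) :
    Tendsto (fun N : ℕ => (1 / (2 * (N : ℂ) + 1)) * ∑ n ∈ Icc (-(N : ℤ)) N, φ n) atTop (nhds L) := by
  have h3 := h.add_const L
  rw [zero_add] at h3
  refine h3.congr fun N => ?_
  have hne : (2 * (N : ℂ) + 1) ≠ 0 := by
    have : ((2 * (N : ℝ) + 1 : ℝ) : ℂ) ≠ 0 := by
      exact_mod_cast (by positivity : (2 * (N : ℝ) + 1) ≠ 0)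
    simpa using this
  have hcard : ((Icc (-(N : ℤ)) N).card : ℂ) = 2 * (N : ℂ) + 1 := by
    rw [Int.card_Icc]
    have : ((N : ℤ) + 1 - -(N : ℤ)).toNat = 2 * N + 1 := by omega
    rw [this]
    push_cast
    ring
  rw [sum_sub_distrib, sum_const, nsmul_eq_mul, hcard]
  field_simp
  ring

section grp

variable {X : Type u} [MeasurableSpace X] {μ : Measure X} {G : Type v} [Group G] [MulAction G X] {d k m : ℕ}
  {e : Fin d → (Fin k → ℝ) → G} {f : Fin m → X → ℂ}

omit [MeasurableSpace X] [MulAction G X] in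
theorem exp_zero (he : ∀ i (s t : ℝ) v, e i ((s + t) • v) = e i (s • v) * e i (t • v)) (i : Fin d) : e i 0 = 1 := by
  have h := he i 0 0 0
  simpa using h

omit [MeasurableSpace X] [MulAction G X] in
theorem exp_zpow (he : ∀ i (s t : ℝ) v, e i ((s + t) • v) = e i (s • v) * e i (t • v)) (i : Fin d) (v : Fin k → ℝ) (z : ℤ) :
    e i v ^ z = e i ((z : ℝ) • v) := by
  let φ : Multiplicative ℝ →* G :=
    { toFun := fun t => e i (Multiplicative.toAdd t • v)
      map_one' := by
        show e i ((0 : ℝ) • v) = 1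
        rw [zero_smul]
        exact exp_zero he i
      map_mul' := fun s t => he i (Multiplicative.toAdd s) (Multiplicative.toAdd t) v }
  have h1 : φ (Multiplicative.ofAdd (1 : ℝ)) = e i v := by
    show e i ((1 : ℝ) • v) = e i v
    rw [one_smul]
  rw [← h1, ← map_zpow, ← ofAdd_zsmul]
  show e i ((z • (1 : ℝ)) • v) = e i ((z : ℝ) • v)
  simp

omit [MeasurableSpace X] in
theorem exp_flow [MeasurableSpace X] (he : ∀ i (s t : ℝ) v, e i ((s + t) • v) = e i (s • v) * e i (t • v))
    (hm : ∀ i, Measurable fun p : (Fin k → ℝ) × X => e i p.1 • p.2)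
    {μ : Measure X} (hp : ∀ i v, MeasurePreserving (fun x : X => e i v • x) μ μ) (i : Fin d) (v : Fin k → ℝ) :
    IsFlow μ (fun (t : ℝ) (x : X) => e i (t • v) • x) := by
  refine ⟨?_, fun x => ?_, fun s t x => ?_, fun t => hp i _⟩
  · exact (hm i).comp ((measurable_fst.smul_const v).prodMk measurable_snd)
  · rw [zero_smul, exp_zero he, one_smul]
  · rw [he, mul_smul]

theorem grp [IsProbabilityMeasure μ] (he : ∀ i (s t : ℝ) v, e i ((s + t) • v) = e i (s • v) * e i (t • v))
    (hm : ∀ i, Measurable fun p : (Fin k → ℝ) × X => e i p.1 • p.2)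
    (hp : ∀ i v, MeasurePreserving (fun x : X => e i v • x) μ μ)
    (hf : ∀ j, AEStronglyMeasurable (f j) μ) (hb : ∀ j, ∃ C : ℝ, ∀ᵐ x ∂μ, ‖f j x‖ ≤ C) :
    ∀ᵐ v : Fin d → Fin k → ℝ, ∀ P : Fin d → Fin m → Polynomial ℤ,
      (∀ i j, P i j = 0 ∨ 0 < (P i j).natDegree) →
      (∀ i j j', 0 < (P i j).natDegree → (P i j).natDegree = (P i j').natDegree → ∀ l, i ≤ l → P l j = P l j') →
      ∀ᵐ x ∂μ, ∃ L : ℂ, Tendsto (fun N : ℕ => (1 / (2 * (N : ℂ) + 1)) * ∑ n ∈ Icc (-(N : ℤ)) N,
        ∏ j, f j ((List.ofFn fun i => e i (v i) ^ (P i j).eval n).prod • x)) atTop (nhds L) := by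
  choose g hgm hgb hfg using fun j => exists_version (hf j) (hb j)
  have := countable_int
  rw [ae_all_iff]
  intro P
  by_cases hP : ∀ i j, P i j = 0 ∨ 0 < (P i j).natDegree
  swap
  · exact ae_of_all _ fun v h => absurd h hP
  by_cases hT : ∀ i j j', 0 < (P i j).natDegree → (P i j).natDegree = (P i j').natDegree → ∀ l, i ≤ l → P l j = P l j'
  swap
  · exact ae_of_all _ fun v _ h => absurd h hT
  have hw : ∀ (v : Fin d → Fin k → ℝ) (n : ℤ) (j : Fin m) (x : X),
      (List.ofFn fun i => e i (v i) ^ (P i j).eval n).prod • x =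
        cmp d (fun i y => e i ((((P i j).eval n : ℤ) : ℝ) • v i) • y) x := by
    intro v n j x
    rw [cmp_smul]
    simp only [exp_zpow he]
  simp only [hw]
  have key : ∀ᵐ v : Fin d → Fin k → ℝ, ∀ᵐ x ∂μ, ∃ L : ℂ,
      Tendsto (fun N : ℕ => (1 / (2 * (N : ℂ) + 1)) * ∑ n ∈ Icc (-(N : ℤ)) N,
        ∏ j, g j (cmp d (fun i y => e i ((((P i j).eval n : ℤ) : ℝ) • v i) • y) x)) atTop (nhds L) := by
    refine ae_of_dil ?_ ?_
    · have hmm : ∀ N : ℕ, Measurable fun q : (Fin d → Fin k → ℝ) × X => (1 / (2 * (N : ℂ) + 1)) *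
          ∑ n ∈ Icc (-(N : ℤ)) N, ∏ j, g j (cmp d (fun i y => e i ((((P i j).eval n : ℤ) : ℝ) • q.1 i) • y) q.2) := by
        intro N
        refine measurable_const.mul (Finset.measurable_sum _ fun n _ => Finset.measurable_prod _ fun j _ => ?_)
        refine (hgm j).comp (cmp_meas d (fun i (v : Fin d → Fin k → ℝ) (y : X) =>
          e i ((((P i j).eval n : ℤ) : ℝ) • v i) • y) fun i => ?_)
        refine (hm i).comp (Measurable.prodMk ?_ measurable_snd)
        have hj : Measurable fun q : (Fin d → Fin k → ℝ) × X => q.1 i := (measurable_pi_apply i).comp measurable_fst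
        exact hj.const_smul (((P i j).eval n : ℤ) : ℝ)
      have h1 := measurableSet_exists_tendsto (l := atTop) hmm
      have h2 : Measurable fun v : Fin d → Fin k → ℝ => μ (Prod.mk v ⁻¹' {q : (Fin d → Fin k → ℝ) × X | ∃ L : ℂ,
        Tendsto (fun N : ℕ => (1 / (2 * (N : ℂ) + 1)) * ∑ n ∈ Icc (-(N : ℤ)) N,
          ∏ j, g j (cmp d (fun i y => e i ((((P i j).eval n : ℤ) : ℝ) • q.1 i) • y) q.2)) atTop (nhds L)}ᶜ) :=
        measurable_measure_prodMk_left h1.compl
      exact h2 (measurableSet_singleton 0)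
    · intro v
      have hdeg : ∀ i j, ((P i j).map (Int.castRingHom ℝ)).natDegree = (P i j).natDegree := fun i j =>
        Polynomial.natDegree_map_eq_of_injective (RingHom.injective_int (Int.castRingHom ℝ)) _
      obtain ⟨g', hg'm, hg'b, hgg', h1⟩ := two_ess (μ := μ)
        (τ := fun i (_ : Fin m) (t : ℝ) (x : X) => e i (t • v i) • x)
        (fun i _ => exp_flow he hm hp i (v i)) (P := fun i j => (P i j).map (Int.castRingHom ℝ))
        (fun i j => (hP i j).imp (fun h => by rw [h, Polynomial.map_zero]) (fun h => by rw [hdeg]; exact h))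
        (fun i j j' h3 h4 l hl => by
          rw [hdeg] at h3
          rw [hdeg, hdeg] at h4
          exact ⟨rfl, by rw [hT i j j' h3 h4 l hl]⟩)
        (f := g) (fun j => (hgm j).aestronglyMeasurable) (fun j => by
          obtain ⟨C, hC⟩ := hgb j
          exact ⟨C, ae_of_all _ hC⟩)
      have h2 := h1 (fun _ _ => 1) (fun _ => aestronglyMeasurable_const) ⟨1, fun _ => ae_of_all _ fun _ => by simp⟩
      filter_upwards [h2] with a ha
      filter_upwards [ha] with x hx
      refine ⟨_, (avg_of_diff (by simpa only [one_mul] using hx)).congr fun N => ?_⟩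
      congr 1
      refine sum_congr rfl fun n _ => prod_congr rfl fun j _ => ?_
      have e1 : ∀ i, ((P i j).map (Int.castRingHom ℝ)).eval (n : ℝ) = (((P i j).eval n : ℤ) : ℝ) := by
        intro i
        rw [Polynomial.eval_map, Polynomial.eval₂_at_intCast]
        simp
      rw [wd_cmp]
      congr 2
      funext i y
      rw [e1, smul_smul, mul_comm]
  filter_upwards [key] with v hv _ _
  have h3 : ∀ᵐ x ∂μ, ∀ (n : ℤ) (j : Fin m),
      f j (cmp d (fun i y => e i ((((P i j).eval n : ℤ) : ℝ) • v i) • y) x) =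
      g j (cmp d (fun i y => e i ((((P i j).eval n : ℤ) : ℝ) • v i) • y) x) := by
    rw [ae_all_iff]
    intro n
    rw [ae_all_iff]
    intro j
    have hmp : MeasurePreserving (fun x => cmp d (fun i y => e i ((((P i j).eval n : ℤ) : ℝ) • v i) • y) x) μ μ := by
      have h4 := wd_mp (μ := μ) (τ := fun i (t : ℝ) (x : X) => e i (t • v i) • x)
        (fun i => exp_flow he hm hp i (v i)) (fun i => (((P i j).eval n : ℤ) : ℝ))
      have h5 : wd d (fun i (t : ℝ) (x : X) => e i (t • v i) • x) (fun i => (((P i j).eval n : ℤ) : ℝ)) =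
          fun x => cmp d (fun i y => e i ((((P i j).eval n : ℤ) : ℝ) • v i) • y) x := by
        funext x
        rw [wd_cmp]
      rw [h5] at h4
      exact h4
    exact hmp.quasiMeasurePreserving.ae (hfg j)
  filter_upwards [hv, h3] with x hx hx3
  simpa only [hx3] using hx

end grp

end Pool.Agent.W5h67.NF
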