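import Pool.Agent.W5h67.NF.OuterP
import Pool.Agent.W5h67.NF.Grp

/-!
Blocks of letters: words in several blocks of flows, with one more parameter in one flow.
-/

set_option autoImplicit false

namespace Pool.Agent.W5h67.NF

open MeasureTheory Filter Finset
open Pool.Agent.Y957.MC (IsFlow flowInv smo)

universe u

/-- the law of the dilations of a tuple -/
noncomputable def pl (B : ℝ) (k : ℕ) : Measure (Fin k → ℝ) := Measure.pi fun _ : Fin k => lam B

instance (B : ℝ) (k : ℕ) : IsProbabilityMeasure (pl B k) := by unfold pl; infer_instance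

/-- the law of the dilations of several tuples -/
noncomputable def pl2 (B : ℝ) (n k : ℕ) : Measure (Fin n → Fin k → ℝ) := Measure.pi fun _ : Fin n => pl B k

instance (B : ℝ) (n k : ℕ) : IsProbabilityMeasure (pl2 B n k) := by unfold pl2; infer_instance

theorem mp_tailG (B : ℝ) (n k : ℕ) : MeasurePreserving
    (fun a : Fin (n + 1) → Fin k → ℝ => (a 0, fun b : Fin n => a b.succ)) (pl2 B (n + 1) k) ((pl B k).prod (pl2 B n k)) := by
  have h := measurePreserving_piFinSuccAbove (fun _ : Fin (n + 1) => pl B k) 0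
  exact h

/-- the word in `n` blocks of `k` letters -/
def nst {X : Type u} {n k : ℕ} (σ : Fin n → Fin k → ℝ → X → X) (P : Fin n → Fin k → Polynomial ℝ) (N : ℕ)
    (a : Fin n → Fin k → ℝ) (x : X) : X :=
  cmp n (fun b y => wd k (σ b) (fun i => a b i * (P b i).eval (N : ℝ)) y) x

section one

variable {X : Type u} [MeasurableSpace X] {μ : Measure X} [IsProbabilityMeasure μ]

theorem nst_spec {B : ℝ} (hB : 0 < B) {n k : ℕ} {σ : Fin n → Fin k → ℝ → X → X} (hσ : ∀ b i, IsFlow μ (σ b i))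
    {P : Fin n → Fin k → Polynomial ℝ} (hP : ∀ b i, P b i = 0 ∨ 0 < (P b i).natDegree) :
    Fam μ (nst σ P) ∧ (∃ D, Peel μ (pl2 B n k) (nst σ P) D) ∧ ∃ T, Lim μ (pl2 B n k) (nst σ P) T := by
  induction n with
  | zero => exact ⟨fam_id, ⟨0, peel_zero⟩, _, lim_zero⟩
  | succ n ih =>
    obtain ⟨h1, ⟨D, h2⟩, T, h3⟩ := ih (fun b => hσ b.succ) (fun b => hP b.succ)
    have hp : ∀ i, 0 < (P 0 i).natDegree → Tmc (fun n : ℕ => (ab (P 0 i)).eval (n : ℝ)) := fun i h =>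
      poly_tmc (by rw [ab_deg]; exact h) (ab_lead h)
    have hp' : ∀ i, ¬ 0 < (P 0 i).natDegree → ∀ n : ℕ, (ab (P 0 i)).eval (n : ℝ) = 0 := fun i h n => by
      have h0 : P 0 i = 0 := (hP 0 i).resolve_right h
      rw [h0]
      unfold ab
      simp
    obtain ⟨g1, ⟨D', g2⟩, g3⟩ := single_base (μ := μ) hB h1 h2 h3
      (τ := fun i => fl (σ 0 i) (P 0 i)) (fun i => fl_flow (hσ 0 i) _)
      (p := fun i n => (ab (P 0 i)).eval (n : ℝ)) (act := fun i => 0 < (P 0 i).natDegree) hp hp'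
    have e : (fun (N : ℕ) (a : Fin (n + 1) → Fin k → ℝ) (x : X) =>
        ow (fun i => fl (σ 0 i) (P 0 i)) (fun i n => (ab (P 0 i)).eval (n : ℝ))
        (nst (fun b => σ b.succ) (fun b => P b.succ)) N (a 0, fun b : Fin n => a b.succ) x) = nst σ P := by
      funext N a x
      exact wd_fl (σ 0) (P 0) (a 0) (N : ℝ) _
    have k1 := g1.comp (mp_tailG B n k).measurable
    have k2 := Peel.comp g1 g2 (mp_tailG B n k)
    have k3 := g3.comp (mp_tailG B n k)
    exact ⟨by rw [← e]; exact k1, ⟨D', by rw [← e]; exact k2⟩, _, by rw [← e]; exact k3⟩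

/-- one more parameter in the flow `τ`, with the times `Q`, on top of the blocks -/
def dbn {n k : ℕ} (τ : ℝ → X → X) (Q : Fin k → Polynomial ℝ) (σ : Fin n → Fin k → ℝ → X → X)
    (P : Fin n → Fin k → Polynomial ℝ) (N : ℕ) (ω : (Fin k → ℝ) × (Fin n → Fin k → ℝ)) (x : X) : X :=
  τ (∑ i, ω.1 i * (Q i).eval (N : ℝ)) (nst σ P N ω.2 x)

theorem dbn_spec {B : ℝ} (hB : 0 < B) {n k : ℕ} {τ : ℝ → X → X} (hτ : IsFlow μ τ) {Q : Fin k → Polynomial ℝ}
    (hQ : ∀ i, Q i = 0 ∨ 0 < (Q i).natDegree) {σ : Fin n → Fin k → ℝ → X → X} (hσ : ∀ b i, IsFlow μ (σ b i))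
    {P : Fin n → Fin k → Polynomial ℝ} (hP : ∀ b i, P b i = 0 ∨ 0 < (P b i).natDegree) :
    Fam μ (dbn τ Q σ P) ∧ (∃ D, Peel μ ((pl B k).prod (pl2 B n k)) (dbn τ Q σ P) D) ∧
      ∃ T, Lim μ ((pl B k).prod (pl2 B n k)) (dbn τ Q σ P) T := by
  have hp : ∀ i, 0 < (Q i).natDegree → Tmc (fun n : ℕ => (ab (Q i)).eval (n : ℝ)) := fun i h =>
    poly_tmc (by rw [ab_deg]; exact h) (ab_lead h)
  have hp' : ∀ i, ¬ 0 < (Q i).natDegree → ∀ n : ℕ, (ab (Q i)).eval (n : ℝ) = 0 := fun i h n => by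
    have h0 : Q i = 0 := (hQ i).resolve_right h
    rw [h0]
    unfold ab
    simp
  obtain ⟨h1, ⟨D, h2⟩, T, h3⟩ := nst_spec (μ := μ) hB hσ hP
  have g := single_base (μ := μ) hB h1 h2 h3
    (τ := fun i => fl τ (Q i)) (fun i => fl_flow hτ _)
    (p := fun i n => (ab (Q i)).eval (n : ℝ)) (act := fun i => 0 < (Q i).natDegree) hp hp'
  have e : ow (fun i => fl τ (Q i)) (fun i n => (ab (Q i)).eval (n : ℝ)) (nst σ P) = dbn τ Q σ P := by
    funext n ω x
    show wd k _ _ _ = _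
    unfold dbn
    rw [← wd_const hτ]
    exact wd_fl (fun _ => τ) Q ω.1 (n : ℝ) _
  rw [e] at g
  exact ⟨g.1, g.2.1, _, g.2.2⟩

variable {ι : Type} [DecidableEq ι]

/-- one factor decouples -/
theorem dec_oneB {B : ℝ} (hB : 0 < B) {τ : ι → ℝ → X → X} (hτ : ∀ j, IsFlow μ (τ j)) {n k : ℕ}
    {Q : Fin k → ι → Polynomial ℝ} (hQ : ∀ i j, Q i j = 0 ∨ 0 < (Q i j).natDegree)
    {σ : Fin n → Fin k → ι → ℝ → X → X} (hσ : ∀ b i j, IsFlow μ (σ b i j))
    {P : Fin n → Fin k → ι → Polynomial ℝ} (hP : ∀ b i j, P b i j = 0 ∨ 0 < (P b i j).natDegree) {R : ι → Polynomial ℝ}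
    {a : ι} {S : Finset ι} (hR : ∀ j ∈ S, R j = 0 ∨ 0 < (R j).natDegree) (ha : 0 < (R a).natDegree)
    (hS : ∀ j ∈ S, (R j).natDegree < (R a).natDegree)
    {U : ℕ → ((Fin k → ℝ) × (Fin n → Fin k → ℝ)) × X → ℝ} (hUm : ∀ n, Measurable (U n))
    (hUb : ∃ C : ℝ, ∀ n y, |U n y| ≤ C) {f : ι → X → ℝ} (hf : ∀ j, BM (f j)) :
    ∀ᵐ z ∂(((lam B).prod ((pl B k).prod (pl2 B n k))).prod μ),
      Tendsto (fun N : ℕ => (1 / (N : ℝ)) * ∑ l ∈ Icc 1 N, (U l (z.1.2, z.2) *
        ∏ j ∈ S, f j (τ j (z.1.1 * (R j).eval (l : ℝ))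
          (dbn (τ j) (fun i => Q i j) (fun b i => σ b i j) (fun b i => P b i j) l z.1.2 z.2))) *
        (f a (τ a (z.1.1 * (R a).eval (l : ℝ))
          (dbn (τ a) (fun i => Q i a) (fun b i => σ b i a) (fun b i => P b i a) l z.1.2 z.2)) -
          ce μ (τ a) (f a) (dbn (τ a) (fun i => Q i a) (fun b i => σ b i a) (fun b i => P b i a) l z.1.2 z.2)))
        atTop (nhds 0) := by
  obtain ⟨CU, hCU⟩ := hUb
  choose hF hPe hLi using fun j => dbn_spec (μ := μ) hB (hτ j) (fun i => hQ i j) (fun b i => hσ b i j)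
    (fun b i => hP b i j)
  choose D hD using hPe
  choose T hT using hLi
  have hpa : Tmc (fun n : ℕ => (ab (R a)).eval (n : ℝ)) := poly_tmc (by rw [ab_deg]; exact ha) (ab_lead ha)
  have hp0 : ∀ᶠ N : ℕ in atTop, 0 ≤ (ab (R a)).eval (N : ℝ) := hpa.tends.eventually_ge_atTop 0
  have hgood : ∀ j ∈ S, GoodW B μ ((pl B k).prod (pl2 B n k))
      (fun n : ℕ => (ab (R a)).eval (n : ℝ))
      (fun l z => f j (τ j (z.1.1 * (R j).eval (l : ℝ))
        (dbn (τ j) (fun i => Q i j) (fun b i => σ b i j) (fun b i => P b i j) l z.1.2 z.2))) := by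
    intro j hj
    rcases hR j hj with h0 | h0
    · have h1 := GoodW.indep (B := B) (μ := μ)
        (ν := (pl B k).prod (pl2 B n k)) hp0
        (U := fun l (y : ((Fin k → ℝ) × (Fin n → Fin k → ℝ)) × X) =>
          f j (dbn (τ j) (fun i => Q i j) (fun b i => σ b i j) (fun b i => P b i j) l y.1 y.2))
        (fun l => ((hf j).comp ((hF j).meas l)).1) (C := bd (f j)) (fun l y => bd_le (hf j) _)
      have e : (fun (l : ℕ) (z : (ℝ × ((Fin k → ℝ) × (Fin n → Fin k → ℝ))) × X) =>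
          f j (τ j (z.1.1 * (R j).eval (l : ℝ))
            (dbn (τ j) (fun i => Q i j) (fun b i => σ b i j) (fun b i => P b i j) l z.1.2 z.2))) =
          fun l z => f j (dbn (τ j) (fun i => Q i j) (fun b i => σ b i j) (fun b i => P b i j) l z.1.2 z.2) := by
        funext l z
        rw [h0, Polynomial.eval_zero, mul_zero, (hτ j).zero]
      rw [e]
      exact h1
    · have h1 := GoodW.factor hB (hF j) (hD j) (hT j) (fl_flow (hτ j) (R j))
        (p' := fun n : ℕ => (ab (R j)).eval (n : ℝ)) (p := fun n : ℕ => (ab (R a)).eval (n : ℝ))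
        (poly_tmc (by rw [ab_deg]; exact h0) (ab_lead h0)).toTms hp0
        (poly_sub (by rw [ab_deg, ab_deg]; exact hS j hj) (ab_lead ha)) (hf j)
      simp only [fl_ab] at h1
      exact h1
  have hGW := (GoodW.indep hp0 hUm hCU).mul (GoodW.prod hp0 S hgood)
  have h1 := dec hB (hF a) (hD a) (hT a) (fl_flow (hτ a) (R a)) hpa hGW (hf a)
  filter_upwards [h1] with z hz
  simp only [fl_ab, fl_ce] at hz
  exact hz

end one

end Pool.Agent.W5h67.NF
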