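import Pool.Agent.W5h67.NF.Nil3
import Pool.Agent.W5h67.NF.Blk1

/-!
Blocks of letters, each generic in its own nilpotent group: transfer from affine families, the words.
-/

set_option autoImplicit false

namespace Pool.Agent.W5h67.NF

open MeasureTheory Filter Finset
open Pool.Agent.Y957.MC (IsFlow flowInv smo)

universe u v

theorem haar2 (m k : ℕ) : Measure.IsAddHaarMeasure (volume : Measure (Fin m → (Fin k → ℝ))) :=
  Measure.pi.isAddHaarMeasure (μ := fun _ : Fin m => (volume : Measure (Fin k → ℝ)))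

theorem haar3 (n m k : ℕ) : Measure.IsAddHaarMeasure (volume : Measure (Fin n → Fin m → (Fin k → ℝ))) := by
  have := haar2 m k
  exact Measure.pi.isAddHaarMeasure (μ := fun _ : Fin n => (volume : Measure (Fin m → Fin k → ℝ)))

/-- from affine families of tuples to almost every tuple, several blocks -/
theorem ae_of_affB {n m k : ℕ} {Q : (Fin n → Fin m → Fin k → ℝ) → Prop} (hQ : MeasurableSet {v | Q v}) {S : Type}
    [MeasurableSpace S] {ρ : Measure S} [IsProbabilityMeasure ρ] {A : S → Fin n → Fin m → ℝ}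
    {c : S → Fin n → Fin m → Fin k → ℝ} (hA : Measurable A) (hc : Measurable c)
    (hA0 : ∀ᵐ s ∂ρ, ∀ b i, A s b i ≠ 0)
    (h : ∀ v : Fin n → Fin m → Fin k → ℝ, ∀ᵐ s ∂ρ, Q (fun b j => A s b j • v b j + c s b j)) :
    ∀ᵐ v : Fin n → Fin m → Fin k → ℝ, Q v := by
  have hmeas : Measurable fun q : S × (Fin n → Fin m → Fin k → ℝ) => fun b j => A q.1 b j • q.2 b j + c q.1 b j := by
    refine measurable_pi_lambda _ fun b => measurable_pi_lambda _ fun j => ?_
    have h1 : Measurable fun q : S × (Fin n → Fin m → Fin k → ℝ) => A q.1 b j :=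
      (measurable_pi_apply j).comp ((measurable_pi_apply b).comp (hA.comp measurable_fst))
    have h2 : Measurable fun q : S × (Fin n → Fin m → Fin k → ℝ) => q.2 b j :=
      (measurable_pi_apply j).comp ((measurable_pi_apply b).comp measurable_snd)
    have h3 : Measurable fun q : S × (Fin n → Fin m → Fin k → ℝ) => c q.1 b j :=
      (measurable_pi_apply j).comp ((measurable_pi_apply b).comp (hc.comp measurable_fst))
    exact (h1.smul h2).add h3
  have h1 : ∀ᵐ s ∂ρ, ∀ᵐ v : Fin n → Fin m → Fin k → ℝ, Q (fun b j => A s b j • v b j + c s b j) := by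
    have h2 : ∀ᵐ v : Fin n → Fin m → Fin k → ℝ, ∀ᵐ s ∂ρ, Q (fun b j => A s b j • v b j + c s b j) := ae_of_all _ h
    have hset : MeasurableSet {q : (Fin n → Fin m → Fin k → ℝ) × S | Q (fun b j => A q.2 b j • q.1 b j + c q.2 b j)} :=
      (hmeas.comp measurable_swap) hQ
    exact (Measure.ae_ae_comm hset).mp h2
  obtain ⟨s, hs1, hs0⟩ := (h1.and hA0).exists
  let e : (Fin n → Fin m → Fin k → ℝ) ≃ₗ[ℝ] (Fin n → Fin m → Fin k → ℝ) :=
    LinearEquiv.piCongrRight fun b => LinearEquiv.piCongrRight fun j =>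
      LinearEquiv.smulOfNeZero ℝ (Fin k → ℝ) (A s b j)⁻¹ (inv_ne_zero (hs0 b j))
  have hdet : LinearMap.det (e : (Fin n → Fin m → Fin k → ℝ) →ₗ[ℝ] (Fin n → Fin m → Fin k → ℝ)) ≠ 0 :=
    (LinearEquiv.isUnit_det' e).ne_zero
  have := haar3 n m k
  have hqmp := Measure.LinearMap.quasiMeasurePreserving (μ := (volume : Measure (Fin n → Fin m → Fin k → ℝ)))
    (e : (Fin n → Fin m → Fin k → ℝ) →ₗ[ℝ] (Fin n → Fin m → Fin k → ℝ)) hdet
  have htr := (measurePreserving_sub_right (volume : Measure (Fin n → Fin m → Fin k → ℝ)) (c s)).quasiMeasurePreserving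
  have h3 := (hqmp.comp htr).ae hs1
  filter_upwards [h3] with v hv
  have e1 : (fun b j => A s b j • (((e : (Fin n → Fin m → Fin k → ℝ) →ₗ[ℝ] (Fin n → Fin m → Fin k → ℝ)) ∘
      fun v => v - c s) v) b j + c s b j) = v := by
    funext b j
    have : (((e : (Fin n → Fin m → Fin k → ℝ) →ₗ[ℝ] (Fin n → Fin m → Fin k → ℝ)) ∘ fun v => v - c s) v) b j =
      (A s b j)⁻¹ • (v b j - c s b j) := rfl
    rw [this, smul_smul, mul_inv_cancel₀ (hs0 b j), one_smul, sub_add_cancel]
  rwa [e1] at hv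

end Pool.Agent.W5h67.NF
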