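import Pool.Agent.W5h67.NF.Blk2

/-!
Blocks of letters, each generic in its own nilpotent group: one factor decouples in one coordinate.
-/

set_option autoImplicit false

namespace Pool.Agent.W5h67.NF

open MeasureTheory Filter Finset
open Pool.Agent.Y957.MC (IsFlow flowInv smo)

universe u v

section words

variable {X : Type u} [MeasurableSpace X] {μ : Measure X} {K d : ℕ}

/-- the word in several blocks -/
def wB {X : Type u} {K d B : ℕ} {G : Fin B → Type v} [∀ b, Group (G b)] [∀ b, MulAction (G b) X]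
    (e : ∀ b, (Fin K → ℝ) → G b) (t : Fin B → Fin d → ℝ) (v : Fin B → Fin d → Fin K → ℝ) (x : X) : X :=
  cmp B (fun b y => wR (e b) (t b) (v b) • y) x

theorem cmp_mp {B : ℕ} {S : Fin B → X → X} (hS : ∀ b, MeasurePreserving (S b) μ μ) :
    MeasurePreserving (fun x => cmp B S x) μ μ := by
  induction B with
  | zero => exact MeasurePreserving.id μ
  | succ B ih => exact (hS 0).comp (ih fun b => hS b.succ)

theorem wB_meas {B : ℕ} {G : Fin B → Type v} [∀ b, Group (G b)] [∀ b, MulAction (G b) X]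
    {e : ∀ b, (Fin K → ℝ) → G b} (he : ∀ b, Nil μ (e b)) (t : Fin B → Fin d → ℝ) :
    Measurable fun q : (Fin B → Fin d → Fin K → ℝ) × X => wB e t q.1 q.2 := by
  refine cmp_meas B (fun b (v : Fin B → Fin d → Fin K → ℝ) (y : X) => wR (e b) (t b) (v b) • y) fun b => ?_
  have hj : Measurable fun q : (Fin B → Fin d → Fin K → ℝ) × X => q.1 b := (measurable_pi_apply b).comp measurable_fst
  exact (wR_meas (he b) (t b)).comp (hj.prodMk measurable_snd)

theorem wB_mp {B : ℕ} {G : Fin B → Type v} [∀ b, Group (G b)] [∀ b, MulAction (G b) X]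
    {e : ∀ b, (Fin K → ℝ) → G b} (he : ∀ b, Nil μ (e b)) (t : Fin B → Fin d → ℝ) (v : Fin B → Fin d → Fin K → ℝ) :
    MeasurePreserving (fun x : X => wB e t v x) μ μ :=
  cmp_mp fun b => wR_mp (he b) (t b) (v b)

/-- the words in the flows `e b (s v)` -/
def fl2 {X : Type u} {K d B : ℕ} {G : Fin B → Type v} [∀ b, Group (G b)] [∀ b, MulAction (G b) X]
    (e : ∀ b, (Fin K → ℝ) → G b) (v : Fin B → Fin d → Fin K → ℝ) (b : Fin B) (i : Fin d) (s : ℝ) (y : X) : X :=
  e b (s • v b i) • y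

theorem fl2_mp {B : ℕ} {G : Fin B → Type v} [∀ b, Group (G b)] [∀ b, MulAction (G b) X]
    {e : ∀ b, (Fin K → ℝ) → G b} (he : ∀ b, Nil μ (e b)) (t A : Fin B → Fin d → ℝ) (v : Fin B → Fin d → Fin K → ℝ) :
    MeasurePreserving (fun x : X => cmp B (fun b y => wd d (fl2 e v b) (fun i => A b i * t b i) y) x) μ μ :=
  cmp_mp fun b => wd_mp (fun i => (he b).flow (v b i)) _

variable {B : ℕ} {G : Fin (B + 1) → Type v} [∀ b, Group (G b)] [∀ b, MulAction (G b) X]
  {e : ∀ b, (Fin K → ℝ) → G b}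

omit [MeasurableSpace X] in
theorem wB_aff (r : Fin K) (t A : Fin (B + 1) → Fin d → ℝ) (c : Fin d → ℝ) (v : Fin (B + 1) → Fin d → Fin K → ℝ)
    (x : X) : wB e t (fun b i => A b i • v b i + if b = 0 then c i • Pi.single r 1 else 0) x =
      wR (e 0) (t 0) (fun i => A 0 i • v 0 i + c i • Pi.single r 1) •
        cmp B (fun b y => wd d (fl2 e v b.succ) (fun i => A b.succ i * t b.succ i) y) x := by
  unfold wB
  show wR (e 0) (t 0) (fun i => A 0 i • v 0 i + if (0 : Fin (B + 1)) = 0 then c i • Pi.single r 1 else 0) •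
    cmp B (fun b y => wR (e b.succ) (t b.succ) (fun i => A b.succ i • v b.succ i +
      if b.succ = 0 then c i • Pi.single r 1 else 0) • y) x = _
  congr 1
  congr 1
  funext b y
  simp only [Fin.succ_ne_zero, if_false, add_zero]
  exact wR_scale _ _ _ _

theorem word_relB (he : ∀ b, Nil μ (e b)) (r : Fin K) {F : X → ℝ} (hF : InvN μ (NN (e 0) (r + 1)) F)
    (t A : Fin (B + 1) → Fin d → ℝ) (c : Fin d → ℝ) (v : Fin (B + 1) → Fin d → Fin K → ℝ) :
    ∀ᵐ x ∂μ, F (wB e t (fun b i => A b i • v b i + if b = 0 then c i • Pi.single r 1 else 0) x) =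
      F (fr X (e 0) r (∑ i, t 0 i * c i)
        (cmp (B + 1) (fun b y => wd d (fl2 e v b) (fun i => A b i * t b i) y) x)) := by
  have h1 := (fl2_mp (fun b => he b.succ) (fun b => t b.succ) (fun b => A b.succ)
    (fun b => v b.succ)).quasiMeasurePreserving.ae (word_rel (he 0) r hF (t 0) (A 0) c (v 0))
  filter_upwards [h1] with x hx
  rw [wB_aff]
  exact hx

theorem word_relB0 (he : ∀ b, Nil μ (e b)) (r : Fin K) {F : X → ℝ} (hF : InvN μ (NN (e 0) r) F)
    (t A : Fin (B + 1) → Fin d → ℝ) (c : Fin d → ℝ) (v : Fin (B + 1) → Fin d → Fin K → ℝ) :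
    ∀ᵐ x ∂μ, F (wB e t (fun b i => A b i • v b i + if b = 0 then c i • Pi.single r 1 else 0) x) =
      F (cmp (B + 1) (fun b y => wd d (fl2 e v b) (fun i => A b i * t b i) y) x) := by
  have h1 := (fl2_mp (fun b => he b.succ) (fun b => t b.succ) (fun b => A b.succ)
    (fun b => v b.succ)).quasiMeasurePreserving.ae (word_rel0 (he 0) r hF (t 0) (A 0) c (v 0))
  filter_upwards [h1] with x hx
  rw [wB_aff]
  exact hx

omit [MeasurableSpace X] in
theorem word_relB1 (r : Fin K) (t A : Fin (B + 1) → Fin d → ℝ) (ht : ∀ i, t 0 i = 0) (c : Fin d → ℝ)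
    (v : Fin (B + 1) → Fin d → Fin K → ℝ) (x : X) :
    wB e t (fun b i => A b i • v b i + if b = 0 then c i • Pi.single r 1 else 0) x =
      cmp (B + 1) (fun b y => wd d (fl2 e v b) (fun i => A b i * t b i) y) x := by
  rw [wB_aff, wR_smul]
  show _ = wd d (fl2 e v 0) (fun i => A 0 i * t 0 i)
    (cmp B (fun b y => wd d (fl2 e v b.succ) (fun i => A b.succ i * t b.succ i) y) x)
  rw [wd_cmp, wd_cmp]
  unfold fl2
  simp only [ht, mul_zero, zero_smul]

end words

section step

variable {X : Type u} [MeasurableSpace X] {μ : Measure X} [IsProbabilityMeasure μ] {K d : ℕ} {ι : Type} [Fintype ι]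
  [DecidableEq ι] {B : ℕ} {G : Fin (B + 1) → ι → Type v} [∀ b j, Group (G b j)] [∀ b j, MulAction (G b j) X]
  {e : ∀ b j, (Fin K → ℝ) → G b j}

/-- the point of the factor `j` -/
def pt {X : Type u} {K d B : ℕ} {ι : Type} {G : Fin B → ι → Type v} [∀ b j, Group (G b j)]
    [∀ b j, MulAction (G b j) X] (e : ∀ b j, (Fin K → ℝ) → G b j) (P : Fin B → Fin d → ι → Polynomial ℝ) (j : ι)
    (n : ℝ) (v : Fin B → Fin d → Fin K → ℝ) (x : X) : X :=
  wB (fun b => e b j) (fun b i => (P b i j).eval n) v x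

/-- one factor decouples in one coordinate -/
theorem stepB (he : ∀ b j, Nil μ (e b j)) (r : Fin K) {P : Fin (B + 1) → Fin d → ι → Polynomial ℝ}
    (hP : ∀ b i j, P b i j = 0 ∨ 0 < (P b i j).natDegree)
    {φ : Fin d → ℝ} {a : ι} {S : Finset ι} (haS : a ∉ S) (ha : 0 < (cmb φ (P 0) a).natDegree)
    (hR : ∀ j ∈ S, cmb φ (P 0) j = 0 ∨ 0 < (cmb φ (P 0) j).natDegree)
    (hS : ∀ j ∈ S, (cmb φ (P 0) j).natDegree < (cmb φ (P 0) a).natDegree)
    {F : ι → X → ℝ} (hF : ∀ j, BM (F j)) (hF1 : ∀ j ∈ insert a S, InvN μ (NN (e 0 j) (r + 1)) (F j))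
    (hF0 : ∀ j, j ∉ insert a S → InvN μ (NN (e 0 j) r) (F j) ∨ ∀ i, P 0 i j = 0)
    {W : ℕ → X → ℝ} (hWm : ∀ n, Measurable (W n)) (hWb : ∃ C : ℝ, ∀ n x, |W n x| ≤ C) :
    ∀ᵐ v : Fin (B + 1) → Fin d → Fin K → ℝ, ∀ᵐ x ∂μ, Tendsto (fun N : ℕ => (1 / (N : ℝ)) * ∑ n ∈ Icc 1 N,
      (W n x * ∏ j ∈ univ.erase a, F j (pt e P j (n : ℝ) v x)) *
      (F a (pt e P a (n : ℝ) v x) - ce μ (fr X (e 0 a) r) (F a) (pt e P a (n : ℝ) v x))) atTop (nhds 0) := by
  obtain ⟨CW, hCW⟩ := hWb
  refine ae_of_affB (S := ℝ × ((Fin d → ℝ) × (Fin (B + 1) → Fin d → ℝ)))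
    (ρ := (lam 1).prod ((pl 1 d).prod (pl2 1 (B + 1) d)))
    (A := fun s => s.2.2) (c := fun s b i => if b = 0 then (s.1 * φ i + s.2.1 i) • Pi.single r 1 else 0) ?_ ?_ ?_ ?_ ?_
  · have hw : ∀ (f : X → ℝ) (_ : BM f) (n : ℕ) (j : ι), Measurable fun q : (Fin (B + 1) → Fin d → Fin K → ℝ) × X =>
        f (pt e P j (n : ℝ) q.1 q.2) := fun f hf n j => hf.1.comp (wB_meas (fun b => he b j) _)
    have hA : ∀ N : ℕ, Measurable fun q : (Fin (B + 1) → Fin d → Fin K → ℝ) × X => (1 / (N : ℝ)) * ∑ n ∈ Icc 1 N,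
      (W n q.2 * ∏ j ∈ univ.erase a, F j (pt e P j (n : ℝ) q.1 q.2)) *
      (F a (pt e P a (n : ℝ) q.1 q.2) -
        ce μ (fr X (e 0 a) r) (F a) (pt e P a (n : ℝ) q.1 q.2)) := fun N =>
      measurable_const.mul (Finset.measurable_sum _ fun n _ =>
        (((hWm n).comp measurable_snd).mul (Finset.measurable_prod _ fun j _ => hw _ (hF j) n j)).mul
          ((hw _ (hF a) n a).sub (hw _ (ce_bm _) n a)))
    have h2 := measurableSet_tendsto_fun (l := atTop) hA
      (g := fun _ : (Fin (B + 1) → Fin d → Fin K → ℝ) × X => (0 : ℝ)) measurable_const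
    have h3 := measurable_measure_prodMk_left (ν := μ) h2.compl
    exact h3 (measurableSet_singleton 0)
  · exact measurable_snd.comp measurable_snd
  · refine measurable_pi_lambda _ fun b => measurable_pi_lambda _ fun i => ?_
    by_cases hb : b = 0
    · simp only [if_pos hb]
      have h1 : Measurable fun s : ℝ × ((Fin d → ℝ) × (Fin (B + 1) → Fin d → ℝ)) => s.1 * φ i + s.2.1 i :=
        (measurable_fst.mul_const _).add ((measurable_pi_apply i).comp (measurable_fst.comp measurable_snd))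
      exact h1.smul_const _
    · simp only [if_neg hb]
      exact measurable_const
  · have h0 : ∀ᵐ a ∂(pl 1 d), ∀ i, a i ≠ 0 := by
      rw [ae_all_iff]
      intro i
      exact (Measure.quasiMeasurePreserving_eval (fun _ : Fin d => lam 1) i).ae (lam_ne 1 one_pos)
    have h00 : ∀ᵐ a ∂(pl2 1 (B + 1) d), ∀ b i, a b i ≠ 0 := by
      rw [ae_all_iff]
      intro b
      exact (Measure.quasiMeasurePreserving_eval (fun _ : Fin (B + 1) => pl 1 d) b).ae h0
    exact (Measure.quasiMeasurePreserving_snd.comp Measure.quasiMeasurePreserving_snd).ae h00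
  · intro v
    have hσ : ∀ b i j, IsFlow μ (fl2 (fun b => e b j) v b i) := fun b i j => (he b j).flow (v b i)
    have hτ := fun j => (he 0 j).fr_flow r
    have hcb : ∃ C : ℝ, ∀ (n : ℕ) (y : ((Fin d → ℝ) × (Fin (B + 1) → Fin d → ℝ)) × X),
        |W n y.2 * ∏ j ∈ univ \ insert a S,
        F j (nst (fl2 (fun b => e b j) v) (fun b i => P b i j) n y.1.2 y.2)| ≤ C := by
      refine ⟨|CW| * ∏ j ∈ univ \ insert a S, bd (F j), fun n y => ?_⟩
      rw [abs_mul, abs_prod]
      exact mul_le_mul ((hCW n _).trans (le_abs_self _)) (prod_le_prod (fun j _ => abs_nonneg _)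
        fun j _ => bd_le (hF j) _) (prod_nonneg fun j _ => abs_nonneg _) (abs_nonneg _)
    have hz : ∀ b i j, P b i j = 0 ∨ 0 < (P b i j).natDegree := hP
    have hnm : ∀ (n : ℕ) (j : ι), Measurable fun y : (Fin (B + 1) → Fin d → ℝ) × X =>
        nst (fl2 (fun b => e b j) v) (fun b i => P b i j) n y.1 y.2 := fun n j =>
      (nst_spec (μ := μ) one_pos (fun b i => hσ b i j) (fun b i => hz b i j)).1.meas n
    have h1 := dec_oneB (μ := μ) one_pos hτ (Q := P 0) (fun i j => hz 0 i j)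
      (σ := fun b i j => fl2 (fun b => e b j) v b i) hσ (P := P) hz (R := cmb φ (P 0)) hR ha hS
      (U := fun n y => W n y.2 * ∏ j ∈ univ \ insert a S,
        F j (nst (fl2 (fun b => e b j) v) (fun b i => P b i j) n y.1.2 y.2))
      (fun n => ((hWm n).comp measurable_snd).mul (Finset.measurable_prod _ fun j _ => (hF j).1.comp
        ((hnm n j).comp ((measurable_snd.comp measurable_fst).prodMk measurable_snd)))) hcb hF
    filter_upwards [Measure.ae_ae_of_ae_prod h1] with s hs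
    have hsum : ∀ (n : ℕ) (j : ι), ∑ i, (P 0 i j).eval (n : ℝ) * (s.1 * φ i + s.2.1 i) =
        s.1 * (cmb φ (P 0) j).eval (n : ℝ) + ∑ i, s.2.1 i * (P 0 i j).eval (n : ℝ) := by
      intro n j
      rw [cmb_eval, mul_sum, ← sum_add_distrib]
      exact sum_congr rfl fun i _ => by ring
    -- the words
    have hrel : ∀ (f : X → ℝ) (n : ℕ) (j : ι) (_ : InvN μ (NN (e 0 j) (r + 1)) f), ∀ᵐ x ∂μ,
        f (pt e P j (n : ℝ) (fun b i => s.2.2 b i • v b i +
          if b = 0 then (s.1 * φ i + s.2.1 i) • Pi.single r 1 else 0) x) =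
        f (fr X (e 0 j) r (s.1 * (cmb φ (P 0) j).eval (n : ℝ))
          (dbn (fr X (e 0 j) r) (fun i => P 0 i j) (fl2 (fun b => e b j) v) (fun b i => P b i j) n s.2 x)) := by
      intro f n j hf
      filter_upwards [word_relB (fun b => he b j) r hf (fun b i => (P b i j).eval (n : ℝ)) s.2.2
        (fun i => s.1 * φ i + s.2.1 i) v] with x hx
      unfold pt
      rw [hx, hsum, (hτ j).add]
      rfl
    have hrel0 : ∀ (f : X → ℝ) (n : ℕ) (j : ι) (_ : InvN μ (NN (e 0 j) r) f), ∀ᵐ x ∂μ,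
        f (pt e P j (n : ℝ) (fun b i => s.2.2 b i • v b i +
          if b = 0 then (s.1 * φ i + s.2.1 i) • Pi.single r 1 else 0) x) =
        f (nst (fl2 (fun b => e b j) v) (fun b i => P b i j) n s.2.2 x) := by
      intro f n j hf
      exact word_relB0 (fun b => he b j) r hf (fun b i => (P b i j).eval (n : ℝ)) s.2.2
        (fun i => s.1 * φ i + s.2.1 i) v
    have hA : ∀ᵐ x ∂μ, ∀ (n : ℕ) (j : ι), j ∈ insert a S →
        F j (pt e P j (n : ℝ) (fun b i => s.2.2 b i • v b i +
          if b = 0 then (s.1 * φ i + s.2.1 i) • Pi.single r 1 else 0) x) =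
        F j (fr X (e 0 j) r (s.1 * (cmb φ (P 0) j).eval (n : ℝ))
          (dbn (fr X (e 0 j) r) (fun i => P 0 i j) (fl2 (fun b => e b j) v) (fun b i => P b i j) n s.2 x)) := by
      rw [ae_all_iff]; intro n
      rw [ae_all_iff]; intro j
      by_cases hj : j ∈ insert a S
      · filter_upwards [hrel (F j) n j (hF1 j hj)] with x hx _ using hx
      · exact ae_of_all _ fun x h => absurd h hj
    have hB : ∀ᵐ x ∂μ, ∀ (n : ℕ) (j : ι), j ∉ insert a S →
        F j (pt e P j (n : ℝ) (fun b i => s.2.2 b i • v b i +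
          if b = 0 then (s.1 * φ i + s.2.1 i) • Pi.single r 1 else 0) x) =
        F j (nst (fl2 (fun b => e b j) v) (fun b i => P b i j) n s.2.2 x) := by
      rw [ae_all_iff]; intro n
      rw [ae_all_iff]; intro j
      by_cases hj : j ∈ insert a S
      · exact ae_of_all _ fun x h => absurd hj h
      · rcases hF0 j hj with h | h
        · filter_upwards [hrel0 (F j) n j h] with x hx _ using hx
        · refine ae_of_all _ fun x _ => ?_
          congr 1
          exact word_relB1 r (fun b i => (P b i j).eval (n : ℝ)) s.2.2 (fun i => by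
            show (P 0 i j).eval (n : ℝ) = 0
            rw [h i, Polynomial.eval_zero]) (fun i => s.1 * φ i + s.2.1 i) v x
    have hC : ∀ᵐ x ∂μ, ∀ (n : ℕ), ce μ (fr X (e 0 a) r) (F a) (pt e P a (n : ℝ) (fun b i => s.2.2 b i • v b i +
          if b = 0 then (s.1 * φ i + s.2.1 i) • Pi.single r 1 else 0) x) =
        ce μ (fr X (e 0 a) r) (F a)
          (dbn (fr X (e 0 a) r) (fun i => P 0 i a) (fl2 (fun b => e b a) v) (fun b i => P b i a) n s.2 x) := by
      rw [ae_all_iff]; intro n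
      have h2 := (he 0 a).ce r (hF a) (hF1 a (mem_insert_self _ _))
      filter_upwards [hrel _ n a (fun g hg => h2 g (NN_anti (Nat.le_succ _) hg))] with x hx
      rw [hx, ce_inv]
    filter_upwards [hs, hA, hB, hC] with x hx hxA hxB hxC
    refine hx.congr fun N => ?_
    congr 1
    refine sum_congr rfl fun n _ => ?_
    have hsplit : univ.erase a = S ∪ (univ \ insert a S) := by
      ext j
      by_cases h1 : j = a
      · subst h1
        simp [haS]
      · by_cases h2 : j ∈ S <;> simp [h1, h2]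
    have hdis : Disjoint S (univ \ insert a S) := by
      rw [Finset.disjoint_left]
      intro j hj hj'
      rw [Finset.mem_sdiff] at hj'
      exact hj'.2 (mem_insert_of_mem hj)
    rw [hsplit, prod_union hdis, hxA n a (mem_insert_self _ _), hxC n]
    rw [prod_congr rfl fun j hj => hxA n j (mem_insert_of_mem hj)]
    rw [prod_congr (s₁ := univ \ insert a S) rfl fun j hj => hxB n j (Finset.mem_sdiff.1 hj).2]
    ring

end step

end Pool.Agent.W5h67.NF
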