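import Pool.Agent.W5h67.NF.Blk3

/-!
Blocks of letters, each generic in its own nilpotent group: the outermost block is removed.
-/

set_option autoImplicit false

namespace Pool.Agent.W5h67.NF

open MeasureTheory Filter Finset
open Pool.Agent.Y957.MC (IsFlow flowInv smo)

universe u v

/-- in every nonempty set of columns from `T` some linear form singles out the polynomial of largest degree, and the
others are zero or not constant -/
def FreeT {d : ℕ} {ι : Type} (P : Fin d → ι → Polynomial ℝ) (T : Finset ι) : Prop :=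
  ∀ S : Finset ι, S.Nonempty → S ⊆ T → ∃ φ : Fin d → ℝ, ∃ a ∈ S,
    0 < (cmb φ P a).natDegree ∧ ∀ j ∈ S, j ≠ a → (cmb φ P j).natDegree < (cmb φ P a).natDegree ∧
      (cmb φ P j = 0 ∨ 0 < (cmb φ P j).natDegree)

section stage

variable {X : Type u} [MeasurableSpace X] {μ : Measure X} [IsProbabilityMeasure μ] {K d : ℕ} {ι : Type} [Fintype ι]
  [DecidableEq ι] {B : ℕ} {G : Fin (B + 1) → ι → Type v} [∀ b j, Group (G b j)] [∀ b j, MulAction (G b j) X]
  {e : ∀ b j, (Fin K → ℝ) → G b j}

/-- all factors decouple in one coordinate -/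
theorem stageB (he : ∀ b j, Nil μ (e b j)) (r : Fin K) {P : Fin (B + 1) → Fin d → ι → Polynomial ℝ}
    (hP : ∀ b i j, P b i j = 0 ∨ 0 < (P b i j).natDegree) {T : Finset ι}
    (hFr : FreeT (P 0) T) {W : ℕ → X → ℝ} (hWm : ∀ n, Measurable (W n)) (hWb : ∃ C : ℝ, ∀ n x, |W n x| ≤ C)
    (S : Finset ι) : S ⊆ T → ∀ F : ι → X → ℝ, (∀ j, BM (F j)) →
    (∀ j ∈ S, InvN μ (NN (e 0 j) (r + 1)) (F j)) →
    (∀ j, j ∉ S → InvN μ (NN (e 0 j) r) (F j) ∨ ∀ i, P 0 i j = 0) →
    ∀ᵐ v : Fin (B + 1) → Fin d → Fin K → ℝ, ∀ᵐ x ∂μ, Tendsto (fun N : ℕ => (1 / (N : ℝ)) * ∑ n ∈ Icc 1 N, W n x *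
      (∏ j, F j (pt e P j (n : ℝ) v x) -
        ∏ j, (if j ∈ S then ce μ (fr X (e 0 j) r) (F j) else F j) (pt e P j (n : ℝ) v x)))
        atTop (nhds 0) := by
  induction S using Finset.strongInductionOn with
  | _ S ih =>
    intro hS F hF hF1 hF0
    rcases S.eq_empty_or_nonempty with h0 | h0
    · subst h0
      refine ae_of_all _ fun v => ae_of_all _ fun x => ?_
      simp
    · obtain ⟨φ, a, haS, ha, hφ⟩ := hFr S h0 hS
      have h1 := stepB he r hP (φ := φ) (a := a) (S := S.erase a) (notMem_erase a S) ha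
        (fun j hj => (hφ j (mem_of_mem_erase hj) (ne_of_mem_erase hj)).2)
        (fun j hj => (hφ j (mem_of_mem_erase hj) (ne_of_mem_erase hj)).1) hF
        (fun j hj => hF1 j (by rwa [insert_erase haS] at hj))
        (fun j hj => hF0 j (by rwa [insert_erase haS] at hj)) hWm hWb
      have h2 := ih (S.erase a) (erase_ssubset haS) ((erase_subset _ _).trans hS)
        (Function.update F a (ce μ (fr X (e 0 a) r) (F a))) (fun j => by
          by_cases h : j = a
          · subst h
            rw [Function.update_self]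
            exact ce_bm _
          · rw [Function.update_of_ne h]
            exact hF j) (fun j hj => by
          rw [Function.update_of_ne (ne_of_mem_erase hj)]
          exact hF1 j (mem_of_mem_erase hj)) (fun j hj => by
          by_cases h : j = a
          · subst h
            rw [Function.update_self]
            exact Or.inl ((he 0 j).ce r (hF j) (hF1 j haS))
          · rw [Function.update_of_ne h]
            exact hF0 j fun h' => hj (mem_erase.2 ⟨h, h'⟩))
      filter_upwards [h1, h2] with v hv1 hv2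
      filter_upwards [hv1, hv2] with x hx1 hx2
      have h3 := hx1.add hx2
      rw [add_zero] at h3
      refine h3.congr fun N => ?_
      rw [← mul_add, ← sum_add_distrib]
      congr 1
      refine sum_congr rfl fun n _ => ?_
      have e1 : ∀ j, (if j ∈ S.erase a then ce μ (fr X (e 0 j) r)
          (Function.update F a (ce μ (fr X (e 0 a) r) (F a)) j) else
          Function.update F a (ce μ (fr X (e 0 a) r) (F a)) j) =
            if j ∈ S then ce μ (fr X (e 0 j) r) (F j) else F j := by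
        intro j
        by_cases h : j = a
        · subst h
          rw [if_neg (notMem_erase j S), if_pos haS, Function.update_self]
        · rw [Function.update_of_ne h]
          by_cases h' : j ∈ S
          · rw [if_pos h', if_pos (mem_erase.2 ⟨h, h'⟩)]
          · rw [if_neg h', if_neg fun h'' => h' (mem_of_mem_erase h'')]
      simp only [e1]
      have e2 := fun y : ι → X => mul_prod_erase univ (fun j => F j (y j)) (mem_univ a)
      have e3 := fun y : ι → X => mul_prod_erase univ
        (fun j => Function.update F a (ce μ (fr X (e 0 a) r) (F a)) j (y j)) (mem_univ a)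
      have e4 : ∀ y : ι → X, ∏ j ∈ univ.erase a, Function.update F a (ce μ (fr X (e 0 a) r) (F a)) j (y j) =
          ∏ j ∈ univ.erase a, F j (y j) := fun y =>
        prod_congr rfl fun j hj => by rw [Function.update_of_ne (ne_of_mem_erase hj)]
      rw [← e2, ← e3, e4]
      simp only [Function.update_self]
      ring

/-- all factors decouple in all coordinates -/
theorem stagesB (he : ∀ b j, Nil μ (e b j)) {P : Fin (B + 1) → Fin d → ι → Polynomial ℝ}
    (hP : ∀ b i j, P b i j = 0 ∨ 0 < (P b i j).natDegree) {T : Finset ι}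
    (hFr : FreeT (P 0) T) {W : ℕ → X → ℝ} (hWm : ∀ n, Measurable (W n)) (hWb : ∃ C : ℝ, ∀ n x, |W n x| ≤ C)
    {f : ι → X → ℝ} (hf : ∀ j, BM (f j)) (hT : ∀ j, j ∉ T → InvN μ (NN (e 0 j) 0) (f j) ∨ ∀ i, P 0 i j = 0)
    (n : ℕ) (hn : n ≤ K) : ∃ F : ι → X → ℝ, (∀ j, BM (F j)) ∧
      (∀ j ∈ T, InvN μ (NN (e 0 j) (K - n)) (F j)) ∧ (∀ j, j ∉ T → F j = f j) ∧
      (∀ j, μ[F j | IG μ (e 0 j)] =ᵐ[μ] μ[f j | IG μ (e 0 j)]) ∧
      ∀ᵐ v : Fin (B + 1) → Fin d → Fin K → ℝ, ∀ᵐ x ∂μ, Tendsto (fun N : ℕ => (1 / (N : ℝ)) *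
        ∑ n ∈ Icc 1 N, W n x * (∏ j, f j (pt e P j (n : ℝ) v x) - ∏ j, F j (pt e P j (n : ℝ) v x)))
        atTop (nhds 0) := by
  induction n with
  | zero =>
    refine ⟨f, hf, fun j _ => (he 0 j).invN fun l s hl => ?_, fun _ _ => rfl, fun _ => EventuallyEq.rfl,
      ae_of_all _ fun v => ae_of_all _ fun x => by simp⟩
    have := l.2
    omega
  | succ n ih =>
    obtain ⟨F, hF, hF1, hF0, hFc, hFt⟩ := ih (by omega)
    set r : Fin K := ⟨K - (n + 1), by omega⟩ with hr
    have hr1 : (r : ℕ) + 1 = K - n := by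
      rw [hr]
      show K - (n + 1) + 1 = K - n
      omega
    have h1 := stageB he r hP hFr hWm hWb T (Finset.Subset.refl T) F hF
      (fun j hj => by rw [hr1]; exact hF1 j hj)
      (fun j hj => by
        rcases hT j hj with h | h
        · left
          rw [hF0 j hj]
          exact fun g hg => h g (NN_anti (Nat.zero_le _) hg)
        · exact Or.inr h)
    refine ⟨fun j => if j ∈ T then ce μ (fr X (e 0 j) r) (F j) else F j, fun j => ?_, fun j hj => ?_, fun j hj => ?_,
      fun j => ?_, ?_⟩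
    · show BM (if j ∈ T then ce μ (fr X (e 0 j) r) (F j) else F j)
      split_ifs
      · exact ce_bm _
      · exact hF j
    · show InvN μ _ (if j ∈ T then ce μ (fr X (e 0 j) r) (F j) else F j)
      rw [if_pos hj]
      exact (he 0 j).ce r (hF j) (by rw [hr1]; exact hF1 j hj)
    · show (if j ∈ T then ce μ (fr X (e 0 j) r) (F j) else F j) = _
      rw [if_neg hj]
      exact hF0 j hj
    · show μ[(if j ∈ T then ce μ (fr X (e 0 j) r) (F j) else F j) | IG μ (e 0 j)] =ᵐ[μ] _
      split_ifs
      · exact (ce_IG ((he 0 j).fr_flow r) (hF j)).trans (hFc j)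
      · exact hFc j
    · filter_upwards [hFt, h1] with v hv1 hv2
      filter_upwards [hv1, hv2] with x hx1 hx2
      have h3 := hx1.add hx2
      rw [add_zero] at h3
      refine h3.congr fun N => ?_
      rw [← mul_add, ← sum_add_distrib]
      congr 1
      refine sum_congr rfl fun n _ => ?_
      ring

omit [MeasurableSpace X] [Fintype ι] [DecidableEq ι] in
/-- the tail of the word -/
theorem pt_succ (P : Fin (B + 1) → Fin d → ι → Polynomial ℝ) (j : ι) (n : ℝ)
    (v : Fin (B + 1) → Fin d → Fin K → ℝ) (x : X) : pt e P j n v x =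
      wR (e 0 j) (fun i => (P 0 i j).eval n) (v 0) •
        pt (fun b j => e b.succ j) (fun b => P b.succ) j n (fun b => v b.succ) x := rfl

/-- the outermost block is removed -/
theorem blockB (he : ∀ b j, Nil μ (e b j)) {P : Fin (B + 1) → Fin d → ι → Polynomial ℝ}
    (hP : ∀ b i j, P b i j = 0 ∨ 0 < (P b i j).natDegree) {T : Finset ι}
    (hFr : FreeT (P 0) T) {W : ℕ → X → ℝ} (hWm : ∀ n, Measurable (W n)) (hWb : ∃ C : ℝ, ∀ n x, |W n x| ≤ C)
    {f : ι → X → ℝ} (hf : ∀ j, BM (f j)) (hT : ∀ j, j ∉ T → InvN μ (NN (e 0 j) 0) (f j) ∨ ∀ i, P 0 i j = 0)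
    {F' : ι → X → ℝ} (hF' : ∀ j, F' j =ᵐ[μ] if j ∈ T then μ[f j | IG μ (e 0 j)] else f j) :
      ∀ᵐ v : Fin (B + 1) → Fin d → Fin K → ℝ, ∀ᵐ x ∂μ, Tendsto (fun N : ℕ => (1 / (N : ℝ)) *
        ∑ n ∈ Icc 1 N, W n x * (∏ j, f j (pt e P j (n : ℝ) v x) -
          ∏ j, F' j (pt (fun b j => e b.succ j) (fun b => P b.succ) j (n : ℝ) (fun b => v b.succ) x)))
        atTop (nhds 0) := by
  obtain ⟨F, hF, hF1, hF0, hFc, hFt⟩ := stagesB he hP hFr hWm hWb hf hT K le_rfl
  rw [Nat.sub_self] at hF1
  filter_upwards [hFt] with v hv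
  have hmem : ∀ (j : ι) (n : ℕ), wR (e 0 j) (fun i => (P 0 i j).eval (n : ℝ)) (v 0) ∈ NN (e 0 j) 0 := by
    intro j n
    unfold wR
    refine Subgroup.list_prod_mem _ fun g hg => ?_
    rw [List.mem_ofFn] at hg
    obtain ⟨i, rfl⟩ := hg
    exact e_mem (he 0 j).add (he 0 j).split _
  have htl : ∀ (j : ι) (n : ℕ), MeasurePreserving (fun x : X =>
      pt (fun b j => e b.succ j) (fun b => P b.succ) j (n : ℝ) (fun b => v b.succ) x) μ μ := fun j n =>
    wB_mp (fun b => he b.succ j) _ _
  have h1 : ∀ᵐ x ∂μ, ∀ (n : ℕ) (j : ι), F j (pt e P j (n : ℝ) v x) =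
      F' j (pt (fun b j => e b.succ j) (fun b => P b.succ) j (n : ℝ) (fun b => v b.succ) x) := by
    rw [ae_all_iff]; intro n
    rw [ae_all_iff]; intro j
    have key : ∀ᵐ y ∂μ, F j (wR (e 0 j) (fun i => (P 0 i j).eval (n : ℝ)) (v 0) • y) = F' j y := by
      by_cases hj : j ∈ T
      · have h2 : F j =ᵐ[μ] μ[f j | IG μ (e 0 j)] := by
          have h3 := hFc j
          rw [inv_IG (hF j) (fun v => hF1 j hj _ (e_mem (he 0 j).add (he 0 j).split v))] at h3
          exact h3
        have h4 := hF' j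
        rw [if_pos hj] at h4
        filter_upwards [h2, h4, hF1 j hj _ (hmem j n)] with x hx1 hx2 hx3
        rw [hx3, hx1, hx2]
      · have h4 := hF' j
        rw [if_neg hj] at h4
        rw [hF0 j hj]
        rcases hT j hj with h | h
        · filter_upwards [h4, h _ (hmem j n)] with x hx1 hx2
          rw [hx2, hx1]
        · have h5 : wR (e 0 j) (fun i => (P 0 i j).eval (n : ℝ)) (v 0) = 1 := by
            unfold wR
            simp only [h, Polynomial.eval_zero, zero_smul, (he 0 j).zero]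
            rw [List.ofFn_const, List.prod_replicate, one_pow]
          filter_upwards [h4] with x hx1
          rw [h5, one_smul, hx1]
    exact (htl j n).quasiMeasurePreserving.ae key
  filter_upwards [hv, h1] with x hx1 hx2
  simpa only [hx2] using hx1

end stage

end Pool.Agent.W5h67.NF
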