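import Pool.Agent.W5h67.NF.Sup

/-!
# Iterated conditional expectations
-/

set_option autoImplicit false

namespace Pool.Agent.W5h67.NF

open MeasureTheory Filter Finset

universe u

open Classical in
/-- iterated conditional expectations of a real function -/
noncomputable def itR {X : Type u} [MeasurableSpace X] (μ : Measure X) :
    (B : ℕ) → (Fin B → MeasurableSpace X) → (Fin B → Prop) → (X → ℝ) → X → ℝ
  | 0, _, _, f => f
  | B + 1, m, c, f =>
    itR μ B (fun b => m b.succ) (fun b => c b.succ) (if c 0 then μ[f | m 0] else f)

open Classical in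
/-- iterated conditional expectations of a complex function -/
noncomputable def itC {X : Type u} [MeasurableSpace X] (μ : Measure X) :
    (B : ℕ) → (Fin B → MeasurableSpace X) → (Fin B → Prop) → (X → ℂ) → X → ℂ
  | 0, _, _, f => f
  | B + 1, m, c, f =>
    itC μ B (fun b => m b.succ) (fun b => c b.succ) (if c 0 then μ[f | m 0] else f)

variable {X : Type u} [mX : MeasurableSpace X] {μ : Measure X}

theorem itR_congr {B : ℕ} {m : Fin B → MeasurableSpace X} {c : Fin B → Prop} {f g : X → ℝ}
    (h : f =ᵐ[μ] g) : itR μ B m c f =ᵐ[μ] itR μ B m c g := by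
  induction B generalizing f g with
  | zero => exact h
  | succ B ih =>
    unfold itR
    refine ih ?_
    split_ifs
    · exact condExp_congr_ae h
    · exact h

theorem itC_congr {B : ℕ} {m : Fin B → MeasurableSpace X} {c : Fin B → Prop} {f g : X → ℂ}
    (h : f =ᵐ[μ] g) : itC μ B m c f =ᵐ[μ] itC μ B m c g := by
  induction B generalizing f g with
  | zero => exact h
  | succ B ih =>
    unfold itC
    refine ih ?_
    split_ifs
    · exact condExp_congr_ae h
    · exact h

theorem itC_re_im [IsProbabilityMeasure μ] {B : ℕ} {m : Fin B → MeasurableSpace X}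
    {c : Fin B → Prop} {f : X → ℂ} (hf : Integrable f μ) :
    ∀ᵐ x ∂μ, (itC μ B m c f x).re = itR μ B m c (fun y => (f y).re) x ∧
      (itC μ B m c f x).im = itR μ B m c (fun y => (f y).im) x := by
  induction B generalizing f with
  | zero => exact Eventually.of_forall fun x => ⟨rfl, rfl⟩
  | succ B ih =>
    by_cases h0 : c 0
    · have e1 : itC μ (B + 1) m c f = itC μ B (fun b => m b.succ) (fun b => c b.succ) (μ[f | m 0]) := by
        conv_lhs => unfold itC
        rw [if_pos h0]
      have e2 : ∀ g : X → ℝ, itR μ (B + 1) m c g =
          itR μ B (fun b => m b.succ) (fun b => c b.succ) (μ[g | m 0]) := by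
        intro g
        conv_lhs => unfold itR
        rw [if_pos h0]
      have h1 := ih (m := fun b => m b.succ) (c := fun b => c b.succ)
        (f := μ[f | m 0]) integrable_condExp
      have h2 := condExp_re_im (m := m 0) (μ := μ) hf
      have h3 : (fun y => ((μ[f | m 0]) y).re) =ᵐ[μ] μ[fun y => (f y).re | m 0] := by
        filter_upwards [h2] with x hx
        rw [hx]
        simp
      have h4 : (fun y => ((μ[f | m 0]) y).im) =ᵐ[μ] μ[fun y => (f y).im | m 0] := by
        filter_upwards [h2] with x hx
        rw [hx]
        simp
      have h5 := itR_congr (B := B) (m := fun b => m b.succ) (c := fun b => c b.succ) h3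
      have h6 := itR_congr (B := B) (m := fun b => m b.succ) (c := fun b => c b.succ) h4
      rw [e1]
      simp only [e2]
      filter_upwards [h1, h5, h6] with x h7 h8 h9
      exact ⟨h7.1.trans h8, h7.2.trans h9⟩
    · have e1 : itC μ (B + 1) m c f = itC μ B (fun b => m b.succ) (fun b => c b.succ) f := by
        conv_lhs => unfold itC
        rw [if_neg h0]
      have e2 : ∀ g : X → ℝ, itR μ (B + 1) m c g =
          itR μ B (fun b => m b.succ) (fun b => c b.succ) g := by
        intro g
        conv_lhs => unfold itR
        rw [if_neg h0]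
      rw [e1]
      simp only [e2]
      exact ih hf

end Pool.Agent.W5h67.NF
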