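import Pool.Agent.W5h67.NF.Blk4
import Pool.Agent.W5h67.NF.BlkIt

/-!
Blocks of letters, each generic in its own nilpotent group: all blocks, real functions.
-/

set_option autoImplicit false

namespace Pool.Agent.W5h67.NF

open MeasureTheory Filter Finset
open Pool.Agent.Y957.MC (IsFlow flowInv smo)

universe u v

section ind

variable {X : Type u} [MeasurableSpace X] {μ : Measure X} {K d : ℕ} {ι : Type}

omit [MeasurableSpace X] in
theorem pt_eq {B : ℕ} {G : Fin B → ι → Type v} [∀ b j, Group (G b j)] [∀ b j, MulAction (G b j) X]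
    {e : ∀ b j, (Fin K → ℝ) → G b j} {P : Fin B → Fin d → ι → Polynomial ℝ} {j j' : ι}
    (h : ∀ b, (∀ (v : Fin K → ℝ) (x : X), e b j' v • x = e b j v • x) ∧ ∀ i, P b i j' = P b i j) (n : ℝ)
    (v : Fin B → Fin d → Fin K → ℝ) (x : X) : pt e P j' n v x = pt e P j n v x := by
  unfold pt wB
  congr 1
  funext b y
  rw [wR_smul, wR_smul, wd_cmp, wd_cmp]
  congr 1
  funext i z
  rw [(h b).1]
  show e b j ((P b i j').eval n • v b i) • z = e b j ((P b i j).eval n • v b i) • z
  rw [(h b).2]

theorem qmp_tail (B d K : ℕ) : Measure.QuasiMeasurePreserving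
    (fun v : Fin (B + 1) → Fin d → Fin K → ℝ => fun b : Fin B => v b.succ) volume volume := by
  have h1 := (measurePreserving_piFinSuccAbove (fun _ : Fin (B + 1) => (volume : Measure (Fin d → Fin K → ℝ)))
    0).quasiMeasurePreserving
  exact Measure.quasiMeasurePreserving_snd.comp h1

variable [IsProbabilityMeasure μ]

/-- bounded versions of conditional expectations -/
theorem exV {X : Type u} {m : MeasurableSpace X} [mX : MeasurableSpace X] {μ : Measure X} (hm : m ≤ mX) {g : X → ℝ}
    (hg : BM g) : ∃ g' : X → ℝ, BM g' ∧ g' =ᵐ[μ] μ[g | m] := by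
  refine ⟨fun x => max (-bd g) (min (bd g) ((μ[g | m]) x)), ⟨?_, bd g, fun x => ?_⟩, ?_⟩
  · have h1 : Measurable (μ[g | m]) := (stronglyMeasurable_condExp.mono hm).measurable
    exact measurable_const.max (measurable_const.min h1)
  · rw [abs_le]
    have := bd_nonneg g
    exact ⟨le_max_left _ _, max_le (by linarith) (min_le_left _ _)⟩
  · have h := ae_bdd_abs_condExp_of_ae_bdd_abs (m := m) (μ := μ) (R := bd g) (f := g)
      (ae_of_all _ fun x => bd_le hg x)
    filter_upwards [h] with x hx'
    rw [abs_le] at hx'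
    rw [min_eq_right hx'.2, max_eq_right hx'.1]

variable [Fintype ι] [DecidableEq ι]

/-- the polynomials to which the theorem applies: `act b j` if the column `j` of the block `b` is not zero; the words
`j` and `κ b j` agree from the block `b` on; the columns of the representatives are free -/
def Adm (X : Type u) {B : ℕ} {G : Fin B → ι → Type v} [∀ b j, Group (G b j)] [∀ b j, MulAction (G b j) X]
    (e : ∀ b j, (Fin K → ℝ) → G b j) (κ : Fin B → ι → ι) (act : Fin B → ι → Prop)
    (P : Fin B → Fin d → ι → Polynomial ℝ) : Prop :=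
  (∀ b i j, P b i j = 0 ∨ 0 < (P b i j).natDegree) ∧ (∀ b j, (∃ i, P b i j ≠ 0) ↔ act b j) ∧
  (∀ b l, b ≤ l → ∀ j, (∀ (v : Fin K → ℝ) (x : X), e l (κ b j) v • x = e l j v • x) ∧ ∀ i, P l i (κ b j) = P l i j) ∧
  ∀ b (T : Finset ι), (∀ j ∈ T, κ b j = j ∧ act b j) → FreeT (P b) T

/-- real functions, one-sided averages -/
theorem real_blk (B : ℕ) {G : Fin B → ι → Type v} [∀ b j, Group (G b j)] [∀ b j, MulAction (G b j) X]
    {e : ∀ b j, (Fin K → ℝ) → G b j} (he : ∀ b j, Nil μ (e b j)) {κ : Fin B → ι → ι}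
    (hκ : ∀ b j, κ b (κ b j) = κ b j) (act : Fin B → ι → Prop) {f : ι → X → ℝ} (hf : ∀ j, BM (f j)) :
    ∃ L : X → ℝ, (∀ P : Fin B → Fin d → ι → Polynomial ℝ, Adm X e κ act P →
      ∀ W : ℕ → X → ℝ, (∀ n, Measurable (W n)) → (∃ C : ℝ, ∀ n x, |W n x| ≤ C) →
        ∀ᵐ v : Fin B → Fin d → Fin K → ℝ, ∀ᵐ x ∂μ, Tendsto (fun N : ℕ => (1 / (N : ℝ)) * ∑ n ∈ Icc 1 N, W n x *
          (∏ j, f j (pt e P j (n : ℝ) v x) - L x)) atTop (nhds 0)) ∧
      ((∀ b j, κ b j = j) → L =ᵐ[μ] fun x => ∏ j, itR μ B (fun b => IG μ (e b j)) (fun b => act b j) (f j) x) := by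
  classical
  induction B generalizing f with
  | zero =>
    refine ⟨fun x => ∏ j, f j x, fun P _ W _ _ => ae_of_all _ fun v => ae_of_all _ fun x => ?_,
      fun _ => EventuallyEq.rfl⟩
    have e1 : ∀ n : ℕ, ∏ j, f j (pt e P j (n : ℝ) v x) = ∏ j, f j x := fun n => rfl
    simp only [e1, sub_self, mul_zero, sum_const_zero]
    exact tendsto_const_nhds
  | succ B ih =>
    set f' : ι → X → ℝ := mrg (κ 0) f with hf'd
    have hf' : ∀ j, BM (f' j) := mrg_bm (κ 0) hf
    set T : Finset ι := univ.filter fun j => κ 0 j = j ∧ act 0 j with hTd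
    have hTm : ∀ j, j ∈ T ↔ (κ 0 j = j ∧ act 0 j) := fun j => by simp [hTd]
    choose V hV hVe using fun j => exV (μ := μ) (IG_le μ (e 0 j)) (hf' j)
    set F : ι → X → ℝ := fun j => if j ∈ T then V j else f' j with hFd
    have hF : ∀ j, BM (F j) := by
      intro j
      simp only [hFd]
      split_ifs
      · exact hV j
      · exact hf' j
    have hFe : ∀ j, F j =ᵐ[μ] if j ∈ T then μ[f' j | IG μ (e 0 j)] else f' j := by
      intro j
      simp only [hFd]
      split_ifs
      · exact hVe j
      · exact EventuallyEq.rfl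
    obtain ⟨L, hL1, hL2⟩ := ih (e := fun b j => e b.succ j) (fun b j => he b.succ j) (κ := fun b => κ b.succ)
      (fun b j => hκ b.succ j) (fun b => act b.succ) hF
    refine ⟨L, fun P hP W hWm hWb => ?_, fun hid => ?_⟩
    · obtain ⟨hP0, hPa, hPw, hPf⟩ := hP
      have hT : ∀ j, j ∉ T → InvN μ (NN (e 0 j) 0) (f' j) ∨ ∀ i, P 0 i j = 0 := by
        intro j hj
        by_cases h : κ 0 j = j
        · right
          intro i
          by_contra h'
          exact hj ((hTm j).2 ⟨h, (hPa 0 j).1 ⟨i, h'⟩⟩)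
        · left
          intro g _
          refine ae_of_all _ fun x => ?_
          rw [hf'd, mrg_one (hκ 0) f h, mrg_one (hκ 0) f h]
      have h1 := blockB he hP0 (hPf 0 T fun j hj => (hTm j).1 hj) hWm hWb hf' hT hFe
      have h2 := (qmp_tail B d K).ae (hL1 (fun b => P b.succ) ⟨fun b i j => hP0 b.succ i j, fun b j => hPa b.succ j,
        fun b l hbl j => hPw b.succ l.succ (Fin.succ_le_succ_iff.2 hbl) j, fun b T hT => hPf b.succ T hT⟩ W hWm hWb)
      filter_upwards [h1, h2] with v hv1 hv2
      filter_upwards [hv1, hv2] with x hx1 hx2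
      have h3 := hx1.add hx2
      rw [add_zero] at h3
      refine h3.congr fun N => ?_
      rw [← mul_add, ← sum_add_distrib]
      congr 1
      refine sum_congr rfl fun n _ => ?_
      have h4 := mrg_prod (κ := κ 0) f (fun j => pt e P j (n : ℝ) v x) fun j =>
        pt_eq (fun b => hPw 0 b (Fin.zero_le _) j) _ _ _
      rw [← h4]
      ring
    · refine (hL2 fun b j => hid b.succ j).trans ?_
      have h5 : ∀ j, f' j = f j := by
        intro j
        funext x
        rw [hf'd]
        unfold mrg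
        simp only [hid]
        rw [Finset.filter_eq' univ j, if_pos (mem_univ j), prod_singleton]
      have h6 : ∀ᵐ x ∂μ, ∀ j, itR μ B (fun b => IG μ (e b.succ j)) (fun b => act b.succ j) (F j) x =
          itR μ (B + 1) (fun b => IG μ (e b j)) (fun b => act b j) (f j) x := by
        rw [ae_all_iff]
        intro j
        refine itR_congr ?_
        refine (hFe j).trans ?_
        rw [h5]
        by_cases hj : act 0 j
        · rw [if_pos ((hTm j).2 ⟨hid 0 j, hj⟩), if_pos hj]
        · rw [if_neg fun h => hj ((hTm j).1 h).2, if_neg hj]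
      filter_upwards [h6] with x hx
      exact prod_congr rfl fun j _ => hx j

end ind

end Pool.Agent.W5h67.NF
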