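import Pool.Agent.W5h67.NF.Meas

/-!
Words in noncommuting flows at generic times: generic elements of groups, weights and limits.
-/

set_option autoImplicit false

namespace Pool.Agent.W5h67.NF

open MeasureTheory Filter Finset
open Pool.Agent.Y957.MC (IsFlow flowInv)

universe u v

/-- bounded measurable versions of weights -/
theorem weights_version {X : Type u} [MeasurableSpace X] {μ : Measure X} {W : ℤ → X → ℂ}
    (hWm : ∀ n, AEStronglyMeasurable (W n) μ) (hWb : ∃ C : ℝ, ∀ n, ∀ᵐ x ∂μ, ‖W n x‖ ≤ C) :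
    ∃ V : ℤ → X → ℂ, (∀ n, Measurable (V n)) ∧ (∃ C : ℝ, ∀ n x, ‖V n x‖ ≤ C) ∧ ∀ᵐ x ∂μ, ∀ n, W n x = V n x := by
  obtain ⟨C, hC⟩ := hWb
  refine ⟨fun n x => if ‖(hWm n).mk (W n) x‖ ≤ C then (hWm n).mk (W n) x else 0, fun n => ?_, ⟨max C 0, fun n x => ?_⟩, ?_⟩
  · have hm : Measurable ((hWm n).mk (W n)) := (hWm n).stronglyMeasurable_mk.measurable
    exact Measurable.ite (measurableSet_le hm.norm measurable_const) hm measurable_const
  · dsimp only
    split_ifs with h
    · exact h.trans (le_max_left _ _)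
    · simp
  · rw [ae_all_iff]
    intro n
    filter_upwards [hC n, (hWm n).ae_eq_mk] with x h1 h2
    rw [← h2, if_pos h1]

theorem card_two (N : ℕ) : ((Icc (-(N : ℤ)) N).card : ℝ) = 2 * (N : ℝ) + 1 := by
  rw [Int.card_Icc]
  have : ((N : ℤ) + 1 - -(N : ℤ)).toNat = 2 * N + 1 := by omega
  rw [this]
  push_cast
  ring

/-- the averages of a bounded sequence times a null sequence -/
theorem bdd_mul {c : ℤ → ℂ} (hc : ∃ C : ℝ, ∀ n, ‖c n‖ ≤ C) {δ : ℕ → ℂ} (hδ : Tendsto δ atTop (nhds 0)) :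
    Tendsto (fun N : ℕ => ((1 / (2 * (N : ℂ) + 1)) * ∑ n ∈ Icc (-(N : ℤ)) N, c n) * δ N) atTop (nhds 0) := by
  obtain ⟨C, hC⟩ := hc
  have h1 : Tendsto (fun N : ℕ => C * ‖δ N‖) atTop (nhds 0) := by
    have := (tendsto_norm_zero.comp hδ).const_mul C
    simpa using this
  refine squeeze_zero_norm (fun N => ?_) h1
  rw [norm_mul]
  refine mul_le_mul_of_nonneg_right ?_ (norm_nonneg _)
  have h2 : ‖(1 / (2 * (N : ℂ) + 1))‖ = 1 / (2 * (N : ℝ) + 1) := by
    have : (1 / (2 * (N : ℂ) + 1)) = ((1 / (2 * (N : ℝ) + 1) : ℝ) : ℂ) := by push_cast; rfl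
    rw [this, Complex.norm_real, Real.norm_of_nonneg (by positivity)]
  rw [norm_mul, h2]
  have h3 : ‖∑ n ∈ Icc (-(N : ℤ)) N, c n‖ ≤ (2 * (N : ℝ) + 1) * C := by
    refine (norm_sum_le _ _).trans ((sum_le_sum fun n _ => hC n).trans ?_)
    rw [sum_const, nsmul_eq_mul, card_two]
  calc 1 / (2 * (N : ℝ) + 1) * ‖∑ n ∈ Icc (-(N : ℤ)) N, c n‖ ≤ 1 / (2 * (N : ℝ) + 1) * ((2 * (N : ℝ) + 1) * C) :=
        mul_le_mul_of_nonneg_left h3 (by positivity)
    _ = C := by
        field_simp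

/-- two forms of the convergence with weights -/
theorem wt_iff {φ c : ℤ → ℂ} (hc : ∃ C : ℝ, ∀ n, ‖c n‖ ≤ C) {L : ℂ}
    (h : Tendsto (fun N : ℕ => (1 / (2 * (N : ℂ) + 1)) * ∑ n ∈ Icc (-(N : ℤ)) N, φ n) atTop (nhds L)) :
    Tendsto (fun N : ℕ => (1 / (2 * (N : ℂ) + 1)) * ∑ n ∈ Icc (-(N : ℤ)) N, c n * (φ n - L)) atTop (nhds 0) ↔
    Tendsto (fun N : ℕ => (1 / (2 * (N : ℂ) + 1)) * ∑ n ∈ Icc (-(N : ℤ)) N, c n * φ n -
      ((1 / (2 * (N : ℂ) + 1)) * ∑ n ∈ Icc (-(N : ℤ)) N, c n) *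
      ((1 / (2 * (N : ℂ) + 1)) * ∑ n ∈ Icc (-(N : ℤ)) N, φ n)) atTop (nhds 0) := by
  have h1 := bdd_mul hc (δ := fun N : ℕ => (1 / (2 * (N : ℂ) + 1)) * ∑ n ∈ Icc (-(N : ℤ)) N, φ n - L)
    (by simpa using h.sub_const L)
  have e : ∀ N : ℕ, (1 / (2 * (N : ℂ) + 1)) * ∑ n ∈ Icc (-(N : ℤ)) N, c n * (φ n - L) =
      ((1 / (2 * (N : ℂ) + 1)) * ∑ n ∈ Icc (-(N : ℤ)) N, c n * φ n -
      ((1 / (2 * (N : ℂ) + 1)) * ∑ n ∈ Icc (-(N : ℤ)) N, c n) *
      ((1 / (2 * (N : ℂ) + 1)) * ∑ n ∈ Icc (-(N : ℤ)) N, φ n)) +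
      ((1 / (2 * (N : ℂ) + 1)) * ∑ n ∈ Icc (-(N : ℤ)) N, c n) *
        ((1 / (2 * (N : ℂ) + 1)) * ∑ n ∈ Icc (-(N : ℤ)) N, φ n - L) := by
    intro N
    simp only [mul_sub, sum_sub_distrib, ← sum_mul]
    ring
  constructor
  · intro h2
    have h3 := h2.sub h1
    rw [sub_zero] at h3
    refine h3.congr fun N => ?_
    rw [e]
    ring
  · intro h2
    have h3 := h2.add h1
    rw [add_zero] at h3
    exact h3.congr fun N => (e N).symm

section grp

variable {X : Type u} [MeasurableSpace X] {μ : Measure X} {G : Type v} [Group G] [MulAction G X] {d k m : ℕ}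
  {e : Fin d → Fin m → (Fin k → ℝ) → G} {f : Fin m → X → ℂ}

/-- the words -/
def wrd (e : Fin d → Fin m → (Fin k → ℝ) → G) (P : Fin d → Fin m → Polynomial ℤ) (j : Fin m) (n : ℤ)
    (v : Fin d → Fin k → ℝ) (x : X) : X :=
  cmp d (fun i y => e i j ((((P i j).eval n : ℤ) : ℝ) • v i) • y) x

theorem wrd_meas (hm : ∀ i j, Measurable fun p : (Fin k → ℝ) × X => e i j p.1 • p.2)
    (P : Fin d → Fin m → Polynomial ℤ) (j : Fin m) (n : ℤ) :
    Measurable fun q : (Fin d → Fin k → ℝ) × X => wrd e P j n q.1 q.2 := by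
  refine cmp_meas d (fun i (v : Fin d → Fin k → ℝ) (y : X) => e i j ((((P i j).eval n : ℤ) : ℝ) • v i) • y) fun i => ?_
  refine (hm i j).comp (Measurable.prodMk ?_ measurable_snd)
  have hj : Measurable fun q : (Fin d → Fin k → ℝ) × X => q.1 i := (measurable_pi_apply i).comp measurable_fst
  exact hj.const_smul (((P i j).eval n : ℤ) : ℝ)

theorem wrd_mp (he : ∀ i j (s t : ℝ) v, e i j ((s + t) • v) = e i j (s • v) * e i j (t • v))
    (hm : ∀ i j, Measurable fun p : (Fin k → ℝ) × X => e i j p.1 • p.2)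
    (hp : ∀ i j v, MeasurePreserving (fun x : X => e i j v • x) μ μ)
    (P : Fin d → Fin m → Polynomial ℤ) (j : Fin m) (n : ℤ) (v : Fin d → Fin k → ℝ) :
    MeasurePreserving (wrd e P j n v : X → X) μ μ := by
  have h4 := wd_mp (μ := μ) (τ := fun i (t : ℝ) (x : X) => e i j (t • v i) • x)
    (fun i => exp_flow (e := fun i => e i j) (fun i => he i j) (fun i => hm i j) (fun i => hp i j) i (v i))
    (fun i => (((P i j).eval n : ℤ) : ℝ))
  have h5 : wd d (fun i (t : ℝ) (x : X) => e i j (t • v i) • x) (fun i => (((P i j).eval n : ℤ) : ℝ)) =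
      (wrd e P j n v : X → X) := by
    funext x
    rw [wd_cmp]
    rfl
  rw [h5] at h4
  exact h4

theorem wrd_dil (P : Fin d → Fin m → Polynomial ℤ) (j : Fin m) (n : ℤ) (v : Fin d → Fin k → ℝ) (a : Fin d → ℝ)
    (x : X) : wd d (fun i (t : ℝ) (x : X) => e i j (t • v i) • x)
      (fun i => a i * ((P i j).map (Int.castRingHom ℝ)).eval (n : ℝ)) x =
      wrd e P j n (fun i => a i • v i) x := by
  rw [wd_cmp]
  unfold wrd
  congr 1
  funext i y
  have e1 : ((P i j).map (Int.castRingHom ℝ)).eval (n : ℝ) = (((P i j).eval n : ℤ) : ℝ) := by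
    rw [Polynomial.eval_map, Polynomial.eval₂_at_intCast]
    simp
  rw [e1, smul_smul, mul_comm]

theorem wrd_eq (he : ∀ i j (s t : ℝ) v, e i j ((s + t) • v) = e i j (s • v) * e i j (t • v))
    (P : Fin d → Fin m → Polynomial ℤ) (j : Fin m) (n : ℤ) (v : Fin d → Fin k → ℝ) (x : X) :
    (List.ofFn fun i => e i j (v i) ^ (P i j).eval n).prod • x = wrd e P j n v x := by
  rw [cmp_smul]
  unfold wrd
  congr 1
  funext i y
  rw [exp_zpow (e := fun i => e i j) (fun i => he i j)]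

variable [IsProbabilityMeasure μ]

theorem deg_map (P : Polynomial ℤ) : (P.map (Int.castRingHom ℝ)).natDegree = P.natDegree :=
  Polynomial.natDegree_map_eq_of_injective (RingHom.injective_int (Int.castRingHom ℝ)) _

/-- existence of the limits, with weights -/
theorem grp_wt (he : ∀ i j (s t : ℝ) v, e i j ((s + t) • v) = e i j (s • v) * e i j (t • v))
    (hm : ∀ i j, Measurable fun p : (Fin k → ℝ) × X => e i j p.1 • p.2)
    (hp : ∀ i j v, MeasurePreserving (fun x : X => e i j v • x) μ μ)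
    (hf : ∀ j, Measurable (f j)) (hb : ∀ j, ∃ C : ℝ, ∀ x, ‖f j x‖ ≤ C)
    {W : ℤ → X → ℂ} (hWm : ∀ n, Measurable (W n)) (hWb : ∃ C : ℝ, ∀ n x, ‖W n x‖ ≤ C)
    {P : Fin d → Fin m → Polynomial ℤ} (hP : ∀ i j, P i j = 0 ∨ 0 < (P i j).natDegree)
    (hT : ∀ i j j', 0 < (P i j).natDegree → (P i j).natDegree = (P i j').natDegree →
      ∀ l, i ≤ l → e l j = e l j' ∧ P l j = P l j') :
    ∀ᵐ v : Fin d → Fin k → ℝ, ∀ᵐ x ∂μ, ∃ L : ℂ,
      Tendsto (fun N : ℕ => (1 / (2 * (N : ℂ) + 1)) * ∑ n ∈ Icc (-(N : ℤ)) N, ∏ j, f j (wrd e P j n v x))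
        atTop (nhds L) ∧
      Tendsto (fun N : ℕ => (1 / (2 * (N : ℂ) + 1)) * ∑ n ∈ Icc (-(N : ℤ)) N,
        W n x * (∏ j, f j (wrd e P j n v x) - L)) atTop (nhds 0) := by
  obtain ⟨CW, hCW⟩ := hWb
  have key : ∀ᵐ v : Fin d → Fin k → ℝ, ∀ᵐ x ∂μ, (∃ L : ℂ,
      Tendsto (fun N : ℕ => (1 / (2 * (N : ℂ) + 1)) * ∑ n ∈ Icc (-(N : ℤ)) N, ∏ j, f j (wrd e P j n v x))
        atTop (nhds L)) ∧
      Tendsto (fun N : ℕ => (1 / (2 * (N : ℂ) + 1)) * ∑ n ∈ Icc (-(N : ℤ)) N, W n x * ∏ j, f j (wrd e P j n v x) -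
      ((1 / (2 * (N : ℂ) + 1)) * ∑ n ∈ Icc (-(N : ℤ)) N, W n x) *
      ((1 / (2 * (N : ℂ) + 1)) * ∑ n ∈ Icc (-(N : ℤ)) N, ∏ j, f j (wrd e P j n v x))) atTop (nhds 0) := by
    refine ae_of_dil ?_ ?_
    · have hφ : ∀ n : ℤ, Measurable fun q : (Fin d → Fin k → ℝ) × X => ∏ j, f j (wrd e P j n q.1 q.2) := fun n =>
        Finset.measurable_prod _ fun j _ => (hf j).comp (wrd_meas hm P j n)
      have hA : ∀ N : ℕ, Measurable fun q : (Fin d → Fin k → ℝ) × X => (1 / (2 * (N : ℂ) + 1)) *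
          ∑ n ∈ Icc (-(N : ℤ)) N, ∏ j, f j (wrd e P j n q.1 q.2) := fun N =>
        measurable_const.mul (Finset.measurable_sum _ fun n _ => hφ n)
      have hB : ∀ N : ℕ, Measurable fun q : (Fin d → Fin k → ℝ) × X => (1 / (2 * (N : ℂ) + 1)) *
          ∑ n ∈ Icc (-(N : ℤ)) N, W n q.2 * ∏ j, f j (wrd e P j n q.1 q.2) := fun N =>
        measurable_const.mul (Finset.measurable_sum _ fun n _ => ((hWm n).comp measurable_snd).mul (hφ n))
      have hC : ∀ N : ℕ, Measurable fun q : (Fin d → Fin k → ℝ) × X => (1 / (2 * (N : ℂ) + 1)) *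
          ∑ n ∈ Icc (-(N : ℤ)) N, W n q.2 := fun N =>
        measurable_const.mul (Finset.measurable_sum _ fun n _ => (hWm n).comp measurable_snd)
      have h1 := measurableSet_exists_tendsto (l := atTop) hA
      have h2 := measurableSet_tendsto_fun (l := atTop) (fun N => (hB N).sub ((hC N).mul (hA N)))
        (g := fun _ : (Fin d → Fin k → ℝ) × X => (0 : ℂ)) measurable_const
      have h3 := measurable_measure_prodMk_left (ν := μ) (h1.inter h2).compl
      exact h3 (measurableSet_singleton 0)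
    · intro v
      obtain ⟨g, hgm, hgb, hfg, h1⟩ := two_ess (μ := μ)
        (τ := fun i j (t : ℝ) (x : X) => e i j (t • v i) • x)
        (fun i j => exp_flow (e := fun i => e i j) (fun i => he i j) (fun i => hm i j) (fun i => hp i j) i (v i))
        (P := fun i j => (P i j).map (Int.castRingHom ℝ))
        (fun i j => (hP i j).imp (fun h => by rw [h, Polynomial.map_zero]) (fun h => by rw [deg_map]; exact h))
        (fun i j j' h3 h4 l hl => by
          rw [deg_map] at h3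
          rw [deg_map, deg_map] at h4
          have h5 := hT i j j' h3 h4 l hl
          exact ⟨by rw [h5.1], by rw [h5.2]⟩)
        (f := f) (fun j => (hf j).aestronglyMeasurable) (fun j => by
          obtain ⟨C, hC⟩ := hb j
          exact ⟨C, ae_of_all _ hC⟩)
      have h2 := h1 (fun _ _ => 1) (fun _ => aestronglyMeasurable_const) ⟨1, fun _ => ae_of_all _ fun _ => by simp⟩
      have h3 := h1 W (fun n => (hWm n).aestronglyMeasurable) ⟨CW, fun n => ae_of_all _ fun x => hCW n x⟩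
      filter_upwards [h2, h3] with a ha2 ha3
      filter_upwards [ha2, ha3] with x hx2 hx3
      simp only [wrd_dil, one_mul] at hx2 hx3
      have h4 := avg_of_diff hx2
      exact ⟨⟨_, h4⟩, (wt_iff ⟨CW, fun n => hCW n x⟩ h4).1 hx3⟩
  filter_upwards [key] with v hv
  filter_upwards [hv] with x hx
  obtain ⟨⟨L, hL⟩, h2⟩ := hx
  exact ⟨L, hL, (wt_iff ⟨CW, fun n => hCW n x⟩ hL).2 h2⟩

/-- the limits for distinct degrees -/
theorem grp_lim (he : ∀ i j (s t : ℝ) v, e i j ((s + t) • v) = e i j (s • v) * e i j (t • v))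
    (hm : ∀ i j, Measurable fun p : (Fin k → ℝ) × X => e i j p.1 • p.2)
    (hp : ∀ i j v, MeasurePreserving (fun x : X => e i j v • x) μ μ)
    (hf : ∀ j, Measurable (f j)) (hb : ∀ j, ∃ C : ℝ, ∀ x, ‖f j x‖ ≤ C)
    {P : Fin d → Fin m → Polynomial ℤ} (hP : ∀ i j, P i j = 0 ∨ 0 < (P i j).natDegree)
    (hD : ∀ i j j', 0 < (P i j).natDegree → (P i j).natDegree = (P i j').natDegree → j = j') :
    ∀ᵐ v : Fin d → Fin k → ℝ, ∀ᵐ x ∂μ,
      Tendsto (fun N : ℕ => (1 / (2 * (N : ℂ) + 1)) * ∑ n ∈ Icc (-(N : ℤ)) N, ∏ j, f j (wrd e P j n v x))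
        atTop (nhds (∏ j, iC μ d (fun i t x => e i j (t • v i) • x) (fun i => 0 < (P i j).natDegree) (f j) x)) := by
  have hσm : ∀ i j, Measurable fun q : ℝ × ((Fin k → ℝ) × X) => e i j (q.1 • q.2.1) • q.2.2 := by
    intro i j
    refine (hm i j).comp (Measurable.prodMk ?_ (measurable_snd.comp measurable_snd))
    exact measurable_fst.smul (measurable_fst.comp measurable_snd)
  have hσ : ∀ i j (v : Fin k → ℝ), IsFlow μ (fun (t : ℝ) (x : X) => e i j (t • v) • x) := fun i j v =>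
    exp_flow (e := fun i => e i j) (fun i => he i j) (fun i => hm i j) (fun i => hp i j) i v
  have hre : ∀ j, BM (fun y : Unit × X => (f j y.2).re) := fun j => by
    obtain ⟨C, hC⟩ := hb j
    exact ⟨Complex.measurable_re.comp ((hf j).comp measurable_snd), C,
      fun x => (Complex.abs_re_le_norm _).trans (hC _)⟩
  have him : ∀ j, BM (fun y : Unit × X => (f j y.2).im) := fun j => by
    obtain ⟨C, hC⟩ := hb j
    exact ⟨Complex.measurable_im.comp ((hf j).comp measurable_snd), C,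
      fun x => (Complex.abs_im_le_norm _).trans (hC _)⟩
  choose R hR hRe using fun j => meas_iE (μ := μ) (σ := fun i (t : ℝ) (v : Fin k → ℝ) (x : X) => e i j (t • v) • x)
    (fun i => hσm i j) (fun i v => hσ i j v) (fun i => 0 < (P i j).natDegree) (hre j)
  choose S hS hSe using fun j => meas_iE (μ := μ) (σ := fun i (t : ℝ) (v : Fin k → ℝ) (x : X) => e i j (t • v) • x)
    (fun i => hσm i j) (fun i v => hσ i j v) (fun i => 0 < (P i j).natDegree) (him j)
  set F : (Fin d → Fin k → ℝ) × X → ℂ := fun q =>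
    ∏ j, (((R j (((), q.1), q.2) : ℝ) : ℂ) + Complex.I * ((S j (((), q.1), q.2) : ℝ) : ℂ)) with hF
  have hFm : Measurable F := by
    have hq : Measurable fun q : (Fin d → Fin k → ℝ) × X => (((), q.1), q.2) :=
      (measurable_const.prodMk measurable_fst).prodMk measurable_snd
    refine Finset.measurable_prod _ fun j _ => ?_
    exact (Complex.measurable_ofReal.comp ((hR j).1.comp hq)).add
      (measurable_const.mul (Complex.measurable_ofReal.comp ((hS j).1.comp hq)))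
  have hFe : ∀ v : Fin d → Fin k → ℝ, ∀ᵐ x ∂μ, F (v, x) =
      ∏ j, iC μ d (fun i t x => e i j (t • v i) • x) (fun i => 0 < (P i j).natDegree) (f j) x := by
    intro v
    have h1 : ∀ᵐ x ∂μ, ∀ j, iC μ d (fun i t x => e i j (t • v i) • x) (fun i => 0 < (P i j).natDegree) (f j) x =
        ((R j (((), v), x) : ℝ) : ℂ) + Complex.I * ((S j (((), v), x) : ℝ) : ℂ) := by
      rw [ae_all_iff]
      intro j
      filter_upwards [iC_eq (μ := μ) (τ := fun i t x => e i j (t • v i) • x) (act := fun i => 0 < (P i j).natDegree)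
        (hf j) (hb j), hRe j () v, hSe j () v] with x h1 h2 h3
      rw [h1, h2, h3]
    filter_upwards [h1] with x hx
    simp only [hF, hx]
  have key : ∀ᵐ v : Fin d → Fin k → ℝ, ∀ᵐ x ∂μ,
      Tendsto (fun N : ℕ => (1 / (2 * (N : ℂ) + 1)) * ∑ n ∈ Icc (-(N : ℤ)) N, ∏ j, f j (wrd e P j n v x))
        atTop (nhds (F (v, x))) := by
    have h0 : ∀ᵐ a : Fin d → ℝ, ∀ i, a i ≠ 0 := by
      rw [ae_all_iff]
      intro j
      have : ∀ᵐ t : ℝ, t ≠ 0 := by
        rw [ae_iff]; simp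
      exact (Measure.quasiMeasurePreserving_eval (fun _ : Fin d => (volume : Measure ℝ)) j).ae this
    refine ae_of_dil ?_ ?_
    · have hA : ∀ N : ℕ, Measurable fun q : (Fin d → Fin k → ℝ) × X => (1 / (2 * (N : ℂ) + 1)) *
          ∑ n ∈ Icc (-(N : ℤ)) N, ∏ j, f j (wrd e P j n q.1 q.2) := fun N =>
        measurable_const.mul (Finset.measurable_sum _ fun n _ =>
          Finset.measurable_prod _ fun j _ => (hf j).comp (wrd_meas hm P j n))
      have h2 := measurableSet_tendsto_fun (l := atTop) hA hFm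
      have h3 := measurable_measure_prodMk_left (ν := μ) h2.compl
      exact h3 (measurableSet_singleton 0)
    · intro v
      obtain ⟨g, hgm, hgb, hfg, h1⟩ := two_ess (μ := μ)
        (τ := fun i j (t : ℝ) (x : X) => e i j (t • v i) • x) (fun i j => hσ i j (v i))
        (P := fun i j => (P i j).map (Int.castRingHom ℝ))
        (fun i j => (hP i j).imp (fun h => by rw [h, Polynomial.map_zero]) (fun h => by rw [deg_map]; exact h))
        (fun i j j' h3 h4 l hl => by
          rw [deg_map] at h3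
          rw [deg_map, deg_map] at h4
          have h5 := hD i j j' h3 h4
          exact ⟨by rw [h5], by rw [h5]⟩)
        (f := f) (fun j => (hf j).aestronglyMeasurable) (fun j => by
          obtain ⟨C, hC⟩ := hb j
          exact ⟨C, ae_of_all _ hC⟩)
      have h2 := h1 (fun _ _ => 1) (fun _ => aestronglyMeasurable_const) ⟨1, fun _ => ae_of_all _ fun _ => by simp⟩
      have h3 := Lf_eq (μ := μ) (τ := fun i j (t : ℝ) (x : X) => e i j (t • v i) • x) (fun i j => hσ i j (v i))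
        (P := fun i j => (P i j).map (Int.castRingHom ℝ))
        (fun i j => (hP i j).imp (fun h => by rw [h, Polynomial.map_zero]) (fun h => by rw [deg_map]; exact h))
        (fun i j j' h3 h4 => by
          rw [deg_map] at h3
          rw [deg_map, deg_map] at h4
          exact hD i j j' h3 h4) hgm hgb hfg
      filter_upwards [h2, h0] with a ha ha0
      filter_upwards [ha, h3, hFe (fun i => a i • v i)] with x hx hx3 hx4
      simp only [wrd_dil, one_mul] at hx
      have h4 := avg_of_diff hx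
      rw [hx3] at h4
      rw [hx4]
      have e5 : ∀ j, iC μ d (fun i (t : ℝ) (x : X) => e i j (t • a i • v i) • x) (fun i => 0 < (P i j).natDegree) (f j) =
          iC μ d (fun i (t : ℝ) (x : X) => e i j (t • v i) • x) (fun i => 0 < (P i j).natDegree) (f j) := by
        intro j
        rw [← iC_scale (fun i (t : ℝ) (x : X) => e i j (t • v i) • x) ha0]
        simp only [smul_smul]
      simp only [e5]
      simp only [deg_map] at h4
      exact h4
  filter_upwards [key] with v hv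
  filter_upwards [hv, hFe v] with x hx1 hx2
  rw [← hx2]
  exact hx1

end grp

end Pool.Agent.W5h67.NF
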