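import Pool.Agent.W5h67.NF.Nil4
import Pool.Agent.W5h67.NF.Final

/-!
Generic elements of nilpotent groups: complex functions, two-sided averages, integer polynomials.
-/

set_option autoImplicit false

namespace Pool.Agent.W5h67.NF

open MeasureTheory Filter Finset
open Pool.Agent.Y957.MC (IsFlow flowInv smo)

universe u v

/-- real and imaginary parts -/
noncomputable def prt {m : ℕ} (t : Finset (Fin m)) (z : Fin m → ℂ) (j : Fin m) : ℝ := if j ∈ t then (z j).re else (z j).im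

theorem prod_prt {m : ℕ} (z : Fin m → ℂ) : ∏ j, z j =
    ∑ t ∈ (univ : Finset (Fin m)).powerset, Complex.I ^ (univ \ t).card * ((∏ j, prt t z j : ℝ) : ℂ) := by
  unfold prt
  rw [← prod_expand]
  refine prod_congr rfl fun j _ => ?_
  rw [mul_comm]
  exact (Complex.re_add_im _).symm

theorem cx_pt {m : ℕ} {w : ℕ → ℂ} {u : ℕ → Fin m → ℂ} {l : Fin m → ℂ}
    (h1 : ∀ t : Finset (Fin m), Tendsto (fun N : ℕ => (1 / (N : ℝ)) * ∑ n ∈ Icc 1 N,
      (w n).re * (∏ j, prt t (u n) j - ∏ j, prt t l j)) atTop (nhds 0))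
    (h2 : ∀ t : Finset (Fin m), Tendsto (fun N : ℕ => (1 / (N : ℝ)) * ∑ n ∈ Icc 1 N,
      (w n).im * (∏ j, prt t (u n) j - ∏ j, prt t l j)) atTop (nhds 0)) :
    Tendsto (fun N : ℕ => (1 / (N : ℂ)) * ∑ n ∈ Icc 1 N, w n * (∏ j, u n j - ∏ j, l j)) atTop (nhds 0) := by
  have h3 : Tendsto (fun N : ℕ => ∑ t ∈ (univ : Finset (Fin m)).powerset, Complex.I ^ (univ \ t).card *
      ((((1 / (N : ℝ)) * ∑ n ∈ Icc 1 N, (w n).re * (∏ j, prt t (u n) j - ∏ j, prt t l j) : ℝ) : ℂ) + Complex.I *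
      (((1 / (N : ℝ)) * ∑ n ∈ Icc 1 N, (w n).im * (∏ j, prt t (u n) j - ∏ j, prt t l j) : ℝ) : ℂ))) atTop
      (nhds (∑ t ∈ (univ : Finset (Fin m)).powerset, Complex.I ^ (univ \ t).card *
        (((0 : ℝ) : ℂ) + Complex.I * ((0 : ℝ) : ℂ)))) := by
    refine tendsto_finsetSum _ fun t _ => Tendsto.const_mul _ ?_
    exact ((Complex.continuous_ofReal.tendsto _).comp (h1 t)).add
      (((Complex.continuous_ofReal.tendsto _).comp (h2 t)).const_mul _)
  have h4 : (∑ t ∈ (univ : Finset (Fin m)).powerset, Complex.I ^ (univ \ t).card *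
        (((0 : ℝ) : ℂ) + Complex.I * ((0 : ℝ) : ℂ))) = 0 := by simp
  rw [h4] at h3
  refine h3.congr fun N => ?_
  have e1 : ∀ n, w n * (∏ j, u n j - ∏ j, l j) =
      ∑ t ∈ (univ : Finset (Fin m)).powerset, Complex.I ^ (univ \ t).card *
        ((((w n).re * (∏ j, prt t (u n) j - ∏ j, prt t l j) : ℝ) : ℂ) + Complex.I *
          (((w n).im * (∏ j, prt t (u n) j - ∏ j, prt t l j) : ℝ) : ℂ)) := by
    intro n
    rw [prod_prt (u n), prod_prt l, ← sum_sub_distrib, mul_sum]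
    refine sum_congr rfl fun t _ => ?_
    conv_lhs => rw [← Complex.re_add_im (w n)]
    push_cast
    ring
  simp only [e1]
  rw [sum_comm, mul_sum]
  refine sum_congr rfl fun t _ => ?_
  rw [← mul_sum, mul_left_comm]
  congr 1
  rw [sum_add_distrib, ← mul_sum, mul_add]
  push_cast
  ring

section cx

variable {X : Type u} [MeasurableSpace X] {μ : Measure X} [IsProbabilityMeasure μ] {K d m : ℕ}
  {G : Fin m → Type v} [∀ j, Group (G j)] [∀ j, MulAction (G j) X] {e : ∀ j, (Fin K → ℝ) → G j} {f : Fin m → X → ℂ}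

open Classical in
/-- the limit of one factor -/
noncomputable def lc (μ : Measure X) (e : ∀ j, (Fin K → ℝ) → G j) (c : Fin m → Prop) (f : Fin m → X → ℂ) (j : Fin m) :
    X → ℂ := if c j then μ[f j | IG μ (e j)] else f j

theorem prt_lc {P : Fin d → Fin m → Polynomial ℝ} (hf : ∀ j, Measurable (f j)) (hb : ∀ j, ∃ C : ℝ, ∀ x, ‖f j x‖ ≤ C) :
    ∀ᵐ x ∂μ, ∀ (t : Finset (Fin m)) (j : Fin m),
      prt t (fun j => lc μ e (fun j => ∃ i, P i j ≠ 0) f j x) j = lmt μ e P (part f t) j x := by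
  rw [ae_all_iff]; intro t
  rw [ae_all_iff]; intro j
  by_cases hj : ∃ i, P i j ≠ 0
  · have hi : Integrable (f j) μ := by
      obtain ⟨C, hC⟩ := hb j
      exact Integrable.of_bound (hf j).aestronglyMeasurable C (ae_of_all _ hC)
    filter_upwards [condExp_re_im (m := IG μ (e j)) hi] with x hx
    have e0 : lc μ e (fun j => ∃ i, P i j ≠ 0) f j = μ[f j | IG μ (e j)] := by
      unfold lc
      exact if_pos hj
    unfold lmt
    rw [if_pos hj]
    show (if j ∈ t then (lc μ e (fun j => ∃ i, P i j ≠ 0) f j x).re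
      else (lc μ e (fun j => ∃ i, P i j ≠ 0) f j x).im) = _
    rw [e0, hx]
    by_cases ht : j ∈ t
    · have e1 : part f t j = fun y => (f j y).re := by
        funext y
        simp only [part, if_pos ht]
      rw [if_pos ht, e1]
      simp
    · have e1 : part f t j = fun y => (f j y).im := by
        funext y
        simp only [part, if_neg ht]
      rw [if_neg ht, e1]
      simp
  · refine ae_of_all _ fun x => ?_
    have e0 : lc μ e (fun j => ∃ i, P i j ≠ 0) f j = f j := by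
      unfold lc
      exact if_neg hj
    unfold lmt
    rw [if_neg hj]
    show (if j ∈ t then (lc μ e (fun j => ∃ i, P i j ≠ 0) f j x).re
      else (lc μ e (fun j => ∃ i, P i j ≠ 0) f j x).im) = _
    rw [e0]
    rfl

/-- complex functions, one-sided averages -/
theorem one_nil (he : ∀ j, Nil μ (e j)) {P : Fin d → Fin m → Polynomial ℝ} (hP : ∀ i j, (P i j).eval 0 = 0)
    (hFr : FreeR P) {W : ℕ → X → ℂ} (hWm : ∀ n, Measurable (W n)) (hWb : ∃ C : ℝ, ∀ n x, ‖W n x‖ ≤ C)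
    (hf : ∀ j, Measurable (f j)) (hb : ∀ j, ∃ C : ℝ, ∀ x, ‖f j x‖ ≤ C) :
    ∀ᵐ v : Fin d → Fin K → ℝ, ∀ᵐ x ∂μ, Tendsto (fun N : ℕ => (1 / (N : ℂ)) * ∑ n ∈ Icc 1 N, W n x *
      (∏ j, f j (wR (e j) (fun i => (P i j).eval (n : ℝ)) v • x) - ∏ j, lc μ e (fun j => ∃ i, P i j ≠ 0) f j x))
      atTop (nhds 0) := by
  obtain ⟨C, hC⟩ := hWb
  have h1 : ∀ᵐ v : Fin d → Fin K → ℝ, ∀ t : Finset (Fin m), ∀ᵐ x ∂μ, Tendsto (fun N : ℕ => (1 / (N : ℝ)) *
      ∑ n ∈ Icc 1 N, (W n x).re * (∏ j, part f t j (wR (e j) (fun i => (P i j).eval (n : ℝ)) v • x) -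
        ∏ j, lmt μ e P (part f t) j x)) atTop (nhds 0) := by
    rw [ae_all_iff]
    intro t
    exact real_nil he hP hFr (fun n => Complex.measurable_re.comp (hWm n))
      ⟨C, fun n x => (Complex.abs_re_le_norm _).trans (hC n x)⟩ (part_bm hf hb t)
  have h2 : ∀ᵐ v : Fin d → Fin K → ℝ, ∀ t : Finset (Fin m), ∀ᵐ x ∂μ, Tendsto (fun N : ℕ => (1 / (N : ℝ)) *
      ∑ n ∈ Icc 1 N, (W n x).im * (∏ j, part f t j (wR (e j) (fun i => (P i j).eval (n : ℝ)) v • x) -
        ∏ j, lmt μ e P (part f t) j x)) atTop (nhds 0) := by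
    rw [ae_all_iff]
    intro t
    exact real_nil he hP hFr (fun n => Complex.measurable_im.comp (hWm n))
      ⟨C, fun n x => (Complex.abs_im_le_norm _).trans (hC n x)⟩ (part_bm hf hb t)
  filter_upwards [h1, h2] with v hv1 hv2
  have hv1' := ae_all_iff.2 hv1
  have hv2' := ae_all_iff.2 hv2
  filter_upwards [hv1', hv2', prt_lc (μ := μ) (e := e) (P := P) hf hb] with x hx1 hx2 hx3
  refine cx_pt (w := fun n => W n x) (u := fun n j => f j (wR (e j) (fun i => (P i j).eval (n : ℝ)) v • x))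
    (l := fun j => lc μ e (fun j => ∃ i, P i j ≠ 0) f j x) (fun t => ?_) (fun t => ?_)
  · simp only [hx3]
    exact hx1 t
  · simp only [hx3]
    exact hx2 t

theorem cmb_neg {ι : Type} (φ : Fin d → ℝ) (P : Fin d → ι → Polynomial ℝ) (j : ι) :
    cmb φ (fun i j => (P i j).comp (-Polynomial.X)) j = (cmb φ P j).comp (-Polynomial.X) := by
  unfold cmb
  rw [Polynomial.sum_comp]
  simp

/-- complex functions, two-sided averages -/
theorem two_nil (he : ∀ j, Nil μ (e j)) {P : Fin d → Fin m → Polynomial ℝ} (hP : ∀ i j, (P i j).eval 0 = 0)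
    (hFr : FreeR P) {W : ℤ → X → ℂ} (hWm : ∀ n, Measurable (W n)) (hWb : ∃ C : ℝ, ∀ n x, ‖W n x‖ ≤ C)
    (hf : ∀ j, Measurable (f j)) (hb : ∀ j, ∃ C : ℝ, ∀ x, ‖f j x‖ ≤ C) :
    ∀ᵐ v : Fin d → Fin K → ℝ, ∀ᵐ x ∂μ, Tendsto (fun N : ℕ => (1 / (2 * (N : ℂ) + 1)) * ∑ n ∈ Icc (-(N : ℤ)) N,
      W n x * (∏ j, f j (wR (e j) (fun i => (P i j).eval (n : ℝ)) v • x) -
        ∏ j, lc μ e (fun j => ∃ i, P i j ≠ 0) f j x)) atTop (nhds 0) := by
  obtain ⟨C, hC⟩ := hWb
  have hne : ∀ i j, (P i j).comp (-Polynomial.X) ≠ 0 ↔ P i j ≠ 0 := by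
    intro i j
    rw [not_iff_not]
    constructor
    · intro h
      rw [← comp_neg (P i j), h, Polynomial.zero_comp]
    · intro h
      rw [h, Polynomial.zero_comp]
  have h1 := one_nil he hP hFr (W := fun n => W n) (fun n => hWm n) ⟨C, fun n x => hC n x⟩ hf hb
  have h2 := one_nil (P := fun i j => (P i j).comp (-Polynomial.X)) he
    (fun i j => by
      rw [Polynomial.eval_comp]
      simp [hP])
    (fun S hS hS1 => by
      obtain ⟨φ, a, ha, h3, h4⟩ := hFr S hS (fun j hj => by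
        obtain ⟨i, hi⟩ := hS1 j hj
        exact ⟨i, (hne i j).1 hi⟩)
      refine ⟨φ, a, ha, ?_, fun j hj hja => ?_⟩
      · rw [cmb_neg, deg_neg]
        exact h3
      · rw [cmb_neg, cmb_neg, deg_neg, deg_neg]
        exact h4 j hj hja)
    (W := fun n => W (-(n : ℤ))) (fun n => hWm _) ⟨C, fun n x => hC _ x⟩ hf hb
  have e1 : (fun j : Fin m => ∃ i, (P i j).comp (-Polynomial.X) ≠ 0) = fun j => ∃ i, P i j ≠ 0 := by
    funext j
    simp only [hne]
  simp only [e1] at h2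
  filter_upwards [h1, h2] with v hv1 hv2
  filter_upwards [hv1, hv2] with x hx1 hx2
  refine two_sided (φ := fun n => W n x * (∏ j, f j (wR (e j) (fun i => (P i j).eval (n : ℝ)) v • x) -
        ∏ j, lc μ e (fun j => ∃ i, P i j ≠ 0) f j x)) ?_ ?_
  · simpa only [Int.cast_natCast] using hx1
  · refine hx2.congr fun N => ?_
    simp only [Polynomial.eval_comp, Polynomial.eval_neg, Polynomial.eval_X, Int.cast_neg, Int.cast_natCast]

end cx

end Pool.Agent.W5h67.NF
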