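import Pool.Agent.W5h67.NF.Blk5
import Pool.Agent.W5h67.NF.Nil5

/-!
Blocks of letters, each generic in its own nilpotent group: complex functions, two-sided averages.
-/

set_option autoImplicit false

namespace Pool.Agent.W5h67.NF

open MeasureTheory Filter Finset
open Pool.Agent.Y957.MC (IsFlow flowInv smo)

universe u v

theorem cx_pt2 {m : ℕ} {w : ℕ → ℂ} {u : ℕ → Fin m → ℂ} {l : Finset (Fin m) → ℝ}
    (h1 : ∀ t : Finset (Fin m), Tendsto (fun N : ℕ => (1 / (N : ℝ)) * ∑ n ∈ Icc 1 N,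
      (w n).re * (∏ j, prt t (u n) j - l t)) atTop (nhds 0))
    (h2 : ∀ t : Finset (Fin m), Tendsto (fun N : ℕ => (1 / (N : ℝ)) * ∑ n ∈ Icc 1 N,
      (w n).im * (∏ j, prt t (u n) j - l t)) atTop (nhds 0)) :
    Tendsto (fun N : ℕ => (1 / (N : ℂ)) * ∑ n ∈ Icc 1 N, w n * (∏ j, u n j -
      ∑ t ∈ (univ : Finset (Fin m)).powerset, Complex.I ^ (univ \ t).card * ((l t : ℝ) : ℂ))) atTop (nhds 0) := by
  have h3 : Tendsto (fun N : ℕ => ∑ t ∈ (univ : Finset (Fin m)).powerset, Complex.I ^ (univ \ t).card *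
      ((((1 / (N : ℝ)) * ∑ n ∈ Icc 1 N, (w n).re * (∏ j, prt t (u n) j - l t) : ℝ) : ℂ) + Complex.I *
      (((1 / (N : ℝ)) * ∑ n ∈ Icc 1 N, (w n).im * (∏ j, prt t (u n) j - l t) : ℝ) : ℂ))) atTop
      (nhds (∑ t ∈ (univ : Finset (Fin m)).powerset, Complex.I ^ (univ \ t).card *
        (((0 : ℝ) : ℂ) + Complex.I * ((0 : ℝ) : ℂ)))) := by
    refine tendsto_finsetSum _ fun t _ => Tendsto.const_mul _ ?_
    exact ((Complex.continuous_ofReal.tendsto _).comp (h1 t)).add
      (((Complex.continuous_ofReal.tendsto _).comp (h2 t)).const_mul _)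
  have h4 : (∑ t ∈ (univ : Finset (Fin m)).powerset, Complex.I ^ (univ \ t).card *
        (((0 : ℝ) : ℂ) + Complex.I * ((0 : ℝ) : ℂ))) = 0 := by simp
  rw [h4] at h3
  refine h3.congr fun N => ?_
  have e1 : ∀ n, w n * (∏ j, u n j -
      ∑ t ∈ (univ : Finset (Fin m)).powerset, Complex.I ^ (univ \ t).card * ((l t : ℝ) : ℂ)) =
      ∑ t ∈ (univ : Finset (Fin m)).powerset, Complex.I ^ (univ \ t).card *
        ((((w n).re * (∏ j, prt t (u n) j - l t) : ℝ) : ℂ) + Complex.I *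
          (((w n).im * (∏ j, prt t (u n) j - l t) : ℝ) : ℂ)) := by
    intro n
    rw [prod_prt (u n), ← sum_sub_distrib, mul_sum]
    refine sum_congr rfl fun t _ => ?_
    conv_lhs => rw [← Complex.re_add_im (w n)]
    push_cast
    ring
  simp only [e1]
  rw [sum_comm, mul_sum]
  refine sum_congr rfl fun t _ => ?_
  rw [← mul_sum, mul_left_comm]
  congr 1
  rw [sum_add_distrib, ← mul_sum, mul_add]
  push_cast
  ring

section cx

variable {X : Type u} [MeasurableSpace X] {μ : Measure X} [IsProbabilityMeasure μ] {K d m : ℕ}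

/-- complex functions, one-sided averages -/
theorem one_blk (B : ℕ) {G : Fin B → Fin m → Type v} [∀ b j, Group (G b j)] [∀ b j, MulAction (G b j) X]
    {e : ∀ b j, (Fin K → ℝ) → G b j} (he : ∀ b j, Nil μ (e b j)) {κ : Fin B → Fin m → Fin m}
    (hκ : ∀ b j, κ b (κ b j) = κ b j) (act : Fin B → Fin m → Prop) {f : Fin m → X → ℂ} (hf : ∀ j, Measurable (f j))
    (hb : ∀ j, ∃ C : ℝ, ∀ x, ‖f j x‖ ≤ C) :
    ∃ L : X → ℂ, (∀ P : Fin B → Fin d → Fin m → Polynomial ℝ, Adm X e κ act P →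
      ∀ W : ℕ → X → ℂ, (∀ n, Measurable (W n)) → (∃ C : ℝ, ∀ n x, ‖W n x‖ ≤ C) →
        ∀ᵐ v : Fin B → Fin d → Fin K → ℝ, ∀ᵐ x ∂μ, Tendsto (fun N : ℕ => (1 / (N : ℂ)) * ∑ n ∈ Icc 1 N, W n x *
          (∏ j, f j (pt e P j (n : ℝ) v x) - L x)) atTop (nhds 0)) ∧
      ((∀ b j, κ b j = j) → L =ᵐ[μ] fun x => ∏ j, itC μ B (fun b => IG μ (e b j)) (fun b => act b j) (f j) x) := by
  choose L hL1 hL2 using fun t : Finset (Fin m) => real_blk (d := d) B he hκ act (part_bm hf hb t)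
  refine ⟨fun x => ∑ t ∈ (univ : Finset (Fin m)).powerset, Complex.I ^ (univ \ t).card * ((L t x : ℝ) : ℂ),
    fun P hP W hWm hWb => ?_, fun hid => ?_⟩
  · obtain ⟨C, hC⟩ := hWb
    have h1 : ∀ᵐ v : Fin B → Fin d → Fin K → ℝ, ∀ t : Finset (Fin m), ∀ᵐ x ∂μ, Tendsto (fun N : ℕ => (1 / (N : ℝ)) *
        ∑ n ∈ Icc 1 N, (W n x).re * (∏ j, part f t j (pt e P j (n : ℝ) v x) - L t x)) atTop (nhds 0) := by
      rw [ae_all_iff]
      intro t
      exact hL1 t P hP (fun n x => (W n x).re) (fun n => Complex.measurable_re.comp (hWm n))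
        ⟨C, fun n x => (Complex.abs_re_le_norm _).trans (hC n x)⟩
    have h2 : ∀ᵐ v : Fin B → Fin d → Fin K → ℝ, ∀ t : Finset (Fin m), ∀ᵐ x ∂μ, Tendsto (fun N : ℕ => (1 / (N : ℝ)) *
        ∑ n ∈ Icc 1 N, (W n x).im * (∏ j, part f t j (pt e P j (n : ℝ) v x) - L t x)) atTop (nhds 0) := by
      rw [ae_all_iff]
      intro t
      exact hL1 t P hP (fun n x => (W n x).im) (fun n => Complex.measurable_im.comp (hWm n))
        ⟨C, fun n x => (Complex.abs_im_le_norm _).trans (hC n x)⟩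
    filter_upwards [h1, h2] with v hv1 hv2
    have hv1' := ae_all_iff.2 hv1
    have hv2' := ae_all_iff.2 hv2
    filter_upwards [hv1', hv2'] with x hx1 hx2
    exact cx_pt2 (w := fun n => W n x) (u := fun n j => f j (pt e P j (n : ℝ) v x)) (l := fun t => L t x) hx1 hx2
  · have h1 : ∀ᵐ x ∂μ, ∀ t, L t x =
        ∏ j, itR μ B (fun b => IG μ (e b j)) (fun b => act b j) (part f t j) x := by
      rw [ae_all_iff]
      exact fun t => hL2 t hid
    have h2 : ∀ᵐ x ∂μ, ∀ j, (itC μ B (fun b => IG μ (e b j)) (fun b => act b j) (f j) x).re =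
          itR μ B (fun b => IG μ (e b j)) (fun b => act b j) (fun y => (f j y).re) x ∧
        (itC μ B (fun b => IG μ (e b j)) (fun b => act b j) (f j) x).im =
          itR μ B (fun b => IG μ (e b j)) (fun b => act b j) (fun y => (f j y).im) x := by
      rw [ae_all_iff]
      intro j
      have hi : Integrable (f j) μ := by
        obtain ⟨C, hC⟩ := hb j
        exact Integrable.of_bound (hf j).aestronglyMeasurable C (ae_of_all _ hC)
      exact itC_re_im hi
    filter_upwards [h1, h2] with x hx1 hx2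
    rw [prod_prt]
    refine sum_congr rfl fun t _ => ?_
    suffices e0 : ∏ j, itR μ B (fun b => IG μ (e b j)) (fun b => act b j) (part f t j) x =
        ∏ j, prt t (fun j => itC μ B (fun b => IG μ (e b j)) (fun b => act b j) (f j) x) j by
      rw [hx1, e0]
    refine prod_congr rfl fun j _ => ?_
    unfold prt
    by_cases ht : j ∈ t
    · have e1 : part f t j = fun y => (f j y).re := by
        funext y
        simp only [part, if_pos ht]
      rw [if_pos ht, e1]
      exact (hx2 j).1.symm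
    · have e1 : part f t j = fun y => (f j y).im := by
        funext y
        simp only [part, if_neg ht]
      rw [if_neg ht, e1]
      exact (hx2 j).2.symm

/-- complex functions, two-sided averages -/
theorem two_blk (B : ℕ) {G : Fin B → Fin m → Type v} [∀ b j, Group (G b j)] [∀ b j, MulAction (G b j) X]
    {e : ∀ b j, (Fin K → ℝ) → G b j} (he : ∀ b j, Nil μ (e b j)) {κ : Fin B → Fin m → Fin m}
    (hκ : ∀ b j, κ b (κ b j) = κ b j) (act : Fin B → Fin m → Prop) {f : Fin m → X → ℂ} (hf : ∀ j, Measurable (f j))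
    (hb : ∀ j, ∃ C : ℝ, ∀ x, ‖f j x‖ ≤ C) :
    ∃ L : X → ℂ, (∀ P : Fin B → Fin d → Fin m → Polynomial ℝ, Adm X e κ act P →
      ∀ W : ℤ → X → ℂ, (∀ n, Measurable (W n)) → (∃ C : ℝ, ∀ n x, ‖W n x‖ ≤ C) →
        ∀ᵐ v : Fin B → Fin d → Fin K → ℝ, ∀ᵐ x ∂μ, Tendsto (fun N : ℕ => (1 / (2 * (N : ℂ) + 1)) *
          ∑ n ∈ Icc (-(N : ℤ)) N, W n x * (∏ j, f j (pt e P j (n : ℝ) v x) - L x)) atTop (nhds 0)) ∧
      ((∀ b j, κ b j = j) → L =ᵐ[μ] fun x => ∏ j, itC μ B (fun b => IG μ (e b j)) (fun b => act b j) (f j) x) := by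
  obtain ⟨L, hL1, hL2⟩ := one_blk (d := d) B he hκ act hf hb
  refine ⟨L, fun P hP W hWm hWb => ?_, hL2⟩
  obtain ⟨C, hC⟩ := hWb
  have hne : ∀ b i j, (P b i j).comp (-Polynomial.X) ≠ 0 ↔ P b i j ≠ 0 := by
    intro b i j
    rw [not_iff_not]
    constructor
    · intro h
      rw [← comp_neg (P b i j), h, Polynomial.zero_comp]
    · intro h
      rw [h, Polynomial.zero_comp]
  have hP' : Adm X e κ act (fun b i j => (P b i j).comp (-Polynomial.X)) := by
    obtain ⟨h1, h2, h3, h4⟩ := hP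
    refine ⟨fun b i j => ?_, fun b j => ?_, fun b l hbl j => ⟨(h3 b l hbl j).1, fun i => ?_⟩, fun b T hT S hS hST => ?_⟩
    · show (P b i j).comp (-Polynomial.X) = 0 ∨ 0 < ((P b i j).comp (-Polynomial.X)).natDegree
      rcases h1 b i j with h | h
      · exact Or.inl (by rw [h, Polynomial.zero_comp])
      · exact Or.inr (by rw [deg_neg]; exact h)
    · simp only [hne]
      exact h2 b j
    · show (P l i (κ b j)).comp (-Polynomial.X) = (P l i j).comp (-Polynomial.X)
      rw [(h3 b l hbl j).2]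
    · obtain ⟨φ, a, ha, h5, h6⟩ := h4 b T hT S hS hST
      refine ⟨φ, a, ha, ?_, fun j hj hja => ?_⟩
      · show 0 < (cmb φ (fun i j => (P b i j).comp (-Polynomial.X)) a).natDegree
        rw [cmb_neg, deg_neg]
        exact h5
      · show (cmb φ (fun i j => (P b i j).comp (-Polynomial.X)) j).natDegree <
          (cmb φ (fun i j => (P b i j).comp (-Polynomial.X)) a).natDegree ∧
          (cmb φ (fun i j => (P b i j).comp (-Polynomial.X)) j = 0 ∨
            0 < (cmb φ (fun i j => (P b i j).comp (-Polynomial.X)) j).natDegree)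
        rw [cmb_neg, cmb_neg, deg_neg, deg_neg]
        refine ⟨(h6 j hj hja).1, (h6 j hj hja).2.imp (fun h => ?_) fun h => h⟩
        rw [h, Polynomial.zero_comp]
  have h1 := hL1 P hP (fun n => W n) (fun n => hWm n) ⟨C, fun n x => hC n x⟩
  have h2 := hL1 _ hP' (fun n => W (-(n : ℤ))) (fun n => hWm _) ⟨C, fun n x => hC _ x⟩
  filter_upwards [h1, h2] with v hv1 hv2
  filter_upwards [hv1, hv2] with x hx1 hx2
  refine two_sided (φ := fun n => W n x * (∏ j, f j (pt e P j (n : ℝ) v x) - L x)) ?_ ?_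
  · simpa only [Int.cast_natCast] using hx1
  · refine hx2.congr fun N => ?_
    have e1 : ∀ (n : ℕ) (j : Fin m), pt e (fun b i j => (P b i j).comp (-Polynomial.X)) j (n : ℝ) v x =
        pt e P j ((-(n : ℤ) : ℤ) : ℝ) v x := by
      intro n j
      unfold pt
      simp only [Polynomial.eval_comp, Polynomial.eval_neg, Polynomial.eval_X, Int.cast_neg, Int.cast_natCast]
    simp only [e1]

end cx

end Pool.Agent.W5h67.NF
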