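import Pool.Agent.W5h67.NF.Sum

/-!
Words in noncommuting flows at generic times: convergence for one function, from `d` to `d + 1` flows.
-/

set_option autoImplicit false

namespace Pool.Agent.W5h67.NF

open MeasureTheory Filter Finset
open Pool.Agent.Y957.MC (IsFlow flowInv smo smo_lip)
open Pool.Agent.Y48.MC (flwb)

universe u

section det

theorem det_lac {c : ℕ → ℝ} {C : ℝ} (hC : ∀ n, |c n| ≤ C) {N : ℕ → ℕ} (hN : Tendsto N atTop atTop)
    (h : ∀ e : ℕ, ∀ η : ℝ, 0 < η → ∀ᶠ i in atTop,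
      |(1 / (N i : ℝ)) * ∑ n ∈ Ioc ⌊(1 / ((e : ℝ) + 2)) * N i⌋₊ (N i), c n| ≤ η) :
    Tendsto (fun i => (∑ n ∈ Icc 1 (N i), c n) / (N i : ℝ)) atTop (nhds 0) := by
  have hC0 : 0 ≤ C := (abs_nonneg _).trans (hC 0)
  rw [Metric.tendsto_nhds]
  intro δ hδ
  obtain ⟨e, he⟩ := exists_nat_gt (4 * C / δ)
  filter_upwards [h e (δ / 2) (by linarith), hN.eventually_ge_atTop 1] with i hi hN1
  have hN0 : (0 : ℝ) < N i := by exact_mod_cast hN1
  rw [Real.dist_eq, sub_zero]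
  set m : ℕ := ⌊(1 / ((e : ℝ) + 2)) * N i⌋₊ with hm
  have hmN : (m : ℝ) ≤ (1 / ((e : ℝ) + 2)) * N i := Nat.floor_le (by positivity)
  have he2 : (1 / ((e : ℝ) + 2)) ≤ 1 := by
    rw [div_le_one (by positivity)]
    have : (0 : ℝ) ≤ e := Nat.cast_nonneg _
    linarith
  have hmN' : m ≤ N i := by
    have : (m : ℝ) ≤ N i := hmN.trans (mul_le_of_le_one_left hN0.le he2)
    exact_mod_cast this
  have e1 : ∑ n ∈ Icc 1 (N i), c n = ∑ n ∈ Icc 1 m, c n + ∑ n ∈ Ioc m (N i), c n := by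
    have : Icc 1 (N i) = Icc 1 m ∪ Ioc m (N i) := by
      ext n
      simp only [mem_Icc, mem_union, mem_Ioc]
      omega
    rw [this, sum_union]
    rw [Finset.disjoint_left]
    intro n hn1 hn2
    rw [mem_Icc] at hn1
    rw [mem_Ioc] at hn2
    omega
  have e2 : |∑ n ∈ Icc 1 m, c n| ≤ C * m := by
    refine (abs_sum_le_sum_abs _ _).trans ((sum_le_sum fun n _ => hC n).trans ?_)
    rw [sum_const, Nat.card_Icc, nsmul_eq_mul, mul_comm]
    simp
  rw [e1, add_div]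
  have e3 : |(∑ n ∈ Icc 1 m, c n) / (N i : ℝ)| < δ / 2 := by
    rw [abs_div, abs_of_pos hN0, div_lt_iff₀ hN0]
    refine (e2.trans (mul_le_mul_of_nonneg_left hmN hC0)).trans_lt ?_
    have h2 : C * (1 / ((e : ℝ) + 2)) < δ / 2 := by
      rw [mul_one_div, div_lt_iff₀ (by positivity)]
      rw [div_lt_iff₀ hδ] at he
      nlinarith
    nlinarith
  have e4 : |(∑ n ∈ Ioc m (N i), c n) / (N i : ℝ)| ≤ δ / 2 := by
    rwa [div_eq_inv_mul, ← one_div]
  refine (abs_add_le _ _).trans_lt ?_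
  linarith

theorem det_full {c : ℕ → ℝ} {C : ℝ} (hC : ∀ n, |c n| ≤ C) {β : ℕ → ℝ} (hβ : ∀ k, 1 < β k)
    (hβ1 : Tendsto β atTop (nhds 1))
    (h : ∀ k, Tendsto (fun i : ℕ => (∑ n ∈ Icc 1 ⌊β k ^ i⌋₊, c n) / (⌊β k ^ i⌋₊ : ℝ)) atTop (nhds 0)) :
    Tendsto (fun N : ℕ => (1 / (N : ℝ)) * ∑ n ∈ Icc 1 N, c n) atTop (nhds 0) := by
  set u : ℕ → ℝ := fun N => ∑ n ∈ Icc 1 N, (c n + C) with hu
  have hmono : Monotone u := by
    intro a b hab
    refine sum_le_sum_of_subset_of_nonneg (Icc_subset_Icc le_rfl hab) fun n _ _ => ?_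
    have := (abs_le.1 (hC n)).1
    linarith
  have e1 : ∀ N : ℕ, 1 ≤ N → u N / N = (∑ n ∈ Icc 1 N, c n) / (N : ℝ) + C := by
    intro N hN
    have hN0 : (0 : ℝ) < N := by exact_mod_cast hN
    simp only [hu]
    rw [sum_add_distrib, sum_const, Nat.card_Icc, nsmul_eq_mul, Nat.add_sub_cancel]
    field_simp
  have h1 : ∀ k, Tendsto (fun i : ℕ => u ⌊β k ^ i⌋₊ / ⌊β k ^ i⌋₊) atTop (nhds C) := by
    intro k
    have h2 := (h k).add_const C
    rw [zero_add] at h2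
    refine h2.congr fun i => ?_
    refine (e1 _ ?_).symm
    exact Nat.le_floor (by push_cast; exact one_le_pow₀ (hβ k).le)
  have h3 := tendsto_div_of_monotone_of_tendsto_div_floor_pow u C hmono β hβ hβ1 h1
  have h4 := h3.sub_const C
  rw [sub_self] at h4
  refine h4.congr' ?_
  filter_upwards [eventually_ge_atTop 1] with N hN
  rw [e1 N hN]
  ring

end det

section lims

variable {X : Type u} [MeasurableSpace X] {Ω : Type*} [MeasurableSpace Ω]
variable {μ : Measure X} [IsProbabilityMeasure μ] {ν : Measure Ω} [IsProbabilityMeasure ν]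
  {g : ℕ → Ω → X → X} {d : ℕ} {τ : ℝ → X → X} {p : ℕ → ℝ} {B : ℝ} {ψ φ : X → ℝ} {T : (X → ℝ) → X → ℝ}

/-- the averages along the family converge almost everywhere, with limits `T f` -/
def Lim (μ : Measure X) (ν : Measure Ω) (g : ℕ → Ω → X → X) (T : (X → ℝ) → X → ℝ) : Prop :=
  ∀ f : X → ℝ, BM f → ∀ᵐ z ∂(ν.prod μ),
    Tendsto (fun N : ℕ => (1 / (N : ℝ)) * ∑ n ∈ Icc 1 N, f (g n z.1 z.2)) atTop (nhds (T f z.2))

theorem int_avg (hg : Fam μ g) {f : X → ℝ} (hf : BM f) {N : ℕ} (hN : 1 ≤ N) :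
    ∫ z, (1 / (N : ℝ)) * ∑ n ∈ Icc 1 N, f (g n z.1 z.2) ∂(ν.prod μ) = ∫ x, f x ∂μ := by
  have hN0 : (0 : ℝ) < N := by exact_mod_cast hN
  have hm : ∀ n, BM (fun z : Ω × X => f (g n z.1 z.2)) := fun n => hf.comp (hg.meas n)
  rw [integral_const_mul, integral_finsetSum _ fun n _ => (hm n).int _]
  have h1 : ∀ n, ∫ z : Ω × X, f (g n z.1 z.2) ∂(ν.prod μ) = ∫ x, f x ∂μ := by
    intro n
    rw [integral_prod _ ((hm n).int _)]
    have : ∀ ω, ∫ x, f (g n ω x) ∂μ = ∫ x, f x ∂μ := fun ω => mp_int (hg.mp n ω) hf.1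
    simp only [this, integral_const, probReal_univ, one_smul]
  simp only [h1, sum_const, Nat.card_Icc, nsmul_eq_mul, Nat.add_sub_cancel]
  field_simp

/-- small functions have small limits -/
theorem tiny (hg : Fam μ g) (hT : Lim μ ν g T) {G : ℕ → X → ℝ} (hG : ∀ M, BM (G M)) (hG0 : ∀ M x, 0 ≤ G M x)
    (hlim : Tendsto (fun M => ∫ x, G M x ∂μ) atTop (nhds 0)) :
    ∀ᵐ z ∂(ν.prod μ), ∀ δ : ℝ, 0 < δ → ∃ M, T (G M) z.2 < δ := by
  set A : ℕ → ℕ → Ω × X → ℝ := fun M N z => (1 / (N : ℝ)) * ∑ n ∈ Icc 1 N, G M (g n z.1 z.2) with hA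
  have hAm : ∀ M N, BM (A M N) := fun M N => (BM.sum _ fun n _ => (hG M).comp (hg.meas n)).smul _
  have hA0 : ∀ M N z, 0 ≤ A M N z := fun M N z =>
    mul_nonneg (by positivity) (sum_nonneg fun n _ => hG0 M _)
  have hAi : ∀ M N, 1 ≤ N → ∫⁻ z, ENNReal.ofReal (A M N z) ∂(ν.prod μ) = ENNReal.ofReal (∫ x, G M x ∂μ) := by
    intro M N hN
    rw [← ofReal_integral_eq_lintegral_ofReal ((hAm M N).int _) (Eventually.of_forall fun z => hA0 M N z)]
    rw [hA, int_avg hg (hG M) hN]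
  set F : ℕ → Ω × X → ENNReal := fun M z => liminf (fun N => ENNReal.ofReal (A M N z)) atTop with hF
  have hFm : ∀ M, Measurable (F M) := fun M => Measurable.liminf fun N => (hAm M N).1.ennreal_ofReal
  have h1 : ∀ M, ∫⁻ z, F M z ∂(ν.prod μ) ≤ ENNReal.ofReal (∫ x, G M x ∂μ) := by
    intro M
    refine (lintegral_liminf_le fun N => (hAm M N).1.ennreal_ofReal).trans (le_of_eq ?_)
    refine Tendsto.liminf_eq ?_
    refine tendsto_const_nhds.congr' ?_
    filter_upwards [eventually_ge_atTop 1] with N hN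
    exact (hAi M N hN).symm
  have h2 : ∫⁻ z, liminf (fun M => F M z) atTop ∂(ν.prod μ) = 0 := by
    refine le_antisymm ((lintegral_liminf_le hFm).trans ?_) zero_le
    have h3 : Tendsto (fun M => ENNReal.ofReal (∫ x, G M x ∂μ)) atTop (nhds 0) := by
      have := (ENNReal.continuous_ofReal.tendsto 0).comp hlim
      rwa [ENNReal.ofReal_zero] at this
    calc liminf (fun M => ∫⁻ z, F M z ∂(ν.prod μ)) atTop ≤ liminf (fun M => ENNReal.ofReal (∫ x, G M x ∂μ)) atTop :=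
          liminf_le_liminf (Eventually.of_forall h1)
      _ = 0 := h3.liminf_eq
  rw [lintegral_eq_zero_iff (Measurable.liminf hFm)] at h2
  have h4 : ∀ᵐ z ∂(ν.prod μ), ∀ M, Tendsto (fun N => A M N z) atTop (nhds (T (G M) z.2)) := by
    rw [ae_all_iff]
    exact fun M => hT (G M) (hG M)
  filter_upwards [h2, h4] with z hz hz4 δ hδ
  have h5 : ∀ M, F M z = ENNReal.ofReal (T (G M) z.2) := fun M =>
    ((ENNReal.continuous_ofReal.tendsto _).comp (hz4 M)).liminf_eq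
  have h6 : liminf (fun M => F M z) atTop < ENNReal.ofReal δ := by
    have : liminf (fun M => F M z) atTop = 0 := hz
    rw [this]
    exact ENNReal.ofReal_pos.2 hδ
  obtain ⟨M, hM⟩ := (frequently_lt_of_liminf_lt (by isBoundedDefault) h6).exists
  rw [h5] at hM
  exact ⟨M, (ENNReal.ofReal_lt_ofReal_iff hδ).1 hM⟩

/-- a bound of a bounded function -/
noncomputable def bd (f : X → ℝ) : ℝ := by
  classical
  exact if h : ∃ C : ℝ, ∀ x, |f x| ≤ C then |h.choose| else 0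

omit [MeasurableSpace X] in
theorem bd_nonneg (f : X → ℝ) : 0 ≤ bd f := by
  unfold bd
  split_ifs <;> simp

theorem bd_le {f : X → ℝ} (hf : BM f) (x : X) : |f x| ≤ bd f := by
  unfold bd
  rw [dif_pos hf.2]
  exact (hf.2.choose_spec x).trans (le_abs_self _)

/-- a version of the conditional expectation on the invariant sets of the flow -/
noncomputable def ce (μ : Measure X) (τ : ℝ → X → X) (f : X → ℝ) (x : X) : ℝ :=
  max (-bd f) (min (bd f) ((μ[f | flowInv τ]) x))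

omit [IsProbabilityMeasure μ] in
theorem flowInv_le (τ : ℝ → X → X) : flowInv τ ≤ (inferInstance : MeasurableSpace X) :=
  (iInf_le _ (0 : ℝ)).trans (MeasurableSpace.invariants_le _)

theorem ce_bm (f : X → ℝ) : BM (ce μ τ f) := by
  refine ⟨?_, bd f, fun x => ?_⟩
  · have h1 : Measurable (μ[f | flowInv τ]) := (stronglyMeasurable_condExp.mono (flowInv_le τ)).measurable
    exact measurable_const.max (measurable_const.min h1)
  · rw [abs_le]
    have := bd_nonneg f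
    exact ⟨le_max_left _ _, max_le (by linarith) (min_le_left _ _)⟩

theorem ce_ae {f : X → ℝ} (hf : BM f) : ce μ τ f =ᵐ[μ] μ[f | flowInv τ] := by
  have h := ae_bdd_condExp_of_ae_bdd (m := flowInv τ) (μ := μ) (R := ⟨bd f, bd_nonneg f⟩) (f := f)
    (ae_of_all _ (bd_le hf))
  filter_upwards [h] with x hx
  have hx' : |(μ[f | flowInv τ]) x| ≤ bd f := hx
  rw [abs_le] at hx'
  unfold ce
  rw [min_eq_right hx'.2, max_eq_right hx'.1]

theorem ce_inv (f : X → ℝ) (t : ℝ) (x : X) : ce μ τ f (τ t x) = ce μ τ f x := by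
  have h1 : Measurable[flowInv τ] (μ[f | flowInv τ]) := stronglyMeasurable_condExp.measurable
  have h2 : Measurable[MeasurableSpace.invariants (τ t)] (μ[f | flowInv τ]) :=
    h1.mono (iInf_le _ t) le_rfl
  have h3 := MeasurableSpace.comp_eq_of_measurable_invariants h2
  have h4 : (μ[f | flowInv τ]) (τ t x) = (μ[f | flowInv τ]) x := congrFun h3 x
  unfold ce
  rw [h4]

/-- the ergodic theorem for the dyadic averages -/
theorem hk_tendsto (hτ : IsFlow μ τ) {f : X → ℝ} (hf : BM f) :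
    ∀ᵐ x ∂μ, Tendsto (fun k => hk τ (fun x => f x - ce μ τ f x) k x) atTop (nhds 0) := by
  filter_upwards [flwb X μ τ f hτ hf.1 hf.2, ce_ae (μ := μ) (τ := τ) hf] with x hx hx2
  have h1 : Tendsto (fun k : ℕ => (2 : ℝ) ^ k) atTop atTop := tendsto_pow_atTop_atTop_of_one_lt (by norm_num)
  have h2 := (hx.comp h1).sub_const (ce μ τ f x)
  rw [hx2, sub_self] at h2
  refine h2.congr fun k => ?_
  simp only [Function.comp_apply]
  unfold hk smo
  have hk0 : (0 : ℝ) < 2 ^ k := by positivity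
  simp only [ce_inv]
  rw [intervalIntegral.integral_sub (bm_int hτ hf x _ _) intervalIntegrable_const,
    intervalIntegral.integral_const, smul_eq_mul, sub_zero]
  rw [← hx2]
  field_simp

/-- the maximal function of the long dyadic averages -/
noncomputable def GM (τ : ℝ → X → X) (φ : X → ℝ) (M : ℕ) (x : X) : ℝ := ⨆ k : ℕ, |hk τ φ (M + k) x|

theorem hk_le (hτ : IsFlow μ τ) {C : ℝ} (hC : ∀ x, |φ x| ≤ C) (k : ℕ) (x : X) : |hk τ φ k x| ≤ C :=
  Pool.Agent.Y48.MC.smo_bd ((abs_nonneg _).trans (hC x)) hC (by positivity) x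

theorem GM_bdd (hτ : IsFlow μ τ) {C : ℝ} (hC : ∀ x, |φ x| ≤ C) (M : ℕ) (x : X) :
    BddAbove (Set.range fun k : ℕ => |hk τ φ (M + k) x|) := by
  refine ⟨C, ?_⟩
  rintro _ ⟨k, rfl⟩
  exact hk_le hτ hC _ x

theorem GM_bm (hτ : IsFlow μ τ) (hφ : BM φ) (M : ℕ) : BM (GM τ φ M) := by
  obtain ⟨hφm, C, hC⟩ := hφ
  refine ⟨?_, C, fun x => ?_⟩
  · exact Measurable.iSup fun k => (hk_bm hτ ⟨hφm, C, hC⟩ (M + k)).abs.1
  · have h1 : GM τ φ M x ≤ C := ciSup_le fun k => hk_le hτ hC _ x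
    have h2 : 0 ≤ GM τ φ M x := (abs_nonneg _).trans (le_ciSup (GM_bdd hτ hC M x) 0)
    rwa [abs_of_nonneg h2]

theorem GM_nonneg (hτ : IsFlow μ τ) (hφ : BM φ) (M : ℕ) (x : X) : 0 ≤ GM τ φ M x := by
  obtain ⟨hφm, C, hC⟩ := hφ
  exact (abs_nonneg _).trans (le_ciSup (GM_bdd hτ hC M x) 0)

theorem GM_ge (hτ : IsFlow μ τ) (hφ : BM φ) {M k : ℕ} (h : M ≤ k) (x : X) : |hk τ φ k x| ≤ GM τ φ M x := by
  obtain ⟨hφm, C, hC⟩ := hφ
  have := le_ciSup (GM_bdd hτ hC M x) (k - M)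
  simp only [Nat.add_sub_cancel' h] at this
  exact this

theorem GM_int (hτ : IsFlow μ τ) {f : X → ℝ} (hf : BM f) :
    Tendsto (fun M => ∫ x, GM τ (fun x => f x - ce μ τ f x) M x ∂μ) atTop (nhds 0) := by
  set φ : X → ℝ := fun x => f x - ce μ τ f x with hφd
  have hφ : BM φ := hf.sub (ce_bm f)
  obtain ⟨C, hC⟩ := hφ.2
  have h := tendsto_integral_of_dominated_convergence (μ := μ) (F := fun M x => GM τ φ M x) (f := fun _ => (0 : ℝ))
    (fun _ => C) (fun M => (GM_bm hτ hφ M).1.aestronglyMeasurable) (integrable_const C)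
    (fun M => Eventually.of_forall fun x => ?_) ?_
  · simpa using h
  · rw [Real.norm_of_nonneg (GM_nonneg hτ hφ M x)]
    exact ciSup_le fun k => hk_le hτ hC _ x
  · filter_upwards [hk_tendsto (μ := μ) hτ hf] with x hx
    rw [Metric.tendsto_nhds]
    intro δ hδ
    have h1 := Metric.tendsto_nhds.1 hx (δ / 2) (by linarith)
    obtain ⟨M₀, hM₀⟩ := eventually_atTop.1 h1
    filter_upwards [eventually_ge_atTop M₀] with M hM
    rw [Real.dist_eq, sub_zero, abs_of_nonneg (GM_nonneg hτ hφ M x)]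
    refine lt_of_le_of_lt (ciSup_le fun k => ?_) (by linarith : δ / 2 < δ)
    have := hM₀ (M + k) (by omega)
    rw [Real.dist_eq, sub_zero] at this
    exact this.le

theorem ae_lam : ∀ᵐ a ∂lam B, |a| ≤ |B| := by
  unfold lam
  rw [ae_map_iff (meas_lam B).aemeasurable (isClosed_le continuous_abs continuous_const).measurableSet]
  unfold un
  rw [Measure.prod_restrict]
  filter_upwards [ae_restrict_mem (measurableSet_Ioc.prod measurableSet_Ioc)] with q hq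
  obtain ⟨h1, h2⟩ := hq
  rw [abs_mul]
  refine mul_le_of_le_one_right (abs_nonneg _) ?_
  rw [abs_le]
  constructor <;> linarith [h1.1, h1.2, h2.1, h2.2]

theorem ae_skip {Q : Ω × X → Prop} (h : ∀ᵐ z ∂(ν.prod μ), Q z) :
    ∀ᵐ z : (ℝ × Ω) × X ∂(((lam B).prod ν).prod μ), Q (z.1.2, z.2) := by
  have h1 : ∀ᵐ w : ℝ × (Ω × X) ∂((lam B).prod (ν.prod μ)), Q w.2 := Measure.quasiMeasurePreserving_snd.ae h
  have h2 := (measurePreserving_prodAssoc (lam B) ν μ).quasiMeasurePreserving.ae h1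
  filter_upwards [h2] with z hz
  exact hz

/-- times with adapted lacunary sequences -/
structure Tms (p : ℕ → ℝ) : Prop extends Tm p where
  lac : ∃ β : ℕ → ℝ, (∀ k, 1 < β k) ∧ Tendsto β atTop (nhds 1) ∧ ∀ k, Lac p (k + 1) (fun i => ⌊β k ^ i⌋₊)

/-- the averages along a word with one more flow -/
theorem word_conv (hB : 0 < B) (hg : Fam μ g) (hP : Peel μ ν g d) (hT : Lim μ ν g T) (hτ : IsFlow μ τ) (hp : Tms p)
    {f : X → ℝ} (hf : BM f) : ∀ᵐ z : (ℝ × Ω) × X ∂(((lam B).prod ν).prod μ),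
      Tendsto (fun N : ℕ => (1 / (N : ℝ)) * ∑ n ∈ Icc 1 N,
        (f (τ (z.1.1 * p n) (g n z.1.2 z.2)) - ce μ τ f (g n z.1.2 z.2))) atTop (nhds 0) := by
  set φ : X → ℝ := fun x => f x - ce μ τ f x with hφd
  have hφ : BM φ := hf.sub (ce_bm f)
  obtain ⟨C, hC⟩ := hφ.2
  obtain ⟨β, hβ, hβ1, hLac⟩ := hp.lac
  have h1 : ∀ᵐ z : (ℝ × Ω) × X ∂(((lam B).prod ν).prod μ), ∀ k j e : ℕ,
      Tendsto (fun i : ℕ => Sn τ p g (1 / ((e : ℝ) + 2)) ⌊β k ^ i⌋₊ (fun x => φ x - hk τ φ (i / (k + 1) + j) x) z)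
        atTop (nhds 0) := by
    rw [ae_all_iff]; intro k
    rw [ae_all_iff]; intro j
    rw [ae_all_iff]; intro e
    refine ae_diff hB hg hP hτ hp.toTm (by positivity) ?_ hφ (hLac k) j
    rw [div_le_div_iff₀ (by positivity) (by norm_num)]
    have : (0 : ℝ) ≤ e := Nat.cast_nonneg _
    linarith
  have h2 : ∀ᵐ z : (ℝ × Ω) × X ∂(((lam B).prod ν).prod μ), ∀ δ : ℝ, 0 < δ → ∃ M, T (GM τ φ M) z.2 < δ :=
    ae_skip (tiny hg hT (fun M => GM_bm hτ hφ M) (fun M x => GM_nonneg hτ hφ M x) (GM_int hτ hf))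
  have h3 : ∀ᵐ z : (ℝ × Ω) × X ∂(((lam B).prod ν).prod μ), ∀ M, Tendsto (fun N : ℕ => (1 / (N : ℝ)) *
      ∑ n ∈ Icc 1 N, GM τ φ M (g n z.1.2 z.2)) atTop (nhds (T (GM τ φ M) z.2)) := by
    rw [ae_all_iff]
    exact fun M => ae_skip (hT (GM τ φ M) (GM_bm hτ hφ M))
  have h4 : ∀ᵐ z : (ℝ × Ω) × X ∂(((lam B).prod ν).prod μ), |z.1.1| ≤ |B| :=
    Measure.quasiMeasurePreserving_fst.ae (Measure.quasiMeasurePreserving_fst.ae ae_lam)
  filter_upwards [h1, h2, h3, h4] with z hz1 hz2 hz3 hz4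
  set c : ℕ → ℝ := fun n => φ (τ (z.1.1 * p n) (g n z.1.2 z.2)) with hc
  have e1 : ∀ n, f (τ (z.1.1 * p n) (g n z.1.2 z.2)) - ce μ τ f (g n z.1.2 z.2) = c n := by
    intro n
    simp only [hc, hφd, ce_inv]
  simp only [e1]
  refine det_full (C := C) (fun n => hC _) hβ hβ1 fun k => ?_
  refine det_lac (C := C) (fun n => hC _) (hLac k).tends fun e η hη => ?_
  obtain ⟨C₃, hC₃, hupp⟩ := (hLac k).upp
  obtain ⟨c₁, hc₁, hinc⟩ := hp.inc (1 / ((e : ℝ) + 2)) (by positivity)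
  have hC0 : 0 ≤ C := (abs_nonneg _).trans (hC z.2)
  -- the choice of the parameters
  obtain ⟨j, hj⟩ : ∃ j : ℕ, 2 * C * |B| * C₃ / 2 ^ j ≤ η / 4 := by
    obtain ⟨j, hj⟩ := exists_nat_gt (2 * C * |B| * C₃ / (η / 4))
    refine ⟨j, ?_⟩
    rw [div_le_iff₀ (by positivity)]
    rw [div_lt_iff₀ (by positivity)] at hj
    have h2j : (j : ℝ) ≤ 2 ^ j := by exact_mod_cast Nat.lt_two_pow_self.le
    nlinarith
  obtain ⟨M, hM⟩ := hz2 (η / 4) (by linarith)
  have hdiv : Tendsto (fun i : ℕ => i / (k + 1)) atTop atTop := Nat.tendsto_div_const_atTop (by omega)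
  have hG := ((hz3 M).comp (hLac k).tends).eventually_lt_const (show T (GM τ φ M) z.2 < η / 2 by linarith)
  have hD := (hz1 k j e)
  rw [Metric.tendsto_nhds] at hD
  have hD2 := hD (η / 4) (by linarith)
  filter_upwards [hupp, (hLac k).tends.eventually hinc, hG, hD2, hdiv.eventually_ge_atTop M,
    (hLac k).tends.eventually_ge_atTop 1, (hLac k).tends.eventually (hp.tends.eventually_gt_atTop 0)]
    with i hupp hinc hG hD2 hKM hN1 hpN
  obtain ⟨N, hN⟩ : ∃ N, N = ⌊β k ^ i⌋₊ := ⟨_, rfl⟩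
  obtain ⟨K, hK⟩ : ∃ K, K = i / (k + 1) := ⟨_, rfl⟩
  simp only [Function.comp_apply] at hG
  rw [← hN] at hupp hinc hG hD2 hN1 hpN ⊢
  rw [← hK] at hupp hD2 hKM
  have hN0 : (0 : ℝ) < N := by exact_mod_cast hN1
  rw [Real.dist_eq, sub_zero] at hD2
  set m : ℕ := ⌊(1 / ((e : ℝ) + 2)) * N⌋₊ with hm
  have hmem : ∀ n ∈ Ioc m N, (1 / ((e : ℝ) + 2)) * N ≤ n ∧ n ≤ N := by
    intro n hn
    rw [mem_Ioc] at hn
    refine ⟨?_, hn.2⟩
    have h5 : (1 / ((e : ℝ) + 2)) * N < m + 1 := Nat.lt_floor_add_one _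
    have h6 : ((m : ℝ) + 1) ≤ n := by exact_mod_cast hn.1
    linarith
  have hpn : ∀ n ∈ Ioc m N, |p n| ≤ C₃ * 2 ^ K := by
    intro n hn
    obtain ⟨h5, h6⟩ := hmem n hn
    have h7 := (hinc n h5 h6).1
    have h8 : 0 < p n := lt_of_lt_of_le (by positivity) h7
    have h9 : Inc p (c₁ * p N / N) (p N / (c₁ * N)) n N := fun l hl1 hl2 => by
      have h10 : ((n : ℝ)) ≤ l := by exact_mod_cast hl1
      exact (hinc l (h5.trans h10) hl2.le).2
    have h11 := h9.low le_rfl h6 le_rfl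
    have h12 : 0 ≤ c₁ * p N / N * ((N : ℝ) - n) := by
      have : (n : ℝ) ≤ N := by exact_mod_cast h6
      exact mul_nonneg (by positivity) (by linarith)
    rw [abs_of_pos h8]
    linarith
  have e2 : (1 / (N : ℝ)) * ∑ n ∈ Ioc m N, c n =
      Sn τ p g (1 / ((e : ℝ) + 2)) N (fun x => φ x - hk τ φ (K + j) x) z +
      Sn τ p g (1 / ((e : ℝ) + 2)) N (hk τ φ (K + j)) z := by
    rw [← Sn_add]
    simp only [Sn, sub_add_cancel, hc, ← hm]
  have h5 : ∀ n ∈ Ioc m N, |hk τ φ (K + j) (τ (z.1.1 * p n) (g n z.1.2 z.2))| ≤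
      GM τ φ M (g n z.1.2 z.2) + η / 4 := by
    intro n hn
    have h6 := smo_lip hτ hφ.1 hC (δ := (2 : ℝ) ^ (K + j)) (by positivity) (g n z.1.2 z.2) (z.1.1 * p n) 0
    rw [hτ.zero, sub_zero, abs_mul] at h6
    have h7 : 2 * C / 2 ^ (K + j) * (|z.1.1| * |p n|) ≤ η / 4 := by
      have h8 : |z.1.1| * |p n| ≤ |B| * (C₃ * 2 ^ K) := mul_le_mul hz4 (hpn n hn) (abs_nonneg _) (abs_nonneg _)
      refine (mul_le_mul_of_nonneg_left h8 (by positivity)).trans (le_trans (le_of_eq ?_) hj)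
      rw [pow_add]
      field_simp
    have h9 := GM_ge (μ := μ) hτ hφ (show M ≤ K + j by omega) (g n z.1.2 z.2)
    have h10 : |hk τ φ (K + j) (τ (z.1.1 * p n) (g n z.1.2 z.2))| ≤
        |hk τ φ (K + j) (g n z.1.2 z.2)| + 2 * C / 2 ^ (K + j) * (|z.1.1| * |p n|) := by
      have h11 := abs_sub_abs_le_abs_sub (hk τ φ (K + j) (τ (z.1.1 * p n) (g n z.1.2 z.2)))
        (hk τ φ (K + j) (g n z.1.2 z.2))
      have h12 : |hk τ φ (K + j) (τ (z.1.1 * p n) (g n z.1.2 z.2)) - hk τ φ (K + j) (g n z.1.2 z.2)| ≤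
          2 * C / 2 ^ (K + j) * (|z.1.1| * |p n|) := h6
      linarith
    linarith
  have h6 : |Sn τ p g (1 / ((e : ℝ) + 2)) N (hk τ φ (K + j)) z| ≤ η / 2 + η / 4 := by
    unfold Sn
    rw [← hm, abs_mul, abs_of_pos (by positivity : (0 : ℝ) < 1 / N)]
    have h7 : |∑ n ∈ Ioc m N, hk τ φ (K + j) (τ (z.1.1 * p n) (g n z.1.2 z.2))| ≤
        ∑ n ∈ Icc 1 N, GM τ φ M (g n z.1.2 z.2) + N * (η / 4) := by
      refine (abs_sum_le_sum_abs _ _).trans ((sum_le_sum h5).trans ?_)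
      rw [sum_add_distrib, sum_const, Nat.card_Ioc, nsmul_eq_mul]
      refine add_le_add ?_ ?_
      · refine sum_le_sum_of_subset_of_nonneg ?_ fun n _ _ => GM_nonneg hτ hφ M _
        intro n hn
        rw [mem_Ioc] at hn
        rw [mem_Icc]
        omega
      · refine mul_le_mul_of_nonneg_right ?_ (by linarith)
        exact_mod_cast Nat.sub_le _ _
    calc 1 / (N : ℝ) * |∑ n ∈ Ioc m N, hk τ φ (K + j) (τ (z.1.1 * p n) (g n z.1.2 z.2))| ≤
        1 / (N : ℝ) * (∑ n ∈ Icc 1 N, GM τ φ M (g n z.1.2 z.2) + N * (η / 4)) :=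
          mul_le_mul_of_nonneg_left h7 (by positivity)
      _ = 1 / (N : ℝ) * ∑ n ∈ Icc 1 N, GM τ φ M (g n z.1.2 z.2) + η / 4 := by field_simp
      _ ≤ η / 2 + η / 4 := by linarith
  rw [e2]
  refine (abs_add_le _ _).trans ?_
  linarith

/-- convergence for words, from `d` to `d + 1` flows -/
theorem lim_succ (hB : 0 < B) (hg : Fam μ g) (hP : Peel μ ν g d) (hT : Lim μ ν g T) (hτ : IsFlow μ τ) (hp : Tms p) :
    Lim μ ((lam B).prod ν) (fun (n : ℕ) (q : ℝ × Ω) (x : X) => τ (q.1 * p n) (g n q.2 x))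
      (fun f => T (ce μ τ f)) := by
  intro f hf
  have h1 := word_conv hB hg hP hT hτ hp hf
  have h2 : ∀ᵐ z : (ℝ × Ω) × X ∂(((lam B).prod ν).prod μ), Tendsto (fun N : ℕ => (1 / (N : ℝ)) *
      ∑ n ∈ Icc 1 N, ce μ τ f (g n z.1.2 z.2)) atTop (nhds (T (ce μ τ f) z.2)) := ae_skip (hT _ (ce_bm f))
  filter_upwards [h1, h2] with z hz1 hz2
  have h3 := hz1.add hz2
  rw [zero_add] at h3
  refine h3.congr fun N => ?_
  rw [← mul_add, ← sum_add_distrib]
  simp only [sub_add_cancel]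

theorem lim_skip (hT : Lim μ ν g T) :
    Lim μ ((lam B).prod ν) (fun (n : ℕ) (q : ℝ × Ω) (x : X) => g n q.2 x) T := fun f hf => ae_skip (hT f hf)

theorem lim_zero : Lim μ ν (fun (_ : ℕ) (_ : Ω) (x : X) => x) (fun f => f) := by
  intro f hf
  filter_upwards with z
  refine tendsto_const_nhds.congr' ?_
  filter_upwards [eventually_ge_atTop 1] with N hN
  have hN0 : (N : ℝ) ≠ 0 := by
    have : N ≠ 0 := by omega
    exact_mod_cast this
  rw [sum_const, Nat.card_Icc, nsmul_eq_mul, Nat.add_sub_cancel]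
  field_simp

end lims

end Pool.Agent.W5h67.NF
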