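import Pool.Agent.R258.TDJBD
import Pool.Agent.R724.TD.PTW

/-!
Mean squares with coefficients which vary slowly with the parameter: a version of `Pool.Agent.R258.TDJBD.t_JBD` for
arbitrary families of functions.
-/

set_option autoImplicit false

namespace Pool.Agent.W5h67.NF

open MeasureTheory Filter Finset
open Pool.Agent.R497.TD (S_PTW)
open Pool.Agent.R258.TDJBD (bint avg_le sq_bd mul_bd iprod inn_meas inn_bd iint shift_le m1_real m2_real strip)

universe u

theorem jbd {Y : Type u} [MeasurableSpace Y] (μ : Measure Y) [IsProbabilityMeasure μ]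
    (w : ℕ → ℝ → Y → ℝ) (B : ℕ → ℝ → Y → ℝ) (N : ℕ) (l ρ θ Λ D : ℝ)
    (hw : ∀ n, Measurable fun q : ℝ × Y => w n q.1 q.2) (hw1 : ∀ n a x, |w n a x| ≤ 1)
    (hB : ∀ n, Measurable fun q : ℝ × Y => B n q.1 q.2) (hB1 : ∀ n a x, |B n a x| ≤ 1)
    (hBL : ∀ n, n < N → ∀ a a' x, |B n a x - B n a' x| ≤ Λ * |a - a'|) (hN : 0 < N)
    (hl : 0 < l) (hl2 : l ≤ 1 / 2) (hρ : 0 ≤ ρ) (hθ : 0 < θ) (hD : 0 ≤ D) (hΛ : 0 ≤ Λ)
    (hyp : ∀ δ, ρ ≤ |δ| → |δ| ≤ l → ∫ a in (1 / 2 : ℝ)..3, ∫ x, ((1 / (N : ℝ)) * ∑ n ∈ range N,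
        (w n a x * w n (a + δ) x)) ^ 2 ∂μ ≤ D) :
    ∫ a in (1 : ℝ)..2, ∫ x, ((1 / (N : ℝ)) * ∑ n ∈ range N, B n a x * w n a x) ^ 2 ∂μ ≤
      2 * θ + 1 / θ * (D + 5 * ρ / l) + 3 * (Λ * l) ^ 2 := by
  have h : S_PTW := Pool.Agent.R724.TD.t_PTW
  set m1 : Measure (ℝ × Y) := (volume.restrict (Set.Ioc (1 / 2 : ℝ) 2)).prod μ with hm1
  set νl : Measure ℝ := volume.restrict (Set.Ioc (0 : ℝ) l) with hνl
  set m2 : Measure (ℝ × ℝ) := νl.prod νl with hm2
  -- the functions
  let F0 : ℝ × Y → ℝ := fun p =>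
    ((1 / (N : ℝ)) * ∑ n ∈ range N, B n p.1 p.2 * w n p.1 p.2) ^ 2
  let F1 : ℝ × (ℝ × Y) → ℝ := fun z =>
    ((1 / (N : ℝ)) * ∑ n ∈ range N, B n z.2.1 z.2.2 * w n (z.2.1 + z.1) z.2.2) ^ 2
  let G1 : (ℝ × ℝ) × (ℝ × Y) → ℝ := fun z =>
    ((1 / (N : ℝ)) * ∑ n ∈ range N, w n (z.2.1 + z.1.1) z.2.2 *
      w n (z.2.1 + z.1.2) z.2.2) ^ 2
  let Ξ : ℝ → ℝ × Y → ℝ := fun δ p =>
    ((1 / (N : ℝ)) * ∑ n ∈ range N, (w n p.1 p.2 *
      w n (p.1 + δ) p.2)) ^ 2
  have mF0 : Measurable F0 := by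
    refine Measurable.pow_const (Measurable.const_mul (Finset.measurable_sum _ fun n _ => ?_) _) 2
    exact ((hB n).comp (measurable_fst.prodMk measurable_snd)).mul
      ((hw n).comp (measurable_fst.prodMk measurable_snd))
  have mF1 : Measurable F1 := by
    refine Measurable.pow_const (Measurable.const_mul (Finset.measurable_sum _ fun n _ => ?_) _) 2
    exact ((hB n).comp ((measurable_fst.comp measurable_snd).prodMk
      (measurable_snd.comp measurable_snd))).mul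
      ((hw n).comp (((measurable_fst.comp measurable_snd).add measurable_fst).prodMk
        (measurable_snd.comp measurable_snd)))
  have mG1 : Measurable G1 := by
    refine Measurable.pow_const (Measurable.const_mul (Finset.measurable_sum _ fun n _ => ?_) _) 2
    exact ((hw n).comp (((measurable_fst.comp measurable_snd).add (measurable_fst.comp measurable_fst)).prodMk
        (measurable_snd.comp measurable_snd))).mul
      ((hw n).comp (((measurable_fst.comp measurable_snd).add (measurable_snd.comp measurable_fst)).prodMk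
        (measurable_snd.comp measurable_snd)))
  have mΞ : ∀ δ, Measurable (Ξ δ) := by
    intro δ
    refine Measurable.pow_const (Measurable.const_mul (Finset.measurable_sum _ fun n _ => ?_) _) 2
    exact ((hw n).comp (measurable_fst.prodMk measurable_snd)).mul
      ((hw n).comp ((measurable_fst.add_const δ).prodMk measurable_snd))
  have bF0 : ∀ p, |F0 p| ≤ 1 := fun p => sq_bd (avg_le hN fun n _ => mul_bd (hB1 _ _ _) (hw1 _ _ _))
  have bF1 : ∀ p, |F1 p| ≤ 1 := fun p => sq_bd (avg_le hN fun n _ => mul_bd (hB1 _ _ _) (hw1 _ _ _))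
  have bG1 : ∀ p, |G1 p| ≤ 1 := fun p => sq_bd (avg_le hN fun n _ => mul_bd (hw1 _ _ _) (hw1 _ _ _))
  have bΞ : ∀ δ p, |Ξ δ p| ≤ 1 := fun δ p =>
    sq_bd (avg_le hN fun n _ => mul_bd (hw1 _ _ _) (hw1 _ _ _))
  have pF0 : ∀ p, 0 ≤ F0 p := fun p => sq_nonneg _
  have pΞ : ∀ δ p, 0 ≤ Ξ δ p := fun δ p => sq_nonneg _
  set J := ∫ a in (1 : ℝ)..2, ∫ x, F0 (a, x) ∂μ with hJ
  change J ≤ _
  -- step 1: shift by `s`
  have step1 : ∀ s ∈ Set.Ioc (0 : ℝ) l, J ≤ 2 * (∫ p, F1 (s, p) ∂m1) + 3 * (Λ * l) ^ 2 := by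
    intro s hs
    have h1 : J ≤ ∫ a in (1 / 2 : ℝ)..2, ∫ x, F0 (a + s, x) ∂μ := by
      refine shift_le (f := fun a => ∫ x, F0 (a, x) ∂μ) (inn_meas μ mF0) (fun a => inn_bd μ fun x => bF0 _)
        (fun a => integral_nonneg fun x => pF0 _) (by norm_num) ?_ ?_
      · linarith [hs.2]
      · linarith [hs.1]
    have h2 : ∫ a in (1 / 2 : ℝ)..2, ∫ x, F0 (a + s, x) ∂μ = ∫ p, F0 (p.1 + s, p.2) ∂m1 := by
      refine iprod μ (f := fun p => F0 (p.1 + s, p.2)) ?_ 1 (fun p => bF0 _) (by norm_num)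
      exact mF0.comp (by fun_prop)
    have h3 : ∫ p, F0 (p.1 + s, p.2) ∂m1 ≤ ∫ p, (2 * F1 (s, p) + 2 * (Λ * l) ^ 2) ∂m1 := by
      have mm : Measurable fun p : ℝ × Y => F1 (s, p) := mF1.comp (by fun_prop)
      refine integral_mono (bint (mF0.comp (by fun_prop)) 1 fun p => bF0 _)
        (((bint mm 1 fun p => bF1 _).const_mul 2).add (integrable_const _)) fun p => ?_
      show F0 (p.1 + s, p.2) ≤ 2 * F1 (s, p) + 2 * (Λ * l) ^ 2
      obtain ⟨a, x⟩ := p
      have h4 : (1 / (N : ℝ)) * ∑ n ∈ range N, B n (a + s) x * w n (a + s) x =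
          (1 / (N : ℝ)) * ∑ n ∈ range N, B n a x * w n (a + s) x +
          (1 / (N : ℝ)) * ∑ n ∈ range N, (B n (a + s) x - B n a x) * w n (a + s) x := by
        rw [← mul_add, ← Finset.sum_add_distrib]
        congr 1
        refine Finset.sum_congr rfl fun n _ => ?_
        ring
      have h5 : |(1 / (N : ℝ)) * ∑ n ∈ range N, (B n (a + s) x - B n a x) *
          w n (a + s) x| ≤ Λ * l := by
        refine avg_le hN fun n hn => ?_
        rw [abs_mul]
        have h6 := hBL n hn (a + s) a x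
        rw [show a + s - a = s by ring, abs_of_pos hs.1] at h6
        calc |B n (a + s) x - B n a x| * |w n (a + s) x|
            ≤ (Λ * s) * 1 := mul_le_mul h6 (hw1 _ _ _) (abs_nonneg _) (mul_nonneg hΛ hs.1.le)
          _ ≤ Λ * l := by
              rw [mul_one]
              exact mul_le_mul_of_nonneg_left hs.2 hΛ
      show ((1 / (N : ℝ)) * ∑ n ∈ range N, B n (a + s) x * w n (a + s) x) ^ 2 ≤
        2 * ((1 / (N : ℝ)) * ∑ n ∈ range N, B n a x * w n (a + s) x) ^ 2 +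
          2 * (Λ * l) ^ 2
      rw [h4]
      set u := (1 / (N : ℝ)) * ∑ n ∈ range N, B n a x * w n (a + s) x
      set v := (1 / (N : ℝ)) * ∑ n ∈ range N, (B n (a + s) x - B n a x) * w n (a + s) x
      have h6 : v ^ 2 ≤ (Λ * l) ^ 2 := sq_le_sq' (by linarith [(abs_le.mp h5).1]) (abs_le.mp h5).2
      nlinarith [sq_nonneg (u - v)]
    have h4 : ∫ p, (2 * F1 (s, p) + 2 * (Λ * l) ^ 2) ∂m1 =
        2 * (∫ p, F1 (s, p) ∂m1) + 3 * (Λ * l) ^ 2 := by
      have mm : Measurable fun p : ℝ × Y => F1 (s, p) := mF1.comp (by fun_prop)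
      rw [integral_add ((bint mm 1 fun p => bF1 _).const_mul 2) (integrable_const _),
        integral_const_mul, integral_const, m1_real, smul_eq_mul]
      ring
    rw [h2] at h1
    linarith
  -- step 2: average over `s`
  have iF1 : Integrable F1 (νl.prod m1) := bint mF1 1 bF1
  have step2 : l * J ≤ 2 * (∫ p, ∫ s, F1 (s, p) ∂νl ∂m1) + 3 * (Λ * l) ^ 2 * l := by
    have h1 : ∫ _ in Set.Ioc (0 : ℝ) l, J ≤
        ∫ s in Set.Ioc (0 : ℝ) l, (2 * (∫ p, F1 (s, p) ∂m1) + 3 * (Λ * l) ^ 2) := by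
      refine setIntegral_mono_on (integrable_const _)
        ((iF1.integral_prod_left.const_mul 2).add (integrable_const _)) measurableSet_Ioc ?_
      exact step1
    have hr : (volume.restrict (Set.Ioc (0 : ℝ) l)).real Set.univ = l := by
      rw [Measure.real, Measure.restrict_apply_univ, Real.volume_Ioc, sub_zero,
        ENNReal.toReal_ofReal hl.le]
    rw [integral_const, smul_eq_mul, hr,
      integral_add (iF1.integral_prod_left.const_mul 2) (integrable_const _),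
      integral_const_mul, integral_const, smul_eq_mul, hr] at h1
    have h2 : ∫ s, ∫ p, F1 (s, p) ∂m1 ∂νl = ∫ p, ∫ s, F1 (s, p) ∂νl ∂m1 :=
      integral_integral_swap (f := fun s p => F1 (s, p)) iF1
    rw [← h2]
    linarith
  -- step 3: the pointwise inequality
  have step3 : ∀ p : ℝ × Y, ∫ s, F1 (s, p) ∂νl ≤
      l * (θ / 2) + 1 / (2 * θ) * ((1 / l) * ∫ z, G1 (z, p) ∂m2) := by
    rintro ⟨a, x⟩
    have h1 := h N (fun n => B n a x) (fun n s => w n (a + s) x) l θ hN hl hθ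
      (fun n => hB1 n a x) (fun n => (hw n).comp ((measurable_const.add measurable_id).prodMk measurable_const))
      (fun n s => hw1 _ _ _)
    have h2 : ∫ s, F1 (s, (a, x)) ∂νl = ∫ s in (0 : ℝ)..l,
        ((1 / (N : ℝ)) * ∑ n ∈ range N, B n a x * w n (a + s) x) ^ 2 := by
      rw [intervalIntegral.integral_of_le hl.le]
    have h3 : ∫ z, G1 (z, (a, x)) ∂m2 = ∫ s in (0 : ℝ)..l, ∫ s' in (0 : ℝ)..l,
        ((1 / (N : ℝ)) * ∑ n ∈ range N, w n (a + s) x *
          w n (a + s') x) ^ 2 := by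
      have mz : Measurable fun z : ℝ × ℝ => G1 (z, (a, x)) := mG1.comp (by fun_prop)
      rw [intervalIntegral.integral_of_le hl.le, hm2,
        integral_prod (fun z : ℝ × ℝ => G1 (z, (a, x)))
          (bint (m := νl.prod νl) mz 1 fun z => bG1 _)]
      refine integral_congr_ae (Eventually.of_forall fun s => ?_)
      show ∫ s', G1 ((s, s'), (a, x)) ∂νl = ∫ s' in (0 : ℝ)..l, _
      rw [intervalIntegral.integral_of_le hl.le]
    rw [h2, h3]
    have h4 := mul_le_mul_of_nonneg_left h1 hl.le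
    rw [← mul_assoc, mul_one_div_cancel hl.ne', one_mul] at h4
    refine h4.trans (le_of_eq ?_)
    field_simp
  -- step 4: integrate and exchange
  have iG1 : Integrable G1 (m2.prod m1) := bint mG1 1 bG1
  have step4 : ∫ p, ∫ s, F1 (s, p) ∂νl ∂m1 ≤
      3 / 2 * (l * (θ / 2)) + 1 / (2 * θ) * ((1 / l) * ∫ z, ∫ p, G1 (z, p) ∂m1 ∂m2) := by
    have h0 : Integrable (fun p => ∫ z, G1 (z, p) ∂m2) m1 := iG1.integral_prod_right
    have h1 : ∫ p, ∫ s, F1 (s, p) ∂νl ∂m1 ≤
        ∫ p, (l * (θ / 2) + 1 / (2 * θ) * ((1 / l) * ∫ z, G1 (z, p) ∂m2)) ∂m1 :=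
      integral_mono iF1.integral_prod_right
        ((integrable_const _).add ((h0.const_mul _).const_mul _)) step3
    rw [integral_add (integrable_const _) ((h0.const_mul _).const_mul _), integral_const,
      m1_real, smul_eq_mul, integral_const_mul, integral_const_mul] at h1
    have h2 : ∫ z, ∫ p, G1 (z, p) ∂m1 ∂m2 = ∫ p, ∫ z, G1 (z, p) ∂m2 ∂m1 :=
      integral_integral_swap (f := fun z p => G1 (z, p)) iG1
    rw [h2]
    exact h1
  -- step 5: the correlation
  have step5 : ∀ z : ℝ × ℝ, z.1 ∈ Set.Ioc (0 : ℝ) l → z.2 ∈ Set.Ioc (0 : ℝ) l →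
      ∫ p, G1 (z, p) ∂m1 ≤ D + 5 / 2 * (if |z.2 - z.1| < ρ then (1 : ℝ) else 0) := by
    rintro ⟨s, s'⟩ hs hs'
    simp only at hs hs' ⊢
    have mG : Measurable fun p : ℝ × Y => G1 ((s, s'), p) := mG1.comp (by fun_prop)
    split_ifs with hc
    · have h1 : ∫ p, G1 ((s, s'), p) ∂m1 ≤ ∫ _, (1 : ℝ) ∂m1 :=
        integral_mono (bint mG 1 fun p => bG1 _) (integrable_const _) fun p =>
          (le_abs_self _).trans (bG1 _)
      rw [integral_const, m1_real, smul_eq_mul] at h1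
      linarith
    · push Not at hc
      have hδ : |s' - s| ≤ l := by
        rw [abs_le]
        constructor <;> linarith [hs.1, hs.2, hs'.1, hs'.2]
      have h1 := hyp (s' - s) hc hδ
      have h2 : ∫ p, G1 ((s, s'), p) ∂m1 = ∫ a in (1 / 2 : ℝ)..2, ∫ x, Ξ (s' - s) (a + s, x) ∂μ := by
        have h3 : ∫ a in (1 / 2 : ℝ)..2, ∫ x, Ξ (s' - s) (a + s, x) ∂μ =
            ∫ p, Ξ (s' - s) (p.1 + s, p.2) ∂m1 := by
          refine iprod μ (f := fun p => Ξ (s' - s) (p.1 + s, p.2)) ?_ 1 (fun p => bΞ _ _) (by norm_num)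
          exact (mΞ _).comp (by fun_prop)
        rw [h3]
        refine integral_congr_ae (Eventually.of_forall fun p => ?_)
        obtain ⟨a, x⟩ := p
        show ((1 / (N : ℝ)) * ∑ n ∈ range N, w n (a + s) x *
            w n (a + s') x) ^ 2 =
          ((1 / (N : ℝ)) * ∑ n ∈ range N, (w n (a + s) x *
            w n (a + s + (s' - s)) x)) ^ 2
        congr 2
        refine Finset.sum_congr rfl fun n _ => ?_
        have e : a + s + (s' - s) = a + s' := by ring
        rw [e]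
      have h3 : ∫ a in (1 / 2 : ℝ)..2, ∫ x, Ξ (s' - s) (a + s, x) ∂μ ≤
          ∫ a in (1 / 2 : ℝ)..3, ∫ x, Ξ (s' - s) (a, x) ∂μ := by
        rw [intervalIntegral.integral_comp_add_right (f := fun a => ∫ x, Ξ (s' - s) (a, x) ∂μ)]
        exact intervalIntegral.integral_mono_interval (by linarith [hs.1]) (by linarith)
          (by linarith [hs.2]) (Eventually.of_forall fun a => integral_nonneg fun x => pΞ _ _)
          (iint (inn_meas μ (mΞ _)) (fun a => inn_bd μ fun x => bΞ _ _) _ _)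
      rw [h2, mul_zero, add_zero]
      exact h3.trans h1
  -- step 6
  have step6 : ∫ z, ∫ p, G1 (z, p) ∂m1 ∂m2 ≤ D * (l * l) + 5 / 2 * (2 * ρ * l) := by
    have hmI : Measurable fun z : ℝ × ℝ => if |z.2 - z.1| < ρ then (1 : ℝ) else 0 := by
      refine Measurable.ite ?_ measurable_const measurable_const
      exact measurableSet_lt (by fun_prop) measurable_const
    have iI : Integrable (fun z : ℝ × ℝ => if |z.2 - z.1| < ρ then (1 : ℝ) else 0) m2 :=
      bint hmI 1 fun z => by split_ifs <;> simp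
    have hae : ∀ᵐ z ∂m2, z.1 ∈ Set.Ioc (0 : ℝ) l ∧ z.2 ∈ Set.Ioc (0 : ℝ) l := by
      have h1 : m2 = (volume.prod volume).restrict (Set.Ioc (0 : ℝ) l ×ˢ Set.Ioc (0 : ℝ) l) := by
        rw [hm2, hνl, Measure.prod_restrict]
      rw [h1]
      filter_upwards [ae_restrict_mem (measurableSet_Ioc.prod measurableSet_Ioc)] with z hz
      exact hz
    have h1 : ∫ z, ∫ p, G1 (z, p) ∂m1 ∂m2 ≤
        ∫ z, (D + 5 / 2 * (if |z.2 - z.1| < ρ then (1 : ℝ) else 0)) ∂m2 := by
      refine integral_mono_ae iG1.integral_prod_left ((integrable_const _).add (iI.const_mul _)) ?_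
      filter_upwards [hae] with z hz
      exact step5 z hz.1 hz.2
    rw [integral_add (integrable_const _) (iI.const_mul _), integral_const, integral_const_mul,
      smul_eq_mul] at h1
    have h2 : m2.real Set.univ = l * l := m2_real hl
    have h3 := strip hl hρ
    rw [h2] at h1
    have h4 : 5 / 2 * ∫ z, (if |z.2 - z.1| < ρ then (1 : ℝ) else 0) ∂m2 ≤ 5 / 2 * (2 * ρ * l) := by
      gcongr
    linarith
  -- conclusion
  have hfin : l * J ≤ l * (2 * θ + 1 / θ * (D + 5 * ρ / l) + 3 * (Λ * l) ^ 2) := by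
    have h1 : 1 / (2 * θ) * ((1 / l) * ∫ z, ∫ p, G1 (z, p) ∂m1 ∂m2) ≤
        1 / (2 * θ) * ((1 / l) * (D * (l * l) + 5 / 2 * (2 * ρ * l))) := by gcongr
    have h2 : 1 / (2 * θ) * ((1 / l) * (D * (l * l) + 5 / 2 * (2 * ρ * l))) * 2 =
        l * (1 / θ * (D + 5 * ρ / l)) := by
      field_simp
    have h3 : 0 ≤ l * θ := by positivity
    have h4 : l * (2 * θ + 1 / θ * (D + 5 * ρ / l) + 3 * (Λ * l) ^ 2) =
        2 * (l * θ) + l * (1 / θ * (D + 5 * ρ / l)) + 3 * (Λ * l) ^ 2 * l := by ring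
    rw [h4]
    linarith
  exact le_of_mul_le_mul_left hfin hl


end Pool.Agent.W5h67.NF
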