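import Pool.Agent.W5h67.NF.Conv
import Pool.Agent.W5h67.NF.Jbd
import Pool.Agent.R711.TDOSC

/-!
Words in noncommuting flows at generic times: the main case of the decoupling.
-/

set_option autoImplicit false

namespace Pool.Agent.W5h67.NF

open MeasureTheory Filter Finset
open Pool.Agent.Y957.MC (IsFlow flowInv smo)

universe u

section lam

theorem ii_bm {f : ℝ → ℝ} (hf : BM f) (a b : ℝ) : IntervalIntegrable f volume a b := by
  obtain ⟨h1, C, hC⟩ := hf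
  refine (intervalIntegrable_const (c := C)).mono_fun' h1.aestronglyMeasurable ?_
  filter_upwards with t
  simpa using hC t

theorem lam_inner {L v : ℝ} (hL : 0 < L) (f : ℝ → ℝ) :
    ∫ u, f (L * (u - v)) ∂un = (1 / L) * ∫ t in (-(L * v))..(L - L * v), f t := by
  rw [un_interval]
  have e1 : ∀ u : ℝ, f (L * (u - v)) = f (L * u - L * v) := fun u => by rw [mul_sub]
  simp only [e1]
  rw [intervalIntegral.integral_comp_mul_sub (fun t => f t) hL.ne', smul_eq_mul, one_div]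
  simp

theorem lam_upper {B : ℝ} (hB : 0 < B) {f : ℝ → ℝ} (hf : BM f) (h0 : ∀ x, 0 ≤ f x) :
    ∫ a, f a ∂lam B ≤ (1 / B) * ∫ a in (-B)..B, f a := by
  rw [int_lam hf]
  have hm : BM (fun v => ∫ u, f (B * (u - v)) ∂un) := by
    refine BM.integral (f := fun v u => f (B * (u - v))) ?_ un
    exact hf.comp (measurable_const.mul (measurable_snd.sub measurable_fst))
  have key : ∀ v ∈ Set.Ioc (0 : ℝ) 1, ∫ u, f (B * (u - v)) ∂un ≤ (1 / B) * ∫ a in (-B)..B, f a := by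
    intro v hv
    rw [lam_inner hB]
    refine mul_le_mul_of_nonneg_left ?_ (by positivity)
    exact intervalIntegral.integral_mono_interval (by nlinarith [hv.1, hv.2]) (by nlinarith [hv.1, hv.2])
      (by nlinarith [hv.1, hv.2]) (Eventually.of_forall h0) (ii_bm hf _ _)
  have h1 : ∫ v, ∫ u, f (B * (u - v)) ∂un ∂un ≤ ∫ _ : ℝ, ((1 / B) * ∫ a in (-B)..B, f a) ∂un := by
    refine integral_mono_ae (hm.int _) (integrable_const _) ?_
    unfold un
    rw [EventuallyLE, ae_restrict_iff' measurableSet_Ioc]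
    exact Eventually.of_forall key
  refine h1.trans (le_of_eq ?_)
  simp

theorem lam_lower {A : ℝ} (hA : 0 < A) {f : ℝ → ℝ} (hf : BM f) (h0 : ∀ x, 0 ≤ f x) :
    ∫ a in (-A)..A, f a ≤ 8 * A * ∫ a, f a ∂lam (4 * A) := by
  rw [int_lam hf]
  have h4A : 0 < 4 * A := by linarith
  set I := ∫ a in (-A)..A, f a with hI
  have hm : BM (fun v => ∫ u, f (4 * A * (u - v)) ∂un) := by
    refine BM.integral (f := fun v u => f (4 * A * (u - v))) ?_ un
    exact hf.comp (measurable_const.mul (measurable_snd.sub measurable_fst))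
  have key : ∀ v : ℝ, (Set.Ioc (1 / 4 : ℝ) (3 / 4)).indicator (fun _ => I / (4 * A)) v ≤
      ∫ u, f (4 * A * (u - v)) ∂un := by
    intro v
    rw [Set.indicator_apply]
    split_ifs with hv
    · rw [lam_inner h4A, div_eq_inv_mul, ← one_div]
      refine mul_le_mul_of_nonneg_left ?_ (by positivity)
      exact intervalIntegral.integral_mono_interval (by nlinarith [hv.1, hv.2]) (by linarith)
        (by nlinarith [hv.1, hv.2]) (Eventually.of_forall h0) (ii_bm hf _ _)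
    · exact integral_nonneg fun u => h0 _
  have h1 : ∫ v, (Set.Ioc (1 / 4 : ℝ) (3 / 4)).indicator (fun _ => I / (4 * A)) v ∂un ≤
      ∫ v, ∫ u, f (4 * A * (u - v)) ∂un ∂un := by
    refine integral_mono ?_ (hm.int _) key
    exact (integrable_const _).indicator measurableSet_Ioc
  rw [integral_indicator_const _ measurableSet_Ioc, smul_eq_mul] at h1
  have h2 : un.real (Set.Ioc (1 / 4 : ℝ) (3 / 4)) = 1 / 2 := by
    unfold un
    rw [Measure.real, Measure.restrict_apply measurableSet_Ioc, Set.inter_eq_left.2, Real.volume_Ioc,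
      ENNReal.toReal_ofReal (by norm_num)]
    · norm_num
    · intro v hv
      exact ⟨by linarith [hv.1], by linarith [hv.2]⟩
  rw [h2] at h1
  have h3 := mul_le_mul_of_nonneg_left h1 (by positivity : (0 : ℝ) ≤ 8 * A)
  refine le_trans (le_of_eq ?_) h3
  field_simp
  ring

end lam

section mainF

variable {X : Type u} [MeasurableSpace X] {Ω' : Type*} [MeasurableSpace Ω']
variable {μ : Measure X} [IsProbabilityMeasure μ] {ν' : Measure Ω'} [IsProbabilityMeasure ν']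
  {G : ℕ → Ω' → X → X} {D : ℕ}

theorem mainF (hG : Fam μ G) (hP : Peel μ ν' G D) {ε : ℝ} (hε : 0 < ε) (hε1 : ε ≤ 1 / 2) :
    ∃ C : ℝ, 0 < C ∧ ∀ᶠ N : ℕ in atTop, ∀ R : ℕ, 1 ≤ R → R ^ (2 * (D + 1)) ≤ N →
      ∀ F : ℕ → X → ℝ, (∀ n, Measurable (F n)) → (∀ n x, |F n x| ≤ 1) → ∀ η : ℝ, 0 ≤ η →
        (∀ s H : ℕ, ε * N ≤ s → s + H ≤ N + 1 → (N : ℝ) / (4 * (R : ℝ) ^ D) ≤ H →
          ∀ x, (∑ r ∈ range H, F (s + r) x) ^ 2 ≤ (H : ℝ) ^ 2 * η) →
        ∫ ω, ∫ x, ((1 / (N : ℝ)) * ∑ n ∈ Ioc ⌊ε * N⌋₊ N, F n (G n ω x)) ^ 2 ∂μ ∂ν' ≤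
          C * (η + 1 / Real.sqrt R) := by
  obtain ⟨C, hC, hPN⟩ := hP ε hε
  refine ⟨2 * (C + 1), by positivity, ?_⟩
  filter_upwards [hPN, eventually_ge_atTop 4] with N hPN hN4 R hR hRN F hFm hF1 η hη hblk
  have hF : ∀ n, BM (F n) := fun n => ⟨hFm n, 1, hF1 n⟩
  have hF2 : ∀ n, ∫ x, F n x ^ 2 ∂μ ≤ 1 := by
    intro n
    have h1 : ∀ x, F n x ^ 2 ≤ 1 := fun x => by
      rw [← sq_abs]
      exact pow_le_one₀ (abs_nonneg _) (hF1 n x)
    refine (integral_mono ((hF n).sq.int μ) ((BM.const 1).int μ) h1).trans (le_of_eq ?_)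
    simp
  have hN0 : (0 : ℝ) < N := by
    have : 0 < N := by omega
    exact_mod_cast this
  have hN4' : (4 : ℝ) ≤ N := by exact_mod_cast hN4
  have hR0 : (0 : ℝ) < R := by exact_mod_cast hR
  have hR1 : (1 : ℝ) ≤ R := by exact_mod_cast hR
  have hRN' : (R : ℝ) ^ (2 * (D + 1)) ≤ N := by exact_mod_cast hRN
  have hRd0 : 0 < (R : ℝ) ^ D := by positivity
  have hRd1 : 1 ≤ (R : ℝ) ^ D := one_le_pow₀ hR1
  have hsR : 0 < Real.sqrt R := Real.sqrt_pos.2 hR0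
  have hsR1 : 1 / (R : ℝ) ≤ 1 / Real.sqrt R := by
    rw [one_div_le_one_div hR0 hsR]
    rw [Real.sqrt_le_left hR0.le]
    exact ar1 hR1
  have h4R : 4 * (R : ℝ) ^ D ≤ N := by
    rcases Nat.lt_or_ge 1 R with h | h
    · have h2 : (2 : ℝ) ≤ R := by exact_mod_cast h
      have h3 : (R : ℝ) ^ (2 * (D + 1)) = (R : ℝ) ^ 2 * ((R : ℝ) ^ D * (R : ℝ) ^ D) := by ring
      rw [h3] at hRN'
      exact ar4 (ar2 h2) hRd1 hRN'
    · have h2 : R = 1 := by omega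
      rw [h2]
      simpa using hN4'
  obtain ⟨m, hm⟩ : ∃ m : ℕ, m = ⌊ε * N⌋₊ := ⟨_, rfl⟩
  rw [← hm]
  have hmN : (m : ℝ) ≤ ε * N := by rw [hm]; exact Nat.floor_le (by positivity)
  have hmN2 : ε * N < m + 1 := by rw [hm]; exact Nat.lt_floor_add_one _
  have hmN' : m ≤ N := by
    have : (m : ℝ) ≤ N := hmN.trans ((ar5 hε1 hN0.le).trans (by linarith))
    exact_mod_cast this
  obtain ⟨ℓ, hℓ⟩ : ∃ ℓ : ℕ, ℓ = N - m := ⟨_, rfl⟩
  have hℓr : (ℓ : ℝ) = N - m := by rw [hℓ, Nat.cast_sub hmN']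
  have hℓ2 : (N : ℝ) / 2 ≤ ℓ := by
    have := ar5 hε1 hN0.le
    rw [hℓr]
    linarith
  obtain ⟨H, hH⟩ : ∃ H : ℕ, H = ℓ / R ^ D := ⟨_, rfl⟩
  obtain ⟨e, he⟩ : ∃ e : ℕ, e = ℓ % R ^ D := ⟨_, rfl⟩
  have hRdn : 0 < R ^ D := by positivity
  have hdm : H * R ^ D + e = ℓ := by rw [hH, he, Nat.mul_comm]; exact Nat.div_add_mod _ _
  have he1 : e < R ^ D := by rw [he]; exact Nat.mod_lt _ hRdn
  have hmHN : m + H * R ^ D ≤ N := by
    have h1 : H * R ^ D ≤ ℓ := by rw [← hdm]; exact Nat.le_add_right _ _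
    have h2 : m + ℓ = N := by rw [hℓ]; exact Nat.add_sub_cancel' hmN'
    rw [← h2]
    exact Nat.add_le_add_left h1 m
  have hdmr : (H : ℝ) * (R : ℝ) ^ D + e = ℓ := by exact_mod_cast hdm
  have he1r : (e : ℝ) ≤ (R : ℝ) ^ D := by exact_mod_cast he1.le
  have hHN : (N : ℝ) / (4 * (R : ℝ) ^ D) ≤ H := by
    rw [div_le_iff₀ (by positivity)]
    have : (H : ℝ) * (4 * (R : ℝ) ^ D) = 4 * ((H : ℝ) * (R : ℝ) ^ D) := by ring
    linarith
  have hH1 : 1 ≤ H := by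
    have h1 : (1 : ℝ) ≤ H := le_trans (by rw [le_div_iff₀ (by positivity)]; linarith) hHN
    exact_mod_cast h1
  have hHRN : (H : ℝ) * (R : ℝ) ^ D ≤ N := by
    have : (0 : ℝ) ≤ e := Nat.cast_nonneg _
    have h2 : (0 : ℝ) ≤ m := Nat.cast_nonneg _
    linarith
  -- the sums
  set f : Ω' → X → ℕ → ℝ := fun q x n => F n (G n q x) with hf
  have hfm : ∀ n, BM (fun z : Ω' × X => f z.1 z.2 n) := fun n => (hF n).comp (hG.meas n)
  have hfmq : ∀ (q : Ω') n, BM (fun x => f q x n) := fun q n => (hF n).comp (hG.mp n q).measurable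
  set S1 : Ω' → X → ℝ := fun q x => ∑ r ∈ range (H * R ^ D), f q x (m + 1 + r) with hS1
  set S2 : Ω' → X → ℝ := fun q x => ∑ r ∈ range e, f q x (m + 1 + H * R ^ D + r) with hS2
  have e1 : ∀ q x, ∑ n ∈ Ioc m N, F n (G n q x) = S1 q x + S2 q x := by
    intro q x
    rw [ioc_range (fun n => F n (G n q x)) m N, ← hℓ, ← hdm, sum_range_add]
    simp only [hS1, hS2, hf, add_assoc]
  have hS1m : BM (fun z : Ω' × X => S1 z.1 z.2) := BM.sum _ fun r _ => hfm _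
  have hS2m : BM (fun z : Ω' × X => S2 z.1 z.2) := BM.sum _ fun r _ => hfm _
  have hS1q : ∀ q, BM (S1 q) := fun q => BM.sum _ fun r _ => hfmq q _
  have hI1 : BM (fun q => ∫ x, S1 q x ^ 2 ∂μ) := BM.integral (f := fun q x => S1 q x ^ 2) hS1m.sq μ
  have hS2b : ∀ q x, S2 q x ^ 2 ≤ (R : ℝ) ^ D * (R : ℝ) ^ D := by
    intro q x
    have h1 : |S2 q x| ≤ (R : ℝ) ^ D := by
      refine (abs_sum_le_sum_abs _ _).trans ((sum_le_sum fun r _ => hF1 _ _).trans ?_)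
      rw [sum_const, card_range, nsmul_eq_mul, mul_one]
      exact he1r
    rw [← sq_abs, ← pow_two]
    exact pow_le_pow_left₀ (abs_nonneg _) h1 2
  have e2 : ∀ q, ∫ x, ((1 / (N : ℝ)) * ∑ n ∈ Ioc m N, F n (G n q x)) ^ 2 ∂μ ≤
      2 / (N : ℝ) ^ 2 * ∫ x, S1 q x ^ 2 ∂μ + 2 / (N : ℝ) ^ 2 * ((R : ℝ) ^ D * (R : ℝ) ^ D) := by
    intro q
    simp only [e1]
    have h0 : ∫ x, ((1 / (N : ℝ)) * (S1 q x + S2 q x)) ^ 2 ∂μ ≤
        ∫ x, (2 / (N : ℝ) ^ 2 * S1 q x ^ 2 + 2 / (N : ℝ) ^ 2 * ((R : ℝ) ^ D * (R : ℝ) ^ D)) ∂μ := by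
      refine integral_mono ((((hS1q q).add (BM.sum _ fun r _ => hfmq q _)).smul _).sq.int μ)
        ((((hS1q q).sq.smul _).add (BM.const _)).int μ) fun x => ?_
      have h1 : (1 / (N : ℝ) * (S1 q x + S2 q x)) ^ 2 = (S1 q x + S2 q x) ^ 2 / (N : ℝ) ^ 2 := by
        field_simp
      have h2 : 2 / (N : ℝ) ^ 2 * S1 q x ^ 2 + 2 / (N : ℝ) ^ 2 * ((R : ℝ) ^ D * (R : ℝ) ^ D) =
          (2 * S1 q x ^ 2 + 2 * ((R : ℝ) ^ D * (R : ℝ) ^ D)) / (N : ℝ) ^ 2 := by ring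
      simp only [h1, h2]
      refine div_le_div_of_nonneg_right ?_ (by positivity)
      have h3 := ar6 (a := S1 q x) (b := S2 q x)
      have h4 := hS2b q x
      linarith
    refine h0.trans (le_of_eq ?_)
    rw [integral_add (((hS1q q).sq.smul _).int μ) ((BM.const _).int μ), integral_const_mul]
    simp
  have hmT : BM (fun z : Ω' × X => ((1 / (N : ℝ)) * ∑ n ∈ Ioc m N, f z.1 z.2 n) ^ 2) :=
    ((BM.sum _ fun n _ => hfm n).smul _).sq
  have hmT2 : BM (fun q : Ω' => ∫ x, ((1 / (N : ℝ)) * ∑ n ∈ Ioc m N, F n (G n q x)) ^ 2 ∂μ) :=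
    BM.integral (f := fun (q : Ω') x => ((1 / (N : ℝ)) * ∑ n ∈ Ioc m N, f q x n) ^ 2) hmT μ
  refine (integral_mono (hmT2.int _) (((hI1.smul _).add (BM.const _)).int _) e2).trans ?_
  rw [integral_add ((hI1.smul _).int _) ((BM.const _).int _), integral_const_mul]
  simp only [integral_const, probReal_univ, one_smul]
  have hb1 : ∫ q, ∫ x, S1 q x ^ 2 ∂μ ∂ν' ≤ C * ((N : ℝ) ^ 2 * (η + 1 / Real.sqrt R)) := by
    have h1 := hPN (m + 1) H R hH1 hR (by push_cast; linarith) (by linarith [hmHN]) F 1 hF hF2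
    refine h1.trans (mul_le_mul_of_nonneg_left ?_ hC.le)
    have h2 : ∀ j ∈ range (R ^ D), ∫ x, (∑ r ∈ range H, F (m + 1 + j * H + r) x) ^ 2 ∂μ ≤ (H : ℝ) ^ 2 * η := by
      intro j hj
      rw [mem_range] at hj
      have h3 : (j + 1) * H ≤ H * R ^ D := by
        rw [Nat.mul_comm H]
        exact Nat.mul_le_mul_right _ hj
      rw [Nat.add_mul, one_mul] at h3
      have h4 := hblk (m + 1 + j * H) H (by
        push_cast
        have : (0 : ℝ) ≤ (j : ℝ) * H := by positivity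
        linarith) (by linarith) hHN
      refine (integral_mono ((BM.sum _ fun r _ => hF _).sq.int μ) ((BM.const _).int μ) h4).trans (le_of_eq ?_)
      simp
    have h5 := sum_le_sum h2
    rw [sum_const, card_range, nsmul_eq_mul] at h5
    push_cast at h5
    have h6 := mul_le_mul_of_nonneg_left h5 hRd0.le
    have h7 : (R : ℝ) ^ D * ((R : ℝ) ^ D * ((H : ℝ) ^ 2 * η)) + 1 * (H * R ^ D) ^ 2 / Real.sqrt R =
        ((H : ℝ) * (R : ℝ) ^ D) ^ 2 * (η + 1 / Real.sqrt R) := by ring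
    have h8 : ((H : ℝ) * (R : ℝ) ^ D) ^ 2 * (η + 1 / Real.sqrt R) ≤ (N : ℝ) ^ 2 * (η + 1 / Real.sqrt R) :=
      mul_le_mul_of_nonneg_right (pow_le_pow_left₀ (by positivity) hHRN 2) (by positivity)
    linarith
  have hc2 : (R : ℝ) ^ D * (R : ℝ) ^ D ≤ (N : ℝ) ^ 2 * (1 / Real.sqrt R) := by
    have h1 : (R : ℝ) ^ D * (R : ℝ) ^ D ≤ (N : ℝ) ^ 2 * (1 / R) := by
      rw [mul_one_div, le_div_iff₀ hR0]
      have h4 : (R : ℝ) ^ (2 * (D + 1)) = ((R : ℝ) ^ D * (R : ℝ) ^ D * R) * R := by ring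
      have h5 : (R : ℝ) ^ D * (R : ℝ) ^ D * R ≤ N := by
        rw [h4] at hRN'
        have h6 : 0 ≤ (R : ℝ) ^ D * (R : ℝ) ^ D * R := by positivity
        exact (le_mul_of_one_le_right h6 hR1).trans hRN'
      have h7 : (N : ℝ) ≤ (N : ℝ) ^ 2 := ar1 (by linarith)
      exact h5.trans h7
    exact h1.trans (mul_le_mul_of_nonneg_left hsR1 (by positivity))
  have hfin1 : 2 / (N : ℝ) ^ 2 * ∫ q, ∫ x, S1 q x ^ 2 ∂μ ∂ν' ≤ 2 * C * (η + 1 / Real.sqrt R) := by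
    refine (mul_le_mul_of_nonneg_left hb1 (by positivity)).trans (le_of_eq ?_)
    field_simp
  have hfin2 : 2 / (N : ℝ) ^ 2 * ((R : ℝ) ^ D * (R : ℝ) ^ D) ≤ 2 * (1 / Real.sqrt R) := by
    refine (mul_le_mul_of_nonneg_left hc2 (by positivity)).trans (le_of_eq ?_)
    field_simp
  have h5 : 2 * (C + 1) * (η + 1 / Real.sqrt R) = 2 * C * (η + 1 / Real.sqrt R) +
      2 * (1 / Real.sqrt R) + 2 * η := by ring
  linarith

end mainF

end Pool.Agent.W5h67.NF
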