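import Pool.Agent.W5h67.NF.Core

/-!
Words in noncommuting flows at generic times: smooth coboundaries are orthogonal to coefficients which vary slowly
with the parameter.
-/

set_option autoImplicit false

namespace Pool.Agent.W5h67.NF

open MeasureTheory Filter Finset
open Pool.Agent.Y957.MC (IsFlow flowInv smo)

universe u v

/-- times with convex growth, at least linear -/
structure Tmc (p : ℕ → ℝ) : Prop extends Tms p where
  cvx : ∀ᶠ n : ℕ in atTop, p (n + 1) - p n ≤ p (n + 2) - p (n + 1)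
  lin : ∃ c : ℝ, 0 < c ∧ ∀ᶠ N : ℕ in atTop, c * N ≤ p N

theorem ioc_if (f : ℕ → ℝ) {m N : ℕ} :
    ∑ n ∈ Ioc m N, f n = ∑ n ∈ range N, if m ≤ n then f (n + 1) else 0 := by
  rw [← sum_filter]
  refine (sum_bij (fun n _ => n + 1) ?_ ?_ ?_ ?_).symm
  · intro n hn
    rw [mem_filter, mem_range] at hn
    rw [mem_Ioc]
    omega
  · intro a _ b _ h
    exact Nat.succ_injective h
  · intro b hb
    rw [mem_Ioc] at hb
    refine ⟨b - 1, ?_, by omega⟩
    rw [mem_filter, mem_range]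
    omega
  · intro n _
    rfl

section core

variable {X : Type u} [MeasurableSpace X] {Ω : Type v} [MeasurableSpace Ω]
variable {μ : Measure X} [IsProbabilityMeasure μ] {ν : Measure Ω} [IsProbabilityMeasure ν]
  {g : ℕ → Ω → X → X} {d : ℕ} {τ : ℝ → X → X} {p : ℕ → ℝ} {B : ℝ} {φ : X → ℝ}

/-- functions which are Lipschitz along the flow, with bounded primitives -/
structure Nice1 (τ : ℝ → X → X) (φ : X → ℝ) : Prop where
  meas : Measurable φ
  bd : ∀ x, |φ x| ≤ 1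
  lip : ∀ u v x, |φ (τ u x) - φ (τ v x)| ≤ |u - v|
  prim : ∀ u v x, |∫ r in u..v, φ (τ r x)| ≤ 1

/-- coefficients which vary slowly with the parameter -/
structure Slow (p : ℕ → ℝ) (W : ℕ → (ℝ × Ω) × X → ℝ) : Prop where
  meas : ∀ n, Measurable (W n)
  bd : ∀ n z, |W n z| ≤ 1
  lip : ∃ C : ℝ, 0 ≤ C ∧ ∀ᶠ N : ℕ in atTop, ∀ n, n ≤ N → ∀ (a a' : ℝ) (ω : Ω) (x : X),
    |W n ((a, ω), x) - W n ((a', ω), x)| ≤ C * (p N / N) * |a - a'|

/-- sums over blocks -/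
theorem block (hφ : Nice1 τ φ) {s H : ℕ} {δ c₁ c₂ : ℝ} (hδ : δ ≠ 0) (hc₁ : 0 < c₁)
    (hinc : ∀ r, r < H → c₁ ≤ p (s + r + 1) - p (s + r) ∧ p (s + r + 1) - p (s + r) ≤ c₂)
    (hcvx : ∀ r, r + 1 < H → p (s + r + 1) - p (s + r) ≤ p (s + r + 2) - p (s + r + 1)) (x : X) :
    |∑ r ∈ range H, φ x * φ (τ (δ * p (s + r)) x)| ≤ 1 / (|δ| * c₁) + H * |δ| * c₂ := by
  have h := Pool.Agent.R711.TDOSC.t_OSC (fun u => φ (τ u x)) (fun r => p (s + r)) 1 δ c₁ c₂ H
    (fun u v => by rw [one_mul]; exact hφ.lip u v x) (fun u v => hφ.prim u v x) hδ hc₁ hinc hcvx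
  rw [← mul_sum, abs_mul]
  refine (mul_le_of_le_one_left (abs_nonneg _) (hφ.bd x)).trans ?_
  simpa using h

/-- the mean square over a unit interval of the parameter -/
theorem ms_unit (hg : Fam μ g) (hP : Peel μ ν g d) (hτ : IsFlow μ τ) (hp : Tmc p) (hφ : Nice1 τ φ)
    {W : ℕ → (ℝ × Ω) × X → ℝ} (hW : Slow p W) {ε : ℝ} (hε : 0 < ε) (hε1 : ε ≤ 1 / 2) {r : ℕ} {N : ℕ → ℕ}
    (hL : Lac p r N) (α : ℝ) :
    ∃ C : ℝ, 0 < C ∧ ∀ᶠ i : ℕ in atTop,
      ∫ a in α..(α + 1), ∫ y : Ω × X, ((1 / (N i : ℝ)) * ∑ n ∈ Ioc ⌊ε * N i⌋₊ (N i),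
        W n ((a, y.1), y.2) * φ (τ (a * p n) (g n y.1 y.2))) ^ 2 ∂(ν.prod μ) ≤ C / ((i : ℝ) + 1) ^ 2 := by
  obtain ⟨A, hA⟩ : ∃ A : ℝ, A = |α| + 2 := ⟨_, rfl⟩
  have hA0 : 0 < A := by rw [hA]; positivity
  have hAα : -A ≤ α - 1 / 2 ∧ α + 2 ≤ A := by
    rw [hA]
    constructor <;> linarith [neg_abs_le α, le_abs_self α]
  obtain ⟨c, hc, hinc⟩ := hp.inc ε hε
  obtain ⟨c₀, hc₀, hlin⟩ := hp.lin
  obtain ⟨CW, hCW, hWL⟩ := hW.lip
  obtain ⟨n₀, hn₀⟩ := eventually_atTop.1 hp.cvx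
  obtain ⟨CF, hCF, hF⟩ := mainF (fam_succ hg hτ (p := p))
    (peel_succ (B := 4 * A) (by positivity) hg hP hτ hp.toTm.incP) hε hε1
  set C₅ : ℝ := 8 * A * CF * (34 / c ^ 2 + 1) with hC₅
  have hC₅0 : 0 < C₅ := by positivity
  refine ⟨7 + C₅ + 3 * CW ^ 2, by positivity, ?_⟩
  have ht := hL.tends
  have hk2 : ∀ᶠ i : ℕ in atTop, 2 / c₀ ≤ ((i : ℝ) + 1) := by
    have : Tendsto (fun i : ℕ => (i : ℝ) + 1) atTop atTop :=
      tendsto_atTop_add_const_right _ _ tendsto_natCast_atTop_atTop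
    exact this.eventually_ge_atTop _
  filter_upwards [ht.eventually hF, ht.eventually hinc, ht.eventually hlin, ht.eventually hWL,
    ht.eventually_ge_atTop 1, ht.eventually (hp.tends.eventually_gt_atTop 0),
    ht.eventually_ge_atTop (⌈(n₀ : ℝ) / ε⌉₊), hL.grow (16 * (d + 1 + 1)), hk2] with
    i hF hinc hlin hWL hN1 hpN hNn hgrow hk2
  obtain ⟨M, hM⟩ : ∃ M, M = N i := ⟨_, rfl⟩
  rw [← hM] at hF hinc hlin hWL hN1 hpN hNn hgrow ⊢
  obtain ⟨k, hk⟩ : ∃ k : ℝ, k = (i : ℝ) + 1 := ⟨_, rfl⟩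
  rw [← hk] at hk2 ⊢
  have hk1 : 1 ≤ k := by rw [hk]; linarith [(Nat.cast_nonneg i : (0 : ℝ) ≤ i)]
  have hk0 : 0 < k := by linarith
  have hM0 : (0 : ℝ) < M := by exact_mod_cast hN1
  have hgrow' : k ^ (16 * (d + 1 + 1)) ≤ M := by rw [hk]; exact_mod_cast hgrow
  obtain ⟨P, hPd⟩ : ∃ P, P = p M := ⟨_, rfl⟩
  rw [← hPd] at hpN hlin hinc hWL
  obtain ⟨l, hl⟩ : ∃ l : ℝ, l = M / (P * k ^ 2) := ⟨_, rfl⟩
  have hl0 : 0 < l := by rw [hl]; positivity
  have hl2 : l ≤ 1 / 2 := by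
    rw [hl, div_le_div_iff₀ (by positivity) (by norm_num), one_mul]
    have h1 : 2 ≤ c₀ * k := by
      rw [div_le_iff₀ hc₀] at hk2
      linarith
    have h2 : 2 ≤ c₀ * k ^ 2 := by
      have h3 : c₀ * k * 1 ≤ c₀ * k * k := mul_le_mul_of_nonneg_left hk1 (by positivity)
      have h4 : c₀ * k ^ 2 = c₀ * k * k := by ring
      linarith
    have h3 := mul_le_mul_of_nonneg_right hlin (by positivity : (0 : ℝ) ≤ k ^ 2)
    have h4 : (M : ℝ) * 2 ≤ M * (c₀ * k ^ 2) := mul_le_mul_of_nonneg_left h2 hM0.le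
    have h5 : c₀ * (M : ℝ) * k ^ 2 = M * (c₀ * k ^ 2) := by ring
    linarith
  obtain ⟨ρ, hρ⟩ : ∃ ρ : ℝ, ρ = l / k ^ 4 := ⟨_, rfl⟩
  have hρ0 : 0 < ρ := by rw [hρ]; positivity
  obtain ⟨m, hm⟩ : ∃ m : ℕ, m = ⌊ε * (M : ℝ)⌋₊ := ⟨_, rfl⟩
  rw [← hm]
  -- the functions
  set w : ℕ → ℝ → Ω × X → ℝ := fun n a y =>
    if m ≤ n then φ (τ ((a + (α - 1)) * p (n + 1)) (g (n + 1) y.1 y.2)) else 0 with hw
  set Bn : ℕ → ℝ → Ω × X → ℝ := fun n a y =>
    if m ≤ n then W (n + 1) ((a + (α - 1), y.1), y.2) else 0 with hBn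
  have hshift : Measurable fun q : ℝ × (Ω × X) => ((q.1 + (α - 1), q.2.1), q.2.2) :=
    ((measurable_fst.add_const _).prodMk (measurable_fst.comp measurable_snd)).prodMk
      (measurable_snd.comp measurable_snd)
  have hwm : ∀ n, Measurable fun q : ℝ × (Ω × X) => w n q.1 q.2 := by
    intro n
    by_cases h : m ≤ n
    · simp only [hw, if_pos h]
      exact hφ.meas.comp (((fam_succ hg hτ (p := p)).meas (n + 1)).comp hshift)
    · simp only [hw, if_neg h]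
      exact measurable_const
  have hBm : ∀ n, Measurable fun q : ℝ × (Ω × X) => Bn n q.1 q.2 := by
    intro n
    by_cases h : m ≤ n
    · simp only [hBn, if_pos h]
      exact (hW.meas (n + 1)).comp hshift
    · simp only [hBn, if_neg h]
      exact measurable_const
  have hw1 : ∀ n a y, |w n a y| ≤ 1 := by
    intro n a y
    simp only [hw]
    split_ifs
    · exact hφ.bd _
    · simp
  have hB1 : ∀ n a y, |Bn n a y| ≤ 1 := by
    intro n a y
    simp only [hBn]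
    split_ifs
    · exact hW.bd _ _
    · simp
  have hBL : ∀ n, n < M → ∀ a a' y, |Bn n a y - Bn n a' y| ≤ CW * (P / M) * |a - a'| := by
    intro n hn a a' y
    simp only [hBn]
    split_ifs
    · have h1 := hWL (n + 1) hn (a + (α - 1)) (a' + (α - 1)) y.1 y.2
      rwa [show a + (α - 1) - (a' + (α - 1)) = a - a' by ring] at h1
    · rw [sub_zero, abs_zero]
      positivity
  -- the bound for the correlations
  obtain ⟨Dd, hDd⟩ : ∃ Dd : ℝ, Dd = C₅ / k ^ 4 := ⟨_, rfl⟩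
  have hyp : ∀ δ, ρ ≤ |δ| → |δ| ≤ l → ∫ a in (1 / 2 : ℝ)..3, ∫ y, ((1 / (M : ℝ)) * ∑ n ∈ range M,
      (w n a y * w n (a + δ) y)) ^ 2 ∂(ν.prod μ) ≤ Dd := by
    intro δ hδ1 hδ2
    have hδ0 : δ ≠ 0 := by
      intro h
      rw [h, abs_zero] at hδ1
      linarith
    set F : ℕ → X → ℝ := fun n x => φ x * φ (τ (δ * p n) x) with hFd
    have hFm : ∀ n, Measurable (F n) := fun n => hφ.meas.mul (hφ.meas.comp (hτ.mp _).measurable)
    have hF1 : ∀ n x, |F n x| ≤ 1 := fun n x => by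
      simp only [hFd]
      rw [abs_mul]
      exact mul_le_one₀ (hφ.bd _) (abs_nonneg _) (hφ.bd _)
    have hFb : ∀ n, BM (F n) := fun n => ⟨hFm n, 1, hF1 n⟩
    set h : ℝ → ℝ := fun a => ∫ y : Ω × X, ((1 / (M : ℝ)) * ∑ n ∈ Ioc m M,
      F n (τ (a * p n) (g n y.1 y.2))) ^ 2 ∂(ν.prod μ) with hh
    have e1 : ∀ a : ℝ, ∫ y, ((1 / (M : ℝ)) * ∑ n ∈ range M, (w n a y * w n (a + δ) y)) ^ 2 ∂(ν.prod μ) =
        h (a + (α - 1)) := by
      intro a
      simp only [hh]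
      congr 1
      funext y
      congr 2
      rw [ioc_if]
      refine sum_congr rfl fun n _ => ?_
      simp only [hw, hFd]
      split_ifs
      · rw [← hτ.add]
        congr 3
        ring
      · ring
    simp only [e1]
    rw [intervalIntegral.integral_comp_add_right (fun a => h a)]
    have hmt : BM (fun q : (ℝ × Ω) × X => ((1 / (M : ℝ)) * ∑ n ∈ Ioc m M,
        F n (τ (q.1.1 * p n) (g n q.1.2 q.2))) ^ 2) :=
      ((BM.sum _ fun n _ => (hFb n).comp ((fam_succ hg hτ (p := p)).meas n)).smul _).sq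
    have hmt2 : BM (fun q : ℝ × (Ω × X) => ((1 / (M : ℝ)) * ∑ n ∈ Ioc m M,
        F n (τ (q.1 * p n) (g n q.2.1 q.2.2))) ^ 2) :=
      hmt.comp (φ := fun q : ℝ × (Ω × X) => ((q.1, q.2.1), q.2.2))
        ((measurable_fst.prodMk (measurable_fst.comp measurable_snd)).prodMk (measurable_snd.comp measurable_snd))
    have hhm : BM h := BM.integral (f := fun (a : ℝ) (y : Ω × X) => ((1 / (M : ℝ)) * ∑ n ∈ Ioc m M,
        F n (τ (a * p n) (g n y.1 y.2))) ^ 2) hmt2 (ν.prod μ)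
    have hh0 : ∀ a, 0 ≤ h a := fun a => integral_nonneg fun y => sq_nonneg _
    have h1 : ∫ a in (1 / 2 + (α - 1))..(3 + (α - 1)), h a ≤ ∫ a in (-A)..A, h a :=
      intervalIntegral.integral_mono_interval (by linarith [hAα.1]) (by linarith) (by linarith [hAα.2])
        (Eventually.of_forall hh0) (ii_bm hhm _ _)
    refine h1.trans ((lam_lower hA0 hhm hh0).trans ?_)
    have e2 : ∫ a, h a ∂lam (4 * A) = ∫ q : ℝ × Ω, ∫ x, ((1 / (M : ℝ)) * ∑ n ∈ Ioc m M,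
        F n (τ (q.1 * p n) (g n q.2 x))) ^ 2 ∂μ ∂((lam (4 * A)).prod ν) := by
      have hI : BM (fun q : ℝ × Ω => ∫ x, ((1 / (M : ℝ)) * ∑ n ∈ Ioc m M,
          F n (τ (q.1 * p n) (g n q.2 x))) ^ 2 ∂μ) :=
        BM.integral (f := fun (q : ℝ × Ω) x => ((1 / (M : ℝ)) * ∑ n ∈ Ioc m M,
          F n (τ (q.1 * p n) (g n q.2 x))) ^ 2) hmt μ
      rw [integral_prod _ (hI.int _)]
      congr 1
      funext a
      simp only [hh]
      have hmy : BM (fun y : Ω × X => ((1 / (M : ℝ)) * ∑ n ∈ Ioc m M, F n (τ (a * p n) (g n y.1 y.2))) ^ 2) :=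
        hmt2.comp (φ := fun y : Ω × X => (a, y)) (measurable_const.prodMk measurable_id)
      rw [integral_prod _ (hmy.int _)]
    rw [e2]
    have hRM : ((i + 1) ^ 8) ^ (2 * (d + 1 + 1)) ≤ M := by
      refine le_trans (le_of_eq ?_) hgrow
      rw [← pow_mul, show 8 * (2 * (d + 1 + 1)) = 16 * (d + 1 + 1) by ring]
    have hRk : (((i + 1) ^ 8 : ℕ) : ℝ) = k ^ 8 := by rw [hk]; push_cast; ring
    have h3 := hF ((i + 1) ^ 8) (Nat.one_le_pow _ _ (Nat.succ_pos i)) hRM F hFm hF1 (34 / c ^ 2 / k ^ 4)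
      (by positivity) ?_
    · rw [← hm] at h3
      have h4 : Real.sqrt (((i + 1) ^ 8 : ℕ) : ℝ) = k ^ 4 := by
        rw [hRk, show k ^ 8 = (k ^ 4) ^ 2 by ring, Real.sqrt_sq (by positivity)]
      rw [h4] at h3
      calc 8 * A * ∫ q : ℝ × Ω, ∫ x, ((1 / (M : ℝ)) * ∑ n ∈ Ioc m M,
            F n (τ (q.1 * p n) (g n q.2 x))) ^ 2 ∂μ ∂((lam (4 * A)).prod ν) ≤
          8 * A * (CF * (34 / c ^ 2 / k ^ 4 + 1 / k ^ 4)) := mul_le_mul_of_nonneg_left h3 (by positivity)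
        _ = Dd := by rw [hDd, hC₅]; ring
    · intro s H hs hsH hH x
      rw [hRk] at hH
      have hH0 : (0 : ℝ) < H := lt_of_lt_of_le (by positivity) hH
      have hsn : n₀ ≤ s := by
        have h5 : (n₀ : ℝ) ≤ ε * M := by
          have h6 : (n₀ : ℝ) / ε ≤ M := (Nat.le_ceil _).trans (by exact_mod_cast hNn)
          rw [div_le_iff₀ hε] at h6
          linarith
        exact_mod_cast h5.trans hs
      have h5 := block (p := p) hφ (s := s) (H := H) (δ := δ) (c₁ := c * P / M) (c₂ := P / (c * M)) hδ0 (by positivity)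
        (fun r hr => (hinc (s + r) (by push_cast; linarith [(Nat.cast_nonneg r : (0 : ℝ) ≤ r)]) (by omega)).2)
        (fun r hr => hn₀ (s + r) (by omega)) x
      -- numerical bounds
      have h6 : 1 / (|δ| * (c * P / M)) ≤ H * (4 / (c * k ^ 2)) := by
        have h7 : c / k ^ 6 ≤ |δ| * (c * P / M) := by
          have h8 : ρ * (c * P / M) = c / k ^ 6 := by
            rw [hρ, hl]
            field_simp
          rw [← h8]
          exact mul_le_mul_of_nonneg_right hδ1 (by positivity)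
        have h9 : 1 / (|δ| * (c * P / M)) ≤ 1 / (c / k ^ 6) :=
          one_div_le_one_div_of_le (by positivity) h7
        have h10 : k ^ 8 ≤ 4 * H := by
          have h11 : k ^ 8 ≤ 4 * ((M : ℝ) / (4 * (k ^ 8) ^ (d + 1))) := by
            rw [← mul_div_assoc, le_div_iff₀ (by positivity)]
            have h12 : k ^ 8 * (4 * (k ^ 8) ^ (d + 1)) = 4 * k ^ (8 * (d + 1 + 1)) := by
              rw [← pow_mul]
              ring
            rw [h12]
            have h13 : k ^ (8 * (d + 1 + 1)) ≤ k ^ (16 * (d + 1 + 1)) :=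
              pow_le_pow_right₀ hk1 (by omega)
            linarith
          linarith
        refine h9.trans ?_
        rw [one_div_div, mul_div_assoc', div_le_div_iff₀ (by positivity) (by positivity)]
        have : k ^ 6 * (c * k ^ 2) = c * k ^ 8 := by ring
        rw [this]
        have h11 := mul_le_mul_of_nonneg_left h10 hc.le
        have h12 : c * (4 * (H : ℝ)) = H * 4 * c := by ring
        linarith
      have h7 : (H : ℝ) * |δ| * (P / (c * M)) ≤ H * (1 / (c * k ^ 2)) := by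
        have h8 : l * (P / (c * M)) = 1 / (c * k ^ 2) := by
          rw [hl]
          field_simp
        rw [mul_assoc, ← h8]
        exact mul_le_mul_of_nonneg_left (mul_le_mul_of_nonneg_right hδ2 (by positivity)) hH0.le
      have h8 : |∑ r ∈ range H, F (s + r) x| ≤ H * (5 / (c * k ^ 2)) := by
        have : (H : ℝ) * (4 / (c * k ^ 2)) + H * (1 / (c * k ^ 2)) = H * (5 / (c * k ^ 2)) := by ring
        simp only [hFd]
        linarith
      rw [← sq_abs]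
      refine (pow_le_pow_left₀ (abs_nonneg _) h8 2).trans ?_
      rw [mul_pow]
      refine mul_le_mul_of_nonneg_left ?_ (by positivity)
      rw [div_pow, div_div, div_le_div_iff₀ (by positivity) (by positivity)]
      have h9 : (0 : ℝ) < c ^ 2 * k ^ 4 := by positivity
      have h10 : (c * k ^ 2) ^ 2 = c ^ 2 * k ^ 4 := by ring
      rw [h10]
      linarith
  have hmain := jbd (ν.prod μ) w Bn M l ρ (1 / k ^ 2) (CW * (P / M)) Dd hwm hw1 hBm hB1 hBL hN1 hl0 hl2 hρ0.le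
    (by positivity) (by rw [hDd]; positivity) (by positivity) hyp
  have e3 : ∫ a in (1 : ℝ)..2, ∫ y, ((1 / (M : ℝ)) * ∑ n ∈ range M, Bn n a y * w n a y) ^ 2 ∂(ν.prod μ) =
      ∫ a in α..(α + 1), ∫ y : Ω × X, ((1 / (M : ℝ)) * ∑ n ∈ Ioc m M,
        W n ((a, y.1), y.2) * φ (τ (a * p n) (g n y.1 y.2))) ^ 2 ∂(ν.prod μ) := by
    have h1 := intervalIntegral.integral_comp_add_right (a := (1 : ℝ)) (b := 2)
      (fun a => ∫ y : Ω × X, ((1 / (M : ℝ)) * ∑ n ∈ Ioc m M,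
        W n ((a, y.1), y.2) * φ (τ (a * p n) (g n y.1 y.2))) ^ 2 ∂(ν.prod μ)) (α - 1)
    rw [show (1 : ℝ) + (α - 1) = α by ring, show (2 : ℝ) + (α - 1) = α + 1 by ring] at h1
    rw [← h1]
    congr 1
    funext a
    congr 1
    funext y
    congr 2
    rw [ioc_if]
    refine sum_congr rfl fun n _ => ?_
    simp only [hw, hBn]
    split_ifs
    · rfl
    · ring
  rw [e3] at hmain
  refine hmain.trans ?_
  have h1 : 5 * ρ / l = 5 / k ^ 4 := by
    rw [hρ]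
    field_simp
  have h2 : CW * (P / M) * l = CW / k ^ 2 := by
    rw [hl]
    field_simp
  rw [h1, h2, hDd]
  have h3 : 2 * (1 / k ^ 2) + 1 / (1 / k ^ 2) * (C₅ / k ^ 4 + 5 / k ^ 4) + 3 * (CW / k ^ 2) ^ 2 =
      (7 + C₅) / k ^ 2 + 3 * CW ^ 2 / k ^ 4 := by
    field_simp
    ring
  rw [h3]
  have h4 : 3 * CW ^ 2 / k ^ 4 ≤ 3 * CW ^ 2 / k ^ 2 :=
    div_le_div_of_nonneg_left (by positivity) (by positivity) (pow_le_pow_right₀ hk1 (by norm_num))
  have h5 : (7 + C₅ + 3 * CW ^ 2) / k ^ 2 = (7 + C₅) / k ^ 2 + 3 * CW ^ 2 / k ^ 2 := by ring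
  rw [h5]
  linarith

end core

end Pool.Agent.W5h67.NF
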