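import Pool.Agent.W5h67.NF.Core2
import Pool.Agent.Y312.MC.Flw3
import Pool.Agent.R998.TDAPXG

/-!
Words in noncommuting flows at generic times: the main case, convergence almost everywhere.
-/

set_option autoImplicit false

namespace Pool.Agent.W5h67.NF

open MeasureTheory Filter Finset
open Pool.Agent.Y957.MC (IsFlow flowInv smo)

universe u v

section core

variable {X : Type u} [MeasurableSpace X] {Ω : Type v} [MeasurableSpace Ω]
variable {μ : Measure X} [IsProbabilityMeasure μ] {ν : Measure Ω} [IsProbabilityMeasure ν]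
  {g : ℕ → Ω → X → X} {d : ℕ} {τ : ℝ → X → X} {p : ℕ → ℝ} {B : ℝ} {φ : X → ℝ}

theorem core (hB : 0 < B) (hg : Fam μ g) (hP : Peel μ ν g d) (hτ : IsFlow μ τ) (hp : Tmc p) (hφ : Nice1 τ φ)
    {W : ℕ → (ℝ × Ω) × X → ℝ} (hW : Slow p W) :
    ∀ᵐ z : (ℝ × Ω) × X ∂(((lam B).prod ν).prod μ),
      Tendsto (fun N : ℕ => (1 / (N : ℝ)) * ∑ n ∈ Icc 1 N, W n z * φ (τ (z.1.1 * p n) (g n z.1.2 z.2)))
        atTop (nhds 0) := by
  obtain ⟨β, hβ, hβ1, hLac⟩ := hp.lac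
  have hF := fam_succ hg hτ (p := p)
  have hφb : BM φ := ⟨hφ.meas, 1, hφ.bd⟩
  have hWb : ∀ n, BM (W n) := fun n => ⟨hW.meas n, 1, hW.bd n⟩
  have hcb : ∀ n, BM (fun z : (ℝ × Ω) × X => W n z * φ (τ (z.1.1 * p n) (g n z.1.2 z.2))) := fun n =>
    (hWb n).mul (hφb.comp (hF.meas n))
  obtain ⟨M, hM⟩ : ∃ M : ℕ, B ≤ M := ⟨⌈B⌉₊, Nat.le_ceil B⟩
  have h1 : ∀ᵐ z : (ℝ × Ω) × X ∂(((lam B).prod ν).prod μ), ∀ k e : ℕ,
      Tendsto (fun i : ℕ => (1 / (⌊β k ^ i⌋₊ : ℝ)) * ∑ n ∈ Ioc ⌊(1 / ((e : ℝ) + 2)) * ⌊β k ^ i⌋₊⌋₊ ⌊β k ^ i⌋₊,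
        W n z * φ (τ (z.1.1 * p n) (g n z.1.2 z.2))) atTop (nhds 0) := by
    rw [ae_all_iff]; intro k
    rw [ae_all_iff]; intro e
    have hε : (0 : ℝ) < 1 / ((e : ℝ) + 2) := by positivity
    have hε1 : (1 : ℝ) / ((e : ℝ) + 2) ≤ 1 / 2 := by
      rw [div_le_div_iff₀ (by positivity) (by norm_num)]
      have : (0 : ℝ) ≤ e := Nat.cast_nonneg _
      linarith
    obtain ⟨ε, hεd⟩ : ∃ ε : ℝ, ε = 1 / ((e : ℝ) + 2) := ⟨_, rfl⟩
    rw [← hεd] at hε hε1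
    simp only [← hεd]
    set N : ℕ → ℕ := fun i => ⌊β k ^ i⌋₊ with hN
    have hL : Lac p (k + 1) N := hLac k
    refine ae_of_summable (f := fun i z => (1 / (N i : ℝ)) * ∑ n ∈ Ioc ⌊ε * N i⌋₊ (N i),
        W n z * φ (τ (z.1.1 * p n) (g n z.1.2 z.2))) (fun i => (BM.sum _ fun n _ => hcb n).smul _) ?_
    choose C hC hCi using fun j : ℕ => ms_unit hg hP hτ hp hφ hW hε hε1 hL (-(M : ℝ) + j)
    have hsum : Summable (fun i : ℕ => (1 / B) * ∑ j ∈ range (2 * M), C j / ((i : ℝ) + 1) ^ 2) := by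
      refine Summable.mul_left _ (summable_sum fun j _ => ?_)
      refine (inv_sq_summable.mul_left (C j)).congr fun i => ?_
      ring
    refine Summable.of_norm_bounded_eventually_nat hsum ?_
    have hall : ∀ᶠ i : ℕ in atTop, ∀ j ∈ range (2 * M),
        ∫ a in (-(M : ℝ) + j)..(-(M : ℝ) + j + 1), ∫ y : Ω × X, ((1 / (N i : ℝ)) * ∑ n ∈ Ioc ⌊ε * N i⌋₊ (N i),
          W n ((a, y.1), y.2) * φ (τ (a * p n) (g n y.1 y.2))) ^ 2 ∂(ν.prod μ) ≤ C j / ((i : ℝ) + 1) ^ 2 :=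
      (eventually_all_finset (range (2 * M))).2 fun j _ => hCi j
    filter_upwards [hall] with i hi
    rw [Real.norm_of_nonneg (integral_nonneg fun _ => sq_nonneg _)]
    obtain ⟨m, hm⟩ : ∃ m : ℕ, m = ⌊ε * N i⌋₊ := ⟨_, rfl⟩
    rw [← hm] at hi ⊢
    set h : ℝ → ℝ := fun a => ∫ y : Ω × X, ((1 / (N i : ℝ)) * ∑ n ∈ Ioc m (N i),
          W n ((a, y.1), y.2) * φ (τ (a * p n) (g n y.1 y.2))) ^ 2 ∂(ν.prod μ) with hh
    have hmt : BM (fun q : (ℝ × Ω) × X => ((1 / (N i : ℝ)) * ∑ n ∈ Ioc m (N i),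
        W n q * φ (τ (q.1.1 * p n) (g n q.1.2 q.2))) ^ 2) := ((BM.sum _ fun n _ => hcb n).smul _).sq
    have hmt2 : BM (fun q : ℝ × (Ω × X) => ((1 / (N i : ℝ)) * ∑ n ∈ Ioc m (N i),
        W n ((q.1, q.2.1), q.2.2) * φ (τ (q.1 * p n) (g n q.2.1 q.2.2))) ^ 2) :=
      hmt.comp (φ := fun q : ℝ × (Ω × X) => ((q.1, q.2.1), q.2.2))
        ((measurable_fst.prodMk (measurable_fst.comp measurable_snd)).prodMk (measurable_snd.comp measurable_snd))
    have hhm : BM h := BM.integral (f := fun (a : ℝ) (y : Ω × X) => ((1 / (N i : ℝ)) * ∑ n ∈ Ioc m (N i),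
        W n ((a, y.1), y.2) * φ (τ (a * p n) (g n y.1 y.2))) ^ 2) hmt2 (ν.prod μ)
    have hh0 : ∀ a, 0 ≤ h a := fun a => integral_nonneg fun y => sq_nonneg _
    have e1 : ∫ z : (ℝ × Ω) × X, ((1 / (N i : ℝ)) * ∑ n ∈ Ioc m (N i),
        W n z * φ (τ (z.1.1 * p n) (g n z.1.2 z.2))) ^ 2 ∂(((lam B).prod ν).prod μ) = ∫ a, h a ∂lam B := by
      have hI : BM (fun q : ℝ × Ω => ∫ x, ((1 / (N i : ℝ)) * ∑ n ∈ Ioc m (N i),
          W n (q, x) * φ (τ (q.1 * p n) (g n q.2 x))) ^ 2 ∂μ) :=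
        BM.integral (f := fun (q : ℝ × Ω) x => ((1 / (N i : ℝ)) * ∑ n ∈ Ioc m (N i),
          W n (q, x) * φ (τ (q.1 * p n) (g n q.2 x))) ^ 2) hmt μ
      rw [integral_prod _ (hmt.int _), integral_prod _ (hI.int _)]
      congr 1
      funext a
      simp only [hh]
      have hmy : BM (fun y : Ω × X => ((1 / (N i : ℝ)) * ∑ n ∈ Ioc m (N i),
          W n ((a, y.1), y.2) * φ (τ (a * p n) (g n y.1 y.2))) ^ 2) :=
        hmt2.comp (φ := fun y : Ω × X => (a, y)) (measurable_const.prodMk measurable_id)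
      rw [integral_prod _ (hmy.int _)]
    rw [e1]
    refine (lam_upper hB hhm hh0).trans (mul_le_mul_of_nonneg_left ?_ (by positivity))
    have h2 : ∫ a in (-B)..B, h a ≤ ∫ a in (-(M : ℝ))..M, h a :=
      intervalIntegral.integral_mono_interval (by linarith) (by linarith) hM
        (Eventually.of_forall hh0) (ii_bm hhm _ _)
    have h3 := intervalIntegral.sum_integral_adjacent_intervals (f := h) (μ := volume)
      (a := fun j : ℕ => -(M : ℝ) + j) (n := 2 * M) (fun j _ => ii_bm hhm _ _)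
    have h4 : ∫ a in (-(M : ℝ))..M, h a = ∑ j ∈ range (2 * M), ∫ a in (-(M : ℝ) + j)..(-(M : ℝ) + j + 1), h a := by
      have e2 : ∀ j ∈ range (2 * M), ∫ a in (-(M : ℝ) + j)..(-(M : ℝ) + j + 1), h a =
          ∫ a in (-(M : ℝ) + (j : ℕ))..(-(M : ℝ) + ((j + 1 : ℕ) : ℝ)), h a := fun j _ => by
        push_cast
        rw [add_assoc]
      rw [sum_congr rfl e2, h3]
      congr 1
      · push_cast; ring
      · push_cast; ring
    rw [h4] at h2
    exact h2.trans (sum_le_sum hi)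
  filter_upwards [h1] with z hz
  have hb : ∀ n, |W n z * φ (τ (z.1.1 * p n) (g n z.1.2 z.2))| ≤ 1 := fun n => by
    rw [abs_mul]
    exact mul_le_one₀ (hW.bd _ _) (abs_nonneg _) (hφ.bd _)
  refine det_full (C := 1) hb hβ hβ1 fun k => ?_
  refine det_lac (C := 1) hb (hLac k).tends fun e η hη => ?_
  have h2 := hz k e
  rw [Metric.tendsto_nhds] at h2
  filter_upwards [h2 η hη] with i hi
  rw [Real.dist_eq, sub_zero] at hi
  exact hi.le

end core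

section good

variable {X : Type u} [MeasurableSpace X] {Ω : Type v} [MeasurableSpace Ω]
variable {μ : Measure X} [IsProbabilityMeasure μ] {ν : Measure Ω} [IsProbabilityMeasure ν]
  {g : ℕ → Ω → X → X} {d : ℕ} {τ : ℝ → X → X} {p p' : ℕ → ℝ} {B : ℝ} {φ : X → ℝ} {T : (X → ℝ) → X → ℝ}

/-- coefficients which vary slowly, up to a constant factor -/
def SlowC (p : ℕ → ℝ) (W : ℕ → (ℝ × Ω) × X → ℝ) : Prop := ∃ C : ℝ, 0 < C ∧ Slow p (fun n z => W n z / C)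

theorem SlowC.of (hp0 : ∀ᶠ N : ℕ in atTop, 0 ≤ p N) {W : ℕ → (ℝ × Ω) × X → ℝ} (hm : ∀ n, Measurable (W n)) {C : ℝ}
    (hb : ∀ n z, |W n z| ≤ C)
    (hl : ∃ C' : ℝ, ∀ᶠ N : ℕ in atTop, ∀ n, n ≤ N → ∀ (a a' : ℝ) (ω : Ω) (x : X),
      |W n ((a, ω), x) - W n ((a', ω), x)| ≤ C' * (p N / N) * |a - a'|) : SlowC p W := by
  obtain ⟨C', hl⟩ := hl
  refine ⟨|C| + 1, by positivity, ⟨fun n => (hm n).div_const _, fun n z => ?_, |C'|, abs_nonneg _, ?_⟩⟩
  · rw [abs_div, abs_of_pos (by positivity : 0 < |C| + 1), div_le_one (by positivity)]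
    exact (hb n z).trans ((le_abs_self C).trans (by linarith))
  · filter_upwards [hl, hp0] with N hN hpN n hn a a' ω x
    rw [← sub_div, abs_div, abs_of_pos (by positivity : 0 < |C| + 1)]
    have h1 := hN n hn a a' ω x
    have h2 : C' * (p N / N) * |a - a'| ≤ |C'| * (p N / N) * |a - a'| :=
      mul_le_mul_of_nonneg_right (mul_le_mul_of_nonneg_right (le_abs_self _) (by positivity)) (abs_nonneg _)
    have h3 : |W n ((a, ω), x) - W n ((a', ω), x)| / (|C| + 1) ≤ |W n ((a, ω), x) - W n ((a', ω), x)| :=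
      div_le_self (abs_nonneg _) (by linarith [abs_nonneg C])
    linarith

theorem SlowC.bdd {W : ℕ → (ℝ × Ω) × X → ℝ} (h : SlowC p W) :
    (∀ n, Measurable (W n)) ∧ ∃ C : ℝ, 0 < C ∧ (∀ n z, |W n z| ≤ C) := by
  obtain ⟨C, hC, hW⟩ := h
  refine ⟨fun n => ?_, C, hC, fun n z => ?_⟩
  · have h1 := (hW.meas n).mul_const C
    have h2 : (fun z => W n z / C * C) = W n := by
      funext z
      field_simp
    rwa [h2] at h1
  · have := hW.bd n z
    rwa [abs_div, abs_of_pos hC, div_le_one hC] at this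

theorem Slow.mul {W W' : ℕ → (ℝ × Ω) × X → ℝ} (h : Slow p W) (h' : Slow p W') :
    Slow p (fun n z => W n z * W' n z) := by
  obtain ⟨C, hC, hl⟩ := h.lip
  obtain ⟨C', hC', hl'⟩ := h'.lip
  refine ⟨fun n => (h.meas n).mul (h'.meas n), fun n z => ?_, C + C', by positivity, ?_⟩
  · rw [abs_mul]
    exact mul_le_one₀ (h.bd _ _) (abs_nonneg _) (h'.bd _ _)
  · filter_upwards [hl, hl'] with N hN hN' n hn a a' ω x
    have h1 := hN n hn a a' ω x
    have h2 := hN' n hn a a' ω x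
    have h3 : W n ((a, ω), x) * W' n ((a, ω), x) - W n ((a', ω), x) * W' n ((a', ω), x) =
        (W n ((a, ω), x) - W n ((a', ω), x)) * W' n ((a, ω), x) +
        W n ((a', ω), x) * (W' n ((a, ω), x) - W' n ((a', ω), x)) := by ring
    rw [h3]
    refine (abs_add_le _ _).trans ?_
    rw [abs_mul, abs_mul]
    have h4 : |W n ((a, ω), x) - W n ((a', ω), x)| * |W' n ((a, ω), x)| ≤ C * (p N / N) * |a - a'| :=
      (mul_le_of_le_one_right (abs_nonneg _) (h'.bd _ _)).trans h1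
    have h5 : |W n ((a', ω), x)| * |W' n ((a, ω), x) - W' n ((a', ω), x)| ≤ C' * (p N / N) * |a - a'| :=
      (mul_le_of_le_one_left (abs_nonneg _) (h.bd _ _)).trans h2
    calc _ ≤ C * (p N / N) * |a - a'| + C' * (p N / N) * |a - a'| := add_le_add h4 h5
      _ = _ := by ring

theorem SlowC.mul {W W' : ℕ → (ℝ × Ω) × X → ℝ} (h : SlowC p W) (h' : SlowC p W') :
    SlowC p (fun n z => W n z * W' n z) := by
  obtain ⟨C, hC, h1⟩ := h
  obtain ⟨C', hC', h2⟩ := h'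
  refine ⟨C * C', by positivity, ?_⟩
  have h3 := h1.mul h2
  have e : (fun n (z : (ℝ × Ω) × X) => W n z * W' n z / (C * C')) = fun n z => W n z / C * (W' n z / C') := by
    funext n z
    field_simp
  rw [e]
  exact h3

/-- coefficients which are approximated by slowly varying ones -/
def GoodW (B : ℝ) (μ : Measure X) (ν : Measure Ω) (p : ℕ → ℝ) (W : ℕ → (ℝ × Ω) × X → ℝ) : Prop :=
  (∀ n, Measurable (W n)) ∧ (∃ C : ℝ, ∀ n z, |W n z| ≤ C) ∧ ∃ Wk : ℕ → ℕ → (ℝ × Ω) × X → ℝ,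
    (∀ k, SlowC p (Wk k)) ∧ ∀ᵐ z ∂(((lam B).prod ν).prod μ), ∀ δ : ℝ, 0 < δ → ∃ k, ∀ᶠ N : ℕ in atTop,
      (1 / (N : ℝ)) * ∑ n ∈ Icc 1 N, |W n z - Wk k n z| ≤ δ

theorem GoodW.mul {W W' : ℕ → (ℝ × Ω) × X → ℝ} (h : GoodW B μ ν p W) (h' : GoodW B μ ν p W') :
    GoodW B μ ν p (fun n z => W n z * W' n z) := by
  obtain ⟨hm, ⟨C, hC⟩, Wk, hs, hz⟩ := h
  obtain ⟨hm', ⟨C', hC'⟩, Wk', hs', hz'⟩ := h'
  refine ⟨fun n => (hm n).mul (hm' n), ⟨|C| * |C'|, fun n z => ?_⟩,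
    fun k n z => Wk (Nat.unpair k).1 n z * Wk' (Nat.unpair k).2 n z, fun k => (hs _).mul (hs' _), ?_⟩
  · rw [abs_mul]
    exact mul_le_mul ((hC n z).trans (le_abs_self _)) ((hC' n z).trans (le_abs_self _)) (abs_nonneg _)
      (abs_nonneg _)
  filter_upwards [hz, hz'] with z hz hz' δ hδ
  obtain ⟨k, hk⟩ := hz (δ / 2 / (|C'| + 1)) (by positivity)
  obtain ⟨_, Ck, hCk, hbk⟩ := (hs k).bdd
  obtain ⟨l, hl⟩ := hz' (δ / 2 / Ck) (by positivity)
  refine ⟨Nat.pair k l, ?_⟩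
  filter_upwards [hk, hl] with N hN hN'
  simp only [Nat.unpair_pair]
  have h1 : ∀ n, |W n z * W' n z - Wk k n z * Wk' l n z| ≤
      (|C'| + 1) * |W n z - Wk k n z| + Ck * |W' n z - Wk' l n z| := by
    intro n
    have e : W n z * W' n z - Wk k n z * Wk' l n z = (W n z - Wk k n z) * W' n z +
        Wk k n z * (W' n z - Wk' l n z) := by ring
    rw [e]
    refine (abs_add_le _ _).trans (add_le_add ?_ ?_)
    · rw [abs_mul, mul_comm]
      exact mul_le_mul_of_nonneg_right (((hC' n z).trans (le_abs_self _)).trans (by linarith)) (abs_nonneg _)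
    · rw [abs_mul]
      exact mul_le_mul_of_nonneg_right (hbk n z) (abs_nonneg _)
  have h2 : (1 / (N : ℝ)) * ∑ n ∈ Icc 1 N, |W n z * W' n z - Wk k n z * Wk' l n z| ≤
      (|C'| + 1) * ((1 / (N : ℝ)) * ∑ n ∈ Icc 1 N, |W n z - Wk k n z|) +
      Ck * ((1 / (N : ℝ)) * ∑ n ∈ Icc 1 N, |W' n z - Wk' l n z|) := by
    have h3 := sum_le_sum (s := Icc 1 N) fun n _ => h1 n
    rw [sum_add_distrib, ← mul_sum, ← mul_sum] at h3
    refine (mul_le_mul_of_nonneg_left h3 (by positivity)).trans (le_of_eq ?_)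
    ring
  refine h2.trans ?_
  have h4 : (|C'| + 1) * ((1 / (N : ℝ)) * ∑ n ∈ Icc 1 N, |W n z - Wk k n z|) ≤
      (|C'| + 1) * (δ / 2 / (|C'| + 1)) := mul_le_mul_of_nonneg_left hN (by positivity)
  have h5 : Ck * ((1 / (N : ℝ)) * ∑ n ∈ Icc 1 N, |W' n z - Wk' l n z|) ≤ Ck * (δ / 2 / Ck) :=
    mul_le_mul_of_nonneg_left hN' hCk.le
  have h6 : (|C'| + 1) * (δ / 2 / (|C'| + 1)) = δ / 2 := by field_simp
  have h7 : Ck * (δ / 2 / Ck) = δ / 2 := by field_simp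
  linarith

/-- coefficients which do not depend on the parameter -/
theorem GoodW.indep (hp0 : ∀ᶠ N : ℕ in atTop, 0 ≤ p N) {U : ℕ → Ω × X → ℝ} (hm : ∀ n, Measurable (U n)) {C : ℝ}
    (hb : ∀ n z, |U n z| ≤ C) : GoodW B μ ν p (fun n z => U n (z.1.2, z.2)) := by
  have hm' : ∀ n, Measurable (fun z : (ℝ × Ω) × X => U n (z.1.2, z.2)) := fun n =>
    (hm n).comp ((measurable_snd.comp measurable_fst).prodMk measurable_snd)
  refine ⟨hm', ⟨C, fun n z => hb _ _⟩, fun _ n z => U n (z.1.2, z.2), fun _ => ?_, ?_⟩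
  · refine SlowC.of hp0 hm' (C := C) (fun n z => hb _ _) ⟨0, ?_⟩
    filter_upwards with N n _ a a' ω x
    simp
  · filter_upwards with z δ hδ
    refine ⟨0, ?_⟩
    filter_upwards with N
    simp [hδ.le]

/-- a factor with times of smaller growth -/
theorem GoodW.factor (hB : 0 < B) (hg : Fam μ g) (hP : Peel μ ν g d) (hT : Lim μ ν g T) (hτ : IsFlow μ τ)
    (hp' : Tms p') (hp0 : ∀ᶠ N : ℕ in atTop, 0 ≤ p N)
    (hsub : ∃ C : ℝ, ∀ᶠ N : ℕ in atTop, ∀ n, n ≤ N → |p' n| ≤ C * (p N / N)) {f : X → ℝ} (hf : BM f) :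
    GoodW B μ ν p (fun n z => f (τ (z.1.1 * p' n) (g n z.1.2 z.2))) := by
  have hF := fam_succ hg hτ (p := p')
  obtain ⟨C₁, hsub⟩ := hsub
  have hpos : ∀ k : ℕ, (0 : ℝ) < 1 / ((k : ℝ) + 1) := fun k => by positivity
  set fk : ℕ → X → ℝ := fun k => smo τ f (1 / ((k : ℝ) + 1)) with hfk
  have hfkm : ∀ k, BM (fk k) := fun k => smo_bm hτ hf (hpos k).le
  have hfkb : ∀ k x, |fk k x| ≤ bd f := fun k x =>
    Pool.Agent.Y48.MC.smo_bd (bd_nonneg f) (bd_le hf) (hpos k).le x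
  refine ⟨fun n => (hf.comp (hF.meas n)).1, ⟨bd f, fun n z => bd_le hf _⟩,
    fun k n z => fk k (τ (z.1.1 * p' n) (g n z.1.2 z.2)), fun k => ?_, ?_⟩
  · refine SlowC.of hp0 (fun n => ((hfkm k).comp (hF.meas n)).1) (C := bd f) (fun n z => hfkb k _)
      ⟨2 * bd f / (1 / ((k : ℝ) + 1)) * C₁, ?_⟩
    filter_upwards [hsub] with N hN n hn a a' ω x
    have h1 := Pool.Agent.Y957.MC.smo_lip hτ hf.1 (bd_le hf) (hpos k) (g n ω x) (a * p' n) (a' * p' n)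
    refine h1.trans ?_
    rw [← sub_mul, abs_mul]
    have h2 : |a - a'| * |p' n| ≤ |a - a'| * (C₁ * (p N / N)) := mul_le_mul_of_nonneg_left (hN n hn) (abs_nonneg _)
    have h3 : 0 ≤ 2 * bd f / (1 / ((k : ℝ) + 1)) := by
      have := bd_nonneg f
      have := hpos k
      positivity
    calc 2 * bd f / (1 / ((k : ℝ) + 1)) * (|a - a'| * |p' n|) ≤
        2 * bd f / (1 / ((k : ℝ) + 1)) * (|a - a'| * (C₁ * (p N / N))) := mul_le_mul_of_nonneg_left h2 h3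
      _ = _ := by ring
  · have hL := lim_succ hB hg hP hT hτ hp'
    have he : ∀ k, BM (fun x => |f x - fk k x|) := fun k => (hf.sub (hfkm k)).abs
    have hti := tiny (ν := (lam B).prod ν) hF hL (G := fun k x => |f x - fk k x|) he (fun k x => abs_nonneg _)
      (Pool.Agent.Y312.MC.smo_L1 hτ hf.1 (bd_le hf))
    have hall : ∀ᵐ z ∂(((lam B).prod ν).prod μ), ∀ k, Tendsto (fun N : ℕ => (1 / (N : ℝ)) *
        ∑ n ∈ Icc 1 N, |f (τ (z.1.1 * p' n) (g n z.1.2 z.2)) - fk k (τ (z.1.1 * p' n) (g n z.1.2 z.2))|)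
        atTop (nhds (T (ce μ τ fun x => |f x - fk k x|) z.2)) := by
      rw [ae_all_iff]
      exact fun k => hL _ (he k)
    filter_upwards [hti, hall] with z hz1 hz2 δ hδ
    obtain ⟨k, hk⟩ := hz1 δ hδ
    refine ⟨k, ?_⟩
    filter_upwards [(hz2 k).eventually_lt_const hk] with N hN
    exact hN.le

end good

end Pool.Agent.W5h67.NF
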