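import Pool.Agent.W5h67.NF.Core3

/-!
Words in noncommuting flows at generic times: the factor of largest growth decouples, and products of several words.
-/

set_option autoImplicit false

namespace Pool.Agent.W5h67.NF

open MeasureTheory Filter Finset
open Pool.Agent.Y957.MC (IsFlow flowInv smo)
open Pool.Agent.Y48.MC (flwb)

universe u v

section apx

variable {X : Type u} [MeasurableSpace X] {μ : Measure X} [IsProbabilityMeasure μ] {τ : ℝ → X → X} {f : X → ℝ}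

theorem smo_abs_int (hτ : IsFlow μ τ) (hf : BM f) {L : ℝ} (hL : 0 < L) :
    ∫ x, |smo τ f L x| ∂μ ≤ ∫ x, |f x| ∂μ := by
  have h1 : ∀ x, |smo τ f L x| ≤ smo τ (fun x => |f x|) L x := by
    intro x
    unfold smo
    rw [abs_mul, abs_of_pos (by positivity : (0 : ℝ) < 1 / L)]
    refine mul_le_mul_of_nonneg_left ?_ (by positivity)
    exact intervalIntegral.abs_integral_le_integral_abs hL.le
  have h2 := Pool.Agent.Y312.MC.condExp_smo hτ hf.abs.1 (C := bd f) (fun x => by rw [abs_abs]; exact bd_le hf x)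
    hL (μ := μ)
  have hm := flowInv_le (X := X) τ
  have h3 : ∫ x, smo τ (fun x => |f x|) L x ∂μ = ∫ x, |f x| ∂μ := by
    rw [← integral_condExp hm (f := fun x => |f x|), ← integral_condExp hm (f := smo τ (fun x => |f x|) L)]
    exact integral_congr_ae h2.symm
  rw [← h3]
  exact integral_mono ((smo_bm hτ hf hL.le).abs.int μ) ((smo_bm hτ hf.abs hL.le).int μ) h1

/-- the approximation by smooth coboundaries -/
noncomputable def apx (τ : ℝ → X → X) (f : X → ℝ) (l : ℕ) (x : X) : ℝ :=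
  smo τ f (1 / ((l : ℝ) + 1)) x - smo τ (smo τ f (1 / ((l : ℝ) + 1))) ((l : ℝ) + 1) x

omit [IsProbabilityMeasure μ] in
theorem apx_bm (hτ : IsFlow μ τ) (hf : BM f) (l : ℕ) : BM (apx τ f l) := by
  have h1 : BM (smo τ f (1 / ((l : ℝ) + 1))) := smo_bm hτ hf (by positivity)
  exact h1.sub (smo_bm hτ h1 (by positivity))

theorem apx_nice (hτ : IsFlow μ τ) (hf : BM f) (l : ℕ) :
    ∃ C : ℝ, 0 < C ∧ Nice1 τ (fun x => apx τ f l x / C) := by
  have h := Pool.Agent.R998.TD.niceG hτ hf.1 (C := bd f + 1) (by linarith [bd_nonneg f])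
    (fun x => (bd_le hf x).trans (by linarith)) (δ := 1 / ((l : ℝ) + 1)) (S := (l : ℝ) + 1) (by positivity)
    (by positivity)
  obtain ⟨hm, C, h1, h2, h3⟩ := h
  have hC : 0 < |C| + 1 := by positivity
  have hCC : C ≤ |C| + 1 := (le_abs_self C).trans (by linarith)
  refine ⟨|C| + 1, hC, ⟨hm.div_const _, fun x => ?_, fun u v x => ?_, fun u v x => ?_⟩⟩
  · rw [abs_div, abs_of_pos hC, div_le_one hC]
    exact (h1 x).trans hCC
  · rw [← sub_div, abs_div, abs_of_pos hC, div_le_iff₀ hC, mul_comm]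
    exact (h2 u v x).trans (mul_le_mul_of_nonneg_right hCC (abs_nonneg _))
  · rw [intervalIntegral.integral_div, abs_div, abs_of_pos hC, div_le_one hC]
    exact (h3 u v x).trans hCC

theorem apx_int (hτ : IsFlow μ τ) (hf : BM f) :
    Tendsto (fun l : ℕ => ∫ x, |(f x - ce μ τ f x) - apx τ f l x| ∂μ) atTop (nhds 0) := by
  have h1 := Pool.Agent.Y312.MC.smo_L1 hτ hf.1 (bd_le hf) (μ := μ)
  have hSm : ∀ l : ℕ, BM (fun x => ce μ τ f x - smo τ f ((l : ℝ) + 1) x) := fun l =>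
    (ce_bm f).sub (smo_bm hτ hf (by positivity))
  have h2 : Tendsto (fun l : ℕ => ∫ x, |ce μ τ f x - smo τ f ((l : ℝ) + 1) x| ∂μ) atTop (nhds 0) := by
    have h := tendsto_integral_of_dominated_convergence (μ := μ)
      (F := fun (l : ℕ) x => |ce μ τ f x - smo τ f ((l : ℝ) + 1) x|) (f := fun _ => (0 : ℝ))
      (fun _ => 2 * bd f) (fun l => (hSm l).abs.1.aestronglyMeasurable) (integrable_const _)
      (fun l => Eventually.of_forall fun x => ?_) ?_
    · simpa using h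
    · rw [Real.norm_eq_abs, abs_abs]
      have h3 : |smo τ f ((l : ℝ) + 1) x| ≤ bd f :=
        Pool.Agent.Y48.MC.smo_bd (bd_nonneg f) (bd_le hf) (by positivity) x
      have h4 : |ce μ τ f x| ≤ bd f := by
        have := bd_nonneg f
        unfold ce
        rw [abs_le]
        exact ⟨le_max_left _ _, max_le (by linarith) (min_le_left _ _)⟩
      refine (abs_sub _ _).trans ?_
      linarith
    · filter_upwards [flwb X μ τ f hτ hf.1 hf.2, ce_ae (μ := μ) (τ := τ) hf] with x hx hx2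
      have h3 : Tendsto (fun l : ℕ => (l : ℝ) + 1) atTop atTop :=
        tendsto_atTop_add_const_right _ _ tendsto_natCast_atTop_atTop
      have h4 := (hx.comp h3).const_sub (ce μ τ f x)
      rw [hx2, sub_self] at h4
      have h5 := h4.abs
      rw [abs_zero] at h5
      refine h5.congr fun l => ?_
      rw [hx2]
      rfl
  have h3 := (h1.const_mul 2).add h2
  rw [mul_zero, zero_add] at h3
  refine squeeze_zero (fun l => integral_nonneg fun x => abs_nonneg _) (fun l => ?_) h3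
  obtain ⟨fl, hfl⟩ : ∃ fl : X → ℝ, fl = smo τ f (1 / ((l : ℝ) + 1)) := ⟨_, rfl⟩
  have hflm : BM fl := by rw [hfl]; exact smo_bm hτ hf (by positivity)
  have hd : BM (fun x => f x - fl x) := hf.sub hflm
  have hL : (0 : ℝ) < (l : ℝ) + 1 := by positivity
  have e1 : ∀ x, |(f x - ce μ τ f x) - apx τ f l x| ≤ |f x - fl x| +
      (|ce μ τ f x - smo τ f ((l : ℝ) + 1) x| + |smo τ (fun x => f x - fl x) ((l : ℝ) + 1) x|) := by
    intro x
    have e2 : smo τ (fun x => f x - fl x) ((l : ℝ) + 1) x = smo τ f ((l : ℝ) + 1) x - smo τ fl ((l : ℝ) + 1) x := by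
      unfold smo
      rw [intervalIntegral.integral_sub (bm_int hτ hf x _ _) (bm_int hτ hflm x _ _), mul_sub]
    have e3 : (f x - ce μ τ f x) - apx τ f l x = (f x - fl x) + (-(ce μ τ f x - smo τ f ((l : ℝ) + 1) x) +
        -(smo τ (fun x => f x - fl x) ((l : ℝ) + 1) x)) := by
      rw [e2]
      unfold apx
      rw [← hfl]
      ring
    rw [e3]
    refine (abs_add_le _ _).trans (add_le_add le_rfl ((abs_add_le _ _).trans ?_))
    rw [abs_neg, abs_neg]
  have hb1 : BM (fun x => |f x - fl x|) := hd.abs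
  have hb2 : BM (fun x => |ce μ τ f x - smo τ f ((l : ℝ) + 1) x|) := (hSm l).abs
  have hb3 : BM (fun x => |smo τ (fun x => f x - fl x) ((l : ℝ) + 1) x|) := (smo_bm hτ hd hL.le).abs
  refine (integral_mono (((hf.sub (ce_bm f)).sub (apx_bm hτ hf l)).abs.int μ)
    ((hb1.add (hb2.add hb3)).int μ) e1).trans ?_
  rw [integral_add (hb1.int μ) ((hb2.add hb3).int μ), integral_add (hb2.int μ) (hb3.int μ)]
  have h4 := smo_abs_int hτ hd hL
  rw [hfl] at h4 ⊢
  linarith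

end apx

section dec

variable {X : Type u} [MeasurableSpace X] {Ω : Type v} [MeasurableSpace Ω]
variable {μ : Measure X} [IsProbabilityMeasure μ] {ν : Measure Ω} [IsProbabilityMeasure ν]
  {g : ℕ → Ω → X → X} {d : ℕ} {τ : ℝ → X → X} {p : ℕ → ℝ} {B : ℝ} {T : (X → ℝ) → X → ℝ}

/-- the factor of largest growth decouples -/
theorem dec (hB : 0 < B) (hg : Fam μ g) (hP : Peel μ ν g d) (hT : Lim μ ν g T) (hτ : IsFlow μ τ) (hp : Tmc p)
    {W : ℕ → (ℝ × Ω) × X → ℝ} (hW : GoodW B μ ν p W) {f : X → ℝ} (hf : BM f) :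
    ∀ᵐ z : (ℝ × Ω) × X ∂(((lam B).prod ν).prod μ),
      Tendsto (fun N : ℕ => (1 / (N : ℝ)) * ∑ n ∈ Icc 1 N,
        W n z * (f (τ (z.1.1 * p n) (g n z.1.2 z.2)) - ce μ τ f (g n z.1.2 z.2))) atTop (nhds 0) := by
  have hF := fam_succ hg hτ (p := p)
  obtain ⟨hWm, ⟨CW, hCW⟩, Wk, hWs, hWz⟩ := hW
  set φ : X → ℝ := fun x => f x - ce μ τ f x with hφd
  have hφ : BM φ := hf.sub (ce_bm f)
  obtain ⟨Cφ, hCφ⟩ := hφ.2
  choose Cl hCl hnice using fun l : ℕ => apx_nice (μ := μ) hτ hf l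
  choose Ck hCk hslow using hWs
  have h1 : ∀ᵐ z : (ℝ × Ω) × X ∂(((lam B).prod ν).prod μ), ∀ k l : ℕ,
      Tendsto (fun N : ℕ => (1 / (N : ℝ)) * ∑ n ∈ Icc 1 N,
        Wk k n z * apx τ f l (τ (z.1.1 * p n) (g n z.1.2 z.2))) atTop (nhds 0) := by
    rw [ae_all_iff]; intro k
    rw [ae_all_iff]; intro l
    filter_upwards [core hB hg hP hτ hp (hnice l) (hslow k)] with z hz
    have h2 := hz.const_mul (Ck k * Cl l)
    rw [mul_zero] at h2
    refine h2.congr fun N => ?_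
    rw [mul_left_comm, mul_sum]
    congr 1
    refine sum_congr rfl fun n _ => ?_
    have := (hCk k).ne'
    have := (hCl l).ne'
    field_simp
  have hL := lim_succ hB hg hP hT hτ hp.toTms
  have he : ∀ l, BM (fun x => |φ x - apx τ f l x|) := fun l => (hφ.sub (apx_bm hτ hf l)).abs
  have hti := tiny (ν := (lam B).prod ν) hF hL (G := fun l x => |φ x - apx τ f l x|) he (fun l x => abs_nonneg _)
    (apx_int hτ hf)
  have hall : ∀ᵐ z ∂(((lam B).prod ν).prod μ), ∀ l, Tendsto (fun N : ℕ => (1 / (N : ℝ)) *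
      ∑ n ∈ Icc 1 N, |φ (τ (z.1.1 * p n) (g n z.1.2 z.2)) - apx τ f l (τ (z.1.1 * p n) (g n z.1.2 z.2))|)
      atTop (nhds (T (ce μ τ fun x => |φ x - apx τ f l x|) z.2)) := by
    rw [ae_all_iff]
    exact fun l => hL _ (he l)
  filter_upwards [h1, hti, hall, hWz] with z hz1 hz2 hz3 hz4
  rw [Metric.tendsto_nhds]
  intro δ hδ
  obtain ⟨k, hk⟩ := hz4 (δ / 4 / (|Cφ| + 1)) (by positivity)
  obtain ⟨l, hl⟩ := hz2 (δ / 4 / Ck k) (by have := hCk k; positivity)
  have h5 := (hz3 l).eventually_lt_const hl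
  have h6 := hz1 k l
  rw [Metric.tendsto_nhds] at h6
  filter_upwards [hk, h5, h6 (δ / 4) (by linarith)] with N hk h5 h6
  rw [Real.dist_eq, sub_zero] at h6 ⊢
  have hCk0 := hCk k
  have hbW : ∀ n, |Wk k n z| ≤ Ck k := fun n => by
    have := (hslow k).bd n z
    rwa [abs_div, abs_of_pos hCk0, div_le_one hCk0] at this
  have e1 : (1 / (N : ℝ)) * ∑ n ∈ Icc 1 N, W n z * (f (τ (z.1.1 * p n) (g n z.1.2 z.2)) - ce μ τ f (g n z.1.2 z.2)) =
      (1 / (N : ℝ)) * ∑ n ∈ Icc 1 N, ((W n z - Wk k n z) * φ (τ (z.1.1 * p n) (g n z.1.2 z.2)) +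
        Wk k n z * (φ (τ (z.1.1 * p n) (g n z.1.2 z.2)) - apx τ f l (τ (z.1.1 * p n) (g n z.1.2 z.2)))) +
      (1 / (N : ℝ)) * ∑ n ∈ Icc 1 N, Wk k n z * apx τ f l (τ (z.1.1 * p n) (g n z.1.2 z.2)) := by
    rw [← mul_add, ← sum_add_distrib]
    congr 1
    refine sum_congr rfl fun n _ => ?_
    simp only [hφd, ce_inv]
    ring
  rw [e1]
  have h7 : |(1 / (N : ℝ)) * ∑ n ∈ Icc 1 N, ((W n z - Wk k n z) * φ (τ (z.1.1 * p n) (g n z.1.2 z.2)) +
        Wk k n z * (φ (τ (z.1.1 * p n) (g n z.1.2 z.2)) - apx τ f l (τ (z.1.1 * p n) (g n z.1.2 z.2))))| ≤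
      (|Cφ| + 1) * ((1 / (N : ℝ)) * ∑ n ∈ Icc 1 N, |W n z - Wk k n z|) +
      Ck k * ((1 / (N : ℝ)) * ∑ n ∈ Icc 1 N,
        |φ (τ (z.1.1 * p n) (g n z.1.2 z.2)) - apx τ f l (τ (z.1.1 * p n) (g n z.1.2 z.2))|) := by
    rw [abs_mul, abs_of_nonneg (by positivity : (0 : ℝ) ≤ 1 / N)]
    have h8 : |∑ n ∈ Icc 1 N, ((W n z - Wk k n z) * φ (τ (z.1.1 * p n) (g n z.1.2 z.2)) +
        Wk k n z * (φ (τ (z.1.1 * p n) (g n z.1.2 z.2)) - apx τ f l (τ (z.1.1 * p n) (g n z.1.2 z.2))))| ≤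
        ∑ n ∈ Icc 1 N, ((|Cφ| + 1) * |W n z - Wk k n z| + Ck k *
          |φ (τ (z.1.1 * p n) (g n z.1.2 z.2)) - apx τ f l (τ (z.1.1 * p n) (g n z.1.2 z.2))|) := by
      refine (abs_sum_le_sum_abs _ _).trans (sum_le_sum fun n _ => ?_)
      refine (abs_add_le _ _).trans (add_le_add ?_ ?_)
      · rw [abs_mul, mul_comm]
        exact mul_le_mul_of_nonneg_right (((hCφ _).trans (le_abs_self _)).trans (by linarith)) (abs_nonneg _)
      · rw [abs_mul]
        exact mul_le_mul_of_nonneg_right (hbW n) (abs_nonneg _)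
    have h8' : ∑ n ∈ Icc 1 N, ((|Cφ| + 1) * |W n z - Wk k n z| + Ck k *
          |φ (τ (z.1.1 * p n) (g n z.1.2 z.2)) - apx τ f l (τ (z.1.1 * p n) (g n z.1.2 z.2))|) =
        (|Cφ| + 1) * ∑ n ∈ Icc 1 N, |W n z - Wk k n z| + Ck k * ∑ n ∈ Icc 1 N,
          |φ (τ (z.1.1 * p n) (g n z.1.2 z.2)) - apx τ f l (τ (z.1.1 * p n) (g n z.1.2 z.2))| := by
      rw [sum_add_distrib, ← mul_sum, ← mul_sum]
    rw [h8'] at h8
    refine (mul_le_mul_of_nonneg_left h8 (by positivity)).trans (le_of_eq ?_)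
    ring
  have h8 : (|Cφ| + 1) * ((1 / (N : ℝ)) * ∑ n ∈ Icc 1 N, |W n z - Wk k n z|) ≤ δ / 4 := by
    refine (mul_le_mul_of_nonneg_left hk (by positivity)).trans (le_of_eq ?_)
    field_simp
  have h9 : Ck k * ((1 / (N : ℝ)) * ∑ n ∈ Icc 1 N,
      |φ (τ (z.1.1 * p n) (g n z.1.2 z.2)) - apx τ f l (τ (z.1.1 * p n) (g n z.1.2 z.2))|) ≤ δ / 4 := by
    refine (mul_le_mul_of_nonneg_left h5.le hCk0.le).trans (le_of_eq ?_)
    field_simp
  refine (abs_add_le _ _).trans_lt ?_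
  linarith

end dec

section prod

variable {X : Type u} [MeasurableSpace X] {Ω : Type v} [MeasurableSpace Ω]
variable {μ : Measure X} [IsProbabilityMeasure μ] {ν : Measure Ω} [IsProbabilityMeasure ν]
variable {ι : Type*} [Fintype ι] [DecidableEq ι]
  {g : ι → ℕ → Ω → X → X} {d : ι → ℕ} {τ : ι → ℝ → X → X} {p : ι → ℕ → ℝ} {B : ℝ} {T : ι → (X → ℝ) → X → ℝ}

omit [Fintype ι] in
theorem GoodW.prod {p : ℕ → ℝ} (hp0 : ∀ᶠ N : ℕ in atTop, 0 ≤ p N) (s : Finset ι)
    {W : ι → ℕ → (ℝ × Ω) × X → ℝ} (hW : ∀ j ∈ s, GoodW B μ ν p (W j)) :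
    GoodW B μ ν p (fun n z => ∏ j ∈ s, W j n z) := by
  induction s using Finset.induction_on with
  | empty =>
    have := GoodW.indep (B := B) (μ := μ) (ν := ν) hp0 (U := fun _ _ => (1 : ℝ)) (fun _ => measurable_const) (C := 1)
      (fun _ _ => by simp)
    simpa using this
  | insert a s ha ih =>
    simp only [prod_insert ha]
    exact (hW a (mem_insert_self _ _)).mul (ih fun j hj => hW j (mem_insert_of_mem hj))

/-- the times of the factor `j` are smaller than the times of the factor `j'` -/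
def Sub (p p' : ℕ → ℝ) : Prop := ∃ C : ℝ, ∀ᶠ N : ℕ in atTop, ∀ n, n ≤ N → |p n| ≤ C * (p' N / N)

omit [Fintype ι] in
/-- all factors decouple -/
theorem claim (hB : 0 < B) (hg : ∀ j, Fam μ (g j)) (hP : ∀ j, Peel μ ν (g j) (d j)) (hT : ∀ j, Lim μ ν (g j) (T j))
    (hτ : ∀ j, IsFlow μ (τ j)) {q : ι → ℕ} (A : Finset ι) (hp : ∀ j ∈ A, Tmc (p j))
    (hq : ∀ j ∈ A, ∀ j' ∈ A, q j = q j' → j = j') (hsub : ∀ j ∈ A, ∀ j' ∈ A, q j < q j' → Sub (p j) (p j')) :
    ∀ (U : ℕ → Ω × X → ℝ), (∀ n, Measurable (U n)) → (∃ C : ℝ, ∀ n y, |U n y| ≤ C) →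
      ∀ (f : ι → X → ℝ), (∀ j, BM (f j)) → ∀ᵐ z : (ℝ × Ω) × X ∂(((lam B).prod ν).prod μ),
        Tendsto (fun N : ℕ => (1 / (N : ℝ)) * ∑ n ∈ Icc 1 N, U n (z.1.2, z.2) *
          (∏ j ∈ A, f j (τ j (z.1.1 * p j n) (g j n z.1.2 z.2)) - ∏ j ∈ A, ce μ (τ j) (f j) (g j n z.1.2 z.2)))
          atTop (nhds 0) := by
  induction A using Finset.induction_on_max_value q with
  | empty =>
    intro U _ _ f _
    filter_upwards with z
    simp
  | insert a s ha hmax ih =>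
    intro U hUm hUb f hf
    obtain ⟨CU, hCU⟩ := hUb
    have hpa : Tmc (p a) := hp a (mem_insert_self _ _)
    have hp0 : ∀ᶠ N : ℕ in atTop, 0 ≤ p a N := hpa.tends.eventually_ge_atTop 0
    have hlt : ∀ j ∈ s, Sub (p j) (p a) := by
      intro j hj
      refine hsub j (mem_insert_of_mem hj) a (mem_insert_self _ _) (lt_of_le_of_ne (hmax j hj) fun h => ?_)
      have := hq j (mem_insert_of_mem hj) a (mem_insert_self _ _) h
      rw [this] at hj
      exact ha hj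
    have hGW : GoodW B μ ν (p a) (fun n z => U n (z.1.2, z.2) *
        ∏ j ∈ s, f j (τ j (z.1.1 * p j n) (g j n z.1.2 z.2))) :=
      (GoodW.indep hp0 hUm hCU).mul (GoodW.prod hp0 s fun j hj =>
        GoodW.factor hB (hg j) (hP j) (hT j) (hτ j) (hp j (mem_insert_of_mem hj)).toTms hp0 (hlt j hj) (hf j))
    have h1 := dec hB (hg a) (hP a) (hT a) (hτ a) hpa hGW (hf a)
    have hca : BM (ce μ (τ a) (f a)) := ce_bm _
    obtain ⟨Ca, hCa⟩ := hca.2
    have h2 := ih (fun j hj => hp j (mem_insert_of_mem hj))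
      (fun j hj j' hj' => hq j (mem_insert_of_mem hj) j' (mem_insert_of_mem hj'))
      (fun j hj j' hj' => hsub j (mem_insert_of_mem hj) j' (mem_insert_of_mem hj'))
      (fun n y => U n y * ce μ (τ a) (f a) (g a n y.1 y.2))
      (fun n => (hUm n).mul (hca.comp ((hg a).meas n)).1)
      ⟨|CU| * |Ca|, fun n y => by
        rw [abs_mul]
        exact mul_le_mul ((hCU n y).trans (le_abs_self _)) ((hCa _).trans (le_abs_self _)) (abs_nonneg _)
          (abs_nonneg _)⟩ f hf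
    filter_upwards [h1, h2] with z hz1 hz2
    have h3 := hz1.add hz2
    rw [add_zero] at h3
    refine h3.congr fun N => ?_
    rw [← mul_add, ← sum_add_distrib]
    congr 1
    refine sum_congr rfl fun n _ => ?_
    rw [prod_insert ha, prod_insert ha]
    ring

/-- convergence of products with arbitrary weights -/
def LimW (μ : Measure X) (ν : Measure Ω) (g : ι → ℕ → Ω → X → X) (T : ι → (X → ℝ) → X → ℝ) : Prop :=
  ∀ (W : ℕ → X → ℝ), (∀ n, Measurable (W n)) → (∃ C : ℝ, ∀ n x, |W n x| ≤ C) →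
    ∀ f : ι → X → ℝ, (∀ j, BM (f j)) → ∀ᵐ z ∂(ν.prod μ),
      Tendsto (fun N : ℕ => (1 / (N : ℝ)) * ∑ n ∈ Icc 1 N, W n z.2 *
        (∏ j, f j (g j n z.1 z.2) - ∏ j, T j (f j) z.2)) atTop (nhds 0)

theorem limW_zero : LimW μ ν (fun (_ : ι) (_ : ℕ) (_ : Ω) (x : X) => x) (fun _ f => f) := by
  intro W _ _ f _
  filter_upwards with z
  simp

theorem limW_succ (hB : 0 < B) (hg : ∀ j, Fam μ (g j)) (hP : ∀ j, Peel μ ν (g j) (d j))
    (hT : ∀ j, Lim μ ν (g j) (T j)) (hτ : ∀ j, IsFlow μ (τ j)) {q : ι → ℕ} (A : Finset ι)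
    (hp : ∀ j ∈ A, Tmc (p j)) (hp' : ∀ j, j ∉ A → ∀ n, p j n = 0)
    (hq : ∀ j ∈ A, ∀ j' ∈ A, q j = q j' → j = j') (hsub : ∀ j ∈ A, ∀ j' ∈ A, q j < q j' → Sub (p j) (p j'))
    (hW : LimW μ ν g T) :
    LimW μ ((lam B).prod ν) (fun (j : ι) (n : ℕ) (r : ℝ × Ω) (x : X) => τ j (r.1 * p j n) (g j n r.2 x))
      (fun j f => if j ∈ A then T j (ce μ (τ j) f) else T j f) := by
  intro W hWm hWb f hf
  obtain ⟨CW, hCW⟩ := hWb
  have hfc : ∀ n, BM (fun y : Ω × X => ∏ j ∈ univ \ A, f j (g j n y.1 y.2)) := by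
    intro n
    have : ∀ s : Finset ι, BM (fun y : Ω × X => ∏ j ∈ s, f j (g j n y.1 y.2)) := by
      intro s
      induction s using Finset.induction_on with
      | empty => simpa using BM.const (α := Ω × X) 1
      | insert a s ha ih =>
        simp only [prod_insert ha]
        exact ((hf a).comp ((hg a).meas n)).mul ih
    exact this _
  have hfcb : ∃ C : ℝ, ∀ n (y : Ω × X), |∏ j ∈ univ \ A, f j (g j n y.1 y.2)| ≤ C := by
    refine ⟨∏ j ∈ univ \ A, bd (f j), fun n y => ?_⟩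
    rw [abs_prod]
    exact prod_le_prod (fun j _ => abs_nonneg _) fun j _ => bd_le (hf j) _
  obtain ⟨Cf, hCf⟩ := hfcb
  have h1 := claim hB hg hP hT hτ A hp hq hsub
    (fun n y => W n y.2 * ∏ j ∈ univ \ A, f j (g j n y.1 y.2))
    (fun n => ((hWm n).comp measurable_snd).mul (hfc n).1)
    ⟨|CW| * |Cf|, fun n y => by
      rw [abs_mul]
      exact mul_le_mul ((hCW n _).trans (le_abs_self _)) ((hCf n y).trans (le_abs_self _)) (abs_nonneg _)
        (abs_nonneg _)⟩ f hf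
  set f' : ι → X → ℝ := fun j => if j ∈ A then ce μ (τ j) (f j) else f j with hf'
  have hf'm : ∀ j, BM (f' j) := by
    intro j
    simp only [hf']
    split_ifs
    · exact ce_bm _
    · exact hf j
  have h2 : ∀ᵐ z : (ℝ × Ω) × X ∂(((lam B).prod ν).prod μ), Tendsto (fun N : ℕ => (1 / (N : ℝ)) *
      ∑ n ∈ Icc 1 N, W n z.2 * (∏ j, f' j (g j n z.1.2 z.2) - ∏ j, T j (f' j) z.2)) atTop (nhds 0) :=
    ae_skip (hW W hWm ⟨CW, hCW⟩ f' hf'm)
  filter_upwards [h1, h2] with z hz1 hz2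
  have h3 := hz1.add hz2
  rw [add_zero] at h3
  refine h3.congr fun N => ?_
  rw [← mul_add, ← sum_add_distrib]
  congr 1
  refine sum_congr rfl fun n _ => ?_
  have e1 : ∏ j, f j (τ j (z.1.1 * p j n) (g j n z.1.2 z.2)) =
      (∏ j ∈ univ \ A, f j (g j n z.1.2 z.2)) * ∏ j ∈ A, f j (τ j (z.1.1 * p j n) (g j n z.1.2 z.2)) := by
    rw [← prod_sdiff (subset_univ A)]
    congr 1
    refine prod_congr rfl fun j hj => ?_
    rw [Finset.mem_sdiff] at hj
    rw [hp' j hj.2, mul_zero, (hτ j).zero]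
  have e2 : ∏ j, f' j (g j n z.1.2 z.2) =
      (∏ j ∈ univ \ A, f j (g j n z.1.2 z.2)) * ∏ j ∈ A, ce μ (τ j) (f j) (g j n z.1.2 z.2) := by
    rw [← prod_sdiff (subset_univ A)]
    congr 1
    · refine prod_congr rfl fun j hj => ?_
      rw [Finset.mem_sdiff] at hj
      simp only [hf', if_neg hj.2]
    · refine prod_congr rfl fun j hj => ?_
      simp only [hf', if_pos hj]
  have e3 : ∏ j, (if j ∈ A then T j (ce μ (τ j) (f j)) else T j (f j)) z.2 = ∏ j, T j (f' j) z.2 := by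
    refine prod_congr rfl fun j _ => ?_
    simp only [hf']
    split_ifs <;> rfl
  rw [e1, e2, e3]
  ring

end prod

end Pool.Agent.W5h67.NF
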