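import Mathlib
import Pool.Agent.Y957.MC.Spec

/-!
Copies of small lemmas of `Pool.Agent.Y957.MC`, to keep the imports short.
-/

set_option autoImplicit false

namespace Pool.Agent.W5h67.NF

open MeasureTheory Filter Finset
open Pool.Agent.Y957.MC (IsFlow flowInv)

universe u

theorem flowInv_neg {X : Type u} [MeasurableSpace X] (τ : ℝ → X → X) : flowInv (fun t => τ (-t)) = flowInv τ := by
  unfold flowInv
  exact (Equiv.neg ℝ).iInf_comp (g := fun t => MeasurableSpace.invariants (τ t))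

theorem isFlow_neg {X : Type u} [MeasurableSpace X] {μ : Measure X} {τ : ℝ → X → X} (h : IsFlow μ τ) :
    IsFlow μ (fun t => τ (-t)) := by
  refine ⟨?_, fun x => by simp [h.zero], fun s t x => ?_, fun t => h.mp (-t)⟩
  · exact h.meas.comp ((measurable_neg.comp measurable_fst).prodMk measurable_snd)
  · simp only [neg_add]
    exact h.add _ _ _

/-- conditional expectations of complex functions, coordinatewise -/
theorem condExp_re_im {X : Type u} {m : MeasurableSpace X} [mX : MeasurableSpace X] {μ : Measure X}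
    [IsProbabilityMeasure μ] {f : X → ℂ} (hf : Integrable f μ) :
    ∀ᵐ x ∂μ, (μ[f | m]) x = (((μ[fun y => (f y).re | m]) x : ℝ) : ℂ) + Complex.I * (((μ[fun y => (f y).im | m]) x : ℝ) : ℂ) := by
  have h1 : Integrable (fun y => (((f y).re : ℝ) : ℂ)) μ := hf.re.ofReal
  have h2 : Integrable (fun y => (((f y).im : ℝ) : ℂ)) μ := hf.im.ofReal
  have e0 : f = (fun y => (((f y).re : ℝ) : ℂ)) + Complex.I • (fun y => (((f y).im : ℝ) : ℂ)) := by
    funext y
    simp only [Pi.add_apply, Pi.smul_apply, smul_eq_mul]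
    rw [mul_comm]
    exact (Complex.re_add_im (f y)).symm
  have e1 : μ[f | m] =ᵐ[μ] μ[(fun y => (((f y).re : ℝ) : ℂ)) | m] + μ[Complex.I • (fun y => (((f y).im : ℝ) : ℂ)) | m] := by
    conv_lhs => rw [e0]
    exact condExp_add h1 (h2.smul _) m
  have e2 : μ[Complex.I • (fun y => (((f y).im : ℝ) : ℂ)) | m] =ᵐ[μ] Complex.I • μ[(fun y => (((f y).im : ℝ) : ℂ)) | m] :=
    condExp_smul _ _ m
  have e3 : μ[(fun y => (((f y).re : ℝ) : ℂ)) | m] =ᵐ[μ] fun x => (((μ[fun y => (f y).re | m]) x : ℝ) : ℂ) :=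
    (Complex.ofRealCLM.comp_condExp_comm hf.re).symm
  have e4 : μ[(fun y => (((f y).im : ℝ) : ℂ)) | m] =ᵐ[μ] fun x => (((μ[fun y => (f y).im | m]) x : ℝ) : ℂ) :=
    (Complex.ofRealCLM.comp_condExp_comm hf.im).symm
  filter_upwards [e1, e2, e3, e4] with x h1 h2 h3 h4
  rw [h1, Pi.add_apply, h2, Pi.smul_apply, h3, h4, smul_eq_mul]

/-- expansion of a product of complex numbers in products of real and imaginary parts -/
theorem prod_expand {m : ℕ} (r i : Fin m → ℝ) :
    ∏ j, (((r j : ℝ) : ℂ) + Complex.I * ((i j : ℝ) : ℂ)) =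
      ∑ t ∈ (univ : Finset (Fin m)).powerset, Complex.I ^ (univ \ t).card *
        ((∏ j, (if j ∈ t then r j else i j) : ℝ) : ℂ) := by
  rw [Finset.prod_add]
  refine sum_congr rfl fun t _ => ?_
  rw [prod_mul_distrib, prod_const, mul_left_comm]
  congr 1
  push_cast
  rw [← Finset.prod_sdiff (subset_univ t), mul_comm]
  congr 1
  · refine prod_congr rfl fun j hj => ?_
    rw [Finset.mem_sdiff] at hj
    simp [hj.2]
  · refine prod_congr rfl fun j hj => ?_
    simp [hj]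

/-- bounded measurable versions -/
theorem exists_version {X : Type u} [MeasurableSpace X] {μ : Measure X} {f : X → ℂ} (hf : AEStronglyMeasurable f μ)
    (hfb : ∃ C : ℝ, ∀ᵐ x ∂μ, ‖f x‖ ≤ C) : ∃ g : X → ℂ, Measurable g ∧ (∃ C : ℝ, ∀ x, ‖g x‖ ≤ C) ∧ f =ᵐ[μ] g := by
  obtain ⟨C, hC⟩ := hfb
  have hm : Measurable (hf.mk f) := hf.stronglyMeasurable_mk.measurable
  refine ⟨fun x => if ‖hf.mk f x‖ ≤ C then hf.mk f x else 0, ?_, ⟨max C 0, fun x => ?_⟩, ?_⟩
  · exact Measurable.ite (measurableSet_le hm.norm measurable_const) hm measurable_const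
  · dsimp only
    split_ifs with h
    · exact h.trans (le_max_left _ _)
    · simp
  · filter_upwards [hC, hf.ae_eq_mk] with x h1 h2
    rw [← h2, if_pos h1]

/-- from almost every dilation to almost every vector -/
theorem ae_of_dil {m d : ℕ} {Q : (Fin m → Fin d → ℝ) → Prop} (hQ : MeasurableSet {v | Q v})
    (h : ∀ v : Fin m → Fin d → ℝ, ∀ᵐ a : Fin m → ℝ, Q (fun j => a j • v j)) : ∀ᵐ v : Fin m → Fin d → ℝ, Q v := by
  have hmeas : Measurable fun q : (Fin m → ℝ) × (Fin m → Fin d → ℝ) => fun j => q.1 j • q.2 j := by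
    refine measurable_pi_lambda _ fun j => ?_
    exact ((measurable_pi_apply j).comp measurable_fst).smul ((measurable_pi_apply j).comp measurable_snd)
  have h1 : ∀ᵐ a : Fin m → ℝ, ∀ᵐ v : Fin m → Fin d → ℝ, Q (fun j => a j • v j) := by
    have h2 : ∀ᵐ v : Fin m → Fin d → ℝ, ∀ᵐ a : Fin m → ℝ, Q (fun j => a j • v j) := ae_of_all _ h
    have hset : MeasurableSet {q : (Fin m → Fin d → ℝ) × (Fin m → ℝ) | Q (fun j => q.2 j • q.1 j)} := 
      (hmeas.comp measurable_swap) hQ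
    exact (Measure.ae_ae_comm hset).mp h2
  have h0 : ∀ᵐ a : Fin m → ℝ, ∀ j, a j ≠ 0 := by
    rw [ae_all_iff]
    intro j
    have : ∀ᵐ t : ℝ, t ≠ 0 := by
      rw [ae_iff]; simp
    exact (Measure.quasiMeasurePreserving_eval (fun _ : Fin m => (volume : Measure ℝ)) j).ae this
  obtain ⟨a, ha1, ha0⟩ := (h1.and h0).exists
  -- the inverse dilation is linear and invertible
  let e : (Fin m → Fin d → ℝ) ≃ₗ[ℝ] (Fin m → Fin d → ℝ) :=
    LinearEquiv.piCongrRight fun j => LinearEquiv.smulOfNeZero ℝ (Fin d → ℝ) (a j)⁻¹ (inv_ne_zero (ha0 j))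
  have hdet : LinearMap.det (e : (Fin m → Fin d → ℝ) →ₗ[ℝ] (Fin m → Fin d → ℝ)) ≠ 0 :=
    (LinearEquiv.isUnit_det' e).ne_zero
  have hqmp := Measure.LinearMap.quasiMeasurePreserving (μ := (volume : Measure (Fin m → Fin d → ℝ)))
    (e : (Fin m → Fin d → ℝ) →ₗ[ℝ] (Fin m → Fin d → ℝ)) hdet
  have h3 := hqmp.ae ha1
  filter_upwards [h3] with v hv
  have e1 : (fun j => a j • ((e : (Fin m → Fin d → ℝ) →ₗ[ℝ] (Fin m → Fin d → ℝ)) v) j) = v := by
    funext j
    have : ((e : (Fin m → Fin d → ℝ) →ₗ[ℝ] (Fin m → Fin d → ℝ)) v) j = (a j)⁻¹ • v j := rfl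
    rw [this, smul_smul, mul_inv_cancel₀ (ha0 j), one_smul]
  rwa [e1] at hv

end Pool.Agent.W5h67.NF
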