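import Pool.Agent.W5h67.NF.Tree
import Pool.Agent.W5h67.NF.Sup

/-!
Words in noncommuting flows at generic times: almost every parameter, polynomials with any leading coefficients.
-/

set_option autoImplicit false

namespace Pool.Agent.W5h67.NF

open MeasureTheory Filter Finset
open Pool.Agent.Y957.MC (IsFlow flowInv smo)

universe u

section ac

theorem ac_lam {A : ℝ} (hA : 0 < A) : volume.restrict (Set.Ioc (-A) A) ≪ lam (4 * A) := by
  refine Measure.AbsolutelyContinuous.mk fun s hs h0 => ?_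
  have hf : BM (s.indicator fun _ : ℝ => (1 : ℝ)) := by
    refine ⟨measurable_const.indicator hs, 1, fun x => ?_⟩
    by_cases hx : x ∈ s
    · simp [hx]
    · simp [hx]
  have h1 := lam_lower hA hf fun x => Set.indicator_nonneg (fun _ _ => zero_le_one) x
  rw [intervalIntegral.integral_of_le (by linarith)] at h1
  have e1 : ∀ m : Measure ℝ, ∫ x, s.indicator (fun _ => (1 : ℝ)) x ∂m = m.real s := fun m => integral_indicator_one hs
  rw [e1, e1] at h1
  have h2 : (lam (4 * A)).real s = 0 := by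
    rw [measureReal_def, h0]
    rfl
  rw [h2, mul_zero] at h1
  have h3 : (volume.restrict (Set.Ioc (-A) A)).real s = 0 := le_antisymm h1 measureReal_nonneg
  rw [measureReal_def, ENNReal.toReal_eq_zero_iff] at h3
  rcases h3 with h3 | h3
  · exact h3
  · exact absurd h3 (measure_ne_top _ _)

theorem ac_pi {μ ν : Measure ℝ} [SigmaFinite μ] [SigmaFinite ν] (h : μ ≪ ν) (d : ℕ) :
    Measure.pi (fun _ : Fin d => μ) ≪ Measure.pi (fun _ : Fin d => ν) := by
  induction d with
  | zero =>
    rw [Measure.pi_of_empty, Measure.pi_of_empty]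
  | succ d ih =>
    have h1 := (measurePreserving_piFinSuccAbove (fun _ : Fin (d + 1) => μ) 0).symm
    have h2 := (measurePreserving_piFinSuccAbove (fun _ : Fin (d + 1) => ν) 0).symm
    rw [← h1.map_eq, ← h2.map_eq]
    exact (h.prod ih).map (MeasurableEquiv.measurable _)

theorem ae_cubes {d : ℕ} {Q : (Fin d → ℝ) → Prop}
    (h : ∀ B : ℝ, 0 < B → ∀ᵐ a ∂(Measure.pi fun _ : Fin d => lam B), Q a) : ∀ᵐ a : Fin d → ℝ, Q a := by
  have h1 : ∀ K : ℕ, ∀ᵐ a : Fin d → ℝ, a ∈ Set.pi Set.univ (fun _ : Fin d => Set.Ioc (-((K : ℝ) + 1)) ((K : ℝ) + 1)) → Q a := by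
    intro K
    have hK : (0 : ℝ) < (K : ℝ) + 1 := by positivity
    have h2 := (ac_pi (ac_lam hK) d).ae_le (h (4 * ((K : ℝ) + 1)) (by positivity))
    rw [← Measure.restrict_pi_pi] at h2
    rw [← ae_restrict_iff' (MeasurableSet.univ_pi fun _ => measurableSet_Ioc)]
    exact h2
  rw [← ae_all_iff] at h1
  filter_upwards [h1] with a ha
  obtain ⟨K, hK⟩ := exists_nat_gt (∑ i, |a i|)
  refine ha K fun i _ => ?_
  have h3 : |a i| ≤ ∑ i, |a i| := single_le_sum (f := fun i => |a i|) (fun _ _ => abs_nonneg _) (mem_univ i)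
  have h4 := abs_le.1 (h3.trans hK.le)
  constructor <;> linarith [h4.1, h4.2]

/-- from the laws of the parameters to almost every parameter -/
theorem ae_all {X : Type u} [MeasurableSpace X] {μ : Measure X} [IsProbabilityMeasure μ] {d : ℕ}
    {Q : (Fin d → ℝ) × X → Prop}
    (h : ∀ B : ℝ, 0 < B → ∀ᵐ z ∂((Measure.pi fun _ : Fin d => lam B).prod μ), Q z) :
    ∀ᵐ a : Fin d → ℝ, ∀ᵐ x ∂μ, Q (a, x) :=
  ae_cubes fun B hB => Measure.ae_ae_of_ae_prod (h B hB)

end ac

section tk

variable {X : Type u} [MeasurableSpace X] {μ : Measure X} {ι : Type} [Fintype ι] [DecidableEq ι]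

/-- the limit: at each level the functions of identical words are multiplied, and then averaged along the flow -/
noncomputable def TK (μ : Measure X) : (d : ℕ) → (Fin d → ι → ℝ → X → X) → (Fin d → ι → ι) → (Fin d → ι → Prop) →
    (ι → X → ℝ) → X → ℝ
  | 0, _, _, _, f => fun x => ∏ j, f j x
  | d + 1, τ, κ, act, f => open Classical in TK μ d (fun i => τ i.succ) (fun i => κ i.succ) (fun i => act i.succ)
      (fun j => if κ 0 j = j ∧ act 0 j then ce μ (τ 0 j) (mrg (κ 0) f j) else mrg (κ 0) f j)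

theorem TK_bm [IsProbabilityMeasure μ] {d : ℕ} {τ : Fin d → ι → ℝ → X → X} {κ : Fin d → ι → ι} {act : Fin d → ι → Prop} {f : ι → X → ℝ}
    (hf : ∀ j, BM (f j)) : BM (TK μ d τ κ act f) := by
  induction d generalizing f with
  | zero => exact BM.prod _ fun j _ => hf j
  | succ d ih =>
    refine ih fun j => ?_
    split_ifs
    · exact ce_bm _
    · exact mrg_bm _ hf j

theorem TK_congr {d : ℕ} {τ τ' : Fin d → ι → ℝ → X → X} {κ : Fin d → ι → ι} {act : Fin d → ι → Prop}
    (h : ∀ i j f, ce μ (τ i j) f = ce μ (τ' i j) f) (f : ι → X → ℝ) : TK μ d τ κ act f = TK μ d τ' κ act f := by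
  induction d generalizing f with
  | zero => rfl
  | succ d ih =>
    unfold TK
    rw [ih (fun i j f => h i.succ j f)]
    simp only [h 0]

variable [IsProbabilityMeasure μ] {B : ℝ}

/-- several words, forming a tree -/
theorem treeK (hB : 0 < B) {d : ℕ} {τ : Fin d → ι → ℝ → X → X} (hτ : ∀ i j, IsFlow μ (τ i j))
    {p : Fin d → ι → ℕ → ℝ} {act : Fin d → ι → Prop} {q : Fin d → ι → ℕ} {κ : Fin d → ι → ι}
    (hp : ∀ i j, act i j → Tmc (p i j)) (hp' : ∀ i j, ¬ act i j → ∀ n, p i j n = 0)
    (hκ : ∀ i j, κ i (κ i j) = κ i j) (hκ2 : ∀ i j l, i ≤ l → τ l (κ i j) = τ l j ∧ p l (κ i j) = p l j)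
    (hq : ∀ i j j', act i j → act i j' → q i j = q i j' → κ i j = κ i j')
    (hsub : ∀ i j j', act i j → act i j' → q i j < q i j' → Sub (p i j) (p i j')) :
    LimJ μ (Measure.pi fun _ : Fin d => lam B) (fun j => gw (fun i => τ i j) (fun i => p i j)) (TK μ d τ κ act) := by
  classical
  induction d with
  | zero => exact limJ_zero
  | succ d ih =>
    have h := ih (fun i => hτ i.succ) (p := fun i => p i.succ) (act := fun i => act i.succ)
      (q := fun i => q i.succ) (κ := fun i => κ i.succ) (fun i => hp i.succ) (fun i => hp' i.succ)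
      (fun i => hκ i.succ) (fun i j l hl => hκ2 i.succ j l.succ (Fin.succ_le_succ_iff.2 hl))
      (fun i => hq i.succ) (fun i => hsub i.succ)
    have hf : ∀ j, Fam μ (gw (fun i : Fin d => τ i.succ j) (fun i => p i.succ j)) :=
      fun j => fam_gw (fun i => hτ i.succ j) (fun i => p i.succ j)
    choose D hD hL using fun j => (show ∃ D, Peel μ (Measure.pi fun _ : Fin d => lam B)
        (gw (fun i : Fin d => τ i.succ j) (fun i => p i.succ j)) D ∧
        Lim μ (Measure.pi fun _ : Fin d => lam B) (gw (fun i : Fin d => τ i.succ j) (fun i => p i.succ j))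
          (iE μ d (fun i => τ i.succ j) (fun i => act i.succ j)) from by
      obtain ⟨⟨D, hD⟩, hL⟩ := single hB (fun i => hτ i.succ j) (p := fun i => p i.succ j)
        (act := fun i : Fin d => act i.succ j) (fun i => hp i.succ j) (fun i => hp' i.succ j)
      exact ⟨D, hD, hL⟩)
    have h2 := (limJ_succ hB hf hD hL (fun j => hτ 0 j) (q := q 0) (κ := κ 0) (hκ 0)
      (fun j n r x => by
        have e1 : ∀ l, τ l (κ 0 j) = τ l j := fun l => (hκ2 0 j l (Fin.zero_le l)).1
        have e2 : ∀ l, p l (κ 0 j) = p l j := fun l => (hκ2 0 j l (Fin.zero_le l)).2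
        simp only [e1, e2])
      (univ.filter fun j => κ 0 j = j ∧ act 0 j)
      (p := p 0) (fun j hj => hp 0 j (by simpa using (mem_filter.1 hj).2.2))
      (fun j hj1 hj => hp' 0 j (fun hj2 => hj (mem_filter.2 ⟨mem_univ _, hj1, hj2⟩)))
      (fun j hj j' hj' hjj => by
        obtain ⟨_, h1, h2⟩ := mem_filter.1 hj
        obtain ⟨_, h3, h4⟩ := mem_filter.1 hj'
        rw [← h1, ← h3]
        exact hq 0 j j' h2 h4 hjj)
      (fun j hj j' hj' => hsub 0 j j' (mem_filter.1 hj).2.2 (mem_filter.1 hj').2.2) h).comp (mp_tail B d)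
    have e : (fun f : ι → X → ℝ => TK μ d (fun i => τ i.succ) (fun i => κ i.succ) (fun i => act i.succ)
        (fun j => if j ∈ (univ.filter fun j => κ 0 j = j ∧ act 0 j) then ce μ (τ 0 j) (mrg (κ 0) f j)
          else mrg (κ 0) f j)) = TK μ (d + 1) τ κ act := by
      funext f
      conv_rhs => unfold TK
      congr 1
      funext j
      simp only [mem_filter, mem_univ, true_and]
    rw [e] at h2
    exact h2

end tk

section sign

variable {X : Type u} [MeasurableSpace X] {μ : Measure X} {τ : ℝ → X → X} {P : Polynomial ℝ}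

/-- the flow, reversed if the leading coefficient is negative -/
noncomputable def fl (τ : ℝ → X → X) (P : Polynomial ℝ) : ℝ → X → X := open Classical in
  if P.leadingCoeff < 0 then fun t => τ (-t) else τ

/-- the polynomial with the positive leading coefficient -/
noncomputable def ab (P : Polynomial ℝ) : Polynomial ℝ := open Classical in if P.leadingCoeff < 0 then -P else P

theorem fl_flow (hτ : IsFlow μ τ) (P : Polynomial ℝ) : IsFlow μ (fl τ P) := by
  unfold fl
  split_ifs
  · exact isFlow_neg hτ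
  · exact hτ

theorem fl_ce (τ : ℝ → X → X) (P : Polynomial ℝ) (f : X → ℝ) : ce μ (fl τ P) f = ce μ τ f := by
  unfold fl
  split_ifs
  · funext x
    unfold ce
    rw [flowInv_neg]
  · rfl

omit [MeasurableSpace X] in
theorem fl_ab (τ : ℝ → X → X) (P : Polynomial ℝ) (a t : ℝ) : fl τ P (a * (ab P).eval t) = τ (a * P.eval t) := by
  unfold fl ab
  split_ifs
  · simp only [Polynomial.eval_neg, mul_neg, neg_neg]
  · rfl

theorem ab_deg (P : Polynomial ℝ) : (ab P).natDegree = P.natDegree := by
  unfold ab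
  split_ifs
  · exact Polynomial.natDegree_neg P
  · rfl

theorem ab_lead (h : 0 < P.natDegree) : 0 < (ab P).leadingCoeff := by
  have h0 : P.leadingCoeff ≠ 0 := by
    rw [Polynomial.leadingCoeff_ne_zero]
    rintro rfl
    simp at h
  unfold ab
  split_ifs with h1
  · rw [Polynomial.leadingCoeff_neg]
    linarith
  · exact lt_of_le_of_ne (not_lt.1 h1) h0.symm

end sign

section poly

variable {X : Type u} [MeasurableSpace X] {μ : Measure X} [IsProbabilityMeasure μ] {ι : Type} [Fintype ι]
  [DecidableEq ι] {d : ℕ} {τ : Fin d → ι → ℝ → X → X} {P : Fin d → ι → Polynomial ℝ} {B : ℝ}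

omit [MeasurableSpace X] [Fintype ι] [DecidableEq ι] in
/-- a word which agrees with the word `j` from the level `i` on -/
noncomputable def rpr (τ : Fin d → ι → ℝ → X → X) (P : Fin d → ι → Polynomial ℝ) (i : Fin d) (j : ι) : ι :=
  @Classical.epsilon ι ⟨j⟩ (fun j' => ∀ l, i ≤ l → τ l j = τ l j' ∧ P l j = P l j')

omit [MeasurableSpace X] [Fintype ι] [DecidableEq ι] in
theorem rpr_spec (i : Fin d) (j : ι) : ∀ l, i ≤ l → τ l j = τ l (rpr τ P i j) ∧ P l j = P l (rpr τ P i j) :=
  @Classical.epsilon_spec ι (fun j' => ∀ l, i ≤ l → τ l j = τ l j' ∧ P l j = P l j') ⟨j, fun _ _ => ⟨rfl, rfl⟩⟩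

omit [MeasurableSpace X] [Fintype ι] [DecidableEq ι] in
theorem rpr_eq {i : Fin d} {j j' : ι} (h : ∀ l, i ≤ l → τ l j = τ l j' ∧ P l j = P l j') :
    rpr τ P i j = rpr τ P i j' := by
  unfold rpr
  congr 1
  funext k
  refine propext ⟨fun h' l hl => ?_, fun h' l hl => ?_⟩
  · rw [← (h l hl).1, ← (h l hl).2]
    exact h' l hl
  · rw [(h l hl).1, (h l hl).2]
    exact h' l hl

/-- the levels where the word moves -/
def ac (P : Fin d → ι → Polynomial ℝ) (i : Fin d) (j : ι) : Prop := 0 < (P i j).natDegree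

/-- real functions, one-sided averages -/
theorem real_tree (hB : 0 < B) (hτ : ∀ i j, IsFlow μ (τ i j)) (hP : ∀ i j, P i j = 0 ∨ 0 < (P i j).natDegree)
    (hT : ∀ i j j', 0 < (P i j).natDegree → (P i j).natDegree = (P i j').natDegree →
      ∀ l, i ≤ l → τ l j = τ l j' ∧ P l j = P l j') :
    LimJ μ (Measure.pi fun _ : Fin d => lam B)
      (fun j n a x => wd d (fun i => τ i j) (fun i => a i * (P i j).eval (n : ℝ)) x)
      (TK μ d τ (rpr τ P) (ac P)) := by
  have h := treeK (μ := μ) hB (τ := fun i j => fl (τ i j) (P i j)) (fun i j => fl_flow (hτ i j) _)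
    (p := fun i j n => (ab (P i j)).eval (n : ℝ)) (act := ac P) (q := fun i j => (P i j).natDegree)
    (κ := rpr τ P)
    (fun i j h => poly_tmc (by rw [ab_deg]; exact h) (ab_lead h))
    (fun i j h n => by
      have h0 : P i j = 0 := (hP i j).resolve_right h
      rw [h0]
      unfold ab
      simp)
    (fun i j => (rpr_eq (rpr_spec i j)).symm)
    (fun i j l hl => by
      have h1 := rpr_spec (τ := τ) (P := P) i j l hl
      simp only [← h1.1, ← h1.2, and_self])
    (fun i j j' h1 h2 h3 => rpr_eq (hT i j j' h1 h3))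
    (fun i j j' h1 h2 h3 => poly_sub (by rw [ab_deg, ab_deg]; exact h3) (ab_lead h2))
  have e1 : TK μ d (fun i j => fl (τ i j) (P i j)) (rpr τ P) (ac P) = TK μ d τ (rpr τ P) (ac P) := by
    funext f
    exact TK_congr (fun i j f => fl_ce _ _ f) f
  have e2 : (fun (j : ι) => gw (fun i => fl (τ i j) (P i j)) (fun i n => (ab (P i j)).eval (n : ℝ))) =
      fun (j : ι) (n : ℕ) (a : Fin d → ℝ) (x : X) => wd d (fun i => τ i j) (fun i => a i * (P i j).eval (n : ℝ)) x := by
    funext j n a x
    have key : ∀ (d : ℕ) (τ : Fin d → ℝ → X → X) (P : Fin d → Polynomial ℝ) (a : Fin d → ℝ) (x : X),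
        wd d (fun i => fl (τ i) (P i)) (fun i => a i * (ab (P i)).eval (n : ℝ)) x =
          wd d τ (fun i => a i * (P i).eval (n : ℝ)) x := by
      intro d
      induction d with
      | zero => intro _ _ _ _; rfl
      | succ d ih =>
        intro τ P a x
        show fl (τ 0) (P 0) (a 0 * (ab (P 0)).eval (n : ℝ)) (wd d _ _ x) = τ 0 (a 0 * (P 0).eval (n : ℝ)) (wd d _ _ x)
        rw [fl_ab, ih (fun i => τ i.succ) (fun i => P i.succ) (fun i => a i.succ) x]
    exact key d (fun i => τ i j) (fun i => P i j) a x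
  rw [e1, e2] at h
  exact h

end poly

end Pool.Agent.W5h67.NF
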