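import Pool.Agent.W5h67.NF.Fin1

/-!
Words in noncommuting flows at generic times: complex functions, two-sided averages, essentially bounded functions.
-/

set_option autoImplicit false

namespace Pool.Agent.W5h67.NF

open MeasureTheory Filter Finset
open Pool.Agent.Y957.MC (IsFlow flowInv smo)

universe u

section cx

variable {X : Type u} [MeasurableSpace X] {μ : Measure X} [IsProbabilityMeasure μ] {Ω : Type*} [MeasurableSpace Ω]
  {ν : Measure Ω} [IsProbabilityMeasure ν] {m : ℕ} {g : Fin m → ℕ → Ω → X → X} {TT : (Fin m → X → ℝ) → X → ℝ}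
  {f : Fin m → X → ℂ}

/-- real and imaginary parts -/
noncomputable def part (f : Fin m → X → ℂ) (t : Finset (Fin m)) (j : Fin m) (x : X) : ℝ :=
  if j ∈ t then (f j x).re else (f j x).im

/-- the complex form of a real multilinear operator -/
noncomputable def cxT (TT : (Fin m → X → ℝ) → X → ℝ) (f : Fin m → X → ℂ) (x : X) : ℂ :=
  ∑ t ∈ (univ : Finset (Fin m)).powerset, Complex.I ^ (univ \ t).card * ((TT (part f t) x : ℝ) : ℂ)

theorem part_bm (hf : ∀ j, Measurable (f j)) (hb : ∀ j, ∃ C : ℝ, ∀ x, ‖f j x‖ ≤ C) (t : Finset (Fin m)) (j : Fin m) :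
    BM (part f t j) := by
  obtain ⟨C, hC⟩ := hb j
  unfold part
  by_cases h : j ∈ t
  · simp only [if_pos h]
    exact ⟨Complex.measurable_re.comp (hf j), C, fun x => (Complex.abs_re_le_norm _).trans (hC x)⟩
  · simp only [if_neg h]
    exact ⟨Complex.measurable_im.comp (hf j), C, fun x => (Complex.abs_im_le_norm _).trans (hC x)⟩

omit [MeasurableSpace X] in
theorem prod_part (f : Fin m → X → ℂ) (y : Fin m → X) : ∏ j, f j (y j) =
    ∑ t ∈ (univ : Finset (Fin m)).powerset, Complex.I ^ (univ \ t).card * ((∏ j, part f t j (y j) : ℝ) : ℂ) := by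
  unfold part
  rw [← prod_expand]
  refine prod_congr rfl fun j _ => ?_
  rw [mul_comm]
  exact (Complex.re_add_im _).symm

theorem cxT_meas (hT : ∀ f, (∀ j, BM (f j)) → BM (TT f)) (hf : ∀ j, Measurable (f j))
    (hb : ∀ j, ∃ C : ℝ, ∀ x, ‖f j x‖ ≤ C) : Measurable (cxT TT f) ∧ ∃ C : ℝ, ∀ x, ‖cxT TT f x‖ ≤ C := by
  have h1 : ∀ t, BM (TT (part f t)) := fun t => hT _ fun j => part_bm hf hb t j
  refine ⟨Finset.measurable_sum _ fun t _ => measurable_const.mul (Complex.measurable_ofReal.comp (h1 t).1), ?_⟩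
  refine ⟨∑ t ∈ (univ : Finset (Fin m)).powerset, bd (TT (part f t)), fun x => (norm_sum_le _ _).trans ?_⟩
  refine sum_le_sum fun t _ => ?_
  rw [norm_mul, norm_pow, Complex.norm_I, one_pow, one_mul, Complex.norm_real]
  exact bd_le (h1 t) x

theorem cx_lim (h : LimJ μ ν g TT) {W : ℕ → X → ℂ} (hWm : ∀ n, Measurable (W n)) (hWb : ∃ C : ℝ, ∀ n x, ‖W n x‖ ≤ C)
    (hf : ∀ j, Measurable (f j)) (hb : ∀ j, ∃ C : ℝ, ∀ x, ‖f j x‖ ≤ C) :
    ∀ᵐ z ∂(ν.prod μ), Tendsto (fun N : ℕ => (1 / (N : ℂ)) * ∑ n ∈ Icc 1 N, W n z.2 *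
      (∏ j, f j (g j n z.1 z.2) - cxT TT f z.2)) atTop (nhds 0) := by
  obtain ⟨C, hC⟩ := hWb
  have h1 : ∀ᵐ z ∂(ν.prod μ), ∀ t : Finset (Fin m), Tendsto (fun N : ℕ => (1 / (N : ℝ)) * ∑ n ∈ Icc 1 N,
      (W n z.2).re * (∏ j, part f t j (g j n z.1 z.2) - TT (part f t) z.2)) atTop (nhds 0) := by
    rw [ae_all_iff]
    intro t
    exact h (fun n x => (W n x).re) (fun n => Complex.measurable_re.comp (hWm n))
      ⟨C, fun n x => (Complex.abs_re_le_norm _).trans (hC n x)⟩ (part f t) (part_bm hf hb t)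
  have h2 : ∀ᵐ z ∂(ν.prod μ), ∀ t : Finset (Fin m), Tendsto (fun N : ℕ => (1 / (N : ℝ)) * ∑ n ∈ Icc 1 N,
      (W n z.2).im * (∏ j, part f t j (g j n z.1 z.2) - TT (part f t) z.2)) atTop (nhds 0) := by
    rw [ae_all_iff]
    intro t
    exact h (fun n x => (W n x).im) (fun n => Complex.measurable_im.comp (hWm n))
      ⟨C, fun n x => (Complex.abs_im_le_norm _).trans (hC n x)⟩ (part f t) (part_bm hf hb t)
  filter_upwards [h1, h2] with z hz1 hz2
  have h3 : Tendsto (fun N : ℕ => ∑ t ∈ (univ : Finset (Fin m)).powerset, Complex.I ^ (univ \ t).card *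
      ((((1 / (N : ℝ)) * ∑ n ∈ Icc 1 N,
        (W n z.2).re * (∏ j, part f t j (g j n z.1 z.2) - TT (part f t) z.2) : ℝ) : ℂ) + Complex.I *
      (((1 / (N : ℝ)) * ∑ n ∈ Icc 1 N,
        (W n z.2).im * (∏ j, part f t j (g j n z.1 z.2) - TT (part f t) z.2) : ℝ) : ℂ))) atTop
      (nhds (∑ t ∈ (univ : Finset (Fin m)).powerset, Complex.I ^ (univ \ t).card *
        (((0 : ℝ) : ℂ) + Complex.I * ((0 : ℝ) : ℂ)))) := by
    refine tendsto_finsetSum _ fun t _ => Tendsto.const_mul _ ?_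
    exact ((Complex.continuous_ofReal.tendsto _).comp (hz1 t)).add
      (((Complex.continuous_ofReal.tendsto _).comp (hz2 t)).const_mul _)
  have h4 : (∑ t ∈ (univ : Finset (Fin m)).powerset, Complex.I ^ (univ \ t).card *
        (((0 : ℝ) : ℂ) + Complex.I * ((0 : ℝ) : ℂ))) = 0 := by simp
  rw [h4] at h3
  refine h3.congr fun N => ?_
  have e1 : ∀ n, W n z.2 * (∏ j, f j (g j n z.1 z.2) - cxT TT f z.2) =
      ∑ t ∈ (univ : Finset (Fin m)).powerset, Complex.I ^ (univ \ t).card *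
        ((((W n z.2).re * (∏ j, part f t j (g j n z.1 z.2) - TT (part f t) z.2) : ℝ) : ℂ) + Complex.I *
          (((W n z.2).im * (∏ j, part f t j (g j n z.1 z.2) - TT (part f t) z.2) : ℝ) : ℂ)) := by
    intro n
    rw [prod_part f (fun j => g j n z.1 z.2)]
    unfold cxT
    rw [← sum_sub_distrib, mul_sum]
    refine sum_congr rfl fun t _ => ?_
    conv_lhs => rw [← Complex.re_add_im (W n z.2)]
    push_cast
    ring
  simp only [e1]
  rw [sum_comm, mul_sum]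
  refine sum_congr rfl fun t _ => ?_
  rw [← mul_sum, mul_left_comm]
  congr 1
  rw [sum_add_distrib, ← mul_sum, mul_add]
  push_cast
  ring

end cx

/-- two-sided averages -/
theorem two_sided {φ : ℤ → ℂ} (h1 : Tendsto (fun N : ℕ => (1 / (N : ℂ)) * ∑ n ∈ Icc 1 N, φ (n : ℤ)) atTop (nhds 0))
    (h2 : Tendsto (fun N : ℕ => (1 / (N : ℂ)) * ∑ n ∈ Icc 1 N, φ (-(n : ℤ))) atTop (nhds 0)) :
    Tendsto (fun N : ℕ => (1 / (2 * (N : ℂ) + 1)) * ∑ n ∈ Icc (-(N : ℤ)) N, φ n) atTop (nhds 0) := by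
  have e1 : ∀ N : ℕ, ∑ n ∈ Icc (-(N : ℤ)) N, φ n = φ 0 + ∑ n ∈ Icc 1 N, φ (n : ℤ) + ∑ n ∈ Icc 1 N, φ (-(n : ℤ)) := by
    intro N
    induction N with
    | zero => simp
    | succ N ih =>
      have hI : Icc (-((N + 1 : ℕ) : ℤ)) ((N + 1 : ℕ) : ℤ) =
          insert (-((N + 1 : ℕ) : ℤ)) (insert ((N + 1 : ℕ) : ℤ) (Icc (-(N : ℤ)) N)) := by
        ext z
        simp only [mem_Icc, mem_insert]
        push_cast
        omega
      rw [hI, sum_insert, sum_insert, ih, sum_Icc_succ_top (by omega), sum_Icc_succ_top (by omega)]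
      · ring
      · simp only [mem_Icc]; push_cast; omega
      · simp only [mem_Icc, mem_insert]; push_cast; omega
  have e4 : ∀ N : ℕ, (1 / (2 * (N : ℂ) + 1)) * ∑ n ∈ Icc (-(N : ℤ)) N, φ n =
      φ 0 * (1 / (2 * (N : ℂ) + 1)) + ((N : ℂ) / (2 * (N : ℂ) + 1)) *
        ((1 / (N : ℂ)) * ∑ n ∈ Icc 1 N, φ (n : ℤ) + (1 / (N : ℂ)) * ∑ n ∈ Icc 1 N, φ (-(n : ℤ))) := by
    intro N
    rw [e1]
    rcases Nat.eq_zero_or_pos N with rfl | hN
    · simp
    · have hN' : (N : ℂ) ≠ 0 := by exact_mod_cast hN.ne'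
      field_simp
      ring
  have h5 : Tendsto (fun N : ℕ => (1 / (2 * (N : ℂ) + 1))) atTop (nhds 0) := by
    have : Tendsto (fun N : ℕ => (((1 / (2 * (N : ℝ) + 1)) : ℝ) : ℂ)) atTop (nhds ((0 : ℝ) : ℂ)) := by
      refine (Complex.continuous_ofReal.tendsto _).comp ?_
      refine Tendsto.div_atTop tendsto_const_nhds ?_
      exact tendsto_atTop_add_const_right _ _ (Tendsto.const_mul_atTop (by norm_num) tendsto_natCast_atTop_atTop)
    simpa using this
  have h6 : Tendsto (fun N : ℕ => ((N : ℂ) / (2 * (N : ℂ) + 1))) atTop (nhds (1 / 2)) := by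
    have e : (fun N : ℕ => ((N : ℂ) / (2 * (N : ℂ) + 1))) = fun N : ℕ => 1 / 2 - 1 / 2 * (1 / (2 * (N : ℂ) + 1)) := by
      funext N
      have : (2 * (N : ℂ) + 1) ≠ 0 := by
        have : ((2 * (N : ℝ) + 1 : ℝ) : ℂ) ≠ 0 := by
          exact_mod_cast (by positivity : (2 * (N : ℝ) + 1) ≠ 0)
        simpa using this
      rw [div_eq_iff this, sub_mul, mul_assoc (1 / 2 : ℂ) (1 / (2 * (N : ℂ) + 1)), one_div_mul_cancel this]
      ring
    rw [e]
    have := (h5.const_mul (1 / 2 : ℂ)).const_sub (1 / 2 : ℂ)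
    simpa using this
  have h7 := (h5.const_mul (φ 0)).add (h6.mul (h1.add h2))
  have e5 : φ 0 * 0 + 1 / 2 * (0 + 0 : ℂ) = 0 := by ring
  rw [e5] at h7
  refine h7.congr fun N => ?_
  exact (e4 N).symm

section poly

variable {X : Type u} [MeasurableSpace X] {μ : Measure X} [IsProbabilityMeasure μ] {m d : ℕ}
  {τ : Fin d → Fin m → ℝ → X → X} {P : Fin d → Fin m → Polynomial ℝ} {f : Fin m → X → ℂ}

/-- the limit -/
noncomputable def Lf (μ : Measure X) (τ : Fin d → Fin m → ℝ → X → X) (P : Fin d → Fin m → Polynomial ℝ)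
    (f : Fin m → X → ℂ) : X → ℂ := cxT (TK μ d τ (rpr τ P) (ac P)) f

theorem deg_neg (P : Polynomial ℝ) : (P.comp (-Polynomial.X)).natDegree = P.natDegree := by
  rw [Polynomial.natDegree_comp, Polynomial.natDegree_neg, Polynomial.natDegree_X, mul_one]

theorem comp_neg (P : Polynomial ℝ) : (P.comp (-Polynomial.X)).comp (-Polynomial.X) = P := by
  rw [Polynomial.comp_assoc]
  simp

theorem Lf_neg : Lf μ τ (fun i j => (P i j).comp (-Polynomial.X)) f = Lf μ τ P f := by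
  unfold Lf
  have e1 : rpr τ (fun i j => (P i j).comp (-Polynomial.X)) = rpr τ P := by
    funext i j
    unfold rpr
    congr 1
    funext j'
    refine propext ⟨fun h l hl => ⟨(h l hl).1, ?_⟩, fun h l hl => ⟨(h l hl).1, ?_⟩⟩
    · have h2 : (P l j).comp (-Polynomial.X) = (P l j').comp (-Polynomial.X) := (h l hl).2
      rw [← comp_neg (P l j), h2, comp_neg]
    · show (P l j).comp (-Polynomial.X) = (P l j').comp (-Polynomial.X)
      rw [(h l hl).2]
  have e2 : ac (fun i j => (P i j).comp (-Polynomial.X)) = ac P := by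
    funext i j
    unfold ac
    rw [deg_neg]
  rw [e1, e2]

theorem one_cx (hτ : ∀ i j, IsFlow μ (τ i j)) (hP : ∀ i j, P i j = 0 ∨ 0 < (P i j).natDegree)
    (hT : ∀ i j j', 0 < (P i j).natDegree → (P i j).natDegree = (P i j').natDegree →
      ∀ l, i ≤ l → τ l j = τ l j' ∧ P l j = P l j')
    {W : ℕ → X → ℂ} (hWm : ∀ n, Measurable (W n)) (hWb : ∃ C : ℝ, ∀ n x, ‖W n x‖ ≤ C)
    (hf : ∀ j, Measurable (f j)) (hb : ∀ j, ∃ C : ℝ, ∀ x, ‖f j x‖ ≤ C) :
    ∀ᵐ a : Fin d → ℝ, ∀ᵐ x ∂μ, Tendsto (fun N : ℕ => (1 / (N : ℂ)) * ∑ n ∈ Icc 1 N, W n x *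
      (∏ j, f j (wd d (fun i => τ i j) (fun i => a i * (P i j).eval (n : ℝ)) x) - Lf μ τ P f x)) atTop (nhds 0) :=
  ae_all fun _ hB => cx_lim (real_tree hB hτ hP hT) hWm hWb hf hb

theorem two_cx (hτ : ∀ i j, IsFlow μ (τ i j)) (hP : ∀ i j, P i j = 0 ∨ 0 < (P i j).natDegree)
    (hT : ∀ i j j', 0 < (P i j).natDegree → (P i j).natDegree = (P i j').natDegree →
      ∀ l, i ≤ l → τ l j = τ l j' ∧ P l j = P l j')
    {W : ℤ → X → ℂ} (hWm : ∀ n, Measurable (W n)) (hWb : ∃ C : ℝ, ∀ n x, ‖W n x‖ ≤ C)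
    (hf : ∀ j, Measurable (f j)) (hb : ∀ j, ∃ C : ℝ, ∀ x, ‖f j x‖ ≤ C) :
    ∀ᵐ a : Fin d → ℝ, ∀ᵐ x ∂μ, Tendsto (fun N : ℕ => (1 / (2 * (N : ℂ) + 1)) * ∑ n ∈ Icc (-(N : ℤ)) N, W n x *
      (∏ j, f j (wd d (fun i => τ i j) (fun i => a i * (P i j).eval (n : ℝ)) x) - Lf μ τ P f x)) atTop (nhds 0) := by
  obtain ⟨C, hC⟩ := hWb
  have h1 := one_cx hτ hP hT (W := fun n => W n) (fun n => hWm n) ⟨C, fun n x => hC n x⟩ hf hb
  have h2 := one_cx (P := fun i j => (P i j).comp (-Polynomial.X)) hτ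
    (fun i j => (hP i j).imp (fun h => by rw [h, Polynomial.zero_comp]) (fun h => by rw [deg_neg]; exact h))
    (fun i j j' h3 h4 l hl => by
      rw [deg_neg] at h3
      rw [deg_neg, deg_neg] at h4
      have h5 := hT i j j' h3 h4 l hl
      exact ⟨h5.1, by rw [h5.2]⟩)
    (W := fun n => W (-(n : ℤ))) (fun n => hWm _) ⟨C, fun n x => hC _ x⟩ hf hb
  rw [Lf_neg] at h2
  filter_upwards [h1, h2] with a ha1 ha2
  filter_upwards [ha1, ha2] with x hx1 hx2
  refine two_sided (φ := fun n => W n x *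
    (∏ j, f j (wd d (fun i => τ i j) (fun i => a i * (P i j).eval (n : ℝ)) x) - Lf μ τ P f x)) ?_ ?_
  · simpa only [Int.cast_natCast] using hx1
  · refine hx2.congr fun N => ?_
    simp only [Polynomial.eval_comp, Polynomial.eval_neg, Polynomial.eval_X, Int.cast_neg, Int.cast_natCast]

end poly

section ess

variable {X : Type u} [MeasurableSpace X] {μ : Measure X}

theorem wd_mp {d : ℕ} {τ : Fin d → ℝ → X → X} (hτ : ∀ i, IsFlow μ (τ i)) (t : Fin d → ℝ) :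
    MeasurePreserving (wd d τ t) μ μ := by
  induction d with
  | zero => exact MeasurePreserving.id μ
  | succ d ih => exact ((hτ 0).mp _).comp (ih (fun i => hτ i.succ) (fun i => t i.succ))

variable [IsProbabilityMeasure μ] {m d : ℕ}
  {τ : Fin d → Fin m → ℝ → X → X} {P : Fin d → Fin m → Polynomial ℝ} {f : Fin m → X → ℂ}

/-- essentially bounded functions and weights -/
theorem two_ess (hτ : ∀ i j, IsFlow μ (τ i j)) (hP : ∀ i j, P i j = 0 ∨ 0 < (P i j).natDegree)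
    (hT : ∀ i j j', 0 < (P i j).natDegree → (P i j).natDegree = (P i j').natDegree →
      ∀ l, i ≤ l → τ l j = τ l j' ∧ P l j = P l j')
    (hf : ∀ j, AEStronglyMeasurable (f j) μ) (hb : ∀ j, ∃ C : ℝ, ∀ᵐ x ∂μ, ‖f j x‖ ≤ C) :
    ∃ g : Fin m → X → ℂ, (∀ j, Measurable (g j)) ∧ (∀ j, ∃ C : ℝ, ∀ x, ‖g j x‖ ≤ C) ∧ (∀ j, f j =ᵐ[μ] g j) ∧
    ∀ W : ℤ → X → ℂ, (∀ n, AEStronglyMeasurable (W n) μ) → (∃ C : ℝ, ∀ n, ∀ᵐ x ∂μ, ‖W n x‖ ≤ C) →
    ∀ᵐ a : Fin d → ℝ, ∀ᵐ x ∂μ, Tendsto (fun N : ℕ => (1 / (2 * (N : ℂ) + 1)) * ∑ n ∈ Icc (-(N : ℤ)) N, W n x *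
      (∏ j, f j (wd d (fun i => τ i j) (fun i => a i * (P i j).eval (n : ℝ)) x) - Lf μ τ P g x)) atTop (nhds 0) := by
  choose g hgm hgb hfg using fun j => exists_version (hf j) (hb j)
  refine ⟨g, hgm, hgb, hfg, fun W hWm hWb => ?_⟩
  obtain ⟨C, hC⟩ := hWb
  set V : ℤ → X → ℂ := fun n x => if ‖(hWm n).mk (W n) x‖ ≤ C then (hWm n).mk (W n) x else 0 with hV
  have hVm : ∀ n, Measurable (V n) := by
    intro n
    have hm : Measurable ((hWm n).mk (W n)) := (hWm n).stronglyMeasurable_mk.measurable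
    exact Measurable.ite (measurableSet_le hm.norm measurable_const) hm measurable_const
  have hVb : ∀ n x, ‖V n x‖ ≤ max C 0 := by
    intro n x
    simp only [hV]
    split_ifs with h
    · exact h.trans (le_max_left _ _)
    · simp
  have hWV : ∀ᵐ x ∂μ, ∀ n, W n x = V n x := by
    rw [ae_all_iff]
    intro n
    filter_upwards [hC n, (hWm n).ae_eq_mk] with x h1 h2
    simp only [hV]
    rw [← h2, if_pos h1]
  have h1 := two_cx hτ hP hT (W := V) hVm ⟨_, hVb⟩ hgm hgb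
  filter_upwards [h1] with a ha
  have h3 : ∀ᵐ x ∂μ, ∀ (n : ℤ) (j : Fin m),
      f j (wd d (fun i => τ i j) (fun i => a i * (P i j).eval (n : ℝ)) x) =
      g j (wd d (fun i => τ i j) (fun i => a i * (P i j).eval (n : ℝ)) x) := by
    rw [ae_all_iff]
    intro n
    rw [ae_all_iff]
    intro j
    exact (wd_mp (fun i => hτ i j) _).quasiMeasurePreserving.ae (hfg j)
  filter_upwards [ha, h3, hWV] with x hx hx3 hx4
  simpa only [hx3, hx4] using hx

end ess

end Pool.Agent.W5h67.NF
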