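import Pool.Agent.W5h67.NF.Fin2

/-!
Words in noncommuting flows at generic times: the limit for distinct degrees.
-/

set_option autoImplicit false

namespace Pool.Agent.W5h67.NF

open MeasureTheory Filter Finset
open Pool.Agent.Y957.MC (IsFlow flowInv smo)

universe u

section iter

variable {X : Type u} [MeasurableSpace X] {μ : Measure X}

/-- iterated conditional expectations of complex functions -/
noncomputable def iC (μ : Measure X) : (d : ℕ) → (Fin d → ℝ → X → X) → (Fin d → Prop) → (X → ℂ) → X → ℂ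
  | 0, _, _, f => f
  | d + 1, τ, act, f => open Classical in
    iC μ d (fun i => τ i.succ) (fun i => act i.succ) (if act 0 then μ[f | flowInv (τ 0)] else f)

theorem iC_congr {d : ℕ} {τ : Fin d → ℝ → X → X} {act : Fin d → Prop} {f g : X → ℂ} (h : f =ᵐ[μ] g) :
    iC μ d τ act f =ᵐ[μ] iC μ d τ act g := by
  induction d generalizing f g with
  | zero => exact h
  | succ d ih =>
    refine ih ?_
    split_ifs
    · exact condExp_congr_ae h
    · exact h

variable [IsProbabilityMeasure μ]

theorem iE_bm {d : ℕ} {τ : Fin d → ℝ → X → X} {act : Fin d → Prop} {f : X → ℝ} (hf : BM f) :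
    BM (iE μ d τ act f) := by
  induction d generalizing f with
  | zero => exact hf
  | succ d ih =>
    refine ih ?_
    split_ifs
    · exact ce_bm _
    · exact hf

theorem iC_eq {d : ℕ} {τ : Fin d → ℝ → X → X} {act : Fin d → Prop} {f : X → ℂ} (hf : Measurable f)
    (hb : ∃ C : ℝ, ∀ x, ‖f x‖ ≤ C) : iC μ d τ act f =ᵐ[μ] fun x =>
      ((iE μ d τ act (fun y => (f y).re) x : ℝ) : ℂ) + Complex.I * ((iE μ d τ act (fun y => (f y).im) x : ℝ) : ℂ) := by
  induction d generalizing f with
  | zero =>
    filter_upwards with x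
    show f x = (((f x).re : ℝ) : ℂ) + Complex.I * (((f x).im : ℝ) : ℂ)
    rw [mul_comm]
    exact (Complex.re_add_im _).symm
  | succ d ih =>
    obtain ⟨C, hC⟩ := hb
    have hre : BM (fun y => (f y).re) :=
      ⟨Complex.measurable_re.comp hf, C, fun x => (Complex.abs_re_le_norm _).trans (hC x)⟩
    have him : BM (fun y => (f y).im) :=
      ⟨Complex.measurable_im.comp hf, C, fun x => (Complex.abs_im_le_norm _).trans (hC x)⟩
    by_cases h0 : act 0
    · set h : X → ℂ := fun x => ((ce μ (τ 0) (fun y => (f y).re) x : ℝ) : ℂ) +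
        Complex.I * ((ce μ (τ 0) (fun y => (f y).im) x : ℝ) : ℂ) with hh
      have e1 : μ[f | flowInv (τ 0)] =ᵐ[μ] h := by
        have hint : Integrable f μ := Integrable.of_bound hf.aestronglyMeasurable C (ae_of_all _ hC)
        filter_upwards [condExp_re_im (m := flowInv (τ 0)) hint, ce_ae (μ := μ) (τ := τ 0) hre,
          ce_ae (μ := μ) (τ := τ 0) him] with x h1 h2 h3
        simp only [hh]
        rw [h1, h2, h3]
      have hb1 : BM (ce μ (τ 0) (fun y => (f y).re)) := ce_bm _
      have hb2 : BM (ce μ (τ 0) (fun y => (f y).im)) := ce_bm _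
      have hhm : Measurable h := (Complex.measurable_ofReal.comp hb1.1).add
        (measurable_const.mul (Complex.measurable_ofReal.comp hb2.1))
      have hhb : ∃ C : ℝ, ∀ x, ‖h x‖ ≤ C := by
        obtain ⟨_, C1, hC1⟩ := hb1
        obtain ⟨_, C2, hC2⟩ := hb2
        refine ⟨C1 + C2, fun x => (norm_add_le _ _).trans (add_le_add ?_ ?_)⟩
        · rw [Complex.norm_real]; exact hC1 x
        · rw [norm_mul, Complex.norm_I, one_mul, Complex.norm_real]; exact hC2 x
      have e2 := ih (τ := fun i => τ i.succ) (act := fun i => act i.succ) hhm hhb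
      have e3 : (fun y => (h y).re) = ce μ (τ 0) (fun y => (f y).re) := by
        funext y; simp [hh]
      have e4 : (fun y => (h y).im) = ce μ (τ 0) (fun y => (f y).im) := by
        funext y; simp [hh]
      rw [e3, e4] at e2
      have e5 : iC μ (d + 1) τ act f = iC μ d (fun i => τ i.succ) (fun i => act i.succ) (μ[f | flowInv (τ 0)]) := by
        conv_lhs => unfold iC
        rw [if_pos h0]
      rw [e5]
      refine (iC_congr e1).trans (e2.trans ?_)
      have e6 : ∀ g : X → ℝ, iE μ (d + 1) τ act g =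
          iE μ d (fun i => τ i.succ) (fun i => act i.succ) (ce μ (τ 0) g) := by
        intro g
        conv_lhs => unfold iE
        rw [if_pos h0]
      simp only [e6]
      exact EventuallyEq.rfl
    · have e5 : iC μ (d + 1) τ act f = iC μ d (fun i => τ i.succ) (fun i => act i.succ) f := by
        conv_lhs => unfold iC
        rw [if_neg h0]
      have e6 : ∀ g : X → ℝ, iE μ (d + 1) τ act g = iE μ d (fun i => τ i.succ) (fun i => act i.succ) g := by
        intro g
        conv_lhs => unfold iE
        rw [if_neg h0]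
      rw [e5]
      simp only [e6]
      exact ih hf ⟨C, hC⟩

variable {m d : ℕ} {τ : Fin d → Fin m → ℝ → X → X} {P : Fin d → Fin m → Polynomial ℝ}

/-- real functions, distinct degrees -/
theorem real_distinct {B : ℝ} (hB : 0 < B) (hτ : ∀ i j, IsFlow μ (τ i j))
    (hP : ∀ i j, P i j = 0 ∨ 0 < (P i j).natDegree)
    (hD : ∀ i j j', 0 < (P i j).natDegree → (P i j).natDegree = (P i j').natDegree → j = j') :
    LimW μ (Measure.pi fun _ : Fin d => lam B)
      (fun j n a x => wd d (fun i => τ i j) (fun i => a i * (P i j).eval (n : ℝ)) x)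
      (fun j => iE μ d (fun i => τ i j) (fun i => ac P i j)) := by
  have h := distinct (μ := μ) hB (τ := fun i j => fl (τ i j) (P i j)) (fun i j => fl_flow (hτ i j) _)
    (p := fun i j n => (ab (P i j)).eval (n : ℝ)) (act := ac P) (q := fun i j => (P i j).natDegree)
    (fun i j h => poly_tmc (by rw [ab_deg]; exact h) (ab_lead h))
    (fun i j h n => by
      have h0 : P i j = 0 := (hP i j).resolve_right h
      rw [h0]
      unfold ab
      simp)
    (fun i j j' h1 h2 h3 => hD i j j' h1 h3)
    (fun i j j' h1 h2 h3 => poly_sub (by rw [ab_deg, ab_deg]; exact h3) (ab_lead h2))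
  have e1 : (fun j : Fin m => iE μ d (fun i => fl (τ i j) (P i j)) (fun i => ac P i j)) =
      fun j => iE μ d (fun i => τ i j) (fun i => ac P i j) := by
    funext j f
    have key : ∀ (d : ℕ) (τ : Fin d → ℝ → X → X) (P : Fin d → Polynomial ℝ) (act : Fin d → Prop) (f : X → ℝ),
        iE μ d (fun i => fl (τ i) (P i)) act f = iE μ d τ act f := by
      intro d
      induction d with
      | zero => intro _ _ _ _; rfl
      | succ d ih =>
        intro τ P act f
        unfold iE
        rw [ih (fun i => τ i.succ) (fun i => P i.succ), fl_ce]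
    exact key d (fun i => τ i j) (fun i => P i j) _ f
  have e2 : (fun (j : Fin m) => gw (fun i => fl (τ i j) (P i j)) (fun i n => (ab (P i j)).eval (n : ℝ))) =
      fun (j : Fin m) (n : ℕ) (a : Fin d → ℝ) (x : X) =>
        wd d (fun i => τ i j) (fun i => a i * (P i j).eval (n : ℝ)) x := by
    funext j n a x
    have key : ∀ (d : ℕ) (τ : Fin d → ℝ → X → X) (P : Fin d → Polynomial ℝ) (a : Fin d → ℝ) (x : X),
        wd d (fun i => fl (τ i) (P i)) (fun i => a i * (ab (P i)).eval (n : ℝ)) x =
          wd d τ (fun i => a i * (P i).eval (n : ℝ)) x := by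
      intro d
      induction d with
      | zero => intro _ _ _ _; rfl
      | succ d ih =>
        intro τ P a x
        show fl (τ 0) (P 0) (a 0 * (ab (P 0)).eval (n : ℝ)) (wd d _ _ x) = τ 0 (a 0 * (P 0).eval (n : ℝ)) (wd d _ _ x)
        rw [fl_ab, ih (fun i => τ i.succ) (fun i => P i.succ) (fun i => a i.succ) x]
    exact key d (fun i => τ i j) (fun i => P i j) a x
  rw [e1, e2] at h
  exact h

/-- the two forms of the limit agree -/
theorem TK_eq (hτ : ∀ i j, IsFlow μ (τ i j)) (hP : ∀ i j, P i j = 0 ∨ 0 < (P i j).natDegree)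
    (hD : ∀ i j j', 0 < (P i j).natDegree → (P i j).natDegree = (P i j').natDegree → j = j')
    {f : Fin m → X → ℝ} (hf : ∀ j, BM (f j)) :
    TK μ d τ (rpr τ P) (ac P) f =ᵐ[μ] fun x => ∏ j, iE μ d (fun i => τ i j) (fun i => ac P i j) (f j) x := by
  have h1 := real_tree (μ := μ) one_pos hτ hP (fun i j j' h3 h4 l _ => by rw [hD i j j' h3 h4]; exact ⟨rfl, rfl⟩)
    (fun _ _ => 1) (fun _ => measurable_const) ⟨1, fun _ _ => by simp⟩ f hf
  have h2 := real_distinct (μ := μ) one_pos hτ hP hD
    (fun _ _ => 1) (fun _ => measurable_const) ⟨1, fun _ _ => by simp⟩ f hf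
  have h3 : ∀ᵐ z ∂((Measure.pi fun _ : Fin d => lam 1).prod μ),
      TK μ d τ (rpr τ P) (ac P) f z.2 = ∏ j, iE μ d (fun i => τ i j) (fun i => ac P i j) (f j) z.2 := by
    filter_upwards [h1, h2] with z hz1 hz2
    have h4 := hz1.sub hz2
    rw [sub_zero] at h4
    set c := ∏ j, iE μ d (fun i => τ i j) (fun i => ac P i j) (f j) z.2 - TK μ d τ (rpr τ P) (ac P) f z.2 with hc
    have h5 : Tendsto (fun _ : ℕ => c) atTop (nhds 0) := by
      refine h4.congr' ?_
      filter_upwards [eventually_ge_atTop 1] with N hN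
      have hN0 : (N : ℝ) ≠ 0 := by
        have : N ≠ 0 := by omega
        exact_mod_cast this
      rw [← mul_sub, ← sum_sub_distrib]
      have e : ∀ n ∈ Icc 1 N, (1 * (∏ j, f j (wd d (fun i => τ i j) (fun i => z.1 i * (P i j).eval ((n : ℕ) : ℝ)) z.2) -
          TK μ d τ (rpr τ P) (ac P) f z.2) -
          1 * (∏ j, f j (wd d (fun i => τ i j) (fun i => z.1 i * (P i j).eval ((n : ℕ) : ℝ)) z.2) -
          ∏ j, iE μ d (fun i => τ i j) (fun i => ac P i j) (f j) z.2)) = c := by
        intro n _
        rw [hc]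
        ring
      rw [sum_congr rfl e, sum_const, Nat.card_Icc, nsmul_eq_mul, Nat.add_sub_cancel]
      field_simp
    have h6 : c = 0 := tendsto_nhds_unique tendsto_const_nhds h5
    rw [hc] at h6
    linarith
  have h4 := Measure.ae_ae_of_ae_prod h3
  obtain ⟨a, ha⟩ := h4.exists
  exact ha

theorem Lf_eq (hτ : ∀ i j, IsFlow μ (τ i j)) (hP : ∀ i j, P i j = 0 ∨ 0 < (P i j).natDegree)
    (hD : ∀ i j j', 0 < (P i j).natDegree → (P i j).natDegree = (P i j').natDegree → j = j')
    {f g : Fin m → X → ℂ} (hg : ∀ j, Measurable (g j)) (hb : ∀ j, ∃ C : ℝ, ∀ x, ‖g j x‖ ≤ C)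
    (hfg : ∀ j, f j =ᵐ[μ] g j) :
    Lf μ τ P g =ᵐ[μ] fun x => ∏ j, iC μ d (fun i => τ i j) (fun i => 0 < (P i j).natDegree) (f j) x := by
  have h1 : ∀ᵐ x ∂μ, ∀ t : Finset (Fin m), TK μ d τ (rpr τ P) (ac P) (part g t) x =
      ∏ j, iE μ d (fun i => τ i j) (fun i => ac P i j) (part g t j) x := by
    rw [ae_all_iff]
    intro t
    exact TK_eq hτ hP hD (part_bm hg hb t)
  have h2 : ∀ᵐ x ∂μ, ∀ j, iC μ d (fun i => τ i j) (fun i => 0 < (P i j).natDegree) (f j) x =
      ((iE μ d (fun i => τ i j) (fun i => ac P i j) (fun y => (g j y).re) x : ℝ) : ℂ) +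
        Complex.I * ((iE μ d (fun i => τ i j) (fun i => ac P i j) (fun y => (g j y).im) x : ℝ) : ℂ) := by
    rw [ae_all_iff]
    intro j
    exact (iC_congr (hfg j)).trans (iC_eq (hg j) (hb j))
  filter_upwards [h1, h2] with x hx1 hx2
  simp only [hx2]
  rw [prod_expand]
  unfold Lf cxT
  refine sum_congr rfl fun t _ => ?_
  rw [hx1 t]
  congr 2
  refine prod_congr rfl fun j _ => ?_
  by_cases hj : j ∈ t
  · rw [if_pos hj]
    congr 1
    funext y
    simp only [part, if_pos hj]
  · rw [if_neg hj]
    congr 1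
    funext y
    simp only [part, if_neg hj]

end iter

end Pool.Agent.W5h67.NF
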