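import Pool.Agent.W5h67.NF.Peel
import Pool.Agent.W5h67.NF.Avg

/-!
Words in noncommuting flows at generic times: the mean square of the averages of one function along a word.
-/

set_option autoImplicit false

namespace Pool.Agent.W5h67.NF

open MeasureTheory Filter Finset
open Pool.Agent.Y957.MC (IsFlow flowInv smo)
open Pool.Agent.Y261.MC (harm_le sum_dist)

universe u

section one

variable {X : Type u} [MeasurableSpace X] {μ : Measure X} [IsProbabilityMeasure μ] {τ : ℝ → X → X} {B : ℝ}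

theorem one_flow (hB : 0 < B) (hτ : IsFlow μ τ) {p : ℕ → ℝ} {c₁ c₂ : ℝ} (hc : 0 < c₁) {s H : ℕ}
    (hinc : Inc p c₁ c₂ s (s + H)) {ψ : X → ℝ} (hψ : BM ψ) {Y η : ℝ}
    (hη : ∀ y, Y ≤ y → ∫ x, smo τ ψ y x ^ 2 ∂μ ≤ η) {D : ℕ} (hD : 1 ≤ D) (hY : Y ≤ B * (c₁ * D)) :
    ∫ a, ∫ x, (∑ r ∈ range H, ψ (τ (a * p (s + r)) x)) ^ 2 ∂μ ∂lam B ≤
      (H : ℝ) ^ 2 * η + 2 * D * H * ∫ x, ψ x ^ 2 ∂μ := by
  rw [expand (range H) hτ (F := fun _ => ψ) (fun _ => hψ) (fun r => p (s + r))]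
  set β := ∫ x, ψ x ^ 2 ∂μ with hβ
  have hβ0 : 0 ≤ β := integral_nonneg fun _ => sq_nonneg _
  have hη0 : 0 ≤ η := (integral_nonneg fun _ => sq_nonneg _).trans (hη Y le_rfl)
  have hD0 : (0 : ℝ) < D := by exact_mod_cast hD
  have hfar : ∀ i j : ℕ, i < H → j + D ≤ i → c₁ * D ≤ p (s + i) - p (s + j) := by
    intro i j hi hij
    have h1 := hinc.low (m := s + j) (n := s + i) (by omega) (by omega) (by omega)
    refine le_trans ?_ h1
    refine mul_le_mul_of_nonneg_left ?_ hc.le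
    push_cast
    have : (j : ℝ) + D ≤ i := by exact_mod_cast hij
    linarith
  have key : ∀ i ∈ range H, ∀ j ∈ range H, Phi B μ τ ψ ψ (p (s + i) - p (s + j)) ≤
      η + β * (if (i - j) + (j - i) < D then 1 else 0) := by
    intro i hi j hj
    rw [mem_range] at hi hj
    by_cases h1 : (i - j) + (j - i) < D
    · rw [if_pos h1, mul_one]
      have := (abs_le.1 (Phi_le (B := B) hτ hψ hψ le_rfl le_rfl (p (s + i) - p (s + j)))).2
      linarith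
    · rw [if_neg h1, mul_zero, add_zero]
      have h2 : c₁ * D ≤ |p (s + i) - p (s + j)| := by
        rcases Nat.lt_or_ge j i with hij | hij
        · exact (hfar i j hi (by omega)).trans (le_abs_self _)
        · rw [abs_sub_comm]
          exact (hfar j i hj (by omega)).trans (le_abs_self _)
      rw [← Phi_abs hτ hψ hψ, Phi_self hB hτ hψ ((mul_pos hc hD0).trans_le h2)]
      exact hη _ (hY.trans (mul_le_mul_of_nonneg_left h2 hB.le))
  have h3 : ∀ i ∈ range H, ∑ j ∈ range H, Phi B μ τ ψ ψ (p (s + i) - p (s + j)) ≤ H * η + β * (2 * D) := by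
    intro i hi
    refine (sum_le_sum (key i hi)).trans ?_
    rw [sum_add_distrib, sum_const, card_range, nsmul_eq_mul, ← mul_sum]
    refine add_le_add le_rfl (mul_le_mul_of_nonneg_left ?_ hβ0)
    rw [mem_range] at hi
    have h4 := sum_dist (fun k => if k < D then (1 : ℝ) else 0) (fun k => by split_ifs <;> norm_num) (range H)
      (H - 1) i (fun m hm => by rw [mem_range] at hm; omega) (by omega)
    refine h4.trans ?_
    refine mul_le_mul_of_nonneg_left ?_ (by norm_num)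
    rw [sum_boole]
    have : ((range (H - 1 + 1)).filter (fun k => k < D)).card ≤ (range D).card := by
      refine card_le_card fun k hk => ?_
      rw [mem_filter] at hk
      exact mem_range.2 hk.2
    rw [card_range] at this
    exact_mod_cast this
  refine (sum_le_sum h3).trans (le_of_eq ?_)
  rw [sum_const, card_range, nsmul_eq_mul]
  ring

end one

section main

variable {X : Type u} [MeasurableSpace X] {Ω : Type*} [MeasurableSpace Ω]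
variable {μ : Measure X} [IsProbabilityMeasure μ] {ν : Measure Ω} [IsProbabilityMeasure ν]
  {g : ℕ → Ω → X → X} {d : ℕ} {τ : ℝ → X → X} {p : ℕ → ℝ} {B : ℝ}

/-- the peeling inequality with one more flow, before this flow is peeled off -/
theorem peel_out {ε : ℝ} {C : ℝ} {N : ℕ} (hg : Fam μ g)
    (hN : ∀ s H R : ℕ, 1 ≤ H → 1 ≤ R → ε * N ≤ s →
      s + H * R ^ d ≤ N + 1 → ∀ (F : ℕ → X → ℝ) (b : ℝ), (∀ n, BM (F n)) → (∀ n, ∫ x, F n x ^ 2 ∂μ ≤ b) →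
      ∫ ω, ∫ x, (∑ r ∈ range (H * R ^ d), F (s + r) (g (s + r) ω x)) ^ 2 ∂μ ∂ν ≤
        C * ((R : ℝ) ^ d * ∑ j ∈ range (R ^ d), ∫ x, (∑ r ∈ range H, F (s + j * H + r) x) ^ 2 ∂μ +
          b * (H * R ^ d) ^ 2 / Real.sqrt R))
    (hτ : IsFlow μ τ) {s H R : ℕ} (hH : 1 ≤ H) (hR : 1 ≤ R) (hs : ε * N ≤ s) (hsN : s + H * R ^ d ≤ N + 1)
    {F : ℕ → X → ℝ} {b : ℝ} (hF : ∀ n, BM (F n)) (hb : ∀ n, ∫ x, F n x ^ 2 ∂μ ≤ b) :
    ∫ q : ℝ × Ω, ∫ x, (∑ r ∈ range (H * R ^ d), F (s + r) (τ (q.1 * p (s + r)) (g (s + r) q.2 x))) ^ 2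
      ∂μ ∂((lam B).prod ν) ≤
      C * ((R : ℝ) ^ d * ∑ j ∈ range (R ^ d),
        ∫ a, ∫ x, (∑ r ∈ range H, F (s + j * H + r) (τ (a * p (s + j * H + r)) x)) ^ 2 ∂μ ∂lam B +
          b * (H * R ^ d) ^ 2 / Real.sqrt R) := by
  set G : ℝ → ℕ → X → ℝ := fun a n x => F n (τ (a * p n) x) with hG
  have hGm : ∀ a n, BM (G a n) := fun a n => (hF n).comp (hτ.mp _).measurable
  have hGb : ∀ a n, ∫ x, G a n x ^ 2 ∂μ ≤ b := fun a n => by
    have := mp_int (hτ.mp (a * p n)) (f := fun x => F n x ^ 2) (hF n).sq.1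
    simp only [hG]
    rw [this]
    exact hb n
  have h1 : ∀ a : ℝ, ∫ ω, ∫ x, (∑ r ∈ range (H * R ^ d), F (s + r) (τ (a * p (s + r)) (g (s + r) ω x))) ^ 2
      ∂μ ∂ν ≤ C * ((R : ℝ) ^ d * ∑ j ∈ range (R ^ d),
        ∫ x, (∑ r ∈ range H, F (s + j * H + r) (τ (a * p (s + j * H + r)) x)) ^ 2 ∂μ +
          b * (H * R ^ d) ^ 2 / Real.sqrt R) := fun a =>
    hN s H R hH hR hs hsN (G a) b (hGm a) (hGb a)
  have hmL : BM (fun q : (ℝ × Ω) × X => (∑ r ∈ range (H * R ^ d),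
      F (s + r) (τ (q.1.1 * p (s + r)) (g (s + r) q.1.2 q.2))) ^ 2) :=
    (BM.sum _ fun r _ => (hF _).comp ((fam_succ hg hτ (p := p)).meas (s + r))).sq
  have hmL2 : BM (fun q : ℝ × Ω => ∫ x, (∑ r ∈ range (H * R ^ d),
      F (s + r) (τ (q.1 * p (s + r)) (g (s + r) q.2 x))) ^ 2 ∂μ) :=
    BM.integral (f := fun (q : ℝ × Ω) x => (∑ r ∈ range (H * R ^ d),
      F (s + r) (τ (q.1 * p (s + r)) (g (s + r) q.2 x))) ^ 2) hmL μ
  have hmL3 : BM (fun a : ℝ => ∫ ω, ∫ x, (∑ r ∈ range (H * R ^ d),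
      F (s + r) (τ (a * p (s + r)) (g (s + r) ω x))) ^ 2 ∂μ ∂ν) :=
    BM.integral (f := fun (a : ℝ) ω => ∫ x, (∑ r ∈ range (H * R ^ d),
      F (s + r) (τ (a * p (s + r)) (g (s + r) ω x))) ^ 2 ∂μ) hmL2 ν
  have hmj : ∀ j, BM (fun q : ℝ × X => (∑ r ∈ range H,
      F (s + j * H + r) (τ (q.1 * p (s + j * H + r)) q.2)) ^ 2) := fun j =>
    (BM.sum _ fun r _ => (hF _).comp (flow_meas hτ _)).sq
  have hmj2 : ∀ j, BM (fun a : ℝ => ∫ x, (∑ r ∈ range H,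
      F (s + j * H + r) (τ (a * p (s + j * H + r)) x)) ^ 2 ∂μ) := fun j =>
    BM.integral (f := fun (a : ℝ) x => (∑ r ∈ range H,
      F (s + j * H + r) (τ (a * p (s + j * H + r)) x)) ^ 2) (hmj j) μ
  have hmR : BM (fun a : ℝ => C * ((R : ℝ) ^ d * ∑ j ∈ range (R ^ d),
        ∫ x, (∑ r ∈ range H, F (s + j * H + r) (τ (a * p (s + j * H + r)) x)) ^ 2 ∂μ +
          b * (H * R ^ d) ^ 2 / Real.sqrt R)) :=
    (((BM.sum _ fun j _ => hmj2 j).smul _).add (BM.const _)).smul _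
  rw [integral_prod _ (hmL2.int _)]
  refine (integral_mono (hmL3.int _) (hmR.int _) h1).trans ?_
  rw [integral_const_mul, integral_add (((BM.sum _ fun j _ => hmj2 j).smul _).int _) ((BM.const _).int _),
    integral_const_mul, integral_finsetSum _ fun j _ => (hmj2 j).int _]
  simp only [integral_const, probReal_univ, one_smul]
  exact le_rfl

/-- the times: growth and regularity -/
structure Tm (p : ℕ → ℝ) : Prop where
  tends : Tendsto p atTop atTop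
  inc : ∀ ε : ℝ, 0 < ε → ∃ c : ℝ, 0 < c ∧ ∀ᶠ N : ℕ in atTop, ∀ n : ℕ, ε * N ≤ n → n ≤ N →
    c * p N ≤ p n ∧ c * p N / N ≤ p (n + 1) - p n ∧ p (n + 1) - p n ≤ p N / (c * N)

theorem Tm.incP (hp : Tm p) : IncP p := by
  intro ε hε
  obtain ⟨c, hc, hN⟩ := hp.inc ε hε
  refine ⟨max 1 (1 / c ^ 2), le_max_left _ _, ?_⟩
  filter_upwards [hN, hp.tends.eventually_gt_atTop 0, eventually_ge_atTop 1] with N hN hpN hN1
  have hN0 : (0 : ℝ) < N := by exact_mod_cast hN1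
  refine ⟨c * p N / N, by positivity, fun n h1 h2 => ⟨(hN n h1 h2).2.1, (hN n h1 h2).2.2.trans ?_⟩⟩
  have h3 : 1 / c ^ 2 * (c * p N / N) ≤ max 1 (1 / c ^ 2) * (c * p N / N) :=
    mul_le_mul_of_nonneg_right (le_max_right _ _) (by positivity)
  refine le_trans (le_of_eq ?_) h3
  field_simp

theorem ar1 {x : ℝ} (h : 1 ≤ x) : x ≤ x ^ 2 := by nlinarith

theorem ar2 {x : ℝ} (h : 2 ≤ x) : (4 : ℝ) ≤ x ^ 2 := by nlinarith

theorem ar3 {x : ℝ} (h : 1 ≤ x) : x ≤ x * x := by nlinarith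

theorem ar4 {r x N : ℝ} (h : (4 : ℝ) ≤ r) (h1 : 1 ≤ x) (h2 : r * (x * x) ≤ N) : 4 * x ≤ N := by
  have h3 : 4 * x ≤ r * (x * x) := mul_le_mul h (ar3 h1) (by linarith) (by linarith)
  exact h3.trans h2

theorem ar5 {ε N : ℝ} (h : ε ≤ 1 / 2) (hN : 0 ≤ N) : ε * N ≤ N / 2 := by
  have := mul_le_mul_of_nonneg_right h hN
  linarith

theorem ar6 {a b : ℝ} : (a + b) ^ 2 ≤ 2 * a ^ 2 + 2 * b ^ 2 := by nlinarith [sq_nonneg (a - b)]

theorem ar7 {y N : ℝ} (h : 1 ≤ y) (h1 : y * y ≤ N) : y ≤ N := (ar3 h).trans h1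

theorem ioc_range (f : ℕ → ℝ) (a N : ℕ) : ∑ n ∈ Ioc a N, f n = ∑ r ∈ range (N - a), f (a + 1 + r) := by
  have e : Ioc a N = Ico (a + 1) (N + 1) := by
    ext n
    simp only [mem_Ioc, mem_Ico]
    omega
  rw [e, sum_Ico_eq_sum_range]
  congr 2
  omega

theorem main (hB : 0 < B) (hg : Fam μ g) (hP : Peel μ ν g d) (hτ : IsFlow μ τ) (hp : Tm p) {ε : ℝ} (hε : 0 < ε)
    (hε1 : ε ≤ 1 / 2) :
    ∃ C : ℝ, 0 < C ∧ ∃ c' : ℝ, 0 < c' ∧ ∀ᶠ N : ℕ in atTop, ∀ R : ℕ, 1 ≤ R → R ^ (2 * (d + 1)) ≤ N →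
      ∀ (ψ : X → ℝ), BM ψ → ∀ (Y η : ℝ), (∀ y, Y ≤ y → ∫ x, smo τ ψ y x ^ 2 ∂μ ≤ η) →
        Y * (R : ℝ) ^ (d + 1) ≤ c' * p N →
        ∫ q : ℝ × Ω, ∫ x, ((1 / (N : ℝ)) * ∑ n ∈ Ioc ⌊ε * N⌋₊ N, ψ (τ (q.1 * p n) (g n q.2 x))) ^ 2
          ∂μ ∂((lam B).prod ν) ≤ C * (η + (∫ x, ψ x ^ 2 ∂μ) / Real.sqrt R) := by
  obtain ⟨C, hC, hPN⟩ := hP ε hε
  obtain ⟨c, hc, hN⟩ := hp.inc ε hε
  refine ⟨2 * (11 * C + 1), by positivity, B * c / 4, by positivity, ?_⟩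
  filter_upwards [hPN, hN, hp.tends.eventually_gt_atTop 0, eventually_ge_atTop 4] with N hPN hN hpN hN4 R hR hRN
    ψ hψ Y η hη hYR
  set β := ∫ x, ψ x ^ 2 ∂μ with hβd
  have hβ0 : 0 ≤ β := integral_nonneg fun _ => sq_nonneg _
  have hη0 : 0 ≤ η := (integral_nonneg fun _ => sq_nonneg _).trans (hη Y le_rfl)
  have hN0 : (0 : ℝ) < N := by have : 0 < N := by omega
                               exact_mod_cast this
  have hN4' : (4 : ℝ) ≤ N := by exact_mod_cast hN4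
  have hR0 : (0 : ℝ) < R := by exact_mod_cast hR
  have hR1 : (1 : ℝ) ≤ R := by exact_mod_cast hR
  have hRN' : (R : ℝ) ^ (2 * (d + 1)) ≤ N := by exact_mod_cast hRN
  have hRd0 : 0 < (R : ℝ) ^ d := by positivity
  have hRd1 : 1 ≤ (R : ℝ) ^ d := one_le_pow₀ hR1
  have hsR : 0 < Real.sqrt R := Real.sqrt_pos.2 hR0
  have hsR1 : 1 / (R : ℝ) ≤ 1 / Real.sqrt R := by
    rw [one_div_le_one_div hR0 hsR]
    rw [Real.sqrt_le_left hR0.le]
    exact ar1 hR1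
  -- 4 R^d ≤ N
  have h4R : 4 * (R : ℝ) ^ d ≤ N := by
    rcases Nat.lt_or_ge 1 R with h | h
    · have h2 : (2 : ℝ) ≤ R := by exact_mod_cast h
      have h3 : (R : ℝ) ^ (2 * (d + 1)) = (R : ℝ) ^ 2 * ((R : ℝ) ^ d * (R : ℝ) ^ d) := by ring
      rw [h3] at hRN'
      exact ar4 (ar2 h2) hRd1 hRN'
    · have h2 : R = 1 := by omega
      rw [h2]
      simpa using hN4'
  set m : ℕ := ⌊ε * N⌋₊ with hm
  have hmN : (m : ℝ) ≤ ε * N := Nat.floor_le (by positivity)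
  have hmN2 : ε * N < m + 1 := Nat.lt_floor_add_one _
  have hmN' : m ≤ N := by
    have : (m : ℝ) ≤ N := hmN.trans ((ar5 hε1 hN0.le).trans (by linarith))
    exact_mod_cast this
  set ℓ : ℕ := N - m with hℓ
  have hℓr : (ℓ : ℝ) = N - m := by rw [hℓ, Nat.cast_sub hmN']
  have hℓ2 : (N : ℝ) / 2 ≤ ℓ := by
    have := ar5 hε1 hN0.le
    rw [hℓr]
    linarith
  obtain ⟨H, hH⟩ : ∃ H : ℕ, H = ℓ / R ^ d := ⟨_, rfl⟩
  obtain ⟨e, he⟩ : ∃ e : ℕ, e = ℓ % R ^ d := ⟨_, rfl⟩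
  have hRdn : 0 < R ^ d := by positivity
  have hdm : H * R ^ d + e = ℓ := by rw [hH, he, Nat.mul_comm]; exact Nat.div_add_mod _ _
  have he1 : e < R ^ d := by rw [he]; exact Nat.mod_lt _ hRdn
  have hmHN : m + H * R ^ d ≤ N := by
    have h1 : H * R ^ d ≤ ℓ := by rw [← hdm]; exact Nat.le_add_right _ _
    have h2 : m + ℓ = N := by rw [hℓ]; exact Nat.add_sub_cancel' hmN'
    rw [← h2]
    exact Nat.add_le_add_left h1 m
  have hdmr : (H : ℝ) * (R : ℝ) ^ d + e = ℓ := by exact_mod_cast hdm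
  have he1r : (e : ℝ) ≤ (R : ℝ) ^ d := by exact_mod_cast he1.le
  have hHN : (N : ℝ) / (4 * (R : ℝ) ^ d) ≤ H := by
    rw [div_le_iff₀ (by positivity)]
    have : (H : ℝ) * (4 * (R : ℝ) ^ d) = 4 * ((H : ℝ) * (R : ℝ) ^ d) := by ring
    linarith
  have hH1 : 1 ≤ H := by
    have h1 : (1 : ℝ) ≤ H := le_trans (by rw [le_div_iff₀ (by positivity)]; linarith) hHN
    exact_mod_cast h1
  have hH0 : (0 : ℝ) < H := by exact_mod_cast hH1
  have hHRN : (H : ℝ) * (R : ℝ) ^ d ≤ N := by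
    have : (0 : ℝ) ≤ e := Nat.cast_nonneg _
    have h2 : (0 : ℝ) ≤ m := Nat.cast_nonneg _
    linarith
  -- the sums
  set f : ℝ × Ω → X → ℕ → ℝ := fun q x n => ψ (τ (q.1 * p n) (g n q.2 x)) with hf
  have hfm : ∀ n, BM (fun z : (ℝ × Ω) × X => f z.1 z.2 n) := fun n =>
    hψ.comp ((fam_succ hg hτ (p := p)).meas n)
  have hfsq : ∀ (q : ℝ × Ω) n, ∫ x, f q x n ^ 2 ∂μ = β := fun q n =>
    mp_int ((fam_succ hg hτ (p := p)).mp n q) (f := fun x => ψ x ^ 2) hψ.sq.1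
  have hfmq : ∀ (q : ℝ × Ω) n, BM (fun x => f q x n) := fun q n =>
    hψ.comp ((fam_succ hg hτ (p := p)).mp n q).measurable
  set S1 : ℝ × Ω → X → ℝ := fun q x => ∑ r ∈ range (H * R ^ d), f q x (m + 1 + r) with hS1
  set S2 : ℝ × Ω → X → ℝ := fun q x => ∑ r ∈ range e, f q x (m + 1 + H * R ^ d + r) with hS2
  have e1 : ∀ q x, ∑ n ∈ Ioc m N, ψ (τ (q.1 * p n) (g n q.2 x)) = S1 q x + S2 q x := by
    intro q x
    rw [ioc_range (fun n => ψ (τ (q.1 * p n) (g n q.2 x))) m N, ← hℓ, ← hdm, sum_range_add]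
    simp only [hS1, hS2, hf, add_assoc]
  have hS1m : BM (fun z : (ℝ × Ω) × X => S1 z.1 z.2) := BM.sum _ fun r _ => hfm _
  have hS2m : BM (fun z : (ℝ × Ω) × X => S2 z.1 z.2) := BM.sum _ fun r _ => hfm _
  have hS1q : ∀ q, BM (S1 q) := fun q => BM.sum _ fun r _ => hfmq q _
  have hS2q : ∀ q, BM (S2 q) := fun q => BM.sum _ fun r _ => hfmq q _
  have hI1 : BM (fun q => ∫ x, S1 q x ^ 2 ∂μ) := BM.integral (f := fun q x => S1 q x ^ 2) hS1m.sq μ
  have hI2 : BM (fun q => ∫ x, S2 q x ^ 2 ∂μ) := BM.integral (f := fun q x => S2 q x ^ 2) hS2m.sq μ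
  have e2 : ∀ q, ∫ x, ((1 / (N : ℝ)) * ∑ n ∈ Ioc m N, ψ (τ (q.1 * p n) (g n q.2 x))) ^ 2 ∂μ ≤
      2 / (N : ℝ) ^ 2 * ∫ x, S1 q x ^ 2 ∂μ + 2 / (N : ℝ) ^ 2 * ∫ x, S2 q x ^ 2 ∂μ := by
    intro q
    simp only [e1]
    rw [← integral_const_mul, ← integral_const_mul, ← integral_add (((hS1q q).sq.smul _).int μ)
      (((hS2q q).sq.smul _).int μ)]
    refine integral_mono ((((hS1q q).add (hS2q q)).smul _).sq.int μ)
      ((((hS1q q).sq.smul _).add ((hS2q q).sq.smul _)).int μ) fun x => ?_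
    have h1 : (1 / (N : ℝ) * (S1 q x + S2 q x)) ^ 2 = (S1 q x + S2 q x) ^ 2 / (N : ℝ) ^ 2 := by
      field_simp
    have h2 : 2 / (N : ℝ) ^ 2 * S1 q x ^ 2 + 2 / (N : ℝ) ^ 2 * S2 q x ^ 2 =
        (2 * S1 q x ^ 2 + 2 * S2 q x ^ 2) / (N : ℝ) ^ 2 := by ring
    simp only [h1, h2]
    refine div_le_div_of_nonneg_right ?_ (by positivity)
    exact ar6
  have hmT : BM (fun z : (ℝ × Ω) × X => ((1 / (N : ℝ)) * ∑ n ∈ Ioc m N, f z.1 z.2 n) ^ 2) :=
    ((BM.sum _ fun n _ => hfm n).smul _).sq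
  have hmT2 : BM (fun q : ℝ × Ω => ∫ x, ((1 / (N : ℝ)) * ∑ n ∈ Ioc m N, ψ (τ (q.1 * p n) (g n q.2 x))) ^ 2 ∂μ) :=
    BM.integral (f := fun (q : ℝ × Ω) x => ((1 / (N : ℝ)) * ∑ n ∈ Ioc m N, f q x n) ^ 2) hmT μ
  refine (integral_mono (hmT2.int _) (((hI1.smul _).add (hI2.smul _)).int _) e2).trans ?_
  rw [integral_add ((hI1.smul _).int _) ((hI2.smul _).int _), integral_const_mul, integral_const_mul]
  -- the second sum
  have hb2 : ∫ q, ∫ x, S2 q x ^ 2 ∂μ ∂((lam B).prod ν) ≤ (R : ℝ) ^ d * (R : ℝ) ^ d * β := by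
    have h1 : ∀ q, ∫ x, S2 q x ^ 2 ∂μ ≤ (R : ℝ) ^ d * (R : ℝ) ^ d * β := by
      intro q
      have h2 : ∀ x, S2 q x ^ 2 ≤ e * ∑ r ∈ range e, f q x (m + 1 + H * R ^ d + r) ^ 2 := fun x => by
        have := sq_sum_le_card_mul_sum_sq (s := range e) (f := fun r => f q x (m + 1 + H * R ^ d + r))
        rwa [card_range] at this
      refine (integral_mono ((hS2q q).sq.int μ) (((BM.sum _ fun r _ => (hfmq q _).sq).smul _).int μ) h2).trans ?_
      rw [integral_const_mul, integral_finsetSum _ fun r _ => (hfmq q _).sq.int μ]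
      simp only [hfsq, sum_const, card_range, nsmul_eq_mul]
      have h3 : (e : ℝ) * (e * β) = (e : ℝ) * e * β := by ring
      rw [h3]
      exact mul_le_mul_of_nonneg_right (mul_le_mul he1r he1r (Nat.cast_nonneg _) hRd0.le) hβ0
    refine (integral_mono (hI2.int _) ((BM.const _).int _) h1).trans (le_of_eq ?_)
    simp
  -- the first sum
  obtain ⟨D, hD⟩ : ∃ D : ℕ, D = H / R + 1 := ⟨_, rfl⟩
  have hD1 : (H : ℝ) / R ≤ D := by
    have h1 := Nat.lt_mul_div_succ H hR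
    rw [div_le_iff₀ hR0]
    have h2 : H ≤ D * R := by rw [hD, Nat.mul_comm]; exact h1.le
    exact_mod_cast h2
  have hD2 : (D : ℝ) ≤ (H : ℝ) / R + 1 := by
    rw [hD]
    push_cast
    have := Nat.cast_div_le (m := H) (n := R) (α := ℝ)
    linarith
  have hb1 : ∫ q, ∫ x, S1 q x ^ 2 ∂μ ∂((lam B).prod ν) ≤
      C * ((R : ℝ) ^ d * ((R : ℝ) ^ d * ((H : ℝ) ^ 2 * η + 2 * D * H * β)) + β * (H * R ^ d) ^ 2 / Real.sqrt R) := by
    have h1 := peel_out (B := B) (p := p) hg hPN hτ (s := m + 1) (H := H) (R := R) hH1 hR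
      (by push_cast; linarith) (by linarith [hmHN]) (F := fun _ => ψ) (b := β) (fun _ => hψ) (fun _ => le_rfl)
    refine h1.trans ?_
    refine mul_le_mul_of_nonneg_left (add_le_add (mul_le_mul_of_nonneg_left ?_ hRd0.le) le_rfl) hC.le
    have h2 : ∀ j ∈ range (R ^ d), ∫ a, ∫ x, (∑ r ∈ range H, ψ (τ (a * p (m + 1 + j * H + r)) x)) ^ 2 ∂μ ∂lam B ≤
        (H : ℝ) ^ 2 * η + 2 * D * H * β := by
      intro j hj
      rw [mem_range] at hj
      have h3 : (j + 1) * H ≤ H * R ^ d := by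
        rw [Nat.mul_comm H]
        exact Nat.mul_le_mul_right _ hj
      rw [Nat.add_mul, one_mul] at h3
      have hD0 : 1 ≤ D := by rw [hD]; exact Nat.le_add_left _ _
      refine one_flow hB hτ (c₁ := c * p N / N) (c₂ := p N / (c * N)) (by positivity) ?_ hψ hη hD0 ?_
      · intro n hn1 hn2
        refine (hN n ?_ (by linarith)).2
        have h4 : m + 1 ≤ n := (Nat.le_add_right _ _).trans hn1
        have h5 : ((m : ℝ) + 1) ≤ n := by exact_mod_cast h4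
        linarith
      · have h6 : Y ≤ (B * c / 4 * p N) / (R : ℝ) ^ (d + 1) := by
          rw [le_div_iff₀ (by positivity)]
          exact hYR
        refine h6.trans ?_
        have h7 : (N : ℝ) / (4 * (R : ℝ) ^ d) / R ≤ D :=
          (div_le_div_of_nonneg_right hHN hR0.le).trans hD1
        calc (B * c / 4 * p N) / (R : ℝ) ^ (d + 1) = B * (c * p N / N * ((N : ℝ) / (4 * (R : ℝ) ^ d) / R)) := by
              rw [pow_succ]
              field_simp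
          _ ≤ B * (c * p N / N * D) := by gcongr
    refine (sum_le_sum h2).trans (le_of_eq ?_)
    rw [sum_const, card_range, nsmul_eq_mul]
    push_cast
    ring
  have hc1 : (R : ℝ) ^ d * ((R : ℝ) ^ d * ((H : ℝ) ^ 2 * η + 2 * D * H * β)) + β * (H * R ^ d) ^ 2 / Real.sqrt R ≤
      (N : ℝ) ^ 2 * (11 * (η + β / Real.sqrt R)) := by
    have h1 : 2 * (D : ℝ) / H ≤ 10 / R := by
      have h2 : 1 / (H : ℝ) ≤ 4 / R := by
        rw [div_le_div_iff₀ hH0 hR0, one_mul]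
        have h3 : (R : ℝ) * (4 * (R : ℝ) ^ d) ≤ 4 * N := by
          have h4 : (R : ℝ) ^ (2 * (d + 1)) = ((R : ℝ) * (R : ℝ) ^ d) * ((R : ℝ) * (R : ℝ) ^ d) := by ring
          have h5 : (1 : ℝ) ≤ (R : ℝ) * (R : ℝ) ^ d := one_le_mul_of_one_le_of_one_le hR1 hRd1
          rw [h4] at hRN'
          have h6 := ar7 h5 hRN'
          have h7 : (R : ℝ) * (4 * (R : ℝ) ^ d) = 4 * ((R : ℝ) * (R : ℝ) ^ d) := by ring
          linarith
        have h6 : (R : ℝ) ≤ 4 * (N / (4 * (R : ℝ) ^ d)) := by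
          rw [← mul_div_assoc, le_div_iff₀ (by positivity)]
          exact h3
        linarith [mul_le_mul_of_nonneg_left hHN (by norm_num : (0 : ℝ) ≤ 4)]
      have h7 : 2 * (D : ℝ) / H ≤ 2 * ((H : ℝ) / R + 1) / H := by gcongr
      have h8 : 2 * ((H : ℝ) / R + 1) / H = 2 / R + 2 * (1 / H) := by field_simp
      have h9 : (2 : ℝ) / R + 2 * (4 / R) = 10 / R := by ring
      linarith
    have h2 : (R : ℝ) ^ d * ((R : ℝ) ^ d * ((H : ℝ) ^ 2 * η + 2 * D * H * β)) + β * (H * R ^ d) ^ 2 / Real.sqrt R =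
        ((H : ℝ) * (R : ℝ) ^ d) ^ 2 * (η + (2 * D / H) * β + β / Real.sqrt R) := by
      field_simp
    rw [h2]
    have h3 : (2 * D / H) * β ≤ 10 * (β / Real.sqrt R) := by
      calc (2 * D / H) * β ≤ 10 / R * β := mul_le_mul_of_nonneg_right h1 hβ0
        _ = 10 * (1 / R) * β := by ring
        _ ≤ 10 * (1 / Real.sqrt R) * β := by gcongr
        _ = _ := by ring
    have h4 : 0 ≤ β / Real.sqrt R := by positivity
    refine mul_le_mul (pow_le_pow_left₀ (by positivity) hHRN 2) (by linarith) (by positivity) (by positivity)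
  have hc2 : (R : ℝ) ^ d * (R : ℝ) ^ d * β ≤ (N : ℝ) ^ 2 * (β / Real.sqrt R) := by
    have h1 : (R : ℝ) ^ d * (R : ℝ) ^ d ≤ (N : ℝ) ^ 2 * (1 / R) := by
      rw [mul_one_div, le_div_iff₀ hR0]
      have h4 : (R : ℝ) ^ (2 * (d + 1)) = ((R : ℝ) ^ d * (R : ℝ) ^ d * R) * R := by ring
      have h5 : (R : ℝ) ^ d * (R : ℝ) ^ d * R ≤ N := by
        rw [h4] at hRN'
        have h6 : 0 ≤ (R : ℝ) ^ d * (R : ℝ) ^ d * R := by positivity
        exact (le_mul_of_one_le_right h6 hR1).trans hRN'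
      have h7 : (N : ℝ) ≤ (N : ℝ) ^ 2 := ar1 (by linarith)
      exact h5.trans h7
    calc (R : ℝ) ^ d * (R : ℝ) ^ d * β ≤ (N : ℝ) ^ 2 * (1 / R) * β := mul_le_mul_of_nonneg_right h1 hβ0
      _ ≤ (N : ℝ) ^ 2 * (1 / Real.sqrt R) * β := by gcongr
      _ = _ := by ring
  have hfin1 : 2 / (N : ℝ) ^ 2 * ∫ q, ∫ x, S1 q x ^ 2 ∂μ ∂((lam B).prod ν) ≤
      2 * (11 * C) * (η + β / Real.sqrt R) := by
    have h1 := hb1.trans (mul_le_mul_of_nonneg_left hc1 hC.le)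
    refine (mul_le_mul_of_nonneg_left h1 (by positivity)).trans (le_of_eq ?_)
    field_simp
  have hfin2 : 2 / (N : ℝ) ^ 2 * ∫ q, ∫ x, S2 q x ^ 2 ∂μ ∂((lam B).prod ν) ≤ 2 * (β / Real.sqrt R) := by
    have h1 := hb2.trans hc2
    refine (mul_le_mul_of_nonneg_left h1 (by positivity)).trans (le_of_eq ?_)
    field_simp
  have h5 : 2 * (11 * C + 1) * (η + β / Real.sqrt R) = 2 * (11 * C) * (η + β / Real.sqrt R) +
      2 * (β / Real.sqrt R) + 2 * η := by ring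
  linarith

end main

end Pool.Agent.W5h67.NF
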