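import Pool.Agent.W5h67.NF.Grp

/-!
Words in noncommuting flows at generic times: the limits depend measurably on the parameters.
-/

set_option autoImplicit false

namespace Pool.Agent.W5h67.NF

open MeasureTheory Filter Finset
open Pool.Agent.Y957.MC (IsFlow flowInv smo)
open Pool.Agent.Y48.MC (smo_meas flwb)

universe u v

section meas

variable {X : Type u} [MeasurableSpace X] {μ : Measure X} [IsProbabilityMeasure μ]
  {Ω V : Type} [MeasurableSpace Ω] [MeasurableSpace V]

theorem meas_ce {σ : ℝ → V → X → X} (hσm : Measurable fun q : ℝ × (V × X) => σ q.1 q.2.1 q.2.2)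
    (hσ : ∀ v, IsFlow μ (fun t => σ t v)) {h : Ω × X → ℝ} (hh : BM h) :
    ∃ H : (Ω × V) × X → ℝ, BM H ∧
      ∀ ω v, (fun x => H ((ω, v), x)) =ᵐ[μ] ce μ (fun t => σ t v) (fun x => h (ω, x)) := by
  obtain ⟨hm, C, hC⟩ := hh
  set σ' : ℝ → (Ω × V) × X → (Ω × V) × X := fun t y => (y.1, σ t y.1.2 y.2) with hσ'
  have hfl : IsFlow (0 : Measure ((Ω × V) × X)) σ' := by
    have h1 : Measurable fun q : ℝ × ((Ω × V) × X) => σ' q.1 q.2 := by
      refine Measurable.prodMk (measurable_fst.comp measurable_snd) ?_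
      exact hσm.comp (measurable_fst.prodMk ((measurable_snd.comp (measurable_fst.comp measurable_snd)).prodMk
        (measurable_snd.comp measurable_snd)))
    refine ⟨h1, fun y => ?_, fun s t y => ?_, fun t => ?_⟩
    · exact Prod.ext rfl ((hσ y.1.2).zero y.2)
    · exact Prod.ext rfl ((hσ y.1.2).add s t y.2)
    · exact ⟨h1.comp (measurable_const.prodMk measurable_id), Measure.map_zero _⟩
  set h' : (Ω × V) × X → ℝ := fun y => h (y.1.1, y.2) with hh'
  have hh'm : Measurable h' :=
    hm.comp ((measurable_fst.comp measurable_fst).prodMk measurable_snd)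
  have hsm : ∀ K : ℕ, Measurable (smo σ' h' ((2 : ℝ) ^ K)) := fun K => smo_meas hfl hh'm (by positivity)
  refine ⟨fun y => max (-C) (min C (limsup (fun K : ℕ => smo σ' h' ((2 : ℝ) ^ K) y) atTop)), ⟨?_, |C|, fun y => ?_⟩, ?_⟩
  · exact measurable_const.max (measurable_const.min (Measurable.limsup hsm))
  · rw [abs_le]
    rcases le_or_gt 0 C with h0 | h0
    · rw [abs_of_nonneg h0]
      exact ⟨le_max_left _ _, max_le (by linarith) (min_le_left _ _)⟩
    · rw [abs_of_neg h0]
      refine ⟨le_trans (by linarith) (le_max_left _ _), max_le le_rfl ((min_le_left _ _).trans (by linarith))⟩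
  · intro ω v
    have hf : BM (fun x => h (ω, x)) := ⟨hm.comp (measurable_const.prodMk measurable_id), C, fun x => hC _⟩
    have h1 := flwb X μ (fun t => σ t v) (fun x => h (ω, x)) (hσ v) hf.1 hf.2
    have h2 := ce_ae (μ := μ) (τ := fun t => σ t v) hf
    have h3 := ae_bdd_condExp_of_ae_bdd (m := flowInv (fun t => σ t v)) (μ := μ) (R := ⟨|C|, abs_nonneg C⟩)
      (f := fun x => h (ω, x)) (ae_of_all _ fun x => (hC _).trans (le_abs_self C))
    filter_upwards [h1, h2, h3] with x hx1 hx2 hx3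
    have h4 : Tendsto (fun k : ℕ => (2 : ℝ) ^ k) atTop atTop := tendsto_pow_atTop_atTop_of_one_lt (by norm_num)
    have h5 : Tendsto (fun K : ℕ => smo σ' h' ((2 : ℝ) ^ K) ((ω, v), x)) atTop
        (nhds ((μ[(fun x => h (ω, x)) | flowInv (fun t => σ t v)]) x)) := hx1.comp h4
    have hC0 : 0 ≤ C := (abs_nonneg _).trans (hC (ω, x))
    rw [hx2, h5.limsup_eq]
    have hx3' : |(μ[(fun x => h (ω, x)) | flowInv (fun t => σ t v)]) x| ≤ |C| := hx3
    rw [abs_of_nonneg hC0, abs_le] at hx3'
    rw [min_eq_right hx3'.2, max_eq_right hx3'.1]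

theorem iE_congr {d : ℕ} {τ : Fin d → ℝ → X → X} {act : Fin d → Prop} {f g : X → ℝ} (hf : BM f) (hg : BM g)
    (h : f =ᵐ[μ] g) : iE μ d τ act f =ᵐ[μ] iE μ d τ act g := by
  induction d generalizing f g with
  | zero => exact h
  | succ d ih =>
    by_cases h0 : act 0
    · have e6 : ∀ g : X → ℝ, iE μ (d + 1) τ act g =
          iE μ d (fun i => τ i.succ) (fun i => act i.succ) (ce μ (τ 0) g) := by
        intro g
        conv_lhs => unfold iE
        rw [if_pos h0]
      rw [e6, e6]
      exact ih (ce_bm _) (ce_bm _) ((ce_ae hf).trans ((condExp_congr_ae h).trans (ce_ae hg).symm))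
    · have e6 : ∀ g : X → ℝ, iE μ (d + 1) τ act g = iE μ d (fun i => τ i.succ) (fun i => act i.succ) g := by
        intro g
        conv_lhs => unfold iE
        rw [if_neg h0]
      rw [e6, e6]
      exact ih hf hg h

theorem meas_iE {d : ℕ} {σ : Fin d → ℝ → V → X → X}
    (hσm : ∀ i, Measurable fun q : ℝ × (V × X) => σ i q.1 q.2.1 q.2.2)
    (hσ : ∀ i v, IsFlow μ (fun t => σ i t v)) (act : Fin d → Prop) {Ω : Type} [MeasurableSpace Ω] {h : Ω × X → ℝ}
    (hh : BM h) : ∃ H : (Ω × (Fin d → V)) × X → ℝ, BM H ∧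
      ∀ ω v, (fun x => H ((ω, v), x)) =ᵐ[μ] iE μ d (fun i t => σ i t (v i)) act (fun x => h (ω, x)) := by
  induction d generalizing Ω with
  | zero =>
    refine ⟨fun y => h (y.1.1, y.2), hh.comp ((measurable_fst.comp measurable_fst).prodMk measurable_snd), ?_⟩
    intro ω v
    exact EventuallyEq.rfl
  | succ d ih =>
    have hsec : ∀ {Ω' : Type} [MeasurableSpace Ω'] {k : Ω' × X → ℝ} (_ : BM k) (ω : Ω'), BM (fun x => k (ω, x)) :=
      fun hk ω => hk.comp (measurable_const.prodMk measurable_id)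
    have hmap : Measurable fun y : (Ω × (Fin (d + 1) → V)) × X =>
        (((y.1.1, y.1.2 0), fun i : Fin d => y.1.2 i.succ), y.2) := by
      have h1 : Measurable fun y : (Ω × (Fin (d + 1) → V)) × X => y.1.2 := measurable_snd.comp measurable_fst
      refine Measurable.prodMk (Measurable.prodMk (Measurable.prodMk (measurable_fst.comp measurable_fst)
        ((measurable_pi_apply 0).comp h1)) ?_) measurable_snd
      exact measurable_pi_lambda _ fun i => (measurable_pi_apply i.succ).comp h1
    by_cases h0 : act 0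
    · obtain ⟨H₀, hH₀, hH₀e⟩ := meas_ce (μ := μ) (Ω := Ω) (V := V) (hσm 0) (hσ 0) hh
      obtain ⟨H₁, hH₁, hH₁e⟩ := ih (fun i => hσm i.succ) (fun i => hσ i.succ) (fun i => act i.succ) hH₀
      refine ⟨fun y => H₁ (((y.1.1, y.1.2 0), fun i : Fin d => y.1.2 i.succ), y.2), hH₁.comp hmap, fun ω v => ?_⟩
      have e6 : iE μ (d + 1) (fun i t => σ i t (v i)) act (fun x => h (ω, x)) =
          iE μ d (fun i t => σ i.succ t (v i.succ)) (fun i => act i.succ)
            (ce μ (fun t => σ 0 t (v 0)) (fun x => h (ω, x))) := by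
        conv_lhs => unfold iE
        rw [if_pos h0]
      rw [e6]
      refine (hH₁e (ω, v 0) (fun i => v i.succ)).trans ?_
      exact iE_congr (hsec hH₀ (ω, v 0)) (ce_bm _) (hH₀e ω (v 0))
    · have hh2 : BM (fun y : (Ω × V) × X => h (y.1.1, y.2)) :=
        hh.comp ((measurable_fst.comp measurable_fst).prodMk measurable_snd)
      obtain ⟨H₁, hH₁, hH₁e⟩ := ih (fun i => hσm i.succ) (fun i => hσ i.succ) (fun i => act i.succ) hh2
      refine ⟨fun y => H₁ (((y.1.1, y.1.2 0), fun i : Fin d => y.1.2 i.succ), y.2), hH₁.comp hmap, fun ω v => ?_⟩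
      have e6 : iE μ (d + 1) (fun i t => σ i t (v i)) act (fun x => h (ω, x)) =
          iE μ d (fun i t => σ i.succ t (v i.succ)) (fun i => act i.succ) (fun x => h (ω, x)) := by
        conv_lhs => unfold iE
        rw [if_neg h0]
      rw [e6]
      exact hH₁e (ω, v 0) (fun i => v i.succ)

end meas

section scale

variable {X : Type u} [MeasurableSpace X] {μ : Measure X}

theorem flowInv_scale (τ : ℝ → X → X) {a : ℝ} (ha : a ≠ 0) : flowInv (fun t => τ (t * a)) = flowInv τ := by
  unfold flowInv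
  exact (Equiv.mulRight₀ a ha).iInf_comp (g := fun t => MeasurableSpace.invariants (τ t))

theorem iC_scale {d : ℕ} (τ : Fin d → ℝ → X → X) {a : Fin d → ℝ} (ha : ∀ i, a i ≠ 0) (act : Fin d → Prop)
    (f : X → ℂ) : iC μ d (fun i t => τ i (t * a i)) act f = iC μ d τ act f := by
  induction d generalizing f with
  | zero => rfl
  | succ d ih =>
    unfold iC
    rw [ih (fun i => τ i.succ) (fun i => ha i.succ), flowInv_scale (τ 0) (ha 0)]

end scale

end Pool.Agent.W5h67.NF
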