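import Pool.Agent.W5h67.NF.OuterP

/-!
Words in noncommuting flows at generic times: one factor decouples, with one more parameter in one flow.
-/

set_option autoImplicit false

namespace Pool.Agent.W5h67.NF

open MeasureTheory Filter Finset
open Pool.Agent.Y957.MC (IsFlow flowInv smo)

universe u

section one

variable {X : Type u} [MeasurableSpace X] {μ : Measure X} [IsProbabilityMeasure μ] {τ : ℝ → X → X}
  {ι : Type} [DecidableEq ι]

/-- the word in `d` letters of the flow `τ` and `d` letters of the flows `σ i` -/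
def dbl {d : ℕ} (τ : ℝ → X → X) (σ : Fin d → ℝ → X → X) (P : Fin d → Polynomial ℝ) (n : ℕ)
    (ω : (Fin d → ℝ) × (Fin d → ℝ)) (x : X) : X :=
  τ (∑ i, ω.1 i * (P i).eval (n : ℝ)) (wd d σ (fun i => ω.2 i * (P i).eval (n : ℝ)) x)

theorem dbl_spec {B : ℝ} (hB : 0 < B) (hτ : IsFlow μ τ) {d : ℕ} {σ : Fin d → ℝ → X → X} (hσ : ∀ i, IsFlow μ (σ i))
    {P : Fin d → Polynomial ℝ} (hP : ∀ i, P i = 0 ∨ 0 < (P i).natDegree) :
    Fam μ (dbl τ σ P) ∧ (∃ D, Peel μ ((Measure.pi fun _ : Fin d => lam B).prod (Measure.pi fun _ : Fin d => lam B))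
      (dbl τ σ P) D) ∧ ∃ T, Lim μ ((Measure.pi fun _ : Fin d => lam B).prod (Measure.pi fun _ : Fin d => lam B))
      (dbl τ σ P) T := by
  have hp : ∀ i, 0 < (P i).natDegree → Tmc (fun n : ℕ => (ab (P i)).eval (n : ℝ)) := fun i h =>
    poly_tmc (by rw [ab_deg]; exact h) (ab_lead h)
  have hp' : ∀ i, ¬ 0 < (P i).natDegree → ∀ n : ℕ, (ab (P i)).eval (n : ℝ) = 0 := fun i h n => by
    have h0 : P i = 0 := (hP i).resolve_right h
    rw [h0]
    unfold ab
    simp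
  obtain ⟨⟨D, hD⟩, hL⟩ := single (μ := μ) hB (τ := fun i => fl (σ i) (P i)) (fun i => fl_flow (hσ i) _)
    (p := fun i n => (ab (P i)).eval (n : ℝ)) (act := fun i => 0 < (P i).natDegree) hp hp'
  have h1 := single_base (μ := μ) hB (fam_gw (fun i => fl_flow (hσ i) _) _) hD hL
    (τ := fun i => fl τ (P i)) (fun i => fl_flow hτ _)
    (p := fun i n => (ab (P i)).eval (n : ℝ)) (act := fun i => 0 < (P i).natDegree) hp hp'
  have e : ow (fun i => fl τ (P i)) (fun i n => (ab (P i)).eval (n : ℝ))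
      (gw (fun i => fl (σ i) (P i)) fun i n => (ab (P i)).eval (n : ℝ)) = dbl τ σ P := by
    funext n ω x
    have e1 : gw (fun i => fl (σ i) (P i)) (fun i n => (ab (P i)).eval (n : ℝ)) n ω.2 x =
        wd d σ (fun i => ω.2 i * (P i).eval (n : ℝ)) x := wd_fl σ P ω.2 (n : ℝ) x
    show wd d _ _ _ = _
    rw [e1]
    unfold dbl
    rw [← wd_const hτ]
    exact wd_fl (fun _ => τ) P ω.1 (n : ℝ) _
  rw [e] at h1
  exact ⟨h1.1, h1.2.1, _, h1.2.2⟩

/-- one factor decouples -/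
theorem dec_one {B : ℝ} (hB : 0 < B) {τ : ι → ℝ → X → X} (hτ : ∀ j, IsFlow μ (τ j)) {d : ℕ}
    {σ : Fin d → ι → ℝ → X → X} (hσ : ∀ i j, IsFlow μ (σ i j))
    {P : Fin d → ι → Polynomial ℝ} (hP : ∀ i j, P i j = 0 ∨ 0 < (P i j).natDegree) {R : ι → Polynomial ℝ}
    (hR : ∀ j, R j = 0 ∨ 0 < (R j).natDegree) {a : ι} {S : Finset ι} (ha : 0 < (R a).natDegree)
    (hS : ∀ j ∈ S, (R j).natDegree < (R a).natDegree)
    {U : ℕ → ((Fin d → ℝ) × (Fin d → ℝ)) × X → ℝ} (hUm : ∀ n, Measurable (U n)) (hUb : ∃ C : ℝ, ∀ n y, |U n y| ≤ C)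
    {f : ι → X → ℝ} (hf : ∀ j, BM (f j)) :
    ∀ᵐ z ∂(((lam B).prod ((Measure.pi fun _ : Fin d => lam B).prod (Measure.pi fun _ : Fin d => lam B))).prod μ),
      Tendsto (fun N : ℕ => (1 / (N : ℝ)) * ∑ n ∈ Icc 1 N, (U n (z.1.2, z.2) *
        ∏ j ∈ S, f j (τ j (z.1.1 * (R j).eval (n : ℝ)) (dbl (τ j) (fun i => σ i j) (fun i => P i j) n z.1.2 z.2))) *
        (f a (τ a (z.1.1 * (R a).eval (n : ℝ)) (dbl (τ a) (fun i => σ i a) (fun i => P i a) n z.1.2 z.2)) -
          ce μ (τ a) (f a) (dbl (τ a) (fun i => σ i a) (fun i => P i a) n z.1.2 z.2))) atTop (nhds 0) := by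
  obtain ⟨CU, hCU⟩ := hUb
  choose hF hPe hLi using fun j => dbl_spec (μ := μ) hB (hτ j) (fun i => hσ i j) (fun i => hP i j)
  choose D hD using hPe
  choose T hT using hLi
  have hpa : Tmc (fun n : ℕ => (ab (R a)).eval (n : ℝ)) := poly_tmc (by rw [ab_deg]; exact ha) (ab_lead ha)
  have hp0 : ∀ᶠ N : ℕ in atTop, 0 ≤ (ab (R a)).eval (N : ℝ) := hpa.tends.eventually_ge_atTop 0
  have hgood : ∀ j ∈ S, GoodW B μ ((Measure.pi fun _ : Fin d => lam B).prod (Measure.pi fun _ : Fin d => lam B))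
      (fun n : ℕ => (ab (R a)).eval (n : ℝ))
      (fun n z => f j (τ j (z.1.1 * (R j).eval (n : ℝ))
        (dbl (τ j) (fun i => σ i j) (fun i => P i j) n z.1.2 z.2))) := by
    intro j hj
    rcases hR j with h0 | h0
    · have h1 := GoodW.indep (B := B) (μ := μ)
        (ν := (Measure.pi fun _ : Fin d => lam B).prod (Measure.pi fun _ : Fin d => lam B)) hp0
        (U := fun n (y : ((Fin d → ℝ) × (Fin d → ℝ)) × X) =>
          f j (dbl (τ j) (fun i => σ i j) (fun i => P i j) n y.1 y.2))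
        (fun n => ((hf j).comp ((hF j).meas n)).1) (C := bd (f j)) (fun n y => bd_le (hf j) _)
      have e : (fun (n : ℕ) (z : (ℝ × ((Fin d → ℝ) × (Fin d → ℝ))) × X) =>
          f j (τ j (z.1.1 * (R j).eval (n : ℝ)) (dbl (τ j) (fun i => σ i j) (fun i => P i j) n z.1.2 z.2))) =
          fun n z => f j (dbl (τ j) (fun i => σ i j) (fun i => P i j) n z.1.2 z.2) := by
        funext n z
        rw [h0, Polynomial.eval_zero, mul_zero, (hτ j).zero]
      rw [e]
      exact h1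
    · have h1 := GoodW.factor hB (hF j) (hD j) (hT j) (fl_flow (hτ j) (R j))
        (p' := fun n : ℕ => (ab (R j)).eval (n : ℝ)) (p := fun n : ℕ => (ab (R a)).eval (n : ℝ))
        (poly_tmc (by rw [ab_deg]; exact h0) (ab_lead h0)).toTms hp0
        (poly_sub (by rw [ab_deg, ab_deg]; exact hS j hj) (ab_lead ha)) (hf j)
      simp only [fl_ab] at h1
      exact h1
  have hGW := (GoodW.indep hp0 hUm hCU).mul (GoodW.prod hp0 S hgood)
  have h1 := dec hB (hF a) (hD a) (hT a) (fl_flow (hτ a) (R a)) hpa hGW (hf a)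
  filter_upwards [h1] with z hz
  simp only [fl_ab, fl_ce] at hz
  exact hz

end one

end Pool.Agent.W5h67.NF
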