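import Pool.Agent.W5h67.NF.NilDef

/-!
Words in the one-parameter subgroups, modulo the subgroups `NN e n`.
-/

set_option autoImplicit false

namespace Pool.Agent.W5h67.NF

open Finset

universe v

section grp

variable {G : Type v} [Group G] {K : ℕ} {e : (Fin K → ℝ) → G}

theorem NN_anti {n n' : ℕ} (h : n ≤ n') : NN e n' ≤ NN e n := by
  unfold NN
  apply Subgroup.closure_mono
  rintro g ⟨l, s, hl, rfl⟩
  exact ⟨l, s, h.trans hl, rfl⟩

theorem single_mem {n : ℕ} {l : Fin K} (h : n ≤ (l : ℕ)) (s : ℝ) : e (Pi.single l s) ∈ NN e n :=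
  Subgroup.subset_closure ⟨l, s, h, rfl⟩

theorem NN_normal (hc : ∀ (g : G) (r : Fin K) (s : ℝ),
      g * e (Pi.single r s) * g⁻¹ * (e (Pi.single r s))⁻¹ ∈ NN e (r + 1)) (n : ℕ) : (NN e n).Normal := by
  constructor
  intro x hx g
  have hx' : x ∈ Subgroup.closure {g | ∃ (l : Fin K) (s : ℝ), n ≤ (l : ℕ) ∧ g = e (Pi.single l s)} := hx
  induction hx' using Subgroup.closure_induction with
  | mem x h =>
    obtain ⟨l, s, hl, rfl⟩ := h
    have h1 := NN_anti (e := e) (show n ≤ l + 1 by omega) (hc g l s)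
    have h2 := (NN e n).mul_mem h1 (single_mem hl s)
    rwa [inv_mul_cancel_right] at h2
  | one =>
    rw [mul_one, mul_inv_cancel]
    exact (NN e n).one_mem
  | mul x y hx1 hy1 ihx ihy =>
    have h1 := (NN e n).mul_mem (ihx hx1) (ihy hy1)
    have h2 : g * x * g⁻¹ * (g * y * g⁻¹) = g * (x * y) * g⁻¹ := by group
    rwa [h2] at h1
  | inv x hx1 ihx =>
    have h1 := (NN e n).inv_mem (ihx hx1)
    have h2 : (g * x * g⁻¹)⁻¹ = g * x⁻¹ * g⁻¹ := by group
    rwa [h2] at h1

theorem e_zero (ha : ∀ (s t : ℝ) v, e ((s + t) • v) = e (s • v) * e (t • v)) : e 0 = 1 := by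
  have h := ha 0 0 0
  rw [smul_zero, smul_zero] at h
  exact (mul_eq_left.1 h.symm)

theorem e_mem (ha : ∀ (s t : ℝ) v, e ((s + t) • v) = e (s • v) * e (t • v))
    (hs : ∀ v (r : Fin K) (s : ℝ), e (v + Pi.single r s) * (e v * e (Pi.single r s))⁻¹ ∈ NN e (r + 1))
    (v : Fin K → ℝ) : e v ∈ NN e 0 := by
  have key : ∀ S : Finset (Fin K), e (∑ i ∈ S, Pi.single i (v i)) ∈ NN e 0 := by
    intro S
    induction S using Finset.induction_on with
    | empty =>
      rw [Finset.sum_empty, e_zero ha]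
      exact (NN e 0).one_mem
    | insert a S haS ih =>
      rw [Finset.sum_insert haS, add_comm]
      have h1 := NN_anti (e := e) (Nat.zero_le _) (hs (∑ i ∈ S, Pi.single i (v i)) a (v a))
      have h2 := (NN e 0).mul_mem h1 ((NN e 0).mul_mem ih (single_mem (l := a) (Nat.zero_le _) (v a)))
      rwa [inv_mul_cancel_right] at h2
  have h := key univ
  rwa [Finset.univ_sum_single] at h

theorem word_split (hc : ∀ (g : G) (r : Fin K) (s : ℝ),
      g * e (Pi.single r s) * g⁻¹ * (e (Pi.single r s))⁻¹ ∈ NN e (r + 1))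
    (ha : ∀ (s t : ℝ) v, e ((s + t) • v) = e (s • v) * e (t • v))
    (hs : ∀ v (r : Fin K) (s : ℝ), e (v + Pi.single r s) * (e v * e (Pi.single r s))⁻¹ ∈ NN e (r + 1))
    (r : Fin K) {d : ℕ} (t c : Fin d → ℝ) (v : Fin d → Fin K → ℝ) :
    ∃ g ∈ NN e (r + 1), wR e t (fun i => v i + c i • Pi.single r 1) =
      g * (e (Pi.single r (∑ i, t i * c i)) * wR e t v) := by
  have hN : (NN e (r + 1)).Normal := NN_normal hc _
  have hone : ∀ g : G, g ∈ NN e (r + 1) → (g : G ⧸ NN e (r + 1)) = 1 := fun g hg =>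
    (QuotientGroup.eq_one_iff g).2 hg
  have hcom : ∀ (g : G) (s : ℝ), ((g : G) : G ⧸ NN e (r + 1)) * (e (Pi.single r s) : G) =
      (e (Pi.single r s) : G) * (g : G) := by
    intro g s
    have h := hone _ (hc g r s)
    rw [QuotientGroup.mk_mul, QuotientGroup.mk_mul, QuotientGroup.mk_mul, QuotientGroup.mk_inv,
      QuotientGroup.mk_inv, mul_inv_eq_one, mul_inv_eq_iff_eq_mul] at h
    exact h
  have hadd : ∀ s u : ℝ, e (Pi.single r (s + u)) = e (Pi.single r s) * e (Pi.single r u) := by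
    intro s u
    have h1 : ∀ s : ℝ, s • (Pi.single r (1 : ℝ) : Fin K → ℝ) = Pi.single r s := by
      intro s
      rw [← Pi.single_smul, smul_eq_mul, mul_one]
    have h := ha s u (Pi.single r 1)
    rwa [h1, h1, h1] at h
  have hsp : ∀ (w : Fin K → ℝ) (s : ℝ), ((e (w + Pi.single r s) : G) : G ⧸ NN e (r + 1)) =
      (e w : G) * (e (Pi.single r s) : G) := by
    intro w s
    have h := hone _ (hs w r s)
    rw [QuotientGroup.mk_mul, QuotientGroup.mk_inv, mul_inv_eq_one, QuotientGroup.mk_mul] at h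
    exact h
  have key : ∀ (d : ℕ) (t c : Fin d → ℝ) (v : Fin d → Fin K → ℝ),
      ((wR e t (fun i => v i + c i • Pi.single r 1) : G) : G ⧸ NN e (r + 1)) =
        (e (Pi.single r (∑ i, t i * c i)) : G) * (wR e t v : G) := by
    intro d
    induction d with
    | zero =>
      intro t c v
      unfold wR
      rw [List.ofFn_zero, List.ofFn_zero, List.prod_nil, Finset.univ_eq_empty, Finset.sum_empty,
        Pi.single_zero, e_zero ha, QuotientGroup.mk_one, mul_one]
    | succ d ih =>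
      intro t c v
      have h1 : ∀ v : Fin (d + 1) → Fin K → ℝ, wR e t v =
          e (t 0 • v 0) * wR e (fun i => t i.succ) (fun i => v i.succ) := by
        intro v
        unfold wR
        rw [List.ofFn_succ, List.prod_cons]
      have h2 : t 0 • (v 0 + c 0 • (Pi.single r (1 : ℝ) : Fin K → ℝ)) = t 0 • v 0 + Pi.single r (t 0 * c 0) := by
        rw [smul_add, smul_smul, ← Pi.single_smul, smul_eq_mul, mul_one]
      rw [h1, h1, QuotientGroup.mk_mul, QuotientGroup.mk_mul, ih, h2, hsp, Fin.sum_univ_succ, hadd,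
        QuotientGroup.mk_mul]
      have c1 := hcom (e (t 0 • v 0)) (t 0 * c 0)
      have c2 := hcom (e (t 0 • v 0)) (∑ i : Fin d, t i.succ * c i.succ)
      rw [c1]
      simp only [mul_assoc]
      congr 1
      rw [← mul_assoc, c2, mul_assoc]
  have h := key d t c v
  rw [← QuotientGroup.mk_mul, QuotientGroup.eq_iff_div_mem] at h
  refine ⟨_, h, ?_⟩
  rw [div_mul_cancel]

end grp

end Pool.Agent.W5h67.NF
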