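import Pool.Agent.W5h67.NF.NilDef
import Pool.Agent.W5h67.NF.Conv

/-!
Conditional expectations on the invariant sets of a flow and of the whole group.
-/

set_option autoImplicit false

namespace Pool.Agent.W5h67.NF

open MeasureTheory Filter Finset
open Pool.Agent.Y957.MC (IsFlow flowInv smo)
open Pool.Agent.Y48.MC (flwb)

universe u v

section meas

variable {X : Type u} [MeasurableSpace X] {μ : Measure X} [IsProbabilityMeasure μ] {τ : ℝ → X → X}

/-- Fubini: two jointly measurable functions equal for each time almost everywhere have equal averages -/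
theorem smo_eq_of {Φ Ψ : ℝ → X → ℝ} (hΦ : Measurable fun p : ℝ × X => Φ p.1 p.2)
    (hΨ : Measurable fun p : ℝ × X => Ψ p.1 p.2) (h : ∀ t, ∀ᵐ x ∂μ, Φ t x = Ψ t x) :
    ∀ᵐ x ∂μ, ∀ L : ℝ, (1 / L) * ∫ t in (0 : ℝ)..L, Φ t x = (1 / L) * ∫ t in (0 : ℝ)..L, Ψ t x := by
  have hS : MeasurableSet {p : ℝ × X | Φ p.1 p.2 = Ψ p.1 p.2} := measurableSet_eq_fun hΦ hΨ
  have h1 : ∀ᵐ t ∂(volume : Measure ℝ), ∀ᵐ x ∂μ, Φ t x = Ψ t x := ae_of_all _ h
  rw [Measure.ae_ae_comm hS] at h1
  filter_upwards [h1] with x hx L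
  congr 1
  apply intervalIntegral.integral_congr_ae
  filter_upwards [hx] with t ht _
  exact ht

theorem ce_rel (hτ : IsFlow μ τ) {F : X → ℝ} (hF : BM F) {h : X → X} (hh : MeasurePreserving h μ μ)
    (hE : ∀ t, ∀ᵐ x ∂μ, F (τ t (h x)) = F (τ t x)) : ∀ᵐ x ∂μ, ce μ τ F (h x) = ce μ τ F x := by
  have hm1 : Measurable fun p : ℝ × X => F (τ p.1 (h p.2)) :=
    hF.1.comp (hτ.meas.comp (measurable_fst.prodMk (hh.measurable.comp measurable_snd)))
  have hm2 : Measurable fun p : ℝ × X => F (τ p.1 p.2) := hF.1.comp hτ.meas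
  have h1 := smo_eq_of (μ := μ) (Φ := fun t x => F (τ t (h x))) (Ψ := fun t x => F (τ t x)) hm1 hm2 hE
  have h2 := flwb X μ τ F hτ hF.1 hF.2
  have h3 := ce_ae (μ := μ) (τ := τ) hF
  have h2' := hh.quasiMeasurePreserving.ae h2
  have h3' := hh.quasiMeasurePreserving.ae h3
  filter_upwards [h1, h2, h3, h2', h3'] with x hx1 hx2 hx3 hx2' hx3'
  rw [hx3, hx3']
  refine tendsto_nhds_unique hx2' (hx2.congr fun L => ?_)
  unfold smo
  exact (hx1 L).symm

theorem ce_self (hτ : IsFlow μ τ) {F : X → ℝ} (hF : BM F) (hE : ∀ t, ∀ᵐ x ∂μ, F (τ t x) = F x) :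
    ce μ τ F =ᵐ[μ] F := by
  have hm1 : Measurable fun p : ℝ × X => F (τ p.1 p.2) := hF.1.comp hτ.meas
  have hm2 : Measurable fun p : ℝ × X => F p.2 := hF.1.comp measurable_snd
  have h1 := smo_eq_of (μ := μ) (Φ := fun t x => F (τ t x)) (Ψ := fun _ x => F x) hm1 hm2 hE
  have h2 := flwb X μ τ F hτ hF.1 hF.2
  have h3 := ce_ae (μ := μ) (τ := τ) hF
  filter_upwards [h1, h2, h3] with x hx1 hx2 hx3
  rw [hx3]
  refine tendsto_nhds_unique hx2 (tendsto_const_nhds.congr' ?_)
  filter_upwards [eventually_gt_atTop (0 : ℝ)] with L hL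
  unfold smo
  rw [hx1 L, intervalIntegral.integral_const, sub_zero, smul_eq_mul]
  field_simp

theorem ce_sm (τ : ℝ → X → X) (f : X → ℝ) : StronglyMeasurable[flowInv τ] (ce μ τ f) := by
  have h1 : Measurable[flowInv τ] (μ[f | flowInv τ]) := stronglyMeasurable_condExp.measurable
  have h2 : Measurable[flowInv τ] (ce μ τ f) := by
    unfold ce
    exact (@measurable_const _ _ _ (flowInv τ) _).max ((@measurable_const _ _ _ (flowInv τ) _).min h1)
  exact h2.stronglyMeasurable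

theorem ce_sym (hτ : IsFlow μ τ) {F u : X → ℝ} (hF : BM F) (hu : BM u)
    (hE : ∀ t, ∀ᵐ x ∂μ, u (τ t x) = u x) : ∫ x, ce μ τ F x * u x ∂μ = ∫ x, F x * u x ∂μ := by
  have hm := flowInv_le (X := X) τ
  have hself := ce_self hτ hu hE
  have hc : BM (ce μ τ u) := ce_bm u
  have hpull : μ[F * ce μ τ u | flowInv τ] =ᵐ[μ] μ[F | flowInv τ] * ce μ τ u :=
    condExp_mul_of_stronglyMeasurable_right (ce_sm τ u) ((hF.mul hc).int μ) (hF.int μ)
  have e1 : ∫ x, ce μ τ F x * u x ∂μ = ∫ x, (μ[F | flowInv τ] * ce μ τ u) x ∂μ := by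
    apply integral_congr_ae
    filter_upwards [ce_ae (μ := μ) (τ := τ) hF, hself] with x hx1 hx2
    rw [Pi.mul_apply, hx1, hx2]
  have e2 : ∫ x, F x * u x ∂μ = ∫ x, (F * ce μ τ u) x ∂μ := by
    apply integral_congr_ae
    filter_upwards [hself] with x hx2
    rw [Pi.mul_apply, hx2]
  rw [e1, e2, ← integral_congr_ae hpull, integral_condExp hm]

variable {G : Type v} [Group G] [MulAction G X] {K : ℕ} {e : (Fin K → ℝ) → G}

theorem ce_IG {r : Fin K} (hτ : IsFlow μ (fun (t : ℝ) (x : X) => e (Pi.single r t) • x)) {F : X → ℝ}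
    (hF : BM F) : μ[ce μ (fun (t : ℝ) (x : X) => e (Pi.single r t) • x) F | IG μ e] =ᵐ[μ] μ[F | IG μ e] := by
  set τ : ℝ → X → X := fun (t : ℝ) (x : X) => e (Pi.single r t) • x with hτd
  have hm := IG_le (X := X) μ e
  have hc : BM (ce μ τ F) := ce_bm F
  refine ae_eq_condExp_of_forall_setIntegral_eq hm (hF.int μ)
    (fun s _ _ => integrable_condExp.integrableOn) ?_ stronglyMeasurable_condExp.aestronglyMeasurable
  intro A hA _
  have hA1 : MeasurableSet A := hm A hA
  rw [setIntegral_condExp hm (hc.int μ) hA]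
  have hu : BM (A.indicator (fun _ => (1 : ℝ))) := by
    refine ⟨measurable_const.indicator hA1, 1, fun x => ?_⟩
    by_cases hx : x ∈ A
    · rw [Set.indicator_of_mem hx, abs_one]
    · rw [Set.indicator_of_notMem hx, abs_zero]
      exact zero_le_one
  have hE : ∀ t, ∀ᵐ x ∂μ, A.indicator (fun _ => (1 : ℝ)) (τ t x) = A.indicator (fun _ => (1 : ℝ)) x := by
    intro t
    have h1 := hA.2 (Pi.single r t)
    filter_upwards [h1] with x hx
    have hiff : (τ t x ∈ A) ↔ (x ∈ A) := by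
      have := iff_of_eq (congrArg id hx)
      exact this
    by_cases hxA : x ∈ A
    · rw [Set.indicator_of_mem hxA, Set.indicator_of_mem (hiff.2 hxA)]
    · rw [Set.indicator_of_notMem hxA, Set.indicator_of_notMem (fun h => hxA (hiff.1 h))]
  have h2 := ce_sym hτ hF hu hE
  have e1 : ∀ f : X → ℝ, ∫ x, f x * A.indicator (fun _ => (1 : ℝ)) x ∂μ = ∫ x in A, f x ∂μ := by
    intro f
    rw [← integral_indicator hA1]
    congr 1
    funext x
    by_cases hx : x ∈ A
    · rw [Set.indicator_of_mem hx, Set.indicator_of_mem hx, mul_one]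
    · rw [Set.indicator_of_notMem hx, Set.indicator_of_notMem hx, mul_zero]
  rw [e1, e1] at h2
  exact h2

theorem inv_IG {F : X → ℝ} (hF : BM F) (hE : ∀ v, ∀ᵐ x ∂μ, F (e v • x) = F x) : μ[F | IG μ e] = F := by
  have hm := IG_le (X := X) μ e
  refine condExp_of_stronglyMeasurable hm ?_ (hF.int μ)
  have h1 : Measurable[IG μ e] F := by
    intro s hs
    refine ⟨hF.1 hs, fun v => ?_⟩
    filter_upwards [hE v] with x hx
    apply propext
    change (F (e v • x) ∈ s) ↔ (F x ∈ s)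
    rw [hx]
  exact h1.stronglyMeasurable

end meas

end Pool.Agent.W5h67.NF
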