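import Pool.Agent.W5h67.NF.Nil1
import Pool.Agent.W5h67.NF.Grp
import Pool.Agent.W5h67.NF.NilGrp
import Pool.Agent.W5h67.NF.NilMeas

/-!
Generic elements of nilpotent groups: transfer from affine families of tuples, invariance under subgroups.
-/

set_option autoImplicit false

namespace Pool.Agent.W5h67.NF

open MeasureTheory Filter Finset
open Pool.Agent.Y957.MC (IsFlow flowInv smo)

universe u v

theorem lam_ne (B : ℝ) (hB : 0 < B) : ∀ᵐ t ∂lam B, t ≠ 0 := by
  unfold lam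
  rw [ae_map_iff (p := fun t : ℝ => t ≠ 0) (meas_lam B).aemeasurable (measurableSet_singleton (0 : ℝ)).compl]
  have hset : MeasurableSet {q : ℝ × ℝ | B * (q.1 - q.2) ≠ 0} := (meas_lam B) (measurableSet_singleton (0 : ℝ)).compl
  rw [Measure.ae_prod_iff_ae_ae hset]
  refine ae_of_all _ fun u => ?_
  have h1 : ∀ᵐ w : ℝ ∂un, w ≠ u := by
    unfold un
    refine ae_restrict_of_ae ?_
    rw [ae_iff]
    simp
  filter_upwards [h1] with w hw
  exact mul_ne_zero hB.ne' (sub_ne_zero.2 hw.symm)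

/-- from affine families of tuples to almost every tuple -/
theorem ae_of_aff {m k : ℕ} {Q : (Fin m → Fin k → ℝ) → Prop} (hQ : MeasurableSet {v | Q v}) {S : Type}
    [MeasurableSpace S] {ρ : Measure S} [IsProbabilityMeasure ρ] {A : S → Fin m → ℝ} {c : S → Fin m → Fin k → ℝ}
    (hA : Measurable A) (hc : Measurable c) (hA0 : ∀ᵐ s ∂ρ, ∀ i, A s i ≠ 0)
    (h : ∀ v : Fin m → Fin k → ℝ, ∀ᵐ s ∂ρ, Q (fun j => A s j • v j + c s j)) : ∀ᵐ v : Fin m → Fin k → ℝ, Q v := by
  have hmeas : Measurable fun q : S × (Fin m → Fin k → ℝ) => fun j => A q.1 j • q.2 j + c q.1 j := by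
    refine measurable_pi_lambda _ fun j => ?_
    refine Measurable.add ?_ ((measurable_pi_apply j).comp (hc.comp measurable_fst))
    exact ((measurable_pi_apply j).comp (hA.comp measurable_fst)).smul ((measurable_pi_apply j).comp measurable_snd)
  have h1 : ∀ᵐ s ∂ρ, ∀ᵐ v : Fin m → Fin k → ℝ, Q (fun j => A s j • v j + c s j) := by
    have h2 : ∀ᵐ v : Fin m → Fin k → ℝ, ∀ᵐ s ∂ρ, Q (fun j => A s j • v j + c s j) := ae_of_all _ h
    have hset : MeasurableSet {q : (Fin m → Fin k → ℝ) × S | Q (fun j => A q.2 j • q.1 j + c q.2 j)} :=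
      (hmeas.comp measurable_swap) hQ
    exact (Measure.ae_ae_comm hset).mp h2
  obtain ⟨s, hs1, hs0⟩ := (h1.and hA0).exists
  let e : (Fin m → Fin k → ℝ) ≃ₗ[ℝ] (Fin m → Fin k → ℝ) :=
    LinearEquiv.piCongrRight fun j => LinearEquiv.smulOfNeZero ℝ (Fin k → ℝ) (A s j)⁻¹ (inv_ne_zero (hs0 j))
  have hdet : LinearMap.det (e : (Fin m → Fin k → ℝ) →ₗ[ℝ] (Fin m → Fin k → ℝ)) ≠ 0 :=
    (LinearEquiv.isUnit_det' e).ne_zero
  have hqmp := Measure.LinearMap.quasiMeasurePreserving (μ := (volume : Measure (Fin m → Fin k → ℝ)))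
    (e : (Fin m → Fin k → ℝ) →ₗ[ℝ] (Fin m → Fin k → ℝ)) hdet
  have htr := (measurePreserving_sub_right (volume : Measure (Fin m → Fin k → ℝ)) (c s)).quasiMeasurePreserving
  have h3 := (hqmp.comp htr).ae hs1
  filter_upwards [h3] with v hv
  have e1 : (fun j => A s j • (((e : (Fin m → Fin k → ℝ) →ₗ[ℝ] (Fin m → Fin k → ℝ)) ∘ fun v => v - c s) v) j + c s j) =
      v := by
    funext j
    have : (((e : (Fin m → Fin k → ℝ) →ₗ[ℝ] (Fin m → Fin k → ℝ)) ∘ fun v => v - c s) v) j =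
      (A s j)⁻¹ • (v j - c s j) := rfl
    rw [this, smul_smul, mul_inv_cancel₀ (hs0 j), one_smul, sub_add_cancel]
  rwa [e1] at hv

/-- the hypotheses on the coordinates of the group and on the action -/
structure Nil {X : Type u} [MeasurableSpace X] (μ : Measure X) {G : Type v} [Group G] [MulAction G X] {K : ℕ}
    (e : (Fin K → ℝ) → G) : Prop where
  add : ∀ (s t : ℝ) v, e ((s + t) • v) = e (s • v) * e (t • v)
  meas : Measurable fun p : (Fin K → ℝ) × X => e p.1 • p.2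
  mp : ∀ v, MeasurePreserving (fun x : X => e v • x) μ μ
  comm : ∀ (g : G) (r : Fin K) (s : ℝ), g * e (Pi.single r s) * g⁻¹ * (e (Pi.single r s))⁻¹ ∈ NN e (r + 1)
  split : ∀ v (r : Fin K) (s : ℝ), e (v + Pi.single r s) * (e v * e (Pi.single r s))⁻¹ ∈ NN e (r + 1)

section inv

variable {X : Type u} [MeasurableSpace X] {μ : Measure X} {G : Type v} [Group G] [MulAction G X] {K : ℕ}
  {e : (Fin K → ℝ) → G}

/-- the flow of the coordinate `r` -/
def fr (X : Type u) {G : Type v} [Group G] [MulAction G X] {K : ℕ} (e : (Fin K → ℝ) → G) (r : Fin K) :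
    ℝ → X → X := fun t x => e (Pi.single r t) • x

theorem Nil.flow (he : Nil μ e) (v : Fin K → ℝ) : IsFlow μ (fun (t : ℝ) (x : X) => e (t • v) • x) :=
  exp_flow (e := fun _ : Fin 1 => e) (fun _ => he.add) (fun _ => he.meas) (fun _ => he.mp) 0 v

theorem single_smul (r : Fin K) (t : ℝ) : (Pi.single r t : Fin K → ℝ) = t • Pi.single r 1 := by
  rw [← Pi.single_smul, smul_eq_mul, mul_one]

theorem Nil.fr_flow (he : Nil μ e) (r : Fin K) : IsFlow μ (fr X e r) := by
  have h := he.flow (Pi.single r 1)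
  have e1 : (fun (t : ℝ) (x : X) => e (t • Pi.single r 1) • x) = fr X e r := by
    funext t x
    unfold fr
    rw [single_smul r t]
  rwa [e1] at h

theorem Nil.zero (he : Nil μ e) : e 0 = 1 := exp_zero (e := fun _ : Fin 1 => e) (fun _ => he.add) 0

theorem Nil.inv (he : Nil μ e) (v : Fin K → ℝ) : (e v)⁻¹ = e (-v) := by
  have h := he.add 1 (-1) v
  rw [add_neg_cancel, zero_smul, one_smul, neg_one_smul, he.zero] at h
  exact inv_eq_of_mul_eq_one_right h.symm

theorem Nil.gen (he : Nil μ e) {n : ℕ} {F : X → ℝ}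
    (h : ∀ (l : Fin K) (s : ℝ), n ≤ (l : ℕ) → ∀ᵐ x ∂μ, F (e (Pi.single l s) • x) = F x) {g : G} (hg : g ∈ NN e n) :
    (MeasurePreserving (fun x : X => g • x) μ μ ∧ MeasurePreserving (fun x : X => g⁻¹ • x) μ μ) ∧
      ∀ᵐ x ∂μ, F (g • x) = F x := by
  unfold NN at hg
  induction hg using Subgroup.closure_induction with
  | mem g hg =>
    obtain ⟨l, s, hl, rfl⟩ := hg
    exact ⟨⟨he.mp _, by rw [he.inv]; exact he.mp _⟩, h l s hl⟩
  | one => simp only [one_smul, inv_one]; exact ⟨⟨MeasurePreserving.id μ, MeasurePreserving.id μ⟩, ae_of_all _ fun _ => trivial⟩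
  | mul g g' _ _ ih ih' =>
    obtain ⟨⟨h1, h2⟩, h3⟩ := ih
    obtain ⟨⟨h1', h2'⟩, h3'⟩ := ih'
    refine ⟨⟨?_, ?_⟩, ?_⟩
    · simp only [mul_smul]
      exact h1.comp h1'
    · simp only [mul_inv_rev, mul_smul]
      exact h2'.comp h2
    · filter_upwards [h1'.quasiMeasurePreserving.ae h3, h3'] with x hx hx'
      rw [mul_smul, hx, hx']
  | inv g _ ih =>
    obtain ⟨⟨h1, h2⟩, h3⟩ := ih
    refine ⟨⟨h2, by rw [inv_inv]; exact h1⟩, ?_⟩
    filter_upwards [h2.quasiMeasurePreserving.ae h3] with x hx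
    rw [← hx, smul_inv_smul]

theorem Nil.invN (he : Nil μ e) {n : ℕ} {F : X → ℝ}
    (h : ∀ (l : Fin K) (s : ℝ), n ≤ (l : ℕ) → ∀ᵐ x ∂μ, F (e (Pi.single l s) • x) = F x) : InvN μ (NN e n) F :=
  fun _ hg => (he.gen h hg).2

theorem Nil.gmp (he : Nil μ e) {n : ℕ} {g : G} (hg : g ∈ NN e n) : MeasurePreserving (fun x : X => g • x) μ μ :=
  (he.gen (F := fun _ => (0 : ℝ)) (fun _ _ _ => ae_of_all _ fun _ => rfl) hg).1.1

variable [IsProbabilityMeasure μ]

/-- one more flow -/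
theorem Nil.ce (he : Nil μ e) (r : Fin K) {F : X → ℝ} (hF : BM F) (hI : InvN μ (NN e (r + 1)) F) :
    InvN μ (NN e r) (ce μ (fr X e r) F) := by
  refine he.invN fun l s hl => ?_
  rcases hl.eq_or_lt with h0 | h0
  · have h1 : r = l := Fin.ext h0
    subst h1
    exact ae_of_all _ fun x => ce_inv F s x
  · refine ce_rel (he.fr_flow r) hF (he.mp _) fun t => ?_
    have hn := NN_normal he.comm (r + 1)
    have h1 : e (Pi.single r t) * e (Pi.single l s) * (e (Pi.single r t))⁻¹ ∈ NN e (r + 1) :=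
      hn.conj_mem _ (single_mem h0 s) _
    filter_upwards [(he.mp (Pi.single r t)).quasiMeasurePreserving.ae (hI _ h1)] with x hx
    show F (e (Pi.single r t) • (e (Pi.single l s) • x)) = F (e (Pi.single r t) • x)
    rw [← hx]
    congr 1
    simp only [← mul_smul]
    congr 1
    group

end inv

end Pool.Agent.W5h67.NF
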