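import Pool.Agent.W5h67.NF.Nil2

/-!
Generic elements of nilpotent groups: one factor decouples in one coordinate.
-/

set_option autoImplicit false

namespace Pool.Agent.W5h67.NF

open MeasureTheory Filter Finset
open Pool.Agent.Y957.MC (IsFlow flowInv smo)

universe u v

section words

variable {X : Type u} [MeasurableSpace X] {μ : Measure X} {G : Type v} [Group G] [MulAction G X] {K d : ℕ}
  {e : (Fin K → ℝ) → G}

omit [MeasurableSpace X] in
theorem wR_smul (t : Fin d → ℝ) (v : Fin d → Fin K → ℝ) (x : X) :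
    wR e t v • x = wd d (fun i (s : ℝ) (y : X) => e (s • v i) • y) t x := by
  unfold wR
  rw [cmp_smul, wd_cmp]

omit [MeasurableSpace X] in
theorem wR_scale (t A : Fin d → ℝ) (v : Fin d → Fin K → ℝ) (x : X) :
    wR e t (fun i => A i • v i) • x = wd d (fun i (s : ℝ) (y : X) => e (s • v i) • y) (fun i => A i * t i) x := by
  rw [wR_smul, wd_cmp, wd_cmp]
  congr 1
  funext i y
  rw [smul_smul, mul_comm]

theorem wR_meas (he : Nil μ e) (t : Fin d → ℝ) :
    Measurable fun q : (Fin d → Fin K → ℝ) × X => wR e t q.1 • q.2 := by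
  have h : (fun q : (Fin d → Fin K → ℝ) × X => wR e t q.1 • q.2) =
      fun q => cmp d (fun i y => e (t i • q.1 i) • y) q.2 := by
    funext q
    unfold wR
    rw [cmp_smul]
  rw [h]
  refine cmp_meas d (fun i (v : Fin d → Fin K → ℝ) (y : X) => e (t i • v i) • y) fun i => ?_
  refine he.meas.comp (Measurable.prodMk ?_ measurable_snd)
  have hj : Measurable fun q : (Fin d → Fin K → ℝ) × X => q.1 i := (measurable_pi_apply i).comp measurable_fst
  exact hj.const_smul (t i)

theorem wR_mp (he : Nil μ e) (t : Fin d → ℝ) (v : Fin d → Fin K → ℝ) :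
    MeasurePreserving (fun x : X => wR e t v • x) μ μ := by
  have h := wd_mp (fun i => he.flow (v i)) t
  have e1 : wd d (fun i (s : ℝ) (y : X) => e (s • v i) • y) t = fun x : X => wR e t v • x := by
    funext x
    rw [wR_smul]
  rwa [e1] at h

theorem word_rel (he : Nil μ e) (r : Fin K) {F : X → ℝ} (hF : InvN μ (NN e (r + 1)) F) (t A c : Fin d → ℝ)
    (v : Fin d → Fin K → ℝ) : ∀ᵐ x ∂μ, F (wR e t (fun i => A i • v i + c i • Pi.single r 1) • x) =
      F (fr X e r (∑ i, t i * c i) (wd d (fun i (s : ℝ) (y : X) => e (s • v i) • y) (fun i => A i * t i) x)) := by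
  obtain ⟨g, hg, hgw⟩ := word_split he.comm he.add he.split r t c (fun i => A i • v i)
  have h1 := (((he.fr_flow r).mp (∑ i, t i * c i)).comp (wR_mp he t (fun i => A i • v i))).quasiMeasurePreserving.ae
    (hF g hg)
  filter_upwards [h1] with x hx
  rw [hgw, mul_smul, mul_smul, ← wR_scale]
  exact hx

theorem word_rel0 (he : Nil μ e) (r : Fin K) {F : X → ℝ} (hF : InvN μ (NN e r) F) (t A c : Fin d → ℝ)
    (v : Fin d → Fin K → ℝ) : ∀ᵐ x ∂μ, F (wR e t (fun i => A i • v i + c i • Pi.single r 1) • x) =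
      F (wd d (fun i (s : ℝ) (y : X) => e (s • v i) • y) (fun i => A i * t i) x) := by
  have h1 := word_rel he r (F := F) (fun g hg => hF g (NN_anti (Nat.le_succ _) hg)) t A c v
  have h2 := (wR_mp he t (fun i => A i • v i)).quasiMeasurePreserving.ae
    (hF (e (Pi.single r (∑ i, t i * c i))) (single_mem le_rfl _))
  filter_upwards [h1, h2] with x hx1 hx2
  rw [hx1, ← wR_scale]
  exact hx2

end words

/-- linear combinations of the rows -/
noncomputable def cmb {d : ℕ} {ι : Type} (φ : Fin d → ℝ) (P : Fin d → ι → Polynomial ℝ) (j : ι) : Polynomial ℝ :=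
  ∑ i, Polynomial.C (φ i) * P i j

theorem cmb_eval {d : ℕ} {ι : Type} (φ : Fin d → ℝ) (P : Fin d → ι → Polynomial ℝ) (j : ι) (x : ℝ) :
    (cmb φ P j).eval x = ∑ i, φ i * (P i j).eval x := by
  unfold cmb
  rw [Polynomial.eval_finsetSum]
  simp

theorem zero_or {P : Polynomial ℝ} (h : P.eval 0 = 0) : P = 0 ∨ 0 < P.natDegree := by
  rcases Nat.eq_zero_or_pos P.natDegree with h0 | h0
  · left
    rw [Polynomial.eq_C_of_natDegree_eq_zero h0] at h ⊢
    rw [Polynomial.eval_C] at h
    rw [h, Polynomial.C_0]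
  · exact Or.inr h0

section step

variable {X : Type u} [MeasurableSpace X] {μ : Measure X} [IsProbabilityMeasure μ] {K d : ℕ} {ι : Type} [Fintype ι]
  [DecidableEq ι] {G : ι → Type v} [∀ j, Group (G j)] [∀ j, MulAction (G j) X] {e : ∀ j, (Fin K → ℝ) → G j}

/-- one factor decouples in one coordinate -/
theorem step (he : ∀ j, Nil μ (e j)) (r : Fin K) {P : Fin d → ι → Polynomial ℝ} (hP : ∀ i j, (P i j).eval 0 = 0)
    {φ : Fin d → ℝ} {a : ι} {S : Finset ι} (haS : a ∉ S) (ha : 0 < (cmb φ P a).natDegree)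
    (hS : ∀ j ∈ S, (cmb φ P j).natDegree < (cmb φ P a).natDegree)
    {F : ι → X → ℝ} (hF : ∀ j, BM (F j)) (hF1 : ∀ j ∈ insert a S, InvN μ (NN (e j) (r + 1)) (F j))
    (hF0 : ∀ j, j ∉ insert a S → InvN μ (NN (e j) r) (F j) ∨ ∀ i, P i j = 0)
    {W : ℕ → X → ℝ} (hWm : ∀ n, Measurable (W n)) (hWb : ∃ C : ℝ, ∀ n x, |W n x| ≤ C) :
    ∀ᵐ v : Fin d → Fin K → ℝ, ∀ᵐ x ∂μ, Tendsto (fun N : ℕ => (1 / (N : ℝ)) * ∑ n ∈ Icc 1 N,
      (W n x * ∏ j ∈ univ.erase a, F j (wR (e j) (fun i => (P i j).eval (n : ℝ)) v • x)) *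
      (F a (wR (e a) (fun i => (P i a).eval (n : ℝ)) v • x) -
        ce μ (fr X (e a) r) (F a) (wR (e a) (fun i => (P i a).eval (n : ℝ)) v • x))) atTop (nhds 0) := by
  obtain ⟨CW, hCW⟩ := hWb
  refine ae_of_aff (S := ℝ × ((Fin d → ℝ) × (Fin d → ℝ)))
    (ρ := (lam 1).prod ((Measure.pi fun _ : Fin d => lam 1).prod (Measure.pi fun _ : Fin d => lam 1)))
    (A := fun s => s.2.2) (c := fun s i => (s.1 * φ i + s.2.1 i) • Pi.single r 1) ?_ ?_ ?_ ?_ ?_
  · have hw : ∀ (f : X → ℝ) (_ : BM f) (n : ℕ) (j : ι), Measurable fun q : (Fin d → Fin K → ℝ) × X =>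
        f (wR (e j) (fun i => (P i j).eval (n : ℝ)) q.1 • q.2) := fun f hf n j => hf.1.comp (wR_meas (he j) _)
    have hA : ∀ N : ℕ, Measurable fun q : (Fin d → Fin K → ℝ) × X => (1 / (N : ℝ)) * ∑ n ∈ Icc 1 N,
      (W n q.2 * ∏ j ∈ univ.erase a, F j (wR (e j) (fun i => (P i j).eval (n : ℝ)) q.1 • q.2)) *
      (F a (wR (e a) (fun i => (P i a).eval (n : ℝ)) q.1 • q.2) -
        ce μ (fr X (e a) r) (F a) (wR (e a) (fun i => (P i a).eval (n : ℝ)) q.1 • q.2)) := fun N =>
      measurable_const.mul (Finset.measurable_sum _ fun n _ =>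
        (((hWm n).comp measurable_snd).mul (Finset.measurable_prod _ fun j _ => hw _ (hF j) n j)).mul
          ((hw _ (hF a) n a).sub (hw _ (ce_bm _) n a)))
    have h2 := measurableSet_tendsto_fun (l := atTop) hA (g := fun _ : (Fin d → Fin K → ℝ) × X => (0 : ℝ))
      measurable_const
    have h3 := measurable_measure_prodMk_left (ν := μ) h2.compl
    exact h3 (measurableSet_singleton 0)
  · exact measurable_snd.comp measurable_snd
  · refine measurable_pi_lambda _ fun i => ?_
    have h1 : Measurable fun s : ℝ × ((Fin d → ℝ) × (Fin d → ℝ)) => s.1 * φ i + s.2.1 i :=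
      (measurable_fst.mul_const _).add ((measurable_pi_apply i).comp (measurable_fst.comp measurable_snd))
    exact h1.smul_const _
  · have h0 : ∀ᵐ a ∂(Measure.pi fun _ : Fin d => lam 1), ∀ i, a i ≠ 0 := by
      rw [ae_all_iff]
      intro i
      exact (Measure.quasiMeasurePreserving_eval (fun _ : Fin d => lam 1) i).ae (lam_ne 1 one_pos)
    exact (Measure.quasiMeasurePreserving_snd.comp Measure.quasiMeasurePreserving_snd).ae h0
  · intro v
    have hσ : ∀ i j, IsFlow μ (fun (s : ℝ) (y : X) => e j (s • v i) • y) := fun i j => (he j).flow (v i)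
    have hτ := fun j => (he j).fr_flow r
    have hR : ∀ j, cmb φ P j = 0 ∨ 0 < (cmb φ P j).natDegree := fun j => zero_or (by
      rw [cmb_eval]
      simp [hP])
    have hcb : ∃ C : ℝ, ∀ (n : ℕ) (y : ((Fin d → ℝ) × (Fin d → ℝ)) × X), |W n y.2 * ∏ j ∈ univ \ insert a S,
        F j (wd d (fun i (s : ℝ) (y : X) => e j (s • v i) • y) (fun i => y.1.2 i * (P i j).eval (n : ℝ)) y.2)| ≤ C := by
      refine ⟨|CW| * ∏ j ∈ univ \ insert a S, bd (F j), fun n y => ?_⟩
      rw [abs_mul, abs_prod]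
      exact mul_le_mul ((hCW n _).trans (le_abs_self _)) (prod_le_prod (fun j _ => abs_nonneg _)
        fun j _ => bd_le (hF j) _) (prod_nonneg fun j _ => abs_nonneg _) (abs_nonneg _)
    have h1 := dec_one (μ := μ) one_pos hτ hσ (P := P) (fun i j => zero_or (hP i j)) (R := cmb φ P) hR ha hS
      (U := fun n y => W n y.2 * ∏ j ∈ univ \ insert a S,
        F j (wd d (fun i (s : ℝ) (y : X) => e j (s • v i) • y) (fun i => y.1.2 i * (P i j).eval (n : ℝ)) y.2))
      (fun n => ((hWm n).comp measurable_snd).mul (Finset.measurable_prod _ fun j _ => (hF j).1.comp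
        (((fam_gw (fun i => hσ i j) (fun i n => (P i j).eval (n : ℝ))).meas n).comp
          ((measurable_snd.comp measurable_fst).prodMk measurable_snd)))) hcb hF
    filter_upwards [Measure.ae_ae_of_ae_prod h1] with s hs
    have hsum : ∀ (n : ℕ) (j : ι), ∑ i, (P i j).eval (n : ℝ) * (s.1 * φ i + s.2.1 i) =
        s.1 * (cmb φ P j).eval (n : ℝ) + ∑ i, s.2.1 i * (P i j).eval (n : ℝ) := by
      intro n j
      rw [cmb_eval, mul_sum, ← sum_add_distrib]
      exact sum_congr rfl fun i _ => by ring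
    -- the words
    have hrel : ∀ (f : X → ℝ) (n : ℕ) (j : ι) (_ : InvN μ (NN (e j) (r + 1)) f), ∀ᵐ x ∂μ,
        f (wR (e j) (fun i => (P i j).eval (n : ℝ)) (fun i => s.2.2 i • v i + (s.1 * φ i + s.2.1 i) • Pi.single r 1) • x) =
        f (fr X (e j) r (s.1 * (cmb φ P j).eval (n : ℝ))
          (dbl (fr X (e j) r) (fun i (s : ℝ) (y : X) => e j (s • v i) • y) (fun i => P i j) n s.2 x)) := by
      intro f n j hf
      filter_upwards [word_rel (he j) r hf (fun i => (P i j).eval (n : ℝ)) s.2.2 (fun i => s.1 * φ i + s.2.1 i) v]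
        with x hx
      rw [hx, hsum, (hτ j).add]
      rfl
    have hrel0 : ∀ (f : X → ℝ) (n : ℕ) (j : ι) (_ : InvN μ (NN (e j) r) f), ∀ᵐ x ∂μ,
        f (wR (e j) (fun i => (P i j).eval (n : ℝ)) (fun i => s.2.2 i • v i + (s.1 * φ i + s.2.1 i) • Pi.single r 1) • x) =
        f (wd d (fun i (s : ℝ) (y : X) => e j (s • v i) • y) (fun i => s.2.2 i * (P i j).eval (n : ℝ)) x) := by
      intro f n j hf
      exact word_rel0 (he j) r hf (fun i => (P i j).eval (n : ℝ)) s.2.2 (fun i => s.1 * φ i + s.2.1 i) v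
    have hA : ∀ᵐ x ∂μ, ∀ (n : ℕ) (j : ι), j ∈ insert a S →
        F j (wR (e j) (fun i => (P i j).eval (n : ℝ)) (fun i => s.2.2 i • v i + (s.1 * φ i + s.2.1 i) • Pi.single r 1) • x) =
        F j (fr X (e j) r (s.1 * (cmb φ P j).eval (n : ℝ))
          (dbl (fr X (e j) r) (fun i (s : ℝ) (y : X) => e j (s • v i) • y) (fun i => P i j) n s.2 x)) := by
      rw [ae_all_iff]; intro n
      rw [ae_all_iff]; intro j
      by_cases hj : j ∈ insert a S
      · filter_upwards [hrel (F j) n j (hF1 j hj)] with x hx _ using hx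
      · exact ae_of_all _ fun x h => absurd h hj
    have hB : ∀ᵐ x ∂μ, ∀ (n : ℕ) (j : ι), j ∉ insert a S →
        F j (wR (e j) (fun i => (P i j).eval (n : ℝ)) (fun i => s.2.2 i • v i + (s.1 * φ i + s.2.1 i) • Pi.single r 1) • x) =
        F j (wd d (fun i (s : ℝ) (y : X) => e j (s • v i) • y) (fun i => s.2.2 i * (P i j).eval (n : ℝ)) x) := by
      rw [ae_all_iff]; intro n
      rw [ae_all_iff]; intro j
      by_cases hj : j ∈ insert a S
      · exact ae_of_all _ fun x h => absurd hj h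
      · rcases hF0 j hj with h | h
        · filter_upwards [hrel0 (F j) n j h] with x hx _ using hx
        · refine ae_of_all _ fun x _ => ?_
          congr 1
          rw [wR_smul, wd_cmp, wd_cmp]
          simp only [h, Polynomial.eval_zero, zero_smul, mul_zero]
    have hC : ∀ᵐ x ∂μ, ∀ (n : ℕ), ce μ (fr X (e a) r) (F a) (wR (e a) (fun i => (P i a).eval (n : ℝ))
          (fun i => s.2.2 i • v i + (s.1 * φ i + s.2.1 i) • Pi.single r 1) • x) =
        ce μ (fr X (e a) r) (F a)
          (dbl (fr X (e a) r) (fun i (s : ℝ) (y : X) => e a (s • v i) • y) (fun i => P i a) n s.2 x) := by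
      rw [ae_all_iff]; intro n
      have h2 := (he a).ce r (hF a) (hF1 a (mem_insert_self _ _))
      filter_upwards [hrel _ n a (fun g hg => h2 g (NN_anti (Nat.le_succ _) hg))] with x hx
      rw [hx, ce_inv]
    filter_upwards [hs, hA, hB, hC] with x hx hxA hxB hxC
    refine hx.congr fun N => ?_
    congr 1
    refine sum_congr rfl fun n _ => ?_
    have hsplit : univ.erase a = S ∪ (univ \ insert a S) := by
      ext j
      by_cases h1 : j = a
      · subst h1
        simp [haS]
      · by_cases h2 : j ∈ S <;> simp [h1, h2]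
    have hdis : Disjoint S (univ \ insert a S) := by
      rw [Finset.disjoint_left]
      intro j hj hj'
      rw [Finset.mem_sdiff] at hj'
      exact hj'.2 (mem_insert_of_mem hj)
    rw [hsplit, prod_union hdis, hxA n a (mem_insert_self _ _), hxC n]
    rw [prod_congr rfl fun j hj => hxA n j (mem_insert_of_mem hj)]
    rw [prod_congr (s₁ := univ \ insert a S) rfl fun j hj => hxB n j (Finset.mem_sdiff.1 hj).2]
    ring

end step

end Pool.Agent.W5h67.NF
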