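import Pool.Agent.W5h67.NF.Nil3

/-!
Generic elements of nilpotent groups: all factors and all coordinates.
-/

set_option autoImplicit false

namespace Pool.Agent.W5h67.NF

open MeasureTheory Filter Finset
open Pool.Agent.Y957.MC (IsFlow flowInv smo)

universe u v

/-- in every nonempty set of nonzero columns some linear form singles out the polynomial of largest degree -/
def FreeR {d : ℕ} {ι : Type} (P : Fin d → ι → Polynomial ℝ) : Prop :=
  ∀ S : Finset ι, S.Nonempty → (∀ j ∈ S, ∃ i, P i j ≠ 0) → ∃ φ : Fin d → ℝ, ∃ a ∈ S,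
    0 < (cmb φ P a).natDegree ∧ ∀ j ∈ S, j ≠ a → (cmb φ P j).natDegree < (cmb φ P a).natDegree

section stage

variable {X : Type u} [MeasurableSpace X] {μ : Measure X} [IsProbabilityMeasure μ] {K d : ℕ} {ι : Type} [Fintype ι]
  [DecidableEq ι] {G : ι → Type v} [∀ j, Group (G j)] [∀ j, MulAction (G j) X] {e : ∀ j, (Fin K → ℝ) → G j}

/-- all factors decouple in one coordinate -/
theorem stage (he : ∀ j, Nil μ (e j)) (r : Fin K) {P : Fin d → ι → Polynomial ℝ} (hP : ∀ i j, (P i j).eval 0 = 0)
    (hFr : FreeR P) {W : ℕ → X → ℝ} (hWm : ∀ n, Measurable (W n)) (hWb : ∃ C : ℝ, ∀ n x, |W n x| ≤ C)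
    (S : Finset ι) : (∀ j ∈ S, ∃ i, P i j ≠ 0) → ∀ F : ι → X → ℝ, (∀ j, BM (F j)) →
    (∀ j ∈ S, InvN μ (NN (e j) (r + 1)) (F j)) → (∀ j, j ∉ S → InvN μ (NN (e j) r) (F j) ∨ ∀ i, P i j = 0) →
    ∀ᵐ v : Fin d → Fin K → ℝ, ∀ᵐ x ∂μ, Tendsto (fun N : ℕ => (1 / (N : ℝ)) * ∑ n ∈ Icc 1 N, W n x *
      (∏ j, F j (wR (e j) (fun i => (P i j).eval (n : ℝ)) v • x) -
        ∏ j, (if j ∈ S then ce μ (fr X (e j) r) (F j) else F j) (wR (e j) (fun i => (P i j).eval (n : ℝ)) v • x)))
        atTop (nhds 0) := by
  induction S using Finset.strongInductionOn with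
  | _ S ih =>
    intro hS F hF hF1 hF0
    rcases S.eq_empty_or_nonempty with h0 | h0
    · subst h0
      refine ae_of_all _ fun v => ae_of_all _ fun x => ?_
      simp
    · obtain ⟨φ, a, haS, ha, hφ⟩ := hFr S h0 hS
      have h1 := step he r hP (φ := φ) (a := a) (S := S.erase a) (notMem_erase a S) ha
        (fun j hj => hφ j (mem_of_mem_erase hj) (ne_of_mem_erase hj)) hF
        (fun j hj => hF1 j (by rwa [insert_erase haS] at hj))
        (fun j hj => hF0 j (by rwa [insert_erase haS] at hj)) hWm hWb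
      have h2 := ih (S.erase a) (erase_ssubset haS) (fun j hj => hS j (mem_of_mem_erase hj))
        (Function.update F a (ce μ (fr X (e a) r) (F a))) (fun j => by
          by_cases h : j = a
          · subst h
            rw [Function.update_self]
            exact ce_bm _
          · rw [Function.update_of_ne h]
            exact hF j) (fun j hj => by
          rw [Function.update_of_ne (ne_of_mem_erase hj)]
          exact hF1 j (mem_of_mem_erase hj)) (fun j hj => by
          by_cases h : j = a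
          · subst h
            rw [Function.update_self]
            exact Or.inl ((he j).ce r (hF j) (hF1 j haS))
          · rw [Function.update_of_ne h]
            exact hF0 j fun h' => hj (mem_erase.2 ⟨h, h'⟩))
      filter_upwards [h1, h2] with v hv1 hv2
      filter_upwards [hv1, hv2] with x hx1 hx2
      have h3 := hx1.add hx2
      rw [add_zero] at h3
      refine h3.congr fun N => ?_
      rw [← mul_add, ← sum_add_distrib]
      congr 1
      refine sum_congr rfl fun n _ => ?_
      have e1 : ∀ j, (if j ∈ S.erase a then ce μ (fr X (e j) r) (Function.update F a (ce μ (fr X (e a) r) (F a)) j) else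
          Function.update F a (ce μ (fr X (e a) r) (F a)) j) = if j ∈ S then ce μ (fr X (e j) r) (F j) else F j := by
        intro j
        by_cases h : j = a
        · subst h
          rw [if_neg (notMem_erase j S), if_pos haS, Function.update_self]
        · rw [Function.update_of_ne h]
          by_cases h' : j ∈ S
          · rw [if_pos h', if_pos (mem_erase.2 ⟨h, h'⟩)]
          · rw [if_neg h', if_neg fun h'' => h' (mem_of_mem_erase h'')]
      simp only [e1]
      have e2 := fun y : ι → X => mul_prod_erase univ (fun j => F j (y j)) (mem_univ a)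
      have e3 := fun y : ι → X => mul_prod_erase univ
        (fun j => Function.update F a (ce μ (fr X (e a) r) (F a)) j (y j)) (mem_univ a)
      have e4 : ∀ y : ι → X, ∏ j ∈ univ.erase a, Function.update F a (ce μ (fr X (e a) r) (F a)) j (y j) =
          ∏ j ∈ univ.erase a, F j (y j) := fun y =>
        prod_congr rfl fun j hj => by rw [Function.update_of_ne (ne_of_mem_erase hj)]
      rw [← e2, ← e3, e4]
      simp only [Function.update_self]
      ring

/-- all factors decouple in all coordinates -/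
theorem stages (he : ∀ j, Nil μ (e j)) {P : Fin d → ι → Polynomial ℝ} (hP : ∀ i j, (P i j).eval 0 = 0)
    (hFr : FreeR P) {W : ℕ → X → ℝ} (hWm : ∀ n, Measurable (W n)) (hWb : ∃ C : ℝ, ∀ n x, |W n x| ≤ C)
    {f : ι → X → ℝ} (hf : ∀ j, BM (f j)) (n : ℕ) (hn : n ≤ K) : ∃ F : ι → X → ℝ, (∀ j, BM (F j)) ∧
      (∀ j, (∃ i, P i j ≠ 0) → InvN μ (NN (e j) (K - n)) (F j)) ∧ (∀ j, (∀ i, P i j = 0) → F j = f j) ∧
      (∀ j, μ[F j | IG μ (e j)] =ᵐ[μ] μ[f j | IG μ (e j)]) ∧
      ∀ᵐ v : Fin d → Fin K → ℝ, ∀ᵐ x ∂μ, Tendsto (fun N : ℕ => (1 / (N : ℝ)) * ∑ n ∈ Icc 1 N, W n x *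
        (∏ j, f j (wR (e j) (fun i => (P i j).eval (n : ℝ)) v • x) -
          ∏ j, F j (wR (e j) (fun i => (P i j).eval (n : ℝ)) v • x))) atTop (nhds 0) := by
  classical
  induction n with
  | zero =>
    refine ⟨f, hf, fun j _ => (he j).invN fun l s hl => ?_, fun _ _ => rfl, fun _ => EventuallyEq.rfl,
      ae_of_all _ fun v => ae_of_all _ fun x => by simp⟩
    have := l.2
    omega
  | succ n ih =>
    obtain ⟨F, hF, hF1, hF0, hFc, hFt⟩ := ih (by omega)
    set r : Fin K := ⟨K - (n + 1), by omega⟩ with hr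
    have hr1 : (r : ℕ) + 1 = K - n := by
      rw [hr]
      show K - (n + 1) + 1 = K - n
      omega
    set S : Finset ι := univ.filter fun j => ∃ i, P i j ≠ 0 with hS
    have hSm : ∀ j, j ∈ S ↔ ∃ i, P i j ≠ 0 := fun j => by simp [hS]
    have h1 := stage he r hP hFr hWm hWb S (fun j hj => (hSm j).1 hj) F hF
      (fun j hj => by rw [hr1]; exact hF1 j ((hSm j).1 hj))
      (fun j hj => Or.inr fun i => by
        by_contra h
        exact hj ((hSm j).2 ⟨i, h⟩))
    refine ⟨fun j => if j ∈ S then ce μ (fr X (e j) r) (F j) else F j, fun j => ?_, fun j hj => ?_, fun j hj => ?_,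
      fun j => ?_, ?_⟩
    · show BM (if j ∈ S then ce μ (fr X (e j) r) (F j) else F j)
      split_ifs
      · exact ce_bm _
      · exact hF j
    · show InvN μ _ (if j ∈ S then ce μ (fr X (e j) r) (F j) else F j)
      rw [if_pos ((hSm j).2 hj)]
      exact (he j).ce r (hF j) (by rw [hr1]; exact hF1 j hj)
    · show (if j ∈ S then ce μ (fr X (e j) r) (F j) else F j) = _
      rw [if_neg (fun h => by
        obtain ⟨i, hi⟩ := (hSm j).1 h
        exact hi (hj i))]
      exact hF0 j hj
    · show μ[(if j ∈ S then ce μ (fr X (e j) r) (F j) else F j) | IG μ (e j)] =ᵐ[μ] _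
      split_ifs
      · exact (ce_IG ((he j).fr_flow r) (hF j)).trans (hFc j)
      · exact hFc j
    · filter_upwards [hFt, h1] with v hv1 hv2
      filter_upwards [hv1, hv2] with x hx1 hx2
      have h3 := hx1.add hx2
      rw [add_zero] at h3
      refine h3.congr fun N => ?_
      rw [← mul_add, ← sum_add_distrib]
      congr 1
      refine sum_congr rfl fun n _ => ?_
      ring

open Classical in
/-- the limit of one factor -/
noncomputable def lmt (μ : Measure X) (e : ∀ j, (Fin K → ℝ) → G j) (P : Fin d → ι → Polynomial ℝ) (f : ι → X → ℝ) (j : ι) :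
    X → ℝ := if ∃ i, P i j ≠ 0 then μ[f j | IG μ (e j)] else f j

/-- real functions, one-sided averages -/
theorem real_nil (he : ∀ j, Nil μ (e j)) {P : Fin d → ι → Polynomial ℝ} (hP : ∀ i j, (P i j).eval 0 = 0)
    (hFr : FreeR P) {W : ℕ → X → ℝ} (hWm : ∀ n, Measurable (W n)) (hWb : ∃ C : ℝ, ∀ n x, |W n x| ≤ C)
    {f : ι → X → ℝ} (hf : ∀ j, BM (f j)) :
      ∀ᵐ v : Fin d → Fin K → ℝ, ∀ᵐ x ∂μ, Tendsto (fun N : ℕ => (1 / (N : ℝ)) * ∑ n ∈ Icc 1 N, W n x *
        (∏ j, f j (wR (e j) (fun i => (P i j).eval (n : ℝ)) v • x) - ∏ j, lmt μ e P f j x)) atTop (nhds 0) := by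
  obtain ⟨F, hF, hF1, hF0, hFc, hFt⟩ := stages he hP hFr hWm hWb hf K le_rfl
  rw [Nat.sub_self] at hF1
  filter_upwards [hFt] with v hv
  have h1 : ∀ᵐ x ∂μ, ∀ (n : ℕ) (j : ι), F j (wR (e j) (fun i => (P i j).eval (n : ℝ)) v • x) = lmt μ e P f j x := by
    rw [ae_all_iff]; intro n
    rw [ae_all_iff]; intro j
    by_cases hj : ∃ i, P i j ≠ 0
    · have h2 : F j =ᵐ[μ] μ[f j | IG μ (e j)] := by
        have h3 := hFc j
        rw [inv_IG (hF j) (fun v => hF1 j hj _ (e_mem (he j).add (he j).split v))] at h3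
        exact h3
      have h3 : wR (e j) (fun i => (P i j).eval (n : ℝ)) v ∈ NN (e j) 0 := by
        unfold wR
        refine Subgroup.list_prod_mem _ fun g hg => ?_
        rw [List.mem_ofFn] at hg
        obtain ⟨i, rfl⟩ := hg
        exact e_mem (he j).add (he j).split _
      filter_upwards [h2, hF1 j hj _ h3] with x hx1 hx2
      rw [hx2, hx1]
      unfold lmt
      rw [if_pos hj]
    · refine ae_of_all _ fun x => ?_
      push Not at hj
      unfold lmt
      rw [if_neg (by push Not; exact hj), hF0 j hj]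
      congr 1
      have h4 : wR (e j) (fun i => (P i j).eval (n : ℝ)) v = 1 := by
        unfold wR
        simp only [hj, Polynomial.eval_zero, zero_smul, (he j).zero]
        rw [List.ofFn_const, List.prod_replicate, one_pow]
      rw [h4, one_smul]
  filter_upwards [hv, h1] with x hx1 hx2
  simpa only [hx2] using hx1

end stage

end Pool.Agent.W5h67.NF
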