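import Mathlib

/-!
Generic elements of nilpotent groups: definitions.
-/

set_option autoImplicit false

namespace Pool.Agent.W5h67.NF

open MeasureTheory Filter Finset

universe u v

/-- the subgroup generated by the one-parameter groups `s ↦ e (s b_l)`, `l ≥ n` -/
def NN {G : Type v} [Group G] {K : ℕ} (e : (Fin K → ℝ) → G) (n : ℕ) : Subgroup G :=
  Subgroup.closure {g | ∃ (l : Fin K) (s : ℝ), n ≤ (l : ℕ) ∧ g = e (Pi.single l s)}

/-- the word `e (t_0 v_0) * ... * e (t_(d-1) v_(d-1))` -/
def wR {G : Type v} [Group G] {K d : ℕ} (e : (Fin K → ℝ) → G) (t : Fin d → ℝ) (v : Fin d → Fin K → ℝ) : G :=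
  (List.ofFn fun i => e (t i • v i)).prod

/-- the function is invariant under the elements of the subgroup, up to null sets -/
def InvN {X : Type u} [MeasurableSpace X] (μ : Measure X) {G : Type v} [Group G] [MulAction G X] (N : Subgroup G)
    (F : X → ℝ) : Prop := ∀ g ∈ N, ∀ᵐ x ∂μ, F (g • x) = F x

/-- the measurable sets invariant under the group, up to null sets -/
def IG {X : Type u} [mX : MeasurableSpace X] (μ : Measure X) {G : Type v} [Group G] [MulAction G X] {K : ℕ}
    (e : (Fin K → ℝ) → G) : MeasurableSpace X where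
  MeasurableSet' A := MeasurableSet[mX] A ∧ ∀ v, (fun x : X => e v • x) ⁻¹' A =ᵐ[μ] A
  measurableSet_empty := ⟨@MeasurableSet.empty _ mX, fun _ => by rw [Set.preimage_empty]⟩
  measurableSet_compl A hA := ⟨hA.1.compl, fun v => by
    rw [Set.preimage_compl]
    exact (hA.2 v).compl⟩
  measurableSet_iUnion A hA := ⟨MeasurableSet.iUnion fun i => (hA i).1, fun v => by
    rw [Set.preimage_iUnion]
    exact Filter.EventuallyEq.countable_iUnion fun i => (hA i).2 v⟩

theorem IG_le {X : Type u} [mX : MeasurableSpace X] (μ : Measure X) {G : Type v} [Group G] [MulAction G X] {K : ℕ}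
    (e : (Fin K → ℝ) → G) : IG μ e ≤ mX := fun _ h => h.1

end Pool.Agent.W5h67.NF
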