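import Pool.Agent.W5h67.NF.Fin1

/-!
Words in noncommuting flows at generic times: several levels on top of families of words without any condition.
-/

set_option autoImplicit false

namespace Pool.Agent.W5h67.NF

open MeasureTheory Filter Finset
open Pool.Agent.Y957.MC (IsFlow flowInv smo)

universe u

section outer

variable {X : Type u} [MeasurableSpace X] {μ : Measure X} [IsProbabilityMeasure μ] {B : ℝ} {Ω : Type}
  [MeasurableSpace Ω] {ν : Measure Ω} [IsProbabilityMeasure ν]

/-- a word on top of a family -/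
def ow {X : Type u} {Ω : Type} {k : ℕ} (τ : Fin k → ℝ → X → X) (p : Fin k → ℕ → ℝ) (g : ℕ → Ω → X → X) (n : ℕ)
    (r : (Fin k → ℝ) × Ω) (x : X) : X :=
  wd k τ (fun i => r.1 i * p i n) (g n r.2 x)

theorem mp_tail2 (B : ℝ) (k : ℕ) (ν : Measure Ω) [IsProbabilityMeasure ν] :
    MeasurePreserving (fun r : (Fin (k + 1) → ℝ) × Ω => (r.1 0, ((fun i : Fin k => r.1 i.succ), r.2)))
    ((Measure.pi fun _ : Fin (k + 1) => lam B).prod ν)
    ((lam B).prod ((Measure.pi fun _ : Fin k => lam B).prod ν)) := by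
  have h1 := (mp_tail B k).prod (MeasurePreserving.id ν)
  have h2 := measurePreserving_prodAssoc (lam B) (Measure.pi fun _ : Fin k => lam B) ν
  exact h2.comp h1

/-- one word on top of a family -/
theorem single_base (hB : 0 < B) {g : ℕ → Ω → X → X} (hg : Fam μ g) {D : ℕ} (hP : Peel μ ν g D)
    {T : (X → ℝ) → X → ℝ} (hT : Lim μ ν g T) {k : ℕ} {τ : Fin k → ℝ → X → X} (hτ : ∀ i, IsFlow μ (τ i))
    {p : Fin k → ℕ → ℝ} {act : Fin k → Prop} (hp : ∀ i, act i → Tmc (p i)) (hp' : ∀ i, ¬ act i → ∀ n, p i n = 0) :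
    Fam μ (ow τ p g) ∧ (∃ D, Peel μ ((Measure.pi fun _ : Fin k => lam B).prod ν) (ow τ p g) D) ∧
      Lim μ ((Measure.pi fun _ : Fin k => lam B).prod ν) (ow τ p g) (fun f => T (iE μ k τ act f)) := by
  classical
  induction k with
  | zero =>
    have h := measurePreserving_snd (μ := Measure.pi fun _ : Fin 0 => lam B) (ν := ν)
    have h1 := hg.comp h.measurable
    have h2 := Peel.comp hg hP h
    have h3 := hT.comp h
    exact ⟨h1, ⟨D, h2⟩, h3⟩
  | succ k ih =>
    obtain ⟨hf, ⟨D', hD⟩, hL⟩ := ih (fun i => hτ i.succ) (p := fun i => p i.succ) (act := fun i => act i.succ)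
      (fun i => hp i.succ) (fun i => hp' i.succ)
    by_cases h0 : act 0
    · have h1 := fam_succ (p := p 0) hf (hτ 0)
      refine ⟨?_, ⟨D' + 1, ?_⟩, ?_⟩
      · have h := h1.comp (mp_tail2 B k ν).measurable
        exact h
      · have h := Peel.comp h1 (peel_succ hB hf hD (hτ 0) (hp 0 h0).toTms.toTm.incP) (mp_tail2 B k ν)
        exact h
      · have h := (lim_succ hB hf hD hL (hτ 0) (hp 0 h0).toTms).comp (mp_tail2 B k ν)
        have e : (fun f => T (iE μ (k + 1) τ act f)) =
            fun f => T (iE μ k (fun i => τ i.succ) (fun i => act i.succ) (ce μ (τ 0) f)) := by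
          funext f
          simp only [iE, if_pos h0]
        rw [e]
        exact h
    · have e0 : ow τ p g = fun n (r : (Fin (k + 1) → ℝ) × Ω) x =>
          ow (fun i : Fin k => τ i.succ) (fun i => p i.succ) g n ((fun i : Fin k => r.1 i.succ), r.2) x := by
        funext n r x
        show τ 0 (r.1 0 * p 0 n) _ = _
        rw [hp' 0 h0, mul_zero, (hτ 0).zero]
        rfl
      rw [e0]
      have h1 := fam_skip hf
      refine ⟨?_, ⟨D', ?_⟩, ?_⟩
      · have h := h1.comp (mp_tail2 B k ν).measurable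
        exact h
      · have h := Peel.comp h1 (peel_skip (B := B) hf hD) (mp_tail2 B k ν)
        exact h
      · have h := (lim_skip (B := B) hL).comp (mp_tail2 B k ν)
        have e : (fun f => T (iE μ (k + 1) τ act f)) =
            fun f => T (iE μ k (fun i => τ i.succ) (fun i => act i.succ) f) := by
          funext f
          simp only [iE, if_neg h0]
        rw [e]
        exact h

variable {ι : Type} [Fintype ι] [DecidableEq ι] {g : ι → ℕ → Ω → X → X} {D : ι → ℕ} {T : ι → (X → ℝ) → X → ℝ}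

/-- several levels with distinct degrees on top of arbitrary families -/
theorem outer (hB : 0 < B) (hg : ∀ j, Fam μ (g j)) (hP : ∀ j, Peel μ ν (g j) (D j)) (hT : ∀ j, Lim μ ν (g j) (T j))
    {k : ℕ} {τ : Fin k → ι → ℝ → X → X} (hτ : ∀ i j, IsFlow μ (τ i j)) {p : Fin k → ι → ℕ → ℝ}
    {act : Fin k → ι → Prop} {q : Fin k → ι → ℕ} (hp : ∀ i j, act i j → Tmc (p i j))
    (hp' : ∀ i j, ¬ act i j → ∀ n, p i j n = 0)
    (hq : ∀ i j j', act i j → act i j' → q i j = q i j' → j = j')
    (hsub : ∀ i j j', act i j → act i j' → q i j < q i j' → Sub (p i j) (p i j'))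
    (U : ℕ → Ω × X → ℝ) (hUm : ∀ n, Measurable (U n)) (hUb : ∃ C : ℝ, ∀ n y, |U n y| ≤ C)
    (f : ι → X → ℝ) (hf : ∀ j, BM (f j)) :
    ∀ᵐ z : ((Fin k → ℝ) × Ω) × X ∂(((Measure.pi fun _ : Fin k => lam B).prod ν).prod μ),
      Tendsto (fun N : ℕ => (1 / (N : ℝ)) * ∑ n ∈ Icc 1 N, U n (z.1.2, z.2) *
        (∏ j, f j (ow (fun i => τ i j) (fun i => p i j) (g j) n z.1 z.2) -
          ∏ j, iE μ k (fun i => τ i j) (fun i => act i j) (f j) (g j n z.1.2 z.2))) atTop (nhds 0) := by
  classical
  induction k generalizing f with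
  | zero =>
    filter_upwards with z
    have e : ∀ n, ∏ j, f j (ow (fun i => τ i j) (fun i => p i j) (g j) n z.1 z.2) -
          ∏ j, iE μ 0 (fun i => τ i j) (fun i => act i j) (f j) (g j n z.1.2 z.2) = 0 := by
      intro n
      show ∏ j, f j (g j n z.1.2 z.2) - ∏ j, f j (g j n z.1.2 z.2) = 0
      rw [sub_self]
    simp only [e, mul_zero, sum_const_zero]
    exact tendsto_const_nhds
  | succ k ih =>
    set G : ι → ℕ → (Fin k → ℝ) × Ω → X → X := fun j =>
      ow (fun i => τ i.succ j) (fun i => p i.succ j) (g j) with hG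
    have hS : ∀ j, Fam μ (G j) ∧ (∃ D, Peel μ ((Measure.pi fun _ : Fin k => lam B).prod ν) (G j) D) ∧
        Lim μ ((Measure.pi fun _ : Fin k => lam B).prod ν) (G j)
          (fun f => T j (iE μ k (fun i => τ i.succ j) (fun i => act i.succ j) f)) := fun j =>
      single_base hB (hg j) (hP j) (hT j) (fun i => hτ i.succ j) (p := fun i => p i.succ j)
        (act := fun i => act i.succ j) (fun i => hp i.succ j) (fun i => hp' i.succ j)
    choose hGf D' hGP hGT using fun j => (show Fam μ (G j) ∧ ∃ D, Peel μ ((Measure.pi fun _ : Fin k => lam B).prod ν)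
      (G j) D ∧ Lim μ ((Measure.pi fun _ : Fin k => lam B).prod ν) (G j)
          (fun f => T j (iE μ k (fun i => τ i.succ j) (fun i => act i.succ j) f)) from by
      obtain ⟨h1, ⟨D, h2⟩, h3⟩ := hS j
      exact ⟨h1, D, h2, h3⟩)
    set A : Finset ι := univ.filter fun j => act 0 j with hA
    obtain ⟨CU, hCU⟩ := hUb
    have hfc : ∀ n, BM (fun y : ((Fin k → ℝ) × Ω) × X => ∏ j ∈ univ \ A, f j (G j n y.1 y.2)) := fun n =>
      BM.prod _ fun j _ => (hf j).comp ((hGf j).meas n)
    have hfcb : ∃ C : ℝ, ∀ n (y : ((Fin k → ℝ) × Ω) × X), |∏ j ∈ univ \ A, f j (G j n y.1 y.2)| ≤ C := by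
      refine ⟨∏ j ∈ univ \ A, bd (f j), fun n y => ?_⟩
      rw [abs_prod]
      exact prod_le_prod (fun j _ => abs_nonneg _) fun j _ => bd_le (hf j) _
    obtain ⟨Cf, hCf⟩ := hfcb
    have h1 := claim hB hGf hGP hGT (fun j => hτ 0 j) (q := q 0) A (p := p 0) (fun j hj => hp 0 j (by simpa [hA] using hj))
      (fun j hj j' hj' => hq 0 j j' (by simpa [hA] using hj) (by simpa [hA] using hj'))
      (fun j hj j' hj' => hsub 0 j j' (by simpa [hA] using hj) (by simpa [hA] using hj'))
      (fun n y => U n (y.1.2, y.2) * ∏ j ∈ univ \ A, f j (G j n y.1 y.2))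
      (fun n => ((hUm n).comp ((measurable_snd.comp measurable_fst).prodMk measurable_snd)).mul (hfc n).1)
      ⟨|CU| * |Cf|, fun n y => by
        rw [abs_mul]
        exact mul_le_mul ((hCU n _).trans (le_abs_self _)) ((hCf n y).trans (le_abs_self _)) (abs_nonneg _)
          (abs_nonneg _)⟩ f hf
    set f' : ι → X → ℝ := fun j => if act 0 j then ce μ (τ 0 j) (f j) else f j with hf'
    have hf'm : ∀ j, BM (f' j) := by
      intro j
      simp only [hf']
      split_ifs
      · exact ce_bm _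
      · exact hf j
    have h2 := ae_skip (B := B) (ih (fun i => hτ i.succ) (p := fun i => p i.succ) (act := fun i => act i.succ)
      (q := fun i => q i.succ) (fun i => hp i.succ) (fun i => hp' i.succ) (fun i => hq i.succ)
      (fun i => hsub i.succ) f' hf'm)
    have h3 := ae_comp (h1.and h2) (mp_tail2 B k ν)
    filter_upwards [h3] with z hz
    obtain ⟨hz1, hz2⟩ := hz
    have h4 := hz1.add hz2
    rw [add_zero] at h4
    refine h4.congr fun N => ?_
    rw [← mul_add, ← sum_add_distrib]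
    congr 1
    refine sum_congr rfl fun n _ => ?_
    set zt : (Fin k → ℝ) × Ω := ((fun i : Fin k => z.1.1 i.succ), z.1.2) with hzt
    have e1 : ∏ j, f j (ow (fun i => τ i j) (fun i => p i j) (g j) n z.1 z.2) =
        (∏ j ∈ univ \ A, f j (G j n zt z.2)) * ∏ j ∈ A, f j (τ 0 j (z.1.1 0 * p 0 j n) (G j n zt z.2)) := by
      rw [← prod_sdiff (subset_univ A)]
      congr 1
      refine prod_congr rfl fun j hj => ?_
      have hj' : ¬ act 0 j := by simpa [hA] using hj
      show f j (τ 0 j (z.1.1 0 * p 0 j n) _) = _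
      rw [hp' 0 j hj', mul_zero, (hτ 0 j).zero]
      rfl
    have e2 : ∏ j, f' j (G j n zt z.2) =
        (∏ j ∈ univ \ A, f j (G j n zt z.2)) * ∏ j ∈ A, ce μ (τ 0 j) (f j) (G j n zt z.2) := by
      rw [← prod_sdiff (subset_univ A)]
      congr 1
      · refine prod_congr rfl fun j hj => ?_
        have hj' : ¬ act 0 j := by simpa [hA] using hj
        simp only [hf', if_neg hj']
      · refine prod_congr rfl fun j hj => ?_
        have hj' : act 0 j := by simpa [hA] using hj
        simp only [hf', if_pos hj']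
    have e3 : ∏ j, iE μ (k + 1) (fun i => τ i j) (fun i => act i j) (f j) (g j n z.1.2 z.2) =
        ∏ j, iE μ k (fun i => τ i.succ j) (fun i => act i.succ j) (f' j) (g j n z.1.2 z.2) := by
      refine prod_congr rfl fun j _ => ?_
      conv_lhs => unfold iE
    rw [e1, e3]
    show U n (z.1.2, z.2) * (∏ j ∈ univ \ A, f j (G j n zt z.2)) * _ + U n (z.1.2, z.2) * (∏ j, f' j (G j n zt z.2) - _) = _
    rw [e2]
    ring

end outer

end Pool.Agent.W5h67.NF
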