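import Pool.Agent.W5h67.NF.Outer

/-!
Words in noncommuting flows at generic times: several levels of one flow, polynomials, almost every parameter.
-/

set_option autoImplicit false

namespace Pool.Agent.W5h67.NF

open MeasureTheory Filter Finset
open Pool.Agent.Y957.MC (IsFlow flowInv smo)

universe u

section cubes

theorem ae_cubes2 {k d : ℕ} {Q : (Fin k → ℝ) × (Fin d → ℝ) → Prop}
    (h : ∀ B : ℝ, 0 < B → ∀ᵐ a ∂((Measure.pi fun _ : Fin k => lam B).prod (Measure.pi fun _ : Fin d => lam B)), Q a) :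
    ∀ᵐ a ∂((volume : Measure (Fin k → ℝ)).prod (volume : Measure (Fin d → ℝ))), Q a := by
  have h1 : ∀ K : ℕ, ∀ᵐ a ∂((volume : Measure (Fin k → ℝ)).prod (volume : Measure (Fin d → ℝ))),
      a ∈ (Set.pi Set.univ (fun _ : Fin k => Set.Ioc (-((K : ℝ) + 1)) ((K : ℝ) + 1))) ×ˢ
        (Set.pi Set.univ (fun _ : Fin d => Set.Ioc (-((K : ℝ) + 1)) ((K : ℝ) + 1))) → Q a := by
    intro K
    have hK : (0 : ℝ) < (K : ℝ) + 1 := by positivity
    have h2 := ((ac_pi (ac_lam hK) k).prod (ac_pi (ac_lam hK) d)).ae_le (h (4 * ((K : ℝ) + 1)) (by positivity))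
    rw [← Measure.restrict_pi_pi, ← Measure.restrict_pi_pi, Measure.prod_restrict] at h2
    rw [← ae_restrict_iff' ((MeasurableSet.univ_pi fun _ => measurableSet_Ioc).prod
      (MeasurableSet.univ_pi fun _ => measurableSet_Ioc))]
    exact h2
  rw [← ae_all_iff] at h1
  filter_upwards [h1] with a ha
  obtain ⟨K, hK⟩ := exists_nat_gt (∑ i, |a.1 i| + ∑ i, |a.2 i|)
  have hs1 : 0 ≤ ∑ i, |a.1 i| := sum_nonneg fun i _ => abs_nonneg _
  have hs2 : 0 ≤ ∑ i, |a.2 i| := sum_nonneg fun i _ => abs_nonneg _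
  refine ha K ⟨fun i _ => ?_, fun i _ => ?_⟩
  · have h3 : |a.1 i| ≤ ∑ i, |a.1 i| := single_le_sum (f := fun i => |a.1 i|) (fun _ _ => abs_nonneg _) (mem_univ i)
    have h4 := abs_le.1 (show |a.1 i| ≤ K by linarith)
    constructor <;> linarith [h4.1, h4.2]
  · have h3 : |a.2 i| ≤ ∑ i, |a.2 i| := single_le_sum (f := fun i => |a.2 i|) (fun _ _ => abs_nonneg _) (mem_univ i)
    have h4 := abs_le.1 (show |a.2 i| ≤ K by linarith)
    constructor <;> linarith [h4.1, h4.2]

end cubes

section words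

variable {X : Type u}

theorem wd_fl {d : ℕ} (τ : Fin d → ℝ → X → X) (P : Fin d → Polynomial ℝ) (a : Fin d → ℝ) (t : ℝ) (x : X) :
    wd d (fun i => fl (τ i) (P i)) (fun i => a i * (ab (P i)).eval t) x = wd d τ (fun i => a i * (P i).eval t) x := by
  induction d with
  | zero => rfl
  | succ d ih =>
    show fl (τ 0) (P 0) (a 0 * (ab (P 0)).eval t) (wd d _ _ x) = τ 0 (a 0 * (P 0).eval t) (wd d _ _ x)
    rw [fl_ab, ih (fun i => τ i.succ) (fun i => P i.succ) (fun i => a i.succ)]

variable [MeasurableSpace X] {μ : Measure X} {τ : ℝ → X → X}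

theorem wd_const (hτ : IsFlow μ τ) {k : ℕ} (t : Fin k → ℝ) (y : X) : wd k (fun _ => τ) t y = τ (∑ i, t i) y := by
  induction k with
  | zero =>
    rw [Fin.sum_univ_zero, hτ.zero]
    rfl
  | succ k ih =>
    show τ (t 0) (wd k (fun _ => τ) (fun i => t i.succ) y) = _
    rw [ih, ← hτ.add, Fin.sum_univ_succ]

variable [IsProbabilityMeasure μ]

theorem ce_ce (τ : ℝ → X → X) {f : X → ℝ} (hf : BM f) : ce μ τ (ce μ τ f) =ᵐ[μ] ce μ τ f := by
  have h1 : μ[ce μ τ f | flowInv τ] =ᵐ[μ] μ[μ[f | flowInv τ] | flowInv τ] := condExp_congr_ae (ce_ae hf)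
  have h2 : μ[μ[f | flowInv τ] | flowInv τ] = μ[f | flowInv τ] :=
    condExp_of_stronglyMeasurable (flowInv_le τ) stronglyMeasurable_condExp integrable_condExp
  rw [h2] at h1
  exact (ce_ae (ce_bm f)).trans (h1.trans (ce_ae hf).symm)

open Classical in
/-- the conditional expectation on the invariant sets of a flow, if a condition holds -/
noncomputable def co (μ : Measure X) (c : Prop) (τ : ℝ → X → X) (f : X → ℝ) : X → ℝ := if c then ce μ τ f else f

theorem iE_const (τ : ℝ → X → X) {k : ℕ} (act : Fin k → Prop) {f : X → ℝ} (hf : BM f) :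
    iE μ k (fun _ => τ) act f =ᵐ[μ] co μ (∃ l, act l) τ f := by
  unfold co
  induction k generalizing f with
  | zero =>
    rw [if_neg (by rintro ⟨l, _⟩; exact l.elim0)]
    exact EventuallyEq.rfl
  | succ k ih =>
    by_cases h0 : act 0
    · rw [if_pos ⟨0, h0⟩]
      have e : iE μ (k + 1) (fun _ => τ) act f = iE μ k (fun _ => τ) (fun i => act i.succ) (ce μ τ f) := by
        conv_lhs => unfold iE
        rw [if_pos h0]
      rw [e]
      refine (ih (fun i => act i.succ) (ce_bm f)).trans ?_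
      split_ifs
      · exact ce_ce τ hf
      · exact EventuallyEq.rfl
    · have e : iE μ (k + 1) (fun _ => τ) act f = iE μ k (fun _ => τ) (fun i => act i.succ) f := by
        conv_lhs => unfold iE
        rw [if_neg h0]
      rw [e]
      have e2 : (∃ l, act l) ↔ ∃ l : Fin k, act l.succ := by
        constructor
        · rintro ⟨l, hl⟩
          induction l using Fin.cases with
          | zero => exact absurd hl h0
          | succ l => exact ⟨l, hl⟩
        · rintro ⟨l, hl⟩
          exact ⟨_, hl⟩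
      have h3 := ih (fun i => act i.succ) hf
      by_cases hE : ∃ l : Fin k, act l.succ
      · rw [if_pos hE] at h3
        rw [if_pos (e2.2 hE)]
        exact h3
      · rw [if_neg hE] at h3
        rw [if_neg (fun h => hE (e2.1 h))]
        exact h3

variable {ι : Type} [Fintype ι] [DecidableEq ι]

/-- several levels of one flow on top of arbitrary words -/
theorem outerP (hτ : IsFlow μ τ) {k d : ℕ} {σ : Fin d → ι → ℝ → X → X} (hσ : ∀ i j, IsFlow μ (σ i j))
    {P : Fin d → ι → Polynomial ℝ} (hP : ∀ i j, P i j = 0 ∨ 0 < (P i j).natDegree)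
    {Q : Fin k → ι → Polynomial ℝ} (hQ : ∀ i j, Q i j = 0 ∨ 0 < (Q i j).natDegree)
    (hD : ∀ i j j', 0 < (Q i j).natDegree → (Q i j).natDegree = (Q i j').natDegree → j = j')
    {W : ℕ → X → ℝ} (hWm : ∀ n, Measurable (W n)) (hWb : ∃ C : ℝ, ∀ n x, |W n x| ≤ C)
    {f : ι → X → ℝ} (hf : ∀ j, BM (f j)) :
    ∀ᵐ s ∂((volume : Measure (Fin k → ℝ)).prod (volume : Measure (Fin d → ℝ))), ∀ᵐ x ∂μ,
      Tendsto (fun N : ℕ => (1 / (N : ℝ)) * ∑ n ∈ Icc 1 N, W n x *
        (∏ j, f j (τ (∑ l, s.1 l * (Q l j).eval (n : ℝ))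
            (wd d (fun i => σ i j) (fun i => s.2 i * (P i j).eval (n : ℝ)) x)) -
          ∏ j, co μ (∃ l, 0 < (Q l j).natDegree) τ (f j)
            (wd d (fun i => σ i j) (fun i => s.2 i * (P i j).eval (n : ℝ)) x))) atTop (nhds 0) := by
  refine ae_cubes2 fun B hB => ?_
  obtain ⟨CW, hCW⟩ := hWb
  set g : ι → ℕ → (Fin d → ℝ) → X → X := fun j =>
    gw (fun i => fl (σ i j) (P i j)) (fun i n => (ab (P i j)).eval (n : ℝ)) with hg
  have hgf : ∀ j, Fam μ (g j) := fun j => fam_gw (fun i => fl_flow (hσ i j) _) _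
  have hS : ∀ j, (∃ D, Peel μ (Measure.pi fun _ : Fin d => lam B) (g j) D) ∧
      Lim μ (Measure.pi fun _ : Fin d => lam B) (g j)
        (iE μ d (fun i => fl (σ i j) (P i j)) (fun i => 0 < (P i j).natDegree)) := fun j =>
    single hB (fun i => fl_flow (hσ i j) _) (fun i h => poly_tmc (by rw [ab_deg]; exact h) (ab_lead h))
      (fun i h n => by
        have h0 : P i j = 0 := (hP i j).resolve_right h
        rw [h0]
        unfold ab
        simp)
  choose D hPe using fun j => (hS j).1
  have h1 := outer hB hgf hPe (fun j => (hS j).2) (k := k) (τ := fun l j => fl τ (Q l j)) (fun l j => fl_flow hτ _)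
    (p := fun l j n => (ab (Q l j)).eval (n : ℝ)) (act := fun l j => 0 < (Q l j).natDegree)
    (q := fun l j => (Q l j).natDegree)
    (fun i j h => poly_tmc (by rw [ab_deg]; exact h) (ab_lead h))
    (fun i j h n => by
      have h0 : Q i j = 0 := (hQ i j).resolve_right h
      rw [h0]
      unfold ab
      simp)
    (fun i j j' h1 h2 h3 => hD i j j' h1 h3)
    (fun i j j' h1 h2 h3 => poly_sub (by rw [ab_deg, ab_deg]; exact h3) (ab_lead h2))
    (fun n y => W n y.2) (fun n => (hWm n).comp measurable_snd) ⟨CW, fun n y => hCW n y.2⟩ f hf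
  have h2 := Measure.ae_ae_of_ae_prod h1
  filter_upwards [h2] with s hs
  have hgw : ∀ (n : ℕ) j x, g j n s.2 x = wd d (fun i => σ i j) (fun i => s.2 i * (P i j).eval (n : ℝ)) x := by
    intro n j x
    exact wd_fl (fun i => σ i j) (fun i => P i j) s.2 (n : ℝ) x
  have how : ∀ (n : ℕ) j x, ow (fun l => fl τ (Q l j)) (fun l n => (ab (Q l j)).eval (n : ℝ)) (g j) n s x =
      τ (∑ l, s.1 l * (Q l j).eval (n : ℝ)) (wd d (fun i => σ i j) (fun i => s.2 i * (P i j).eval (n : ℝ)) x) := by
    intro n j x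
    show wd k _ _ (g j n s.2 x) = _
    rw [hgw]
    rw [← wd_const hτ]
    exact wd_fl (fun _ => τ) (fun l => Q l j) s.1 (n : ℝ) _
  have h3 : ∀ᵐ x ∂μ, ∀ (n : ℕ) (j : ι),
      iE μ k (fun l => fl τ (Q l j)) (fun l => 0 < (Q l j).natDegree) (f j)
        (wd d (fun i => σ i j) (fun i => s.2 i * (P i j).eval (n : ℝ)) x) =
      co μ (∃ l, 0 < (Q l j).natDegree) τ (f j)
        (wd d (fun i => σ i j) (fun i => s.2 i * (P i j).eval (n : ℝ)) x) := by
    rw [ae_all_iff]
    intro n
    rw [ae_all_iff]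
    intro j
    have hmp : MeasurePreserving (wd d (fun i => σ i j) (fun i => s.2 i * (P i j).eval (n : ℝ))) μ μ := by
      have h4 := (hgf j).mp n s.2
      have h5 : g j n s.2 = wd d (fun i => σ i j) (fun i => s.2 i * (P i j).eval (n : ℝ)) := by
        funext x
        exact hgw n j x
      rw [h5] at h4
      exact h4
    have e1 : iE μ k (fun l => fl τ (Q l j)) (fun l => 0 < (Q l j).natDegree) (f j) =
        iE μ k (fun _ => τ) (fun l => 0 < (Q l j).natDegree) (f j) := by
      have key : ∀ (k : ℕ) (R : Fin k → Polynomial ℝ) (act : Fin k → Prop) (f : X → ℝ),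
          iE μ k (fun l => fl τ (R l)) act f = iE μ k (fun _ => τ) act f := by
        intro k
        induction k with
        | zero => intro _ _ _; rfl
        | succ k ih =>
          intro R act f
          unfold iE
          rw [ih (fun i => R i.succ), fl_ce]
      exact key k (fun l => Q l j) _ _
    rw [e1]
    exact hmp.quasiMeasurePreserving.ae (iE_const τ (fun l => 0 < (Q l j).natDegree) (hf j))
  filter_upwards [hs, h3] with x hx hx3
  refine hx.congr fun N => ?_
  congr 1
  refine sum_congr rfl fun n _ => ?_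
  show W n x * _ = _
  congr 1
  congr 1
  · exact prod_congr rfl fun j _ => by rw [← how n j x]
  · exact prod_congr rfl fun j _ => by rw [← hx3 n j, ← hgw n j x]

end words

end Pool.Agent.W5h67.NF
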