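import Pool.Agent.W5h67.NF.Base
import Pool.Agent.Y261.MC.Cov

/-!
Words in noncommuting flows at generic times: the flows can be peeled off, at the cost of passing to short blocks.
-/

set_option autoImplicit false

namespace Pool.Agent.W5h67.NF

open MeasureTheory Filter Finset
open Pool.Agent.Y957.MC (IsFlow flowInv smo)
open Pool.Agent.Y261.MC (harm_le sum_dist)

universe u

/-- increments of the times -/
def Inc (p : ℕ → ℝ) (c₁ c₂ : ℝ) (s e : ℕ) : Prop :=
  ∀ n, s ≤ n → n < e → c₁ ≤ p (n + 1) - p n ∧ p (n + 1) - p n ≤ c₂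

theorem Inc.low {p : ℕ → ℝ} {c₁ c₂ : ℝ} {s e : ℕ} (h : Inc p c₁ c₂ s e) {m n : ℕ} (h1 : s ≤ m) (h2 : m ≤ n)
    (h3 : n ≤ e) : c₁ * ((n : ℝ) - m) ≤ p n - p m := by
  induction n, h2 using Nat.le_induction with
  | base => simp
  | succ n hn ih =>
    have h4 := ih (by omega)
    have h5 := (h n (by omega) (by omega)).1
    push_cast
    linarith

theorem Inc.upp {p : ℕ → ℝ} {c₁ c₂ : ℝ} {s e : ℕ} (h : Inc p c₁ c₂ s e) {m n : ℕ} (h1 : s ≤ m) (h2 : m ≤ n)
    (h3 : n ≤ e) : p n - p m ≤ c₂ * ((n : ℝ) - m) := by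
  induction n, h2 using Nat.le_induction with
  | base => simp
  | succ n hn ih =>
    have h4 := ih (by omega)
    have h5 := (h n (by omega) (by omega)).2
    push_cast
    linarith

theorem sum_blocks (f : ℕ → ℝ) (H R : ℕ) :
    ∑ r ∈ range (H * R), f r = ∑ i ∈ range R, ∑ r ∈ range H, f (i * H + r) := by
  induction R with
  | zero => simp
  | succ R ih =>
    rw [Nat.mul_succ, sum_range_add, ih, sum_range_succ, Nat.mul_comm H R]

section peel

variable {X : Type u} [MeasurableSpace X] {μ : Measure X} [IsProbabilityMeasure μ] {τ : ℝ → X → X}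
  {b B : ℝ}

theorem sum_kernel (R : ℕ) {c : ℝ} (hc : 0 ≤ c) :
    ∑ i ∈ range R, ∑ j ∈ range R, c / ((((i - j) + (j - i) : ℕ) : ℝ) + 1) ≤ 4 * c * R * Real.sqrt R := by
  rcases Nat.eq_zero_or_pos R with rfl | hR
  · simp
  have h1 : ∀ i ∈ range R, ∑ j ∈ range R, c / ((((i - j) + (j - i) : ℕ) : ℝ) + 1) ≤ c * (4 * Real.sqrt R) := by
    intro i hi
    rw [mem_range] at hi
    have h2 := sum_dist (fun k => (1 : ℝ) / (k + 1)) (fun k => by positivity) (range R) (R - 1) i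
      (fun m hm => by rw [mem_range] at hm; omega) (by omega)
    rw [Nat.sub_add_cancel hR] at h2
    have h3 := harm_le R
    have h4 : ∑ j ∈ range R, c / ((((i - j) + (j - i) : ℕ) : ℝ) + 1) =
        c * ∑ j ∈ range R, (1 : ℝ) / ((((i - j) + (j - i) : ℕ) : ℝ) + 1) := by
      rw [mul_sum]
      exact sum_congr rfl fun j _ => by ring
    rw [h4]
    exact mul_le_mul_of_nonneg_left (by linarith) hc
  refine (sum_le_sum h1).trans (le_of_eq ?_)
  rw [sum_const, card_range, nsmul_eq_mul]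
  ring

theorem peel1 (hB : 0 < B) (hτ : IsFlow μ τ) {p : ℕ → ℝ} {c₁ κ : ℝ} (hc : 0 < c₁) (hκ : 1 ≤ κ) {s H R : ℕ}
    (hH : 1 ≤ H) (hR : 1 ≤ R) (hinc : Inc p c₁ (κ * c₁) s (s + H * R)) {F : ℕ → X → ℝ} (hF : ∀ n, BM (F n))
    (hb : ∀ n, ∫ x, F n x ^ 2 ∂μ ≤ b) :
    ∫ a, ∫ x, (∑ r ∈ range (H * R), F (s + r) (τ (a * p (s + r)) x)) ^ 2 ∂μ ∂lam B ≤
      R * ∑ i ∈ range R, ∫ x, (∑ r ∈ range H, F (s + i * H + r) x) ^ 2 ∂μ +
        48 * κ * b * (H * R) ^ 2 / Real.sqrt R := by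
  have hb0 : 0 ≤ b := (integral_nonneg fun x => sq_nonneg _).trans (hb 0)
  set K : Finset (ℕ × ℕ) := range R ×ˢ range H with hK
  set Fk : ℕ × ℕ → X → ℝ := fun k => F (s + k.1 * H + k.2) with hFk
  set t : ℕ × ℕ → ℝ := fun k => p (s + k.1 * H + k.2) with ht
  set t' : ℕ × ℕ → ℝ := fun k => p (s + k.1 * H) with ht'
  have hFkm : ∀ k, BM (Fk k) := fun k => hF _
  have e1 : ∀ (a : ℝ) (x : X), ∑ r ∈ range (H * R), F (s + r) (τ (a * p (s + r)) x) =
      ∑ k ∈ K, Fk k (τ (a * t k) x) := by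
    intro a x
    rw [sum_blocks (fun r => F (s + r) (τ (a * p (s + r)) x)) H R, hK, sum_product]
    simp only [hFk, ht, add_assoc]
  simp only [e1]
  rw [expand K hτ hFkm t]
  -- comparison of the correlations
  have key : ∀ k ∈ K, ∀ l ∈ K, Phi B μ τ (Fk k) (Fk l) (t k - t l) ≤ Phi B μ τ (Fk k) (Fk l) (t' k - t' l) +
      12 * b * κ / ((((k.1 - l.1) + (l.1 - k.1) : ℕ) : ℝ) + 1) := by
    have hfar : ∀ i j r r' : ℕ, i < R → j + 2 ≤ i → r < H → r' < H →
        0 < c₁ * (((i : ℝ) - j - 1) * H) ∧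
        c₁ * (((i : ℝ) - j - 1) * H) ≤ p (s + i * H + r) - p (s + j * H + r') ∧
        c₁ * (((i : ℝ) - j - 1) * H) ≤ p (s + i * H) - p (s + j * H) ∧
        |(p (s + i * H + r) - p (s + j * H + r')) - (p (s + i * H) - p (s + j * H))| ≤ κ * c₁ * H := by
      intro i j r r' hi hij hr hr'
      have hi1 : (i + 1) * H ≤ H * R := by rw [Nat.mul_comm H R]; exact Nat.mul_le_mul_right H hi
      have hi2 : i * H + H ≤ H * R := by rw [← Nat.succ_mul]; exact hi1
      have hj1 : j * H + 2 * H ≤ i * H := by rw [← Nat.add_mul]; exact Nat.mul_le_mul_right H hij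
      have hH0 : (0 : ℝ) < H := by exact_mod_cast hH
      have hij' : (j : ℝ) + 2 ≤ i := by exact_mod_cast hij
      have hrr : (r' : ℝ) ≤ H := by exact_mod_cast hr'.le
      have hrr2 : (r : ℝ) ≤ H := by exact_mod_cast hr.le
      have hr0 : (0 : ℝ) ≤ r := Nat.cast_nonneg _
      have hr0' : (0 : ℝ) ≤ r' := Nat.cast_nonneg _
      have a1 := hinc.low (m := s + j * H + r') (n := s + i * H + r) (by omega) (by omega) (by omega)
      have a2 := hinc.low (m := s + j * H) (n := s + i * H) (by omega) (by omega) (by omega)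
      have a3 := hinc.upp (m := s + i * H) (n := s + i * H + r) (by omega) (by omega) (by omega)
      have a4 := hinc.upp (m := s + j * H) (n := s + j * H + r') (by omega) (by omega) (by omega)
      have a5 := hinc.low (m := s + i * H) (n := s + i * H + r) (by omega) (by omega) (by omega)
      have a6 := hinc.low (m := s + j * H) (n := s + j * H + r') (by omega) (by omega) (by omega)
      push_cast at a1 a2 a3 a4 a5 a6
      have b3 : κ * c₁ * ((s : ℝ) + i * H + r - (s + i * H)) ≤ κ * c₁ * H := by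
        refine mul_le_mul_of_nonneg_left (by linarith) (by positivity)
      have b4 : κ * c₁ * ((s : ℝ) + j * H + r' - (s + j * H)) ≤ κ * c₁ * H := by
        refine mul_le_mul_of_nonneg_left (by linarith) (by positivity)
      have b5 : 0 ≤ c₁ * ((s : ℝ) + i * H + r - (s + i * H)) := mul_nonneg hc.le (by linarith)
      have b6 : 0 ≤ c₁ * ((s : ℝ) + j * H + r' - (s + j * H)) := mul_nonneg hc.le (by linarith)
      refine ⟨mul_pos hc (mul_pos (by linarith) hH0), le_trans ?_ a1, le_trans ?_ a2, ?_⟩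
      · refine mul_le_mul_of_nonneg_left ?_ hc.le
        nlinarith
      · refine mul_le_mul_of_nonneg_left ?_ hc.le
        nlinarith
      · rw [abs_le]
        constructor <;> linarith
    intro k hk l hl
    rw [hK, mem_product, mem_range, mem_range] at hk hl
    obtain ⟨i, r⟩ := k
    obtain ⟨j, r'⟩ := l
    simp only at hk hl
    have hH0 : (0 : ℝ) < H := by exact_mod_cast hH
    have hcase : |Phi B μ τ (Fk (i, r)) (Fk (j, r')) (t (i, r) - t (j, r')) -
        Phi B μ τ (Fk (i, r)) (Fk (j, r')) (t' (i, r) - t' (j, r'))| ≤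
        12 * b * κ / ((((i - j) + (j - i) : ℕ) : ℝ) + 1) := by
      by_cases h1 : (i - j) + (j - i) ≤ 1
      · have b1 := Phi_le (B := B) hτ (hFkm (i, r)) (hFkm (j, r')) (hb _) (hb _) (t (i, r) - t (j, r'))
        have b2 := Phi_le (B := B) hτ (hFkm (i, r)) (hFkm (j, r')) (hb _) (hb _) (t' (i, r) - t' (j, r'))
        have h2 : ((((i - j) + (j - i) : ℕ) : ℝ)) ≤ 1 := by exact_mod_cast h1
        have h3 : (0 : ℝ) ≤ (((i - j) + (j - i) : ℕ) : ℝ) := Nat.cast_nonneg _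
        have h4 : 2 * b ≤ 12 * b * κ / ((((i - j) + (j - i) : ℕ) : ℝ) + 1) := by
          rw [le_div_iff₀ (by linarith)]
          nlinarith [mul_nonneg hb0 (sub_nonneg.2 hκ), mul_nonneg hb0 (sub_nonneg.2 h2)]
        refine (abs_sub _ _).trans ?_
        linarith
      · have hfin : ∀ D : ℝ, 2 ≤ D → 2 * b * (κ * c₁ * H) / (c₁ * ((D - 1) * H)) ≤ 12 * b * κ / (D + 1) := by
          intro D hD
          rw [div_le_div_iff₀ (mul_pos hc (mul_pos (by linarith) hH0)) (by linarith)]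
          have h5 : 0 ≤ b * κ * c₁ * H := by positivity
          nlinarith [mul_nonneg h5 (sub_nonneg.2 hD)]
        rcases Nat.lt_or_ge j i with hij | hij
        · have hij2 : j + 2 ≤ i := by omega
          obtain ⟨h6, h7, h8, h9⟩ := hfar i j r r' hk.1 hij2 hk.2 hl.2
          have h10 := Phi_cmp (B := B) hB hτ (hFkm (i, r)) (hFkm (j, r')) (hb _) (hb _)
            (h := t (i, r) - t (j, r')) (h' := t' (i, r) - t' (j, r')) h6 (h7.trans (le_abs_self _))
            (h8.trans (le_abs_self _)) h9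
          refine h10.trans ?_
          have h11 : ((((i - j) + (j - i) : ℕ) : ℝ)) = (i : ℝ) - j := by
            rw [Nat.sub_eq_zero_of_le hij.le, add_zero, Nat.cast_sub hij.le]
          rw [h11]
          refine hfin _ ?_
          have : (j : ℝ) + 2 ≤ i := by exact_mod_cast hij2
          linarith
        · have hij2 : i + 2 ≤ j := by omega
          obtain ⟨h6, h7, h8, h9⟩ := hfar j i r' r hl.1 hij2 hl.2 hk.2
          have h10 := Phi_cmp (B := B) hB hτ (hFkm (i, r)) (hFkm (j, r')) (hb _) (hb _)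
            (h := t (i, r) - t (j, r')) (h' := t' (i, r) - t' (j, r')) h6
            (by rw [abs_sub_comm]; exact h7.trans (le_abs_self _))
            (by rw [abs_sub_comm]; exact h8.trans (le_abs_self _))
            (v := κ * c₁ * H) (by
              refine le_trans (le_of_eq ?_) h9
              rw [← abs_neg]
              congr 1
              simp only [ht, ht']
              ring)
          refine h10.trans ?_
          have h11 : ((((i - j) + (j - i) : ℕ) : ℝ)) = (j : ℝ) - i := by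
            rw [Nat.sub_eq_zero_of_le hij, zero_add, Nat.cast_sub hij]
          rw [h11]
          refine hfin _ ?_
          have : (i : ℝ) + 2 ≤ j := by exact_mod_cast hij2
          linarith
    have := (abs_le.1 hcase).2
    linarith
  have step1 : ∑ k ∈ K, ∑ l ∈ K, Phi B μ τ (Fk k) (Fk l) (t k - t l) ≤
      ∑ k ∈ K, ∑ l ∈ K, Phi B μ τ (Fk k) (Fk l) (t' k - t' l) +
        ∑ k ∈ K, ∑ l ∈ K, 12 * b * κ / ((((k.1 - l.1) + (l.1 - k.1) : ℕ) : ℝ) + 1) := by
    rw [← sum_add_distrib]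
    refine sum_le_sum fun k hk => ?_
    rw [← sum_add_distrib]
    exact sum_le_sum fun l hl => key k hk l hl
  refine step1.trans (add_le_add ?_ ?_)
  · rw [← expand K hτ hFkm t']
    have hGm : ∀ i, BM (fun x => ∑ r ∈ range H, F (s + i * H + r) x) := fun i => BM.sum _ fun r _ => hF _
    have e2 : ∀ (a : ℝ) (x : X), (∑ k ∈ K, Fk k (τ (a * t' k) x)) ^ 2 ≤
        R * ∑ i ∈ range R, (∑ r ∈ range H, F (s + i * H + r) (τ (a * p (s + i * H)) x)) ^ 2 := by
      intro a x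
      have e3 : ∑ k ∈ K, Fk k (τ (a * t' k) x) =
          ∑ i ∈ range R, ∑ r ∈ range H, F (s + i * H + r) (τ (a * p (s + i * H)) x) := by
        rw [hK, sum_product]
      rw [e3]
      have := sq_sum_le_card_mul_sum_sq (s := range R)
        (f := fun i => ∑ r ∈ range H, F (s + i * H + r) (τ (a * p (s + i * H)) x))
      rwa [card_range] at this
    have hm1 : BM (fun q : ℝ × X => (∑ k ∈ K, Fk k (τ (q.1 * t' k) q.2)) ^ 2) :=
      (BM.sum K fun k _ => (hFkm k).comp (flow_meas hτ (t' k))).sq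
    have hm2 : ∀ i, BM (fun q : ℝ × X => (∑ r ∈ range H, F (s + i * H + r) (τ (q.1 * p (s + i * H)) q.2)) ^ 2) :=
      fun i => ((hGm i).comp (flow_meas hτ (p (s + i * H)))).sq
    have hm3 : BM (fun q : ℝ × X => (R : ℝ) * ∑ i ∈ range R,
        (∑ r ∈ range H, F (s + i * H + r) (τ (q.1 * p (s + i * H)) q.2)) ^ 2) :=
      (BM.sum _ fun i _ => hm2 i).smul _
    have hm1r : ∀ a : ℝ, BM (fun x => (∑ k ∈ K, Fk k (τ (a * t' k) x)) ^ 2) := fun a =>
      (BM.sum K fun k _ => (hFkm k).comp (hτ.mp _).measurable).sq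
    have hm2r : ∀ (a : ℝ) i, BM (fun x => (∑ r ∈ range H, F (s + i * H + r) (τ (a * p (s + i * H)) x)) ^ 2) :=
      fun a i => ((hGm i).comp (hτ.mp _).measurable).sq
    have hm3r : ∀ a : ℝ, BM (fun x => (R : ℝ) * ∑ i ∈ range R,
        (∑ r ∈ range H, F (s + i * H + r) (τ (a * p (s + i * H)) x)) ^ 2) := fun a =>
      (BM.sum _ fun i _ => hm2r a i).smul _
    have e4 : ∫ a, ∫ x, (∑ k ∈ K, Fk k (τ (a * t' k) x)) ^ 2 ∂μ ∂lam B ≤
        ∫ a, ∫ x, R * ∑ i ∈ range R, (∑ r ∈ range H, F (s + i * H + r) (τ (a * p (s + i * H)) x)) ^ 2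
          ∂μ ∂lam B := by
      refine integral_mono ((BM.integral (f := fun a x => (∑ k ∈ K, Fk k (τ (a * t' k) x)) ^ 2) hm1 μ).int _)
        ((BM.integral (f := fun a x => R * ∑ i ∈ range R,
          (∑ r ∈ range H, F (s + i * H + r) (τ (a * p (s + i * H)) x)) ^ 2) hm3 μ).int _) fun a => ?_
      exact integral_mono ((hm1r a).int μ) ((hm3r a).int μ) fun x => e2 a x
    refine e4.trans (le_of_eq ?_)
    have e5 : ∀ a : ℝ, ∫ x, R * ∑ i ∈ range R,
        (∑ r ∈ range H, F (s + i * H + r) (τ (a * p (s + i * H)) x)) ^ 2 ∂μ =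
        R * ∑ i ∈ range R, ∫ x, (∑ r ∈ range H, F (s + i * H + r) x) ^ 2 ∂μ := by
      intro a
      rw [integral_const_mul, integral_finsetSum _ fun i _ => (hm2r a i).int μ]
      congr 1
      refine sum_congr rfl fun i _ => ?_
      exact mp_int (hτ.mp _) (f := fun x => (∑ r ∈ range H, F (s + i * H + r) x) ^ 2) (hGm i).sq.1
    simp only [e5, integral_const, probReal_univ, one_smul]
  · rw [hK]
    simp only [sum_product, sum_const, card_range, nsmul_eq_mul]
    have h12 := sum_kernel R (c := 12 * b * κ) (by positivity)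
    have h13 : ∑ i ∈ range R, (H : ℝ) * ∑ j ∈ range R, (H : ℝ) * (12 * b * κ / ((((i - j) + (j - i) : ℕ) : ℝ) + 1)) =
        (H : ℝ) ^ 2 * ∑ i ∈ range R, ∑ j ∈ range R, 12 * b * κ / ((((i - j) + (j - i) : ℕ) : ℝ) + 1) := by
      rw [mul_sum]
      refine sum_congr rfl fun i _ => ?_
      rw [← mul_sum]
      ring
    rw [h13]
    have hR0 : (0 : ℝ) < R := by exact_mod_cast hR
    have hs : 0 < Real.sqrt R := Real.sqrt_pos.2 hR0
    have hs2 : Real.sqrt R * Real.sqrt R = R := Real.mul_self_sqrt hR0.le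
    refine (mul_le_mul_of_nonneg_left h12 (by positivity)).trans (le_of_eq ?_)
    rw [eq_div_iff hs.ne']
    calc (H : ℝ) ^ 2 * (4 * (12 * b * κ) * R * Real.sqrt R) * Real.sqrt R =
        (H : ℝ) ^ 2 * (4 * (12 * b * κ) * R) * (Real.sqrt R * Real.sqrt R) := by ring
      _ = 48 * κ * b * (H * R) ^ 2 := by rw [hs2]; ring

end peel

section fam

variable {X : Type u} [MeasurableSpace X] {Ω : Type*} [MeasurableSpace Ω]

/-- families of measure preserving maps -/
structure Fam (μ : Measure X) (g : ℕ → Ω → X → X) : Prop where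
  meas : ∀ n, Measurable (fun q : Ω × X => g n q.1 q.2)
  mp : ∀ n ω, MeasurePreserving (g n ω) μ μ

/-- mean squares of averages along the family are controlled by the averages over short blocks of the functions -/
def Peel (μ : Measure X) (ν : Measure Ω) (g : ℕ → Ω → X → X) (d : ℕ) : Prop :=
  ∀ ε : ℝ, 0 < ε → ∃ C : ℝ, 0 < C ∧ ∀ᶠ N : ℕ in atTop, ∀ s H R : ℕ, 1 ≤ H → 1 ≤ R → ε * N ≤ s →
    s + H * R ^ d ≤ N + 1 → ∀ (F : ℕ → X → ℝ) (b : ℝ), (∀ n, BM (F n)) → (∀ n, ∫ x, F n x ^ 2 ∂μ ≤ b) →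
      ∫ ω, ∫ x, (∑ r ∈ range (H * R ^ d), F (s + r) (g (s + r) ω x)) ^ 2 ∂μ ∂ν ≤
        C * ((R : ℝ) ^ d * ∑ j ∈ range (R ^ d), ∫ x, (∑ r ∈ range H, F (s + j * H + r) x) ^ 2 ∂μ +
          b * (H * R ^ d) ^ 2 / Real.sqrt R)

/-- the regularity of the sequence of times -/
def IncP (p : ℕ → ℝ) : Prop := ∀ ε : ℝ, 0 < ε → ∃ κ : ℝ, 1 ≤ κ ∧ ∀ᶠ N : ℕ in atTop, ∃ c₁ : ℝ, 0 < c₁ ∧
  ∀ n : ℕ, ε * N ≤ n → n ≤ N → c₁ ≤ p (n + 1) - p n ∧ p (n + 1) - p n ≤ κ * c₁

variable {μ : Measure X} [IsProbabilityMeasure μ] {ν : Measure Ω} [IsProbabilityMeasure ν]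
  {g : ℕ → Ω → X → X} {d : ℕ} {τ : ℝ → X → X} {p : ℕ → ℝ} {B : ℝ}

omit [IsProbabilityMeasure μ] in
theorem fam_id : Fam μ (fun (_ : ℕ) (_ : Ω) (x : X) => x) :=
  ⟨fun _ => measurable_snd, fun _ _ => MeasurePreserving.id μ⟩

omit [IsProbabilityMeasure μ] in
theorem fam_succ (hg : Fam μ g) (hτ : IsFlow μ τ) :
    Fam μ (fun (n : ℕ) (q : ℝ × Ω) (x : X) => τ (q.1 * p n) (g n q.2 x)) := by
  refine ⟨fun n => ?_, fun n q => (hτ.mp _).comp (hg.mp n q.2)⟩
  refine hτ.meas.comp (Measurable.prodMk ?_ ?_)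
  · exact (measurable_fst.comp measurable_fst).mul_const _
  · exact (hg.meas n).comp ((measurable_snd.comp measurable_fst).prodMk measurable_snd)

omit [IsProbabilityMeasure μ] in
theorem fam_skip (hg : Fam μ g) : Fam μ (fun (n : ℕ) (q : ℝ × Ω) (x : X) => g n q.2 x) := by
  refine ⟨fun n => ?_, fun n q => hg.mp n q.2⟩
  exact (hg.meas n).comp ((measurable_snd.comp measurable_fst).prodMk measurable_snd)

omit [IsProbabilityMeasure μ] in
theorem peel_zero : Peel μ ν (fun (_ : ℕ) (_ : Ω) (x : X) => x) 0 := by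
  intro ε hε
  refine ⟨1, one_pos, Eventually.of_forall fun N s H R hH hR hs hsN F b hF hb => ?_⟩
  have hb0 : 0 ≤ b := (integral_nonneg fun x => sq_nonneg _).trans (hb 0)
  simp only [integral_const, probReal_univ, one_smul, pow_zero, mul_one, range_one, sum_singleton, zero_mul,
    add_zero, one_mul]
  have : 0 ≤ b * (H : ℝ) ^ 2 / Real.sqrt R := by positivity
  linarith

theorem peel_skip (hg : Fam μ g) (h : Peel μ ν g d) :
    Peel μ ((lam B).prod ν) (fun (n : ℕ) (q : ℝ × Ω) (x : X) => g n q.2 x) d := by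
  intro ε hε
  obtain ⟨C, hC, hN⟩ := h ε hε
  refine ⟨C, hC, ?_⟩
  filter_upwards [hN] with N hN s H R hH hR hs hsN F b hF hb
  have h1 := hN s H R hH hR hs hsN F b hF hb
  have hm : BM (fun q : Ω × X => (∑ r ∈ range (H * R ^ d), F (s + r) (g (s + r) q.1 q.2)) ^ 2) :=
    (BM.sum _ fun r _ => (hF _).comp (hg.meas _)).sq
  have hm2 : BM (fun ω => ∫ x, (∑ r ∈ range (H * R ^ d), F (s + r) (g (s + r) ω x)) ^ 2 ∂μ) :=
    BM.integral (f := fun ω x => (∑ r ∈ range (H * R ^ d), F (s + r) (g (s + r) ω x)) ^ 2) hm μ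
  rw [integral_prod _ ((hm2.comp measurable_snd).int _)]
  simpa only [integral_const, probReal_univ, one_smul] using h1

theorem peel_succ (hB : 0 < B) (hg : Fam μ g) (h : Peel μ ν g d) (hτ : IsFlow μ τ) (hp : IncP p) :
    Peel μ ((lam B).prod ν) (fun (n : ℕ) (q : ℝ × Ω) (x : X) => τ (q.1 * p n) (g n q.2 x)) (d + 1) := by
  intro ε hε
  obtain ⟨C, hC, hN⟩ := h ε hε
  obtain ⟨κ, hκ, hN2⟩ := hp ε hε
  refine ⟨C * (48 * κ + 1), by positivity, ?_⟩
  filter_upwards [hN, hN2] with N hN hN2 s H R hH hR hs hsN F b hF hb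
  obtain ⟨c₁, hc₁, hinc⟩ := hN2
  have hb0 : 0 ≤ b := (integral_nonneg fun x => sq_nonneg _).trans (hb 0)
  have hR0 : (0 : ℝ) < R := by exact_mod_cast hR
  have hlen : H * R ^ (d + 1) = H * R * R ^ d := by ring
  have hlenr : (H : ℝ) * (R : ℝ) ^ (d + 1) = H * R * R ^ d := by ring
  set G : ℝ → ℕ → X → ℝ := fun a n x => F n (τ (a * p n) x) with hG
  have hGm : ∀ a n, BM (G a n) := fun a n => (hF n).comp (hτ.mp _).measurable
  have hGb : ∀ a n, ∫ x, G a n x ^ 2 ∂μ ≤ b := fun a n => by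
    have := mp_int (hτ.mp (a * p n)) (f := fun x => F n x ^ 2) (hF n).sq.1
    simp only [hG]
    rw [this]
    exact hb n
  have h1 : ∀ a : ℝ, ∫ ω, ∫ x, (∑ r ∈ range (H * R ^ (d + 1)), F (s + r) (τ (a * p (s + r)) (g (s + r) ω x))) ^ 2
      ∂μ ∂ν ≤ C * ((R : ℝ) ^ d * ∑ j ∈ range (R ^ d),
        ∫ x, (∑ r ∈ range (H * R), F (s + j * (H * R) + r) (τ (a * p (s + j * (H * R) + r)) x)) ^ 2 ∂μ +
          b * (H * R * R ^ d) ^ 2 / Real.sqrt R) := by
    intro a
    have h2 := hN s (H * R) R (Nat.mul_pos hH hR) hR hs (by rw [← hlen]; exact hsN) (G a) b (hGm a) (hGb a)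
    rw [hlen]
    push_cast at h2
    exact h2
  have hmL : BM (fun q : (ℝ × Ω) × X => (∑ r ∈ range (H * R ^ (d + 1)),
      F (s + r) (τ (q.1.1 * p (s + r)) (g (s + r) q.1.2 q.2))) ^ 2) :=
    (BM.sum _ fun r _ => (hF _).comp ((fam_succ hg hτ (p := p)).meas (s + r))).sq
  have hmL2 : BM (fun q : ℝ × Ω => ∫ x, (∑ r ∈ range (H * R ^ (d + 1)),
      F (s + r) (τ (q.1 * p (s + r)) (g (s + r) q.2 x))) ^ 2 ∂μ) :=
    BM.integral (f := fun (q : ℝ × Ω) x => (∑ r ∈ range (H * R ^ (d + 1)),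
      F (s + r) (τ (q.1 * p (s + r)) (g (s + r) q.2 x))) ^ 2) hmL μ
  have hmL3 : BM (fun a : ℝ => ∫ ω, ∫ x, (∑ r ∈ range (H * R ^ (d + 1)),
      F (s + r) (τ (a * p (s + r)) (g (s + r) ω x))) ^ 2 ∂μ ∂ν) :=
    BM.integral (f := fun (a : ℝ) ω => ∫ x, (∑ r ∈ range (H * R ^ (d + 1)),
      F (s + r) (τ (a * p (s + r)) (g (s + r) ω x))) ^ 2 ∂μ) hmL2 ν
  have hmj : ∀ j, BM (fun q : ℝ × X => (∑ r ∈ range (H * R),
      F (s + j * (H * R) + r) (τ (q.1 * p (s + j * (H * R) + r)) q.2)) ^ 2) := fun j =>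
    (BM.sum _ fun r _ => (hF _).comp (flow_meas hτ _)).sq
  have hmj2 : ∀ j, BM (fun a : ℝ => ∫ x, (∑ r ∈ range (H * R),
      F (s + j * (H * R) + r) (τ (a * p (s + j * (H * R) + r)) x)) ^ 2 ∂μ) := fun j =>
    BM.integral (f := fun (a : ℝ) x => (∑ r ∈ range (H * R),
      F (s + j * (H * R) + r) (τ (a * p (s + j * (H * R) + r)) x)) ^ 2) (hmj j) μ
  have hmR : BM (fun a : ℝ => C * ((R : ℝ) ^ d * ∑ j ∈ range (R ^ d),
        ∫ x, (∑ r ∈ range (H * R), F (s + j * (H * R) + r) (τ (a * p (s + j * (H * R) + r)) x)) ^ 2 ∂μ +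
          b * (H * R * R ^ d) ^ 2 / Real.sqrt R)) :=
    (((BM.sum _ fun j _ => hmj2 j).smul _).add (BM.const _)).smul _
  rw [integral_prod _ (hmL2.int _)]
  refine (integral_mono (hmL3.int _) (hmR.int _) h1).trans ?_
  rw [integral_const_mul, integral_add (((BM.sum _ fun j _ => hmj2 j).smul _).int _) ((BM.const _).int _),
    integral_const_mul, integral_finsetSum _ fun j _ => (hmj2 j).int _]
  simp only [integral_const, probReal_univ, one_smul]
  have h3 : ∀ j ∈ range (R ^ d), ∫ a, ∫ x, (∑ r ∈ range (H * R),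
      F (s + j * (H * R) + r) (τ (a * p (s + j * (H * R) + r)) x)) ^ 2 ∂μ ∂lam B ≤
      R * ∑ i ∈ range R, ∫ x, (∑ r ∈ range H, F (s + j * (H * R) + i * H + r) x) ^ 2 ∂μ +
        48 * κ * b * (H * R) ^ 2 / Real.sqrt R := by
    intro j hj
    rw [mem_range] at hj
    have h4 : (j + 1) * (H * R) ≤ H * R * R ^ d := by
      rw [Nat.mul_comm (H * R)]
      exact Nat.mul_le_mul_right _ hj
    rw [Nat.add_mul, one_mul] at h4
    rw [hlen] at hsN
    refine peel1 hB hτ hc₁ hκ hH hR ?_ hF hb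
    intro n hn1 hn2
    refine hinc n ?_ (by omega)
    refine hs.trans ?_
    have : s ≤ n := by omega
    exact_mod_cast this
  have h5 := sum_le_sum h3
  rw [sum_add_distrib, ← mul_sum, sum_const, card_range, nsmul_eq_mul] at h5
  have h6 : ∑ j ∈ range (R ^ d), ∑ i ∈ range R, ∫ x, (∑ r ∈ range H, F (s + j * (H * R) + i * H + r) x) ^ 2 ∂μ =
      ∑ j ∈ range (R ^ (d + 1)), ∫ x, (∑ r ∈ range H, F (s + j * H + r) x) ^ 2 ∂μ := by
    have e : R ^ (d + 1) = R * R ^ d := by ring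
    rw [e, sum_blocks (fun j => ∫ x, (∑ r ∈ range H, F (s + j * H + r) x) ^ 2 ∂μ) R (R ^ d)]
    refine sum_congr rfl fun j _ => sum_congr rfl fun i _ => ?_
    have e2 : s + j * (H * R) + i * H = s + (j * R + i) * H := by ring
    rw [e2]
  rw [h6] at h5
  set S : ℝ := ∑ j ∈ range (R ^ (d + 1)), ∫ x, (∑ r ∈ range H, F (s + j * H + r) x) ^ 2 ∂μ with hS
  have hS0 : 0 ≤ S := sum_nonneg fun j _ => integral_nonneg fun x => sq_nonneg _
  have hsq : 0 < Real.sqrt R := Real.sqrt_pos.2 hR0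
  have hRd : 0 < (R : ℝ) ^ d := by positivity
  push_cast at h5
  have h7 := mul_le_mul_of_nonneg_left h5 hRd.le
  have h8 : (R : ℝ) ^ d * ((R : ℝ) * S + (R : ℝ) ^ d * (48 * κ * b * (H * R) ^ 2 / Real.sqrt R)) +
      b * (H * R * R ^ d) ^ 2 / Real.sqrt R =
      (R : ℝ) ^ (d + 1) * S + (48 * κ + 1) * (b * (H * R ^ (d + 1)) ^ 2 / Real.sqrt R) := by
    rw [pow_succ]
    ring
  have h9 : (R : ℝ) ^ (d + 1) * S + (48 * κ + 1) * (b * (H * R ^ (d + 1)) ^ 2 / Real.sqrt R) ≤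
      (48 * κ + 1) * ((R : ℝ) ^ (d + 1) * S + b * (H * R ^ (d + 1)) ^ 2 / Real.sqrt R) := by
    have : 0 ≤ (R : ℝ) ^ (d + 1) * S := by positivity
    nlinarith
  have h10 : C * ((R : ℝ) ^ d * ((R : ℝ) * S + (R : ℝ) ^ d * (48 * κ * b * (H * R) ^ 2 / Real.sqrt R)) +
      b * (H * R * R ^ d) ^ 2 / Real.sqrt R) ≤
      C * (48 * κ + 1) * ((R : ℝ) ^ (d + 1) * S + b * (H * R ^ (d + 1)) ^ 2 / Real.sqrt R) := by
    rw [h8, mul_assoc]
    exact mul_le_mul_of_nonneg_left h9 hC.le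
  refine le_trans ?_ h10
  refine mul_le_mul_of_nonneg_left ?_ hC.le
  linarith

end fam

end Pool.Agent.W5h67.NF
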