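import Pool.Agent.W5h67.NF.Dec

/-!
Words in noncommuting flows at generic times: polynomials are admissible times.
-/

set_option autoImplicit false

namespace Pool.Agent.W5h67.NF

open MeasureTheory Filter Finset
open Pool.Agent.Y957.MC (IsFlow flowInv smo)

/-- polynomials of positive leading coefficient: two sided bounds -/
theorem poly_real {P : Polynomial ℝ} (h2 : 0 < P.leadingCoeff) : ∃ c : ℝ, 0 < c ∧ ∃ C : ℝ, 0 < C ∧
    ∀ᶠ x : ℝ in atTop, c * x ^ P.natDegree ≤ P.eval x ∧ P.eval x ≤ C * x ^ P.natDegree := by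
  have h := Polynomial.isEquivalent_atTop_lead P
  have hne : ∀ᶠ x : ℝ in atTop, (fun x : ℝ => P.leadingCoeff * x ^ P.natDegree) x ≠ 0 := by
    filter_upwards [eventually_gt_atTop 0] with x hx
    positivity
  have h3 := (Asymptotics.isEquivalent_iff_tendsto_one hne).1 h
  refine ⟨P.leadingCoeff / 2, by positivity, 2 * P.leadingCoeff, by positivity, ?_⟩
  have h4 := h3.eventually (Ioo_mem_nhds (by norm_num : (1 : ℝ) / 2 < 1) (by norm_num : (1 : ℝ) < 2))
  filter_upwards [h4, eventually_gt_atTop 0] with x hN hN0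
  simp only [Pi.div_apply] at hN
  have hp : 0 < P.leadingCoeff * x ^ P.natDegree := by positivity
  have h5 := (lt_div_iff₀ hp).1 hN.1
  have h6 := (div_lt_iff₀ hp).1 hN.2
  constructor <;> linarith

theorem poly_two {P : Polynomial ℝ} (h2 : 0 < P.leadingCoeff) : ∃ c : ℝ, 0 < c ∧ ∃ C : ℝ, 0 < C ∧
    ∀ᶠ N : ℕ in atTop, c * (N : ℝ) ^ P.natDegree ≤ P.eval (N : ℝ) ∧ P.eval (N : ℝ) ≤ C * (N : ℝ) ^ P.natDegree := by
  obtain ⟨c, hc, C, hC, h⟩ := poly_real h2
  exact ⟨c, hc, C, hC, tendsto_natCast_atTop_atTop.eventually h⟩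

theorem poly_abs (P : Polynomial ℝ) : ∃ C : ℝ, 0 < C ∧ ∀ x : ℝ, 0 ≤ x → |P.eval x| ≤ C * (1 + x) ^ P.natDegree := by
  refine ⟨1 + ∑ i ∈ range (P.natDegree + 1), |P.coeff i|, by positivity, fun x hx => ?_⟩
  rw [Polynomial.eval_eq_sum_range]
  refine (abs_sum_le_sum_abs _ _).trans ?_
  rw [add_mul, sum_mul]
  refine le_trans ?_ (le_add_of_nonneg_left (by positivity))
  refine sum_le_sum fun i hi => ?_
  rw [abs_mul, abs_of_nonneg (pow_nonneg hx i)]
  refine mul_le_mul_of_nonneg_left ?_ (abs_nonneg _)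
  have h1 : x ^ i ≤ (1 + x) ^ i := pow_le_pow_left₀ hx (by linarith) i
  exact h1.trans (pow_le_pow_right₀ (by linarith) (by have := mem_range.1 hi; omega))

theorem poly_nonneg {P : Polynomial ℝ} (h : 0 ≤ P.leadingCoeff) : ∀ᶠ x : ℝ in atTop, 0 ≤ P.eval x := by
  rcases Nat.eq_zero_or_pos P.natDegree with h0 | h0
  · rw [Polynomial.eq_C_of_natDegree_eq_zero h0] at h ⊢
    simp only [Polynomial.leadingCoeff_C] at h
    filter_upwards with x
    simpa using h
  · exact (P.tendsto_atTop_of_leadingCoeff_nonneg (Polynomial.natDegree_pos_iff_degree_pos.1 h0) h).eventually_ge_atTop 0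

theorem lead_der_pos {P : Polynomial ℝ} (h1 : 0 < P.natDegree) (h : 0 < P.leadingCoeff) :
    0 < P.derivative.leadingCoeff := by
  rw [Polynomial.leadingCoeff_derivative]
  exact mul_pos h (by exact_mod_cast h1)

theorem poly_inc {P : Polynomial ℝ} (h1 : 0 < P.natDegree) (h2 : 0 < P.leadingCoeff) {ε : ℝ} (hε : 0 < ε) :
    ∃ c : ℝ, 0 < c ∧ ∀ᶠ N : ℕ in atTop, ∀ n : ℕ, ε * N ≤ n → n ≤ N →
      c * P.eval (N : ℝ) ≤ P.eval (n : ℝ) ∧
      c * P.eval (N : ℝ) / N ≤ P.eval ((n + 1 : ℕ) : ℝ) - P.eval (n : ℝ) ∧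
      P.eval ((n + 1 : ℕ) : ℝ) - P.eval (n : ℝ) ≤ P.eval (N : ℝ) / (c * N) := by
  obtain ⟨a, ha, A, hA, hP⟩ := poly_real h2
  obtain ⟨b, hb, D, hD, hQ⟩ := poly_real (lead_der_pos h1 h2)
  have hdeg : P.derivative.natDegree = P.natDegree - 1 := Polynomial.natDegree_derivative P
  obtain ⟨q, hq⟩ : ∃ q, P.natDegree = q + 1 := ⟨P.natDegree - 1, by omega⟩
  rw [hdeg, hq, Nat.add_sub_cancel] at hQ
  rw [hq] at hP
  obtain ⟨x₀, hx₀⟩ := eventually_atTop.1 (hP.and hQ)
  have hc1 : 0 < a * ε ^ (q + 1) / A := by positivity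
  have hc2 : 0 < b * ε ^ q / A := by positivity
  have hc3 : 0 < a / (D * 2 ^ q) := by positivity
  obtain ⟨c, hc, hca, hcb, hcd⟩ : ∃ c : ℝ, 0 < c ∧ c ≤ a * ε ^ (q + 1) / A ∧ c ≤ b * ε ^ q / A ∧
      c ≤ a / (D * 2 ^ q) := by
    refine ⟨min (a * ε ^ (q + 1) / A) (min (b * ε ^ q / A) (a / (D * 2 ^ q))), lt_min hc1 (lt_min hc2 hc3),
      min_le_left _ _, (min_le_right _ _).trans (min_le_left _ _), (min_le_right _ _).trans (min_le_right _ _)⟩
  refine ⟨c, hc, ?_⟩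
  have hlim : Tendsto (fun N : ℕ => ε * (N : ℝ)) atTop atTop :=
    Tendsto.const_mul_atTop hε tendsto_natCast_atTop_atTop
  filter_upwards [hlim.eventually_ge_atTop (max x₀ 1), tendsto_natCast_atTop_atTop.eventually_ge_atTop (max x₀ 1)]
    with N hN1 hN2 n hn1 hn2
  have hn : max x₀ 1 ≤ (n : ℝ) := hN1.trans hn1
  have hn0 : (0 : ℝ) < n := lt_of_lt_of_le one_pos ((le_max_right _ _).trans hn)
  have hN0 : (0 : ℝ) < N := lt_of_lt_of_le one_pos ((le_max_right _ _).trans hN2)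
  have hnN : (n : ℝ) ≤ N := by exact_mod_cast hn2
  obtain ⟨⟨hPn, _⟩, _⟩ := hx₀ n ((le_max_left _ _).trans hn)
  obtain ⟨⟨hPN1, hPN2⟩, _⟩ := hx₀ N ((le_max_left _ _).trans hN2)
  have hPN0 : 0 < P.eval (N : ℝ) := lt_of_lt_of_le (by positivity) hPN1
  -- the increment
  obtain ⟨ξ, hξ, hξe⟩ := exists_hasDerivAt_eq_slope (fun x => P.eval x) (fun x => P.derivative.eval x)
    (show (n : ℝ) < n + 1 by linarith) P.continuous.continuousOn (fun x _ => P.hasDerivAt x)
  obtain ⟨_, hD1, hD2⟩ := hx₀ ξ (((le_max_left _ _).trans hn).trans hξ.1.le)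
  have he : P.eval ((n + 1 : ℕ) : ℝ) - P.eval (n : ℝ) = P.derivative.eval ξ := by
    rw [hξe]
    push_cast
    rw [add_sub_cancel_left, div_one]
  rw [he]
  have hξ1 : ε * N ≤ ξ := hn1.trans hξ.1.le
  have hξ2 : ξ ≤ 2 * N := by
    have h1N : (1 : ℝ) ≤ N := (le_max_right _ _).trans hN2
    linarith [hξ.2]
  refine ⟨?_, ?_, ?_⟩
  · refine le_trans ?_ hPn
    calc c * P.eval (N : ℝ) ≤ (a * ε ^ (q + 1) / A) * (A * (N : ℝ) ^ (q + 1)) :=
          mul_le_mul hca hPN2 hPN0.le hc1.le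
      _ = a * (ε * N) ^ (q + 1) := by
          rw [mul_pow]
          field_simp
      _ ≤ a * (n : ℝ) ^ (q + 1) := mul_le_mul_of_nonneg_left (pow_le_pow_left₀ (by positivity) hn1 _) ha.le
  · refine le_trans ?_ hD1
    rw [div_le_iff₀ hN0]
    calc c * P.eval (N : ℝ) ≤ (b * ε ^ q / A) * (A * (N : ℝ) ^ (q + 1)) :=
          mul_le_mul hcb hPN2 hPN0.le hc2.le
      _ = b * (ε * N) ^ q * N := by
          rw [mul_pow, pow_succ]
          field_simp
      _ ≤ b * ξ ^ q * N := by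
          refine mul_le_mul_of_nonneg_right (mul_le_mul_of_nonneg_left ?_ hb.le) hN0.le
          exact pow_le_pow_left₀ (by positivity) hξ1 _
  · refine hD2.trans ?_
    rw [le_div_iff₀ (by positivity)]
    calc D * ξ ^ q * (c * N) ≤ D * (2 * N) ^ q * (a / (D * 2 ^ q) * N) := by
          refine mul_le_mul ?_ (mul_le_mul_of_nonneg_right hcd hN0.le) (by positivity) (by positivity)
          exact mul_le_mul_of_nonneg_left (pow_le_pow_left₀ (by linarith [hξ.1]) hξ2 _) hD.le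
      _ = a * (N : ℝ) ^ (q + 1) := by
          rw [mul_pow, pow_succ]
          field_simp
      _ ≤ _ := hPN1

theorem lead_der {P : Polynomial ℝ} (h : 0 ≤ P.leadingCoeff) : 0 ≤ P.derivative.leadingCoeff := by
  rw [Polynomial.leadingCoeff_derivative]
  exact mul_nonneg h (by positivity)

theorem poly_cvx {P : Polynomial ℝ} (h : 0 ≤ P.leadingCoeff) :
    ∀ᶠ n : ℕ in atTop, P.eval ((n + 1 : ℕ) : ℝ) - P.eval (n : ℝ) ≤ P.eval ((n + 2 : ℕ) : ℝ) - P.eval ((n + 1 : ℕ) : ℝ) := by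
  have h1 := poly_nonneg (lead_der (lead_der h))
  obtain ⟨x₀, hx₀⟩ := eventually_atTop.1 h1
  have hc : ConvexOn ℝ (Set.Ici x₀) (fun x => P.eval x) := by
    refine convexOn_of_deriv2_nonneg' (convex_Ici x₀) P.differentiable.differentiableOn ?_ ?_
    · have : deriv (fun x => P.eval x) = fun x => P.derivative.eval x := by
        ext x
        exact P.deriv
      rw [this]
      exact P.derivative.differentiable.differentiableOn
    · intro x hx
      have h2 : deriv (fun x => P.eval x) = fun x => P.derivative.eval x := by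
        ext x
        exact P.deriv
      have h3 : deriv (fun x => P.derivative.eval x) = fun x => P.derivative.derivative.eval x := by
        ext x
        exact P.derivative.deriv
      simp only [Function.iterate_succ, Function.iterate_zero, Function.comp, id, h2, h3]
      exact hx₀ x hx
  filter_upwards [eventually_ge_atTop ⌈x₀⌉₊] with n hn
  have hn' : x₀ ≤ (n : ℝ) := Nat.ceil_le.1 hn
  have h2 := hc.2 (show (n : ℝ) ∈ Set.Ici x₀ from hn') (show (n : ℝ) + 2 ∈ Set.Ici x₀ from le_trans hn' (by linarith))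
    (by norm_num : (0 : ℝ) ≤ 1 / 2) (by norm_num : (0 : ℝ) ≤ 1 / 2) (by norm_num)
  simp only [smul_eq_mul] at h2
  have h3 : (1 : ℝ) / 2 * n + 1 / 2 * (n + 2) = n + 1 := by ring
  rw [h3] at h2
  push_cast
  linarith

theorem poly_lin {P : Polynomial ℝ} (h1 : 0 < P.natDegree) (h2 : 0 < P.leadingCoeff) :
    ∃ c : ℝ, 0 < c ∧ ∀ᶠ N : ℕ in atTop, c * N ≤ P.eval (N : ℝ) := by
  obtain ⟨c, hc, C, hC, h⟩ := poly_two h2
  refine ⟨c, hc, ?_⟩
  filter_upwards [h, eventually_ge_atTop 1] with N hN hN1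
  refine le_trans (mul_le_mul_of_nonneg_left ?_ hc.le) hN.1
  have : (1 : ℝ) ≤ N := by exact_mod_cast hN1
  calc (N : ℝ) = (N : ℝ) ^ 1 := (pow_one _).symm
    _ ≤ (N : ℝ) ^ P.natDegree := pow_le_pow_right₀ this h1

theorem poly_sub {P Q : Polynomial ℝ} (h : P.natDegree < Q.natDegree) (h2 : 0 < Q.leadingCoeff) :
    Sub (fun n : ℕ => P.eval (n : ℝ)) (fun n : ℕ => Q.eval (n : ℝ)) := by
  obtain ⟨C, hC, hP⟩ := poly_abs P
  obtain ⟨c, hc, _, _, hQ⟩ := poly_two h2
  refine ⟨C * 2 ^ P.natDegree / c, ?_⟩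
  filter_upwards [hQ, eventually_ge_atTop 1] with N hN hN1 n hn
  have hN0 : (1 : ℝ) ≤ N := by exact_mod_cast hN1
  have hnN : (n : ℝ) ≤ N := by exact_mod_cast hn
  refine (hP n (by positivity)).trans ?_
  have h3 : (1 + (n : ℝ)) ^ P.natDegree ≤ (2 * (N : ℝ)) ^ P.natDegree :=
    pow_le_pow_left₀ (by positivity) (by linarith) _
  have h4 : (N : ℝ) ^ P.natDegree * N ≤ (N : ℝ) ^ Q.natDegree := by
    rw [← pow_succ]
    exact pow_le_pow_right₀ hN0 h
  have h5 : c * (N : ℝ) ^ P.natDegree ≤ Q.eval (N : ℝ) / N := by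
    rw [le_div_iff₀ (by linarith)]
    calc c * (N : ℝ) ^ P.natDegree * N = c * ((N : ℝ) ^ P.natDegree * N) := by ring
      _ ≤ c * (N : ℝ) ^ Q.natDegree := mul_le_mul_of_nonneg_left h4 hc.le
      _ ≤ _ := hN.1
  calc C * (1 + (n : ℝ)) ^ P.natDegree ≤ C * (2 * (N : ℝ)) ^ P.natDegree := mul_le_mul_of_nonneg_left h3 hC.le
    _ = C * 2 ^ P.natDegree / c * (c * (N : ℝ) ^ P.natDegree) := by
        rw [mul_pow]
        field_simp
    _ ≤ _ := mul_le_mul_of_nonneg_left h5 (by positivity)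

theorem grow_exp {γ : ℝ} (hγ : 1 < γ) (k : ℕ) : ∀ᶠ i : ℕ in atTop, (i + 1) ^ k ≤ ⌊γ ^ i⌋₊ := by
  have h1 : Tendsto (fun i : ℕ => ((i : ℝ)) ^ k / γ ^ i) atTop (nhds 0) :=
    tendsto_pow_const_div_const_pow_of_one_lt k hγ
  have h2 : Tendsto (fun i : ℕ => (((i + 1 : ℕ) : ℝ)) ^ k / γ ^ (i + 1)) atTop (nhds 0) :=
    h1.comp (tendsto_add_atTop_nat 1)
  have h3 := h2.eventually (Iio_mem_nhds (show (0 : ℝ) < 1 / γ by positivity))
  filter_upwards [h3] with i hi
  refine Nat.le_floor ?_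
  have hg : (0 : ℝ) < γ ^ (i + 1) := by positivity
  have h4 := (div_lt_iff₀ hg).1 (show _ < _ from hi)
  have h5 : 1 / γ * γ ^ (i + 1) = γ ^ i := by
    rw [pow_succ]
    field_simp
  rw [h5] at h4
  push_cast at h4 ⊢
  exact h4.le

theorem poly_lac {P : Polynomial ℝ} (h1 : 0 < P.natDegree) (h2 : 0 < P.leadingCoeff) :
    ∃ β : ℕ → ℝ, (∀ k, 1 < β k) ∧ Tendsto β atTop (nhds 1) ∧
      ∀ k, Lac (fun n : ℕ => P.eval (n : ℝ)) (k + 1) (fun i => ⌊β k ^ i⌋₊) := by
  obtain ⟨c, hc, C, hC, hPb⟩ := poly_two h2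
  set q := P.natDegree with hq
  have hq0 : (0 : ℝ) < q := by exact_mod_cast h1
  set β : ℕ → ℝ := fun k => (2 : ℝ) ^ (1 / ((q : ℝ) * ((k : ℝ) + 1))) with hβ
  have hβ1 : ∀ k, 1 < β k := fun k => Real.one_lt_rpow (by norm_num) (by positivity)
  have hβ2 : ∀ k, β k ^ (q * (k + 1)) = 2 := by
    intro k
    simp only [hβ]
    rw [← Real.rpow_natCast, ← Real.rpow_mul (by norm_num)]
    have : 1 / ((q : ℝ) * ((k : ℝ) + 1)) * ((q * (k + 1) : ℕ) : ℝ) = 1 := by
      push_cast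
      field_simp
    rw [this, Real.rpow_one]
  refine ⟨β, hβ1, ?_, fun k => ?_⟩
  · have h3 : Tendsto (fun k : ℕ => 1 / ((q : ℝ) * ((k : ℝ) + 1))) atTop (nhds 0) := by
      have h4 : Tendsto (fun k : ℕ => (q : ℝ) * ((k : ℝ) + 1)) atTop atTop :=
        Tendsto.const_mul_atTop hq0 (tendsto_atTop_add_const_right _ _ tendsto_natCast_atTop_atTop)
      exact (h4.inv_tendsto_atTop).congr fun k => by simp only [Pi.inv_apply, one_div]
    have h5 : Tendsto (fun x : ℝ => (2 : ℝ) ^ x) (nhds 0) (nhds ((2 : ℝ) ^ (0 : ℝ))) :=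
      (Real.continuous_const_rpow (by norm_num)).tendsto 0
    rw [Real.rpow_zero] at h5
    exact h5.comp h3
  · have hg := hβ1 k
    set γ := β k with hγ
    have hγq : γ ^ q ≤ 2 := by
      rw [← hβ2 k]
      exact pow_le_pow_right₀ hg.le (Nat.le_mul_of_pos_right _ (by omega))
    have key : ∀ i : ℕ, (2 : ℝ) ^ (i / (k + 1)) ≤ (γ ^ i) ^ q ∧ (γ ^ i) ^ q ≤ 2 * 2 ^ (i / (k + 1)) := by
      intro i
      have e1 : (γ ^ i) ^ q = 2 ^ (i / (k + 1)) * (γ ^ q) ^ (i % (k + 1)) := by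
        conv_lhs => rw [← pow_mul, ← Nat.div_add_mod i (k + 1)]
        rw [← hβ2 k, ← pow_mul, ← pow_mul, ← pow_add]
        congr 1
        ring
      have e2 : 1 ≤ (γ ^ q) ^ (i % (k + 1)) := one_le_pow₀ (one_le_pow₀ hg.le)
      have e3 : (γ ^ q) ^ (i % (k + 1)) ≤ 2 := by
        rw [← hβ2 k, ← pow_mul]
        exact pow_le_pow_right₀ hg.le (Nat.mul_le_mul_left _ (Nat.mod_lt _ (by omega)).le)
      rw [e1]
      constructor
      · exact le_mul_of_one_le_right (by positivity) e2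
      · rw [mul_comm]
        exact mul_le_mul_of_nonneg_right e3 (by positivity)
    have ht : Tendsto (fun i : ℕ => ⌊γ ^ i⌋₊) atTop atTop := by
      refine tendsto_atTop_mono' _ (grow_exp hg 1) ?_
      simpa using tendsto_add_atTop_nat 1
    have hPi := ht.eventually hPb
    have hfl : ∀ᶠ i : ℕ in atTop, γ ^ i / 2 ≤ (⌊γ ^ i⌋₊ : ℝ) := by
      filter_upwards [(tendsto_pow_atTop_atTop_of_one_lt hg).eventually_ge_atTop 2] with i hi
      have := Nat.lt_floor_add_one (γ ^ i)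
      linarith
    refine ⟨by omega, ⟨c / 2 ^ q, by positivity, ?_⟩, ⟨C * 2, by positivity, ?_⟩, fun K => ?_⟩
    · filter_upwards [hPi, hfl] with i hi hf
      refine le_trans ?_ hi.1
      calc c / 2 ^ q * 2 ^ (i / (k + 1)) ≤ c / 2 ^ q * (γ ^ i) ^ q :=
            mul_le_mul_of_nonneg_left (key i).1 (by positivity)
        _ = c * (γ ^ i / 2) ^ q := by
            rw [div_pow]
            ring
        _ ≤ _ := mul_le_mul_of_nonneg_left (pow_le_pow_left₀ (by positivity) hf _) hc.le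
    · filter_upwards [hPi] with i hi
      refine hi.2.trans ?_
      rw [mul_assoc]
      refine mul_le_mul_of_nonneg_left (le_trans ?_ (key i).2) hC.le
      exact pow_le_pow_left₀ (by positivity) (Nat.floor_le (by positivity)) _
    · exact grow_exp hg K

theorem poly_tmc {P : Polynomial ℝ} (h1 : 0 < P.natDegree) (h2 : 0 < P.leadingCoeff) :
    Tmc (fun n : ℕ => P.eval (n : ℝ)) where
  tends := (P.tendsto_atTop_of_leadingCoeff_nonneg (Polynomial.natDegree_pos_iff_degree_pos.1 h1) h2.le).comp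
    tendsto_natCast_atTop_atTop
  inc := fun ε hε => poly_inc h1 h2 hε
  lac := poly_lac h1 h2
  cvx := poly_cvx h2.le
  lin := poly_lin h1 h2

end Pool.Agent.W5h67.NF
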