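import Pool.Agent.W5h67.NF.Main1

/-!
Words in noncommuting flows at generic times: the dyadic differences are square summable along lacunary sequences.
-/

set_option autoImplicit false

namespace Pool.Agent.W5h67.NF

open MeasureTheory Filter Finset
open Pool.Agent.Y957.MC (IsFlow flowInv smo)

universe u

section elem

/-- exponentials beat powers -/
theorem pow_div_tendsto (a : ℕ) : Tendsto (fun M : ℕ => ((M : ℝ) + 1) ^ a / 2 ^ (M / 2)) atTop (nhds 0) := by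
  have h1 : Tendsto (fun n : ℕ => (4 : ℝ) ^ a * ((n : ℝ) ^ a / 2 ^ n)) atTop (nhds 0) := by
    have := (tendsto_pow_const_div_const_pow_of_one_lt a (r := (2 : ℝ)) (by norm_num)).const_mul ((4 : ℝ) ^ a)
    simpa using this
  have h2 : Tendsto (fun M : ℕ => M / 2) atTop atTop := Nat.tendsto_div_const_atTop (by norm_num)
  have h3 := h1.comp h2
  refine squeeze_zero' (Eventually.of_forall fun M => by positivity) ?_ h3
  filter_upwards [eventually_ge_atTop 2] with M hM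
  have h4 : (M : ℝ) + 1 ≤ 4 * ((M / 2 : ℕ) : ℝ) := by
    have : M + 1 ≤ 4 * (M / 2) := by omega
    exact_mod_cast this
  simp only [Function.comp_apply]
  rw [← mul_div_assoc, ← mul_pow]
  exact div_le_div_of_nonneg_right (pow_le_pow_left₀ (by positivity) h4 a) (by positivity)

theorem pow_le_exp (a : ℕ) {δ : ℝ} (hδ : 0 < δ) : ∀ᶠ M : ℕ in atTop, ((M : ℝ) + 1) ^ a ≤ δ * 2 ^ (M / 2) := by
  filter_upwards [(pow_div_tendsto a).eventually_le_const hδ] with M hM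
  rwa [div_le_iff₀ (by positivity)] at hM

theorem exp_bd : ∃ C : ℝ, 0 < C ∧ ∀ M : ℕ, 4 * (((M / 4 : ℕ) : ℝ) + 1) / 4 ^ (M / 4) ≤ C / ((M : ℝ) + 1) ^ 6 := by
  obtain ⟨C, hC⟩ := (pow_div_tendsto 7).bddAbove_range
  have hC' : ∀ M : ℕ, ((M : ℝ) + 1) ^ 7 / 2 ^ (M / 2) ≤ C := fun M => hC ⟨M, rfl⟩
  refine ⟨8 * (|C| + 1), by positivity, fun M => ?_⟩
  have h1 := hC' M
  rw [div_le_iff₀ (by positivity)] at h1
  rw [div_le_div_iff₀ (by positivity) (by positivity)]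
  have h2 : ((M / 4 : ℕ) : ℝ) ≤ M := by exact_mod_cast Nat.div_le_self M 4
  have h3 : (2 : ℝ) ^ (M / 2) ≤ 2 * 4 ^ (M / 4) := by
    have e : (4 : ℝ) ^ (M / 4) = 2 ^ (2 * (M / 4)) := by rw [pow_mul]; norm_num
    rw [e, ← pow_succ']
    exact pow_le_pow_right₀ (by norm_num) (by omega)
  have hM0 : (0 : ℝ) ≤ M := Nat.cast_nonneg _
  calc 4 * (((M / 4 : ℕ) : ℝ) + 1) * ((M : ℝ) + 1) ^ 6 ≤ 4 * ((M : ℝ) + 1) * ((M : ℝ) + 1) ^ 6 := by gcongr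
    _ = 4 * ((M : ℝ) + 1) ^ 7 := by ring
    _ ≤ 4 * (C * 2 ^ (M / 2)) := by linarith
    _ ≤ 4 * ((|C| + 1) * 2 ^ (M / 2)) := by
        have : C ≤ |C| + 1 := (le_abs_self C).trans (by linarith)
        gcongr
    _ ≤ 4 * ((|C| + 1) * (2 * 4 ^ (M / 4))) := by gcongr
    _ = 8 * (|C| + 1) * 4 ^ (M / 4) := by ring

theorem summable_div {f : ℕ → ℝ} (hf : Summable f) (hf0 : ∀ n, 0 ≤ f n) {r : ℕ} (hr : 1 ≤ r) :
    Summable (fun i => f (i / r)) := by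
  haveI : NeZero r := ⟨by omega⟩
  have h1 : Summable (fun q : ℕ × Fin r => f q.1) := by
    have h2 : Summable (fun _ : Fin r => (1 : ℝ)) := Summable.of_finite
    have h3 := hf.mul_of_nonneg h2 hf0 (fun _ => by norm_num)
    simpa using h3
  have h4 := (Nat.divModEquiv r).summable_iff.2 h1
  refine h4.congr fun i => ?_
  simp [Nat.divModEquiv]

end elem

section shell

variable {X : Type u} [MeasurableSpace X] {Ω : Type*} [MeasurableSpace Ω]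
variable {μ : Measure X} [IsProbabilityMeasure μ] {ν : Measure Ω} [IsProbabilityMeasure ν]
  {g : ℕ → Ω → X → X} {d : ℕ} {τ : ℝ → X → X} {p : ℕ → ℝ} {B : ℝ} {ψ φ : X → ℝ}

/-- the averages over `(ε N, N]` -/
noncomputable def Sn (τ : ℝ → X → X) (p : ℕ → ℝ) (g : ℕ → Ω → X → X) (ε : ℝ) (N : ℕ) (ψ : X → ℝ)
    (z : (ℝ × Ω) × X) : ℝ := (1 / (N : ℝ)) * ∑ n ∈ Ioc ⌊ε * N⌋₊ N, ψ (τ (z.1.1 * p n) (g n z.1.2 z.2))

/-- their mean squares -/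
noncomputable def MS (B : ℝ) (μ : Measure X) (ν : Measure Ω) (τ : ℝ → X → X) (p : ℕ → ℝ) (g : ℕ → Ω → X → X)
    (ε : ℝ) (N : ℕ) (ψ : X → ℝ) : ℝ := ∫ z, Sn τ p g ε N ψ z ^ 2 ∂(((lam B).prod ν).prod μ)

omit [IsProbabilityMeasure μ] in
theorem Sn_bm (hg : Fam μ g) (hτ : IsFlow μ τ) (hψ : BM ψ) (ε : ℝ) (N : ℕ) : BM (Sn τ p g ε N ψ) :=
  (BM.sum _ fun n _ => hψ.comp ((fam_succ hg hτ (p := p)).meas n)).smul _

theorem MS_le (hg : Fam μ g) (hτ : IsFlow μ τ) (hψ : BM ψ) (ε : ℝ) (N : ℕ) :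
    MS B μ ν τ p g ε N ψ ≤ ∫ x, ψ x ^ 2 ∂μ := by
  have hβ0 : 0 ≤ ∫ x, ψ x ^ 2 ∂μ := integral_nonneg fun _ => sq_nonneg _
  have hF := fam_succ hg hτ (p := p)
  unfold MS
  rcases Nat.eq_zero_or_pos N with h0 | h0
  · subst h0
    simpa [Sn] using hβ0
  have hN0 : (0 : ℝ) < N := by exact_mod_cast h0
  rw [integral_prod _ ((Sn_bm hg hτ hψ ε N).sq.int _)]
  have hcard : ((Ioc ⌊ε * N⌋₊ N).card : ℝ) ≤ N := by
    rw [Nat.card_Ioc]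
    exact_mod_cast Nat.sub_le _ _
  have h1 : ∀ q : ℝ × Ω, ∫ x, Sn τ p g ε N ψ (q, x) ^ 2 ∂μ ≤ ∫ x, ψ x ^ 2 ∂μ := by
    intro q
    have hm : ∀ n, BM (fun x => ψ (τ (q.1 * p n) (g n q.2 x))) := fun n => hψ.comp (hF.mp n q).measurable
    have h2 : ∀ x, Sn τ p g ε N ψ (q, x) ^ 2 ≤
        (1 / (N : ℝ)) * ∑ n ∈ Ioc ⌊ε * N⌋₊ N, ψ (τ (q.1 * p n) (g n q.2 x)) ^ 2 := by
      intro x
      have h3 := sq_sum_le_card_mul_sum_sq (s := Ioc ⌊ε * N⌋₊ N) (f := fun n => ψ (τ (q.1 * p n) (g n q.2 x)))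
      have h4 : 0 ≤ ∑ n ∈ Ioc ⌊ε * N⌋₊ N, ψ (τ (q.1 * p n) (g n q.2 x)) ^ 2 := sum_nonneg fun _ _ => sq_nonneg _
      have h5 := h3.trans (mul_le_mul_of_nonneg_right hcard h4)
      unfold Sn
      rw [mul_pow]
      calc (1 / (N : ℝ)) ^ 2 * (∑ n ∈ Ioc ⌊ε * N⌋₊ N, ψ (τ (q.1 * p n) (g n q.2 x))) ^ 2 ≤
          (1 / (N : ℝ)) ^ 2 * (N * ∑ n ∈ Ioc ⌊ε * N⌋₊ N, ψ (τ (q.1 * p n) (g n q.2 x)) ^ 2) :=
            mul_le_mul_of_nonneg_left h5 (by positivity)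
        _ = _ := by field_simp
    have hSq : BM (fun x => Sn τ p g ε N ψ (q, x)) := (BM.sum _ fun n _ => hm n).smul _
    refine (integral_mono (hSq.sq.int μ) (((BM.sum _ fun n _ => (hm n).sq).smul _).int μ) h2).trans ?_
    rw [integral_const_mul, integral_finsetSum _ fun n _ => (hm n).sq.int μ]
    have h6 : ∀ n, ∫ x, ψ (τ (q.1 * p n) (g n q.2 x)) ^ 2 ∂μ = ∫ x, ψ x ^ 2 ∂μ := fun n =>
      mp_int (hF.mp n q) (f := fun x => ψ x ^ 2) hψ.sq.1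
    simp only [h6, sum_const, nsmul_eq_mul]
    rw [← mul_assoc]
    refine mul_le_of_le_one_left hβ0 ?_
    rw [one_div, inv_mul_le_iff₀ hN0, mul_one]
    exact hcard
  have hI : BM (fun q : ℝ × Ω => ∫ x, Sn τ p g ε N ψ (q, x) ^ 2 ∂μ) :=
    BM.integral (f := fun (q : ℝ × Ω) x => Sn τ p g ε N ψ (q, x) ^ 2) (Sn_bm hg hτ hψ ε N).sq μ
  refine (integral_mono (hI.int _) ((BM.const _).int _) h1).trans (le_of_eq ?_)
  simp

/-- the mean square bound -/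
theorem MS_main (hB : 0 < B) (hg : Fam μ g) (hP : Peel μ ν g d) (hτ : IsFlow μ τ) (hp : Tm p) {ε : ℝ} (hε : 0 < ε)
    (hε1 : ε ≤ 1 / 2) :
    ∃ C : ℝ, 0 < C ∧ ∃ c' : ℝ, 0 < c' ∧ ∀ᶠ N : ℕ in atTop, ∀ R : ℕ, 1 ≤ R → R ^ (2 * (d + 1)) ≤ N →
      ∀ (ψ : X → ℝ), BM ψ → ∀ (Y η : ℝ), (∀ y, Y ≤ y → ∫ x, smo τ ψ y x ^ 2 ∂μ ≤ η) →
        Y * (R : ℝ) ^ (d + 1) ≤ c' * p N →
        MS B μ ν τ p g ε N ψ ≤ C * (η + (∫ x, ψ x ^ 2 ∂μ) / Real.sqrt R) := by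
  obtain ⟨C, hC, c', hc', hN⟩ := main (B := B) hB hg hP hτ hp hε hε1
  refine ⟨C, hC, c', hc', ?_⟩
  filter_upwards [hN] with N hN R hR hRN ψ hψ Y η hη hY
  refine le_trans (le_of_eq ?_) (hN R hR hRN ψ hψ Y η hη hY)
  unfold MS
  rw [integral_prod _ ((Sn_bm hg hτ hψ ε N).sq.int _)]
  rfl

/-- lacunary sequences adapted to the times -/
structure Lac (p : ℕ → ℝ) (r : ℕ) (N : ℕ → ℕ) : Prop where
  hr : 1 ≤ r
  low : ∃ c : ℝ, 0 < c ∧ ∀ᶠ i : ℕ in atTop, c * 2 ^ (i / r) ≤ p (N i)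
  upp : ∃ C : ℝ, 0 < C ∧ ∀ᶠ i : ℕ in atTop, p (N i) ≤ C * 2 ^ (i / r)
  grow : ∀ k : ℕ, ∀ᶠ i : ℕ in atTop, (i + 1) ^ k ≤ N i

theorem Lac.tends {p : ℕ → ℝ} {r : ℕ} {N : ℕ → ℕ} (h : Lac p r N) : Tendsto N atTop atTop := by
  refine tendsto_atTop_mono' _ (h.grow 1) ?_
  simpa using tendsto_add_atTop_nat 1

/-- the shells -/
theorem shell (hB : 0 < B) (hg : Fam μ g) (hP : Peel μ ν g d) (hτ : IsFlow μ τ) (hp : Tm p) {ε : ℝ} (hε : 0 < ε)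
    (hε1 : ε ≤ 1 / 2) (hφ : BM φ) {r : ℕ} {N : ℕ → ℕ} (hL : Lac p r N) :
    ∃ C : ℝ, 0 < C ∧ ∀ᶠ i : ℕ in atTop, ∀ M : ℕ, M ≤ i / r →
      MS B μ ν τ p g ε (N i) (Dk τ φ (i / r - M)) ≤
        C / ((M : ℝ) + 1) ^ 6 * ∑ l ∈ range (M + 1), dl μ τ φ (i / r - M + l) := by
  obtain ⟨C, hC, c', hc', hN⟩ := MS_main (B := B) hB hg hP hτ hp hε hε1
  obtain ⟨c₃, hc₃, hlow⟩ := hL.low
  obtain ⟨C₂, hC₂, hexp⟩ := exp_bd
  obtain ⟨M₀, hM₀⟩ := eventually_atTop.1 (pow_le_exp (12 * (d + 1)) (mul_pos hc' hc₃))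
  refine ⟨C * (C₂ + 1) + (M₀ : ℝ) ^ 6, by positivity, ?_⟩
  filter_upwards [hL.tends.eventually hN, hlow, hL.grow (24 * (d + 1))] with i hNi hlowi hgrow M hMi
  obtain ⟨k, hk⟩ : ∃ k, k = i / r - M := ⟨_, rfl⟩
  rw [← hk]
  set S := ∑ l ∈ range (M + 1), dl μ τ φ (k + l) with hS
  have hS0 : 0 ≤ S := sum_nonneg fun _ _ => dl_nonneg _
  have hdS : dl μ τ φ k ≤ S := by
    have := single_le_sum (f := fun i => dl μ τ φ (k + i)) (s := range (M + 1)) (fun i _ => dl_nonneg _)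
      (mem_range.2 (Nat.succ_pos M))
    simpa using this
  have hψ := Dk_bm hτ hφ k
  have hM1 : (0 : ℝ) < ((M : ℝ) + 1) ^ 6 := by positivity
  rcases Nat.lt_or_ge M M₀ with h | h
  · have h1 := MS_le (B := B) (ν := ν) (p := p) hg hτ hψ ε (N i)
    have h2 : ((M : ℝ) + 1) ^ 6 ≤ (M₀ : ℝ) ^ 6 := by
      refine pow_le_pow_left₀ (by positivity) ?_ 6
      exact_mod_cast h
    have h3 : S ≤ (C * (C₂ + 1) + (M₀ : ℝ) ^ 6) / ((M : ℝ) + 1) ^ 6 * S := by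
      refine le_mul_of_one_le_left hS0 ?_
      rw [one_le_div hM1]
      have : 0 ≤ C * (C₂ + 1) := by positivity
      linarith
    exact h1.trans (hdS.trans h3)
  · set t : ℕ := M / 4 with ht
    have hir : i / r ≤ i := Nat.div_le_self _ _
    have hRN : ((M + 1) ^ 12) ^ (2 * (d + 1)) ≤ N i := by
      refine le_trans ?_ hgrow
      rw [← pow_mul, show 12 * (2 * (d + 1)) = 24 * (d + 1) by ring]
      exact Nat.pow_le_pow_left (by omega) _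
    have hKM : k + M = i / r := by omega
    have hY : (2 : ℝ) ^ (k + 2 * t) * (((M + 1) ^ 12 : ℕ) : ℝ) ^ (d + 1) ≤ c' * p (N i) := by
      have h1 := hM₀ M h
      have h2 : (((M + 1) ^ 12 : ℕ) : ℝ) ^ (d + 1) = ((M : ℝ) + 1) ^ (12 * (d + 1)) := by
        push_cast
        rw [← pow_mul]
      rw [h2]
      calc (2 : ℝ) ^ (k + 2 * t) * ((M : ℝ) + 1) ^ (12 * (d + 1)) ≤
          (2 : ℝ) ^ (k + 2 * t) * (c' * c₃ * 2 ^ (M / 2)) := mul_le_mul_of_nonneg_left h1 (by positivity)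
        _ = c' * (c₃ * 2 ^ (k + 2 * t + M / 2)) := by rw [pow_add _ (k + 2 * t)]; ring
        _ ≤ c' * (c₃ * 2 ^ (i / r)) := by
            refine mul_le_mul_of_nonneg_left (mul_le_mul_of_nonneg_left ?_ hc₃.le) hc'.le
            exact pow_le_pow_right₀ (by norm_num) (by omega)
        _ ≤ c' * p (N i) := mul_le_mul_of_nonneg_left hlowi hc'.le
    have h2 := hNi ((M + 1) ^ 12) (Nat.one_le_pow _ _ (Nat.succ_pos M)) hRN (Dk τ φ k) hψ ((2 : ℝ) ^ (k + 2 * t))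
      (4 * ((t : ℝ) + 1) / 4 ^ t * ∑ i ∈ range (t + 1), dl μ τ φ (k + i)) (fun y hy => smo_Dk hτ hφ k t hy) hY
    refine h2.trans ?_
    have h3 : Real.sqrt (((M + 1) ^ 12 : ℕ) : ℝ) = ((M : ℝ) + 1) ^ 6 := by
      push_cast
      rw [show ((M : ℝ) + 1) ^ 12 = (((M : ℝ) + 1) ^ 6) ^ 2 by ring, Real.sqrt_sq hM1.le]
    rw [h3]
    have h4 : ∑ i ∈ range (t + 1), dl μ τ φ (k + i) ≤ S := by
      refine sum_le_sum_of_subset_of_nonneg ?_ fun _ _ _ => dl_nonneg _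
      intro l hl
      rw [mem_range] at hl ⊢
      omega
    have h5 := hexp M
    have h6 : 4 * ((t : ℝ) + 1) / 4 ^ t * ∑ i ∈ range (t + 1), dl μ τ φ (k + i) ≤ C₂ / ((M : ℝ) + 1) ^ 6 * S :=
      mul_le_mul h5 h4 (sum_nonneg fun _ _ => dl_nonneg _) (by positivity)
    have h7 : (∫ x, Dk τ φ k x ^ 2 ∂μ) / ((M : ℝ) + 1) ^ 6 ≤ S / ((M : ℝ) + 1) ^ 6 :=
      div_le_div_of_nonneg_right hdS hM1.le
    calc C * (4 * ((t : ℝ) + 1) / 4 ^ t * ∑ i ∈ range (t + 1), dl μ τ φ (k + i) +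
          (∫ x, Dk τ φ k x ^ 2 ∂μ) / ((M : ℝ) + 1) ^ 6) ≤
        C * (C₂ / ((M : ℝ) + 1) ^ 6 * S + S / ((M : ℝ) + 1) ^ 6) := by
          refine mul_le_mul_of_nonneg_left (add_le_add h6 h7) hC.le
      _ = (C * (C₂ + 1)) / ((M : ℝ) + 1) ^ 6 * S := by ring
      _ ≤ (C * (C₂ + 1) + (M₀ : ℝ) ^ 6) / ((M : ℝ) + 1) ^ 6 * S := by
          refine mul_le_mul_of_nonneg_right (div_le_div_of_nonneg_right ?_ hM1.le) hS0
          have : (0 : ℝ) ≤ (M₀ : ℝ) ^ 6 := by positivity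
          linarith

/-- the smallest scale -/
theorem small (hB : 0 < B) (hg : Fam μ g) (hP : Peel μ ν g d) (hτ : IsFlow μ τ) (hp : Tm p) {ε : ℝ} (hε : 0 < ε)
    (hε1 : ε ≤ 1 / 2) (hφ : BM φ) {r : ℕ} {N : ℕ → ℕ} (hL : Lac p r N) :
    ∃ C : ℝ, 0 < C ∧ ∀ᶠ i : ℕ in atTop,
      MS B μ ν τ p g ε (N i) (fun x => φ x - hk τ φ 0 x) ≤ C / ((i : ℝ) + 1) ^ 2 := by
  obtain ⟨C, hC, c', hc', hN⟩ := MS_main (B := B) hB hg hP hτ hp hε hε1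
  obtain ⟨c₃, hc₃, hlow⟩ := hL.low
  have hψ : BM (fun x => φ x - hk τ φ 0 x) := hφ.sub (hk_bm hτ hφ 0)
  obtain ⟨hφm, Cφ, hCφ⟩ := hφ
  set β := ∫ x, (φ x - hk τ φ 0 x) ^ 2 ∂μ with hβ
  have hβ0 : 0 ≤ β := integral_nonneg fun _ => sq_nonneg _
  have hr := hL.hr
  refine ⟨C * ((2 * Cφ) ^ 2 + β + 1), by positivity, ?_⟩
  have hdiv : Tendsto (fun i : ℕ => i / r) atTop atTop := Nat.tendsto_div_const_atTop (by omega)
  have hpow := hdiv.eventually (pow_le_exp (4 * (d + 1) + 1) (δ := c' * c₃ / (r : ℝ) ^ (4 * (d + 1) + 1))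
    (by have : (0 : ℝ) < r := by exact_mod_cast hr
        positivity))
  filter_upwards [hL.tends.eventually hN, hlow, hL.grow (8 * (d + 1)), hpow] with i hNi hlowi hgrow hpowi
  have hr0 : (0 : ℝ) < r := by exact_mod_cast hr
  have hRN : ((i + 1) ^ 4) ^ (2 * (d + 1)) ≤ N i := by
    refine le_trans (le_of_eq ?_) hgrow
    rw [← pow_mul, show 4 * (2 * (d + 1)) = 8 * (d + 1) by ring]
  have hi0 : (0 : ℝ) < (i : ℝ) + 1 := by positivity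
  have hY : ((i : ℝ) + 1) * (((i + 1) ^ 4 : ℕ) : ℝ) ^ (d + 1) ≤ c' * p (N i) := by
    have h2 : ((i : ℝ) + 1) * (((i + 1) ^ 4 : ℕ) : ℝ) ^ (d + 1) = ((i : ℝ) + 1) ^ (4 * (d + 1) + 1) := by
      push_cast
      rw [← pow_mul, pow_succ' _ (4 * (d + 1))]
    rw [h2]
    have h3 : (i : ℝ) + 1 ≤ r * (((i / r : ℕ) : ℝ) + 1) := by
      have h4 : i + 1 ≤ r * (i / r + 1) := Nat.lt_mul_div_succ i hr
      exact_mod_cast h4
    have h5 : (2 : ℝ) ^ (i / r / 2) ≤ 2 ^ (i / r) := pow_le_pow_right₀ (by norm_num) (Nat.div_le_self _ _)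
    calc ((i : ℝ) + 1) ^ (4 * (d + 1) + 1) ≤ (r * (((i / r : ℕ) : ℝ) + 1)) ^ (4 * (d + 1) + 1) :=
          pow_le_pow_left₀ hi0.le h3 _
      _ = (r : ℝ) ^ (4 * (d + 1) + 1) * (((i / r : ℕ) : ℝ) + 1) ^ (4 * (d + 1) + 1) := mul_pow _ _ _
      _ ≤ (r : ℝ) ^ (4 * (d + 1) + 1) * (c' * c₃ / (r : ℝ) ^ (4 * (d + 1) + 1) * 2 ^ (i / r / 2)) :=
          mul_le_mul_of_nonneg_left hpowi (by positivity)
      _ = c' * (c₃ * 2 ^ (i / r / 2)) := by field_simp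
      _ ≤ c' * (c₃ * 2 ^ (i / r)) := by gcongr
      _ ≤ c' * p (N i) := mul_le_mul_of_nonneg_left hlowi hc'.le
  have h2 := hNi ((i + 1) ^ 4) (Nat.one_le_pow _ _ (Nat.succ_pos i)) hRN (fun x => φ x - hk τ φ 0 x) hψ
    ((i : ℝ) + 1) ((2 * Cφ / ((i : ℝ) + 1)) ^ 2) (fun y hy => ?_) hY
  · refine h2.trans ?_
    have h3 : Real.sqrt (((i + 1) ^ 4 : ℕ) : ℝ) = ((i : ℝ) + 1) ^ 2 := by
      push_cast
      rw [show ((i : ℝ) + 1) ^ 4 = (((i : ℝ) + 1) ^ 2) ^ 2 by ring, Real.sqrt_sq (by positivity)]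
    rw [h3, ← hβ]
    rw [div_pow, ← add_div, ← mul_div_assoc]
    refine div_le_div_of_nonneg_right ?_ (by positivity)
    exact mul_le_mul_of_nonneg_left (by linarith) hC.le
  · have hy0 : 0 < y := hi0.trans_le hy
    refine (smo_small hτ hφm hCφ hy0).trans ?_
    rw [div_pow, div_pow]
    exact div_le_div_of_nonneg_left (by positivity) (by positivity) (pow_le_pow_left₀ hi0.le hy 2)

end shell

end Pool.Agent.W5h67.NF
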