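import Pool.Agent.W5h67.NF.Shell

/-!
Words in noncommuting flows at generic times: the averages of a function and of its averages over long intervals
along the last flow have the same limits, along lacunary sequences.
-/

set_option autoImplicit false

namespace Pool.Agent.W5h67.NF

open MeasureTheory Filter Finset
open Pool.Agent.Y957.MC (IsFlow flowInv smo)

universe u

theorem ae_of_summable {Z : Type*} [MeasurableSpace Z] {P : Measure Z} [IsFiniteMeasure P] {f : ℕ → Z → ℝ}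
    (hf : ∀ i, BM (f i)) (h : Summable fun i => ∫ z, f i z ^ 2 ∂P) :
    ∀ᵐ z ∂P, Tendsto (fun i => f i z) atTop (nhds 0) := by
  have h2 : ∀ i, ∫⁻ z, ENNReal.ofReal (f i z ^ 2) ∂P = ENNReal.ofReal (∫ z, f i z ^ 2 ∂P) := by
    intro i
    rw [← ofReal_integral_eq_lintegral_ofReal ((hf i).sq.int P) (Eventually.of_forall fun z => sq_nonneg _)]
  have hm : ∀ i, Measurable (fun z => ENNReal.ofReal (f i z ^ 2)) := fun i => ((hf i).1.pow_const 2).ennreal_ofReal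
  have h3 : ∫⁻ z, ∑' i, ENNReal.ofReal (f i z ^ 2) ∂P ≠ ⊤ := by
    rw [lintegral_tsum fun i => (hm i).aemeasurable]
    simp only [h2]
    exact h.tsum_ofReal_ne_top
  have h4 := ae_lt_top (Measurable.ennreal_tsum hm) h3
  filter_upwards [h4] with z hz
  have h5 := ENNReal.tendsto_atTop_zero_of_tsum_ne_top hz.ne
  have h6 := (ENNReal.tendsto_toReal ENNReal.zero_ne_top).comp h5
  have h7 : Tendsto (fun i => f i z ^ 2) atTop (nhds 0) := by
    refine (h6.congr fun i => ?_)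
    simp only [Function.comp_apply]
    exact ENNReal.toReal_ofReal (sq_nonneg _)
  have h8 := (Real.continuous_sqrt.tendsto 0).comp h7
  rw [tendsto_zero_iff_abs_tendsto_zero]
  rw [Real.sqrt_zero] at h8
  refine h8.congr fun i => ?_
  simp only [Function.comp_apply, Real.sqrt_sq_eq_abs]

section sums

variable {X : Type u} [MeasurableSpace X] {Ω : Type*} [MeasurableSpace Ω]
variable {μ : Measure X} [IsProbabilityMeasure μ] {ν : Measure Ω} [IsProbabilityMeasure ν]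
  {g : ℕ → Ω → X → X} {d : ℕ} {τ : ℝ → X → X} {p : ℕ → ℝ} {B : ℝ} {ψ φ : X → ℝ}

theorem Sn_add (ε : ℝ) (N : ℕ) (ψ₁ ψ₂ : X → ℝ) (z : (ℝ × Ω) × X) :
    Sn τ p g ε N (fun x => ψ₁ x + ψ₂ x) z = Sn τ p g ε N ψ₁ z + Sn τ p g ε N ψ₂ z := by
  simp only [Sn, sum_add_distrib, mul_add]

theorem Sn_sum (ε : ℝ) (N : ℕ) (s : Finset ℕ) (ψ : ℕ → X → ℝ) (z : (ℝ × Ω) × X) :
    Sn τ p g ε N (fun x => ∑ k ∈ s, ψ k x) z = ∑ k ∈ s, Sn τ p g ε N (ψ k) z := by
  simp only [Sn]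
  rw [sum_comm, mul_sum]

theorem inv_sq_summable : Summable fun M : ℕ => 1 / ((M : ℝ) + 1) ^ 2 := by
  have h := (summable_nat_add_iff (f := fun n : ℕ => 1 / (n : ℝ) ^ 2) 1).2
    (Real.summable_one_div_nat_pow.2 (by norm_num))
  simpa using h

/-- weighted Cauchy-Schwarz inequality -/
theorem wcs (x : ℕ → ℝ) (K : ℕ) : (∑ M ∈ range K, x M) ^ 2 ≤
    (∑' M : ℕ, 1 / ((M : ℝ) + 1) ^ 2) * ∑ M ∈ range K, ((M : ℝ) + 1) ^ 2 * x M ^ 2 := by
  have h1 := sum_mul_sq_le_sq_mul_sq (range K) (fun M : ℕ => 1 / ((M : ℝ) + 1)) (fun M : ℕ => ((M : ℝ) + 1) * x M)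
  have e1 : ∑ M ∈ range K, 1 / ((M : ℝ) + 1) * (((M : ℝ) + 1) * x M) = ∑ M ∈ range K, x M := by
    refine sum_congr rfl fun M _ => ?_
    have : ((M : ℝ) + 1) ≠ 0 := by positivity
    field_simp
  rw [e1] at h1
  refine h1.trans ?_
  have h2 : ∑ M ∈ range K, (1 / ((M : ℝ) + 1)) ^ 2 ≤ ∑' M : ℕ, 1 / ((M : ℝ) + 1) ^ 2 := by
    simp only [div_pow, one_pow]
    exact inv_sq_summable.sum_le_tsum _ fun M _ => by positivity
  have h3 : ∑ M ∈ range K, (((M : ℝ) + 1) * x M) ^ 2 = ∑ M ∈ range K, ((M : ℝ) + 1) ^ 2 * x M ^ 2 :=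
    sum_congr rfl fun M _ => by ring
  rw [h3]
  exact mul_le_mul_of_nonneg_right h2 (sum_nonneg fun M _ => by positivity)

/-- the convolution of the square function -/
noncomputable def cv (μ : Measure X) (τ : ℝ → X → X) (φ : X → ℝ) (K : ℕ) : ℝ :=
  ∑ l ∈ range (K + 1), 1 / ((l : ℝ) + 1) ^ 2 * dl μ τ φ (K - l)

theorem summable_cv (hτ : IsFlow μ τ) (hφ : BM φ) : Summable (cv μ τ φ) := by
  have h1 : Summable fun M : ℕ => ‖1 / ((M : ℝ) + 1) ^ 2‖ := inv_sq_summable.norm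
  have h2 : Summable fun M : ℕ => ‖dl μ τ φ M‖ := (summable_dl hτ hφ).norm
  exact (summable_norm_sum_mul_range_of_summable_norm h1 h2).of_norm

theorem cv_nonneg (K : ℕ) : 0 ≤ cv μ τ φ K :=
  sum_nonneg fun l _ => mul_nonneg (by positivity) (dl_nonneg _)

theorem shell_sum {C : ℝ} (hC : 0 ≤ C) (K : ℕ) (m : ℕ → ℝ)
    (hm : ∀ M, M ≤ K → m (K - M) ≤ C / ((M : ℝ) + 1) ^ 6 * ∑ l ∈ range (M + 1), dl μ τ φ (K - M + l)) :
    ∑ M ∈ range K, ((M : ℝ) + 1) ^ 2 * m (K - 1 - M) ≤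
      C * (∑' M : ℕ, 1 / ((M : ℝ) + 1) ^ 2) * cv μ τ φ K := by
  have h1 : ∀ M ∈ range K, ((M : ℝ) + 1) ^ 2 * m (K - 1 - M) ≤ C * cv μ τ φ K * (1 / ((M : ℝ) + 1) ^ 2) := by
    intro M hM
    rw [mem_range] at hM
    have h2 := hm (M + 1) hM
    have e1 : K - 1 - M = K - (M + 1) := by omega
    rw [e1]
    have e2 : ∑ l ∈ range (M + 1 + 1), dl μ τ φ (K - (M + 1) + l) = ∑ l ∈ range (M + 1 + 1), dl μ τ φ (K - l) := by
      rw [← sum_range_reflect]
      refine sum_congr rfl fun l hl => ?_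
      rw [mem_range] at hl
      congr 1
      omega
    rw [e2] at h2
    have h3 : ∑ l ∈ range (M + 1 + 1), dl μ τ φ (K - l) ≤ ((M : ℝ) + 2) ^ 2 * cv μ τ φ K := by
      have h4 : ∑ l ∈ range (M + 1 + 1), dl μ τ φ (K - l) ≤
          ∑ l ∈ range (M + 1 + 1), ((M : ℝ) + 2) ^ 2 * (1 / ((l : ℝ) + 1) ^ 2 * dl μ τ φ (K - l)) := by
        refine sum_le_sum fun l hl => ?_
        rw [mem_range] at hl
        have h5 : (l : ℝ) + 1 ≤ (M : ℝ) + 2 := by
          have : l + 1 ≤ M + 2 := by omega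
          exact_mod_cast this
        have h6 : 1 ≤ ((M : ℝ) + 2) ^ 2 * (1 / ((l : ℝ) + 1) ^ 2) := by
          rw [mul_one_div, one_le_div (by positivity)]
          exact pow_le_pow_left₀ (by positivity) h5 2
        rw [← mul_assoc]
        exact le_mul_of_one_le_left (dl_nonneg _) h6
      refine h4.trans ?_
      rw [← mul_sum]
      refine mul_le_mul_of_nonneg_left ?_ (by positivity)
      refine sum_le_sum_of_subset_of_nonneg ?_ fun l _ _ => mul_nonneg (by positivity) (dl_nonneg _)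
      intro l hl
      rw [mem_range] at hl ⊢
      omega
    have hcv := cv_nonneg (μ := μ) (τ := τ) (φ := φ) K
    push_cast at h2
    have e3 : (M : ℝ) + 1 + 1 = (M : ℝ) + 2 := by ring
    rw [e3] at h2
    calc ((M : ℝ) + 1) ^ 2 * m (K - (M + 1)) ≤
        ((M : ℝ) + 1) ^ 2 * (C / ((M : ℝ) + 2) ^ 6 * (((M : ℝ) + 2) ^ 2 * cv μ τ φ K)) :=
          mul_le_mul_of_nonneg_left (h2.trans (mul_le_mul_of_nonneg_left h3 (by positivity))) (by positivity)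
      _ = C * cv μ τ φ K * (((M : ℝ) + 1) ^ 2 / ((M : ℝ) + 2) ^ 4) := by
          field_simp
      _ ≤ C * cv μ τ φ K * (1 / ((M : ℝ) + 1) ^ 2) := by
          refine mul_le_mul_of_nonneg_left ?_ (mul_nonneg hC hcv)
          rw [div_le_div_iff₀ (by positivity) (by positivity), one_mul, ← pow_add]
          exact pow_le_pow_left₀ (by positivity) (by linarith) 4
  refine (sum_le_sum h1).trans ?_
  rw [← mul_sum]
  have h7 : ∑ M ∈ range K, 1 / ((M : ℝ) + 1) ^ 2 ≤ ∑' M : ℕ, 1 / ((M : ℝ) + 1) ^ 2 :=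
    inv_sq_summable.sum_le_tsum _ fun M _ => by positivity
  calc C * cv μ τ φ K * ∑ M ∈ range K, 1 / ((M : ℝ) + 1) ^ 2 ≤
      C * cv μ τ φ K * ∑' M : ℕ, 1 / ((M : ℝ) + 1) ^ 2 :=
        mul_le_mul_of_nonneg_left h7 (mul_nonneg hC (cv_nonneg K))
    _ = _ := by ring

/-- the mean squares of the differences are summable -/
theorem sumsq (hB : 0 < B) (hg : Fam μ g) (hP : Peel μ ν g d) (hτ : IsFlow μ τ) (hp : Tm p) {ε : ℝ} (hε : 0 < ε)
    (hε1 : ε ≤ 1 / 2) (hφ : BM φ) {r : ℕ} {N : ℕ → ℕ} (hL : Lac p r N) (j : ℕ) :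
    Summable (fun i : ℕ => MS B μ ν τ p g ε (N i) (fun x => φ x - hk τ φ (i / r + j) x)) := by
  obtain ⟨C₁, hC₁, hsh⟩ := shell (B := B) hB hg hP hτ hp hε hε1 hφ hL
  obtain ⟨C₂, hC₂, hsm⟩ := small (B := B) hB hg hP hτ hp hε hε1 hφ hL
  set Z : ℝ := ∑' M : ℕ, 1 / ((M : ℝ) + 1) ^ 2 with hZ
  have hZ0 : 0 ≤ Z := tsum_nonneg fun M => by positivity
  have hbound : Summable (fun i : ℕ => 3 * (C₂ / ((i : ℝ) + 1) ^ 2) + 3 * (Z * (C₁ * Z * cv μ τ φ (i / r))) +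
      3 * (j * ∑ l ∈ range j, dl μ τ φ (i / r + l))) := by
    refine Summable.add (Summable.add ?_ ?_) ?_
    · have := (inv_sq_summable.mul_left C₂).mul_left 3
      refine this.congr fun i => ?_
      ring
    · exact (((summable_div (summable_cv hτ hφ) cv_nonneg hL.hr).mul_left (C₁ * Z)).mul_left Z).mul_left 3
    · refine Summable.mul_left _ (Summable.mul_left _ ?_)
      refine summable_sum fun l _ => ?_
      exact summable_div (f := fun K => dl μ τ φ (K + l)) ((summable_nat_add_iff l).2 (summable_dl hτ hφ))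
        (fun n => dl_nonneg _) hL.hr
  refine Summable.of_norm_bounded_eventually_nat hbound ?_
  filter_upwards [hsh, hsm] with i hsh hsm
  obtain ⟨K, hK⟩ : ∃ K, K = i / r := ⟨_, rfl⟩
  rw [← hK] at hsh ⊢
  have hMS0 : ∀ ψ : X → ℝ, 0 ≤ MS B μ ν τ p g ε (N i) ψ := fun ψ => integral_nonneg fun _ => sq_nonneg _
  rw [Real.norm_of_nonneg (hMS0 _)]
  have hSm : ∀ ψ : X → ℝ, BM ψ → BM (Sn τ p g ε (N i) ψ) := fun ψ hψ => Sn_bm hg hτ hψ ε (N i)
  have h00 : BM (fun x => φ x - hk τ φ 0 x) := hφ.sub (hk_bm hτ hφ 0)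
  have e1 : ∀ z, Sn τ p g ε (N i) (fun x => φ x - hk τ φ (K + j) x) z =
      Sn τ p g ε (N i) (fun x => φ x - hk τ φ 0 x) z +
        ∑ M ∈ range K, Sn τ p g ε (N i) (Dk τ φ (K - 1 - M)) z +
        ∑ l ∈ range j, Sn τ p g ε (N i) (Dk τ φ (K + l)) z := by
    intro z
    have e2 : (fun x => φ x - hk τ φ (K + j) x) = fun x => ((φ x - hk τ φ 0 x) +
        ∑ k ∈ range K, Dk τ φ k x) + ∑ l ∈ range j, Dk τ φ (K + l) x := by
      funext x
      have h1 := hk_expand (τ := τ) (φ := φ) 0 K x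
      have h2 := hk_expand (τ := τ) (φ := φ) K j x
      simp only [zero_add] at h1
      rw [h1, h2]
      ring
    rw [e2, Sn_add, Sn_add, Sn_sum, Sn_sum]
    congr 2
    rw [← sum_range_reflect]
  have e3 : ∀ z, Sn τ p g ε (N i) (fun x => φ x - hk τ φ (K + j) x) z ^ 2 ≤
      3 * Sn τ p g ε (N i) (fun x => φ x - hk τ φ 0 x) z ^ 2 +
      3 * (Z * ∑ M ∈ range K, ((M : ℝ) + 1) ^ 2 * Sn τ p g ε (N i) (Dk τ φ (K - 1 - M)) z ^ 2) +
      3 * (j * ∑ l ∈ range j, Sn τ p g ε (N i) (Dk τ φ (K + l)) z ^ 2) := by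
    intro z
    rw [e1]
    have h1 := wcs (fun M => Sn τ p g ε (N i) (Dk τ φ (K - 1 - M)) z) K
    have h2 := sq_sum_le_card_mul_sum_sq (s := range j) (f := fun l => Sn τ p g ε (N i) (Dk τ φ (K + l)) z)
    rw [card_range] at h2
    set a := Sn τ p g ε (N i) (fun x => φ x - hk τ φ 0 x) z
    set b := ∑ M ∈ range K, Sn τ p g ε (N i) (Dk τ φ (K - 1 - M)) z
    set c := ∑ l ∈ range j, Sn τ p g ε (N i) (Dk τ φ (K + l)) z
    have h3 : (a + b + c) ^ 2 ≤ 3 * a ^ 2 + 3 * b ^ 2 + 3 * c ^ 2 := by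
      nlinarith [sq_nonneg (a - b), sq_nonneg (a - c), sq_nonneg (b - c)]
    linarith
  have hm1 : BM (fun z => Sn τ p g ε (N i) (fun x => φ x - hk τ φ 0 x) z ^ 2) := (hSm _ h00).sq
  have hm2 : ∀ M, BM (fun z => Sn τ p g ε (N i) (Dk τ φ (K - 1 - M)) z ^ 2) := fun M => (hSm _ (Dk_bm hτ hφ _)).sq
  have hm3 : ∀ l, BM (fun z => Sn τ p g ε (N i) (Dk τ φ (K + l)) z ^ 2) := fun l => (hSm _ (Dk_bm hτ hφ _)).sq
  have hL1 : BM (fun z => 3 * Sn τ p g ε (N i) (fun x => φ x - hk τ φ 0 x) z ^ 2) := hm1.smul 3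
  have hL2 : BM (fun z => 3 * (Z * ∑ M ∈ range K, ((M : ℝ) + 1) ^ 2 *
      Sn τ p g ε (N i) (Dk τ φ (K - 1 - M)) z ^ 2)) := ((BM.sum _ fun M _ => (hm2 M).smul _).smul Z).smul 3
  have hL3 : BM (fun z => 3 * ((j : ℝ) * ∑ l ∈ range j, Sn τ p g ε (N i) (Dk τ φ (K + l)) z ^ 2)) :=
    ((BM.sum _ fun l _ => hm3 l).smul _).smul 3
  have hmL : BM (fun z => Sn τ p g ε (N i) (fun x => φ x - hk τ φ (K + j) x) z ^ 2) :=
    (hSm _ (hφ.sub (hk_bm hτ hφ _))).sq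
  set P := ((lam B).prod ν).prod μ with hPd
  have h4 : MS B μ ν τ p g ε (N i) (fun x => φ x - hk τ φ (K + j) x) ≤
      3 * MS B μ ν τ p g ε (N i) (fun x => φ x - hk τ φ 0 x) +
      3 * (Z * ∑ M ∈ range K, ((M : ℝ) + 1) ^ 2 * MS B μ ν τ p g ε (N i) (Dk τ φ (K - 1 - M))) +
      3 * (j * ∑ l ∈ range j, MS B μ ν τ p g ε (N i) (Dk τ φ (K + l))) := by
    unfold MS
    rw [← hPd]
    refine (integral_mono (hmL.int P) (((hL1.add hL2).add hL3).int P) e3).trans (le_of_eq ?_)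
    rw [integral_add ((hL1.add hL2).int P) (hL3.int P), integral_add (hL1.int P) (hL2.int P), integral_const_mul,
      integral_const_mul, integral_const_mul, integral_const_mul, integral_const_mul,
      integral_finsetSum _ fun M _ => ((hm2 M).smul _).int P, integral_finsetSum _ fun l _ => (hm3 l).int P]
    simp only [integral_const_mul]
  refine h4.trans ?_
  have h5 := shell_sum (μ := μ) (τ := τ) (φ := φ) hC₁.le K (fun k => MS B μ ν τ p g ε (N i) (Dk τ φ k)) hsh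
  have h6 : ∑ l ∈ range j, MS B μ ν τ p g ε (N i) (Dk τ φ (K + l)) ≤ ∑ l ∈ range j, dl μ τ φ (K + l) :=
    sum_le_sum fun l _ => MS_le hg hτ (Dk_bm hτ hφ _) ε (N i)
  have h7 := mul_le_mul_of_nonneg_left h5 hZ0
  have h8 := mul_le_mul_of_nonneg_left h6 (Nat.cast_nonneg (α := ℝ) j)
  linarith

/-- convergence to zero of the differences almost everywhere -/
theorem ae_diff (hB : 0 < B) (hg : Fam μ g) (hP : Peel μ ν g d) (hτ : IsFlow μ τ) (hp : Tm p) {ε : ℝ} (hε : 0 < ε)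
    (hε1 : ε ≤ 1 / 2) (hφ : BM φ) {r : ℕ} {N : ℕ → ℕ} (hL : Lac p r N) (j : ℕ) :
    ∀ᵐ z ∂(((lam B).prod ν).prod μ),
      Tendsto (fun i : ℕ => Sn τ p g ε (N i) (fun x => φ x - hk τ φ (i / r + j) x) z) atTop (nhds 0) :=
  ae_of_summable (fun i => Sn_bm hg hτ (hφ.sub (hk_bm hτ hφ _)) ε (N i)) (sumsq hB hg hP hτ hp hε hε1 hφ hL j)

end sums

end Pool.Agent.W5h67.NF
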