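import Pool.Agent.W5h67.NF.Poly

/-!
Words in noncommuting flows at generic times: trees of words.
-/

set_option autoImplicit false

namespace Pool.Agent.W5h67.NF

open MeasureTheory Filter Finset
open Pool.Agent.Y957.MC (IsFlow flowInv smo)

universe u

theorem BM.prod {α ι : Type*} [MeasurableSpace α] (s : Finset ι) {F : ι → α → ℝ} (hF : ∀ i ∈ s, BM (F i)) :
    BM (fun x => ∏ i ∈ s, F i x) := by
  classical
  induction s using Finset.induction_on with
  | empty => simpa using BM.const (α := α) 1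
  | insert a s ha ih =>
    simp only [prod_insert ha]
    exact (hF a (mem_insert_self _ _)).mul (ih fun i hi => hF i (mem_insert_of_mem hi))

section comp

variable {X : Type u} [MeasurableSpace X] {Ω Ω' : Type*} [MeasurableSpace Ω] [MeasurableSpace Ω']
  {μ : Measure X} [IsProbabilityMeasure μ] {ν : Measure Ω} [IsProbabilityMeasure ν] {ν' : Measure Ω'}
  [IsProbabilityMeasure ν'] {φ : Ω' → Ω} {g : ℕ → Ω → X → X} {d : ℕ} {T : (X → ℝ) → X → ℝ}
  {ι : Type} [Fintype ι] [DecidableEq ι] {G : ι → ℕ → Ω → X → X}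

omit [IsProbabilityMeasure μ] in
theorem Fam.comp (h : Fam μ g) (hφ : Measurable φ) : Fam μ (fun n r x => g n (φ r) x) := by
  refine ⟨fun n => ?_, fun n r => h.mp n (φ r)⟩
  exact (h.meas n).comp ((hφ.comp measurable_fst).prodMk measurable_snd)

omit [IsProbabilityMeasure ν] [IsProbabilityMeasure ν'] in
theorem Peel.comp (hg : Fam μ g) (h : Peel μ ν g d) (hφ : MeasurePreserving φ ν' ν) :
    Peel μ ν' (fun n r x => g n (φ r) x) d := by
  intro ε hε
  obtain ⟨C, hC, hN⟩ := h ε hε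
  refine ⟨C, hC, ?_⟩
  filter_upwards [hN] with N hN s H R hH hR hs hsN F b hF hb
  have h1 := hN s H R hH hR hs hsN F b hF hb
  refine le_trans (le_of_eq ?_) h1
  have hm : BM (fun q : Ω × X => (∑ r ∈ range (H * R ^ d), F (s + r) (g (s + r) q.1 q.2)) ^ 2) :=
    (BM.sum _ fun r _ => (hF _).comp (hg.meas _)).sq
  have hm2 : BM (fun ω => ∫ x, (∑ r ∈ range (H * R ^ d), F (s + r) (g (s + r) ω x)) ^ 2 ∂μ) :=
    BM.integral (f := fun ω x => (∑ r ∈ range (H * R ^ d), F (s + r) (g (s + r) ω x)) ^ 2) hm μ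
  have h2 := integral_map (μ := ν') hφ.measurable.aemeasurable hm2.1.aestronglyMeasurable
  rw [hφ.map_eq] at h2
  exact h2.symm

theorem ae_comp {Q : Ω × X → Prop} (h : ∀ᵐ z ∂(ν.prod μ), Q z) (hφ : MeasurePreserving φ ν' ν) :
    ∀ᵐ z ∂(ν'.prod μ), Q (φ z.1, z.2) := by
  have h1 := (hφ.prod (MeasurePreserving.id μ)).quasiMeasurePreserving.ae h
  filter_upwards [h1] with z hz
  exact hz

theorem Lim.comp (h : Lim μ ν g T) (hφ : MeasurePreserving φ ν' ν) : Lim μ ν' (fun n r x => g n (φ r) x) T :=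
  fun f hf => ae_comp (h f hf) hφ

omit [DecidableEq ι] in
theorem LimW.comp {S : ι → (X → ℝ) → X → ℝ} (h : LimW μ ν G S) (hφ : MeasurePreserving φ ν' ν) :
    LimW μ ν' (fun j n r x => G j n (φ r) x) S := fun W h1 h2 f hf => ae_comp (h W h1 h2 f hf) hφ

omit [DecidableEq ι] in
/-- joint convergence, arbitrary weights -/
def LimJ (μ : Measure X) (ν : Measure Ω) (g : ι → ℕ → Ω → X → X) (T : (ι → X → ℝ) → X → ℝ) : Prop :=
  ∀ (W : ℕ → X → ℝ), (∀ n, Measurable (W n)) → (∃ C : ℝ, ∀ n x, |W n x| ≤ C) →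
    ∀ f : ι → X → ℝ, (∀ j, BM (f j)) → ∀ᵐ z ∂(ν.prod μ),
      Tendsto (fun N : ℕ => (1 / (N : ℝ)) * ∑ n ∈ Icc 1 N, W n z.2 *
        (∏ j, f j (g j n z.1 z.2) - T f z.2)) atTop (nhds 0)

omit [DecidableEq ι] in
theorem LimJ.comp {S : (ι → X → ℝ) → X → ℝ} (h : LimJ μ ν G S) (hφ : MeasurePreserving φ ν' ν) :
    LimJ μ ν' (fun j n r x => G j n (φ r) x) S := fun W h1 h2 f hf => ae_comp (h W h1 h2 f hf) hφ

omit [IsProbabilityMeasure μ] [IsProbabilityMeasure ν] [DecidableEq ι] in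
theorem limJ_zero : LimJ μ ν (fun (_ : ι) (_ : ℕ) (_ : Ω) (x : X) => x) (fun f x => ∏ j, f j x) := by
  intro W _ _ f _
  filter_upwards with z
  simp

/-- the functions of identical words are multiplied -/
noncomputable def mrg (κ : ι → ι) (f : ι → X → ℝ) (j : ι) (x : X) : ℝ := ∏ i with κ i = j, f i x

theorem mrg_bm (κ : ι → ι) {f : ι → X → ℝ} (hf : ∀ j, BM (f j)) (j : ι) : BM (mrg κ f j) :=
  BM.prod _ fun i _ => hf i

omit [MeasurableSpace X] in
theorem mrg_one {κ : ι → ι} (hκ : ∀ j, κ (κ j) = κ j) (f : ι → X → ℝ) {j : ι} (h : κ j ≠ j) (x : X) :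
    mrg κ f j x = 1 := by
  unfold mrg
  rw [filter_eq_empty_iff.2, prod_empty]
  intro i _ hi
  apply h
  rw [← hi, hκ]

omit [MeasurableSpace X] in
theorem mrg_prod {κ : ι → ι} (f : ι → X → ℝ) (y : ι → X) (hy : ∀ j, y (κ j) = y j) :
    ∏ j, mrg κ f j (y j) = ∏ j, f j (y j) := by
  unfold mrg
  rw [← prod_fiberwise (univ : Finset ι) κ (fun j => f j (y j))]
  refine prod_congr rfl fun j _ => prod_congr rfl fun i hi => ?_
  rw [mem_filter] at hi
  rw [← hi.2, hy]

variable {TT : (ι → X → ℝ) → X → ℝ} {D : ι → ℕ} {S : ι → (X → ℝ) → X → ℝ} {τ : ι → ℝ → X → X} {p : ι → ℕ → ℝ}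
  {B : ℝ}

theorem limJ_succ (hB : 0 < B) (hg : ∀ j, Fam μ (G j)) (hP : ∀ j, Peel μ ν (G j) (D j))
    (hT : ∀ j, Lim μ ν (G j) (S j)) (hτ : ∀ j, IsFlow μ (τ j)) {q : ι → ℕ} {κ : ι → ι} (hκ : ∀ j, κ (κ j) = κ j)
    (hG : ∀ j n (r : ℝ × Ω) x, τ (κ j) (r.1 * p (κ j) n) (G (κ j) n r.2 x) = τ j (r.1 * p j n) (G j n r.2 x))
    (A : Finset ι) (hp : ∀ j ∈ A, Tmc (p j)) (hp' : ∀ j, κ j = j → j ∉ A → ∀ n, p j n = 0)
    (hq : ∀ j ∈ A, ∀ j' ∈ A, q j = q j' → j = j') (hsub : ∀ j ∈ A, ∀ j' ∈ A, q j < q j' → Sub (p j) (p j'))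
    (hW : LimJ μ ν G TT) :
    LimJ μ ((lam B).prod ν) (fun (j : ι) (n : ℕ) (r : ℝ × Ω) (x : X) => τ j (r.1 * p j n) (G j n r.2 x))
      (fun f => TT (fun j => if j ∈ A then ce μ (τ j) (mrg κ f j) else mrg κ f j)) := by
  intro W hWm hWb f₀ hf₀
  set f : ι → X → ℝ := mrg κ f₀ with hfd
  have hf : ∀ j, BM (f j) := mrg_bm κ hf₀
  obtain ⟨CW, hCW⟩ := hWb
  have hfc : ∀ n, BM (fun y : Ω × X => ∏ j ∈ univ \ A, f j (G j n y.1 y.2)) := fun n =>
    BM.prod _ fun j _ => (hf j).comp ((hg j).meas n)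
  have hfcb : ∃ C : ℝ, ∀ n (y : Ω × X), |∏ j ∈ univ \ A, f j (G j n y.1 y.2)| ≤ C := by
    refine ⟨∏ j ∈ univ \ A, bd (f j), fun n y => ?_⟩
    rw [abs_prod]
    exact prod_le_prod (fun j _ => abs_nonneg _) fun j _ => bd_le (hf j) _
  obtain ⟨Cf, hCf⟩ := hfcb
  have h1 := claim hB hg hP hT hτ A hp hq hsub
    (fun n y => W n y.2 * ∏ j ∈ univ \ A, f j (G j n y.1 y.2))
    (fun n => ((hWm n).comp measurable_snd).mul (hfc n).1)
    ⟨|CW| * |Cf|, fun n y => by
      rw [abs_mul]
      exact mul_le_mul ((hCW n _).trans (le_abs_self _)) ((hCf n y).trans (le_abs_self _)) (abs_nonneg _)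
        (abs_nonneg _)⟩ f hf
  set f' : ι → X → ℝ := fun j => if j ∈ A then ce μ (τ j) (f j) else f j with hf'
  have hf'm : ∀ j, BM (f' j) := by
    intro j
    simp only [hf']
    split_ifs
    · exact ce_bm _
    · exact hf j
  have h2 : ∀ᵐ z : (ℝ × Ω) × X ∂(((lam B).prod ν).prod μ), Tendsto (fun N : ℕ => (1 / (N : ℝ)) *
      ∑ n ∈ Icc 1 N, W n z.2 * (∏ j, f' j (G j n z.1.2 z.2) - TT f' z.2)) atTop (nhds 0) :=
    ae_skip (hW W hWm ⟨CW, hCW⟩ f' hf'm)
  filter_upwards [h1, h2] with z hz1 hz2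
  have h3 := hz1.add hz2
  rw [add_zero] at h3
  refine h3.congr fun N => ?_
  rw [← mul_add, ← sum_add_distrib]
  congr 1
  refine sum_congr rfl fun n _ => ?_
  have e0 : ∏ j, f₀ j (τ j (z.1.1 * p j n) (G j n z.1.2 z.2)) = ∏ j, f j (τ j (z.1.1 * p j n) (G j n z.1.2 z.2)) :=
    (mrg_prod f₀ (fun j => τ j (z.1.1 * p j n) (G j n z.1.2 z.2)) fun j => hG j n z.1 z.2).symm
  have e1 : ∏ j, f j (τ j (z.1.1 * p j n) (G j n z.1.2 z.2)) =
      (∏ j ∈ univ \ A, f j (G j n z.1.2 z.2)) * ∏ j ∈ A, f j (τ j (z.1.1 * p j n) (G j n z.1.2 z.2)) := by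
    rw [← prod_sdiff (subset_univ A)]
    congr 1
    refine prod_congr rfl fun j hj => ?_
    rw [Finset.mem_sdiff] at hj
    by_cases hj2 : κ j = j
    · rw [hp' j hj2 hj.2, mul_zero, (hτ j).zero]
    · rw [hfd, mrg_one hκ f₀ hj2, mrg_one hκ f₀ hj2]
  have e2 : ∏ j, f' j (G j n z.1.2 z.2) =
      (∏ j ∈ univ \ A, f j (G j n z.1.2 z.2)) * ∏ j ∈ A, ce μ (τ j) (f j) (G j n z.1.2 z.2) := by
    rw [← prod_sdiff (subset_univ A)]
    congr 1
    · refine prod_congr rfl fun j hj => ?_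
      rw [Finset.mem_sdiff] at hj
      simp only [hf', if_neg hj.2]
    · refine prod_congr rfl fun j hj => ?_
      simp only [hf', if_pos hj]
  rw [e0, e1, e2]
  ring

end comp

section words

variable {X : Type u}

/-- words in several maps, the first one is applied last -/
def wd : (d : ℕ) → (Fin d → ℝ → X → X) → (Fin d → ℝ) → X → X
  | 0, _, _, x => x
  | d + 1, τ, t, x => τ 0 (t 0) (wd d (fun i => τ i.succ) (fun i => t i.succ) x)

/-- words at the times `a_i p_i(n)` -/
def gw {d : ℕ} (τ : Fin d → ℝ → X → X) (p : Fin d → ℕ → ℝ) (n : ℕ) (a : Fin d → ℝ) (x : X) : X :=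
  wd d τ (fun i => a i * p i n) x

variable [MeasurableSpace X] {μ : Measure X} [IsProbabilityMeasure μ] {B : ℝ} {ι : Type} [Fintype ι] [DecidableEq ι]

/-- iterated conditional expectations -/
noncomputable def iE (μ : Measure X) : (d : ℕ) → (Fin d → ℝ → X → X) → (Fin d → Prop) → (X → ℝ) → X → ℝ
  | 0, _, _, f => f
  | d + 1, τ, act, f => open Classical in
    iE μ d (fun i => τ i.succ) (fun i => act i.succ) (if act 0 then ce μ (τ 0) f else f)

/-- the first parameter and the others -/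
theorem mp_tail (B : ℝ) (d : ℕ) : MeasurePreserving (fun a : Fin (d + 1) → ℝ => (a 0, fun i : Fin d => a i.succ))
    (Measure.pi fun _ : Fin (d + 1) => lam B) ((lam B).prod (Measure.pi fun _ : Fin d => lam B)) := by
  have h := measurePreserving_piFinSuccAbove (fun _ : Fin (d + 1) => lam B) 0
  have e : (fun a : Fin (d + 1) → ℝ => (a 0, fun i : Fin d => a i.succ)) =
      ⇑(MeasurableEquiv.piFinSuccAbove (fun _ : Fin (d + 1) => ℝ) 0) := by
    funext a
    refine Prod.ext rfl ?_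
    funext i
    simp [MeasurableEquiv.piFinSuccAbove, Fin.tail]
  rw [e]
  exact h

omit [IsProbabilityMeasure μ] in
theorem fam_gw {d : ℕ} {τ : Fin d → ℝ → X → X} (hτ : ∀ i, IsFlow μ (τ i)) (p : Fin d → ℕ → ℝ) :
    Fam μ (gw τ p) := by
  induction d with
  | zero => exact fam_id
  | succ d ih =>
    have h1 := ih (fun i => hτ i.succ) (fun i => p i.succ)
    exact (fam_succ (τ := τ 0) (p := p 0) h1 (hτ 0)).comp (mp_tail 1 d).measurable

/-- one word -/
theorem single (hB : 0 < B) {d : ℕ} {τ : Fin d → ℝ → X → X} (hτ : ∀ i, IsFlow μ (τ i)) {p : Fin d → ℕ → ℝ}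
    {act : Fin d → Prop} (hp : ∀ i, act i → Tmc (p i)) (hp' : ∀ i, ¬ act i → ∀ n, p i n = 0) :
    (∃ D, Peel μ (Measure.pi fun _ : Fin d => lam B) (gw τ p) D) ∧
      Lim μ (Measure.pi fun _ : Fin d => lam B) (gw τ p) (iE μ d τ act) := by
  classical
  induction d with
  | zero => exact ⟨⟨0, peel_zero⟩, lim_zero⟩
  | succ d ih =>
    obtain ⟨⟨D, hD⟩, hL⟩ := ih (fun i => hτ i.succ) (p := fun i => p i.succ) (act := fun i => act i.succ)
      (fun i => hp i.succ) (fun i => hp' i.succ)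
    have hf := fam_gw (fun i => hτ i.succ) (fun i => p i.succ)
    by_cases h0 : act 0
    · refine ⟨⟨D + 1, ?_⟩, ?_⟩
      · have h := Peel.comp (fam_succ (p := p 0) hf (hτ 0))
          (peel_succ hB hf hD (hτ 0) (hp 0 h0).toTms.toTm.incP) (mp_tail B d)
        exact h
      · have h := (lim_succ hB hf hD hL (hτ 0) (hp 0 h0).toTms).comp (mp_tail B d)
        have e : iE μ (d + 1) τ act =
            fun f => iE μ d (fun i => τ i.succ) (fun i => act i.succ) (ce μ (τ 0) f) := by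
          funext f
          simp only [iE, if_pos h0]
        rw [e]
        exact h
    · have e0 : gw τ p = fun n (r : Fin (d + 1) → ℝ) x =>
          gw (fun i : Fin d => τ i.succ) (fun i => p i.succ) n (fun i => r i.succ) x := by
        funext n r x
        show τ 0 (r 0 * p 0 n) _ = _
        rw [hp' 0 h0, mul_zero, (hτ 0).zero]
        rfl
      rw [e0]
      refine ⟨⟨D, ?_⟩, ?_⟩
      · have h := Peel.comp (fam_skip hf) (peel_skip (B := B) hf hD) (mp_tail B d)
        exact h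
      · have h := (lim_skip (B := B) hL).comp (mp_tail B d)
        have e : iE μ (d + 1) τ act = iE μ d (fun i => τ i.succ) (fun i => act i.succ) := by
          funext f
          simp only [iE, if_neg h0]
        rw [e]
        exact h

/-- several words, distinct degrees -/
theorem distinct (hB : 0 < B) {d : ℕ} {τ : Fin d → ι → ℝ → X → X} (hτ : ∀ i j, IsFlow μ (τ i j))
    {p : Fin d → ι → ℕ → ℝ} {act : Fin d → ι → Prop} {q : Fin d → ι → ℕ} (hp : ∀ i j, act i j → Tmc (p i j))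
    (hp' : ∀ i j, ¬ act i j → ∀ n, p i j n = 0)
    (hq : ∀ i j j', act i j → act i j' → q i j = q i j' → j = j')
    (hsub : ∀ i j j', act i j → act i j' → q i j < q i j' → Sub (p i j) (p i j')) :
    LimW μ (Measure.pi fun _ : Fin d => lam B) (fun j => gw (fun i => τ i j) (fun i => p i j))
      (fun j => iE μ d (fun i => τ i j) (fun i => act i j)) := by
  classical
  induction d with
  | zero => exact limW_zero
  | succ d ih =>
    have h := ih (fun i => hτ i.succ) (p := fun i => p i.succ) (act := fun i => act i.succ)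
      (q := fun i => q i.succ) (fun i => hp i.succ) (fun i => hp' i.succ) (fun i => hq i.succ) (fun i => hsub i.succ)
    have hf : ∀ j, Fam μ (gw (fun i : Fin d => τ i.succ j) (fun i => p i.succ j)) :=
      fun j => fam_gw (fun i => hτ i.succ j) (fun i => p i.succ j)
    choose D hD hL using fun j => (show ∃ D, Peel μ (Measure.pi fun _ : Fin d => lam B)
        (gw (fun i : Fin d => τ i.succ j) (fun i => p i.succ j)) D ∧
        Lim μ (Measure.pi fun _ : Fin d => lam B) (gw (fun i : Fin d => τ i.succ j) (fun i => p i.succ j))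
          (iE μ d (fun i => τ i.succ j) (fun i => act i.succ j)) from by
      obtain ⟨⟨D, hD⟩, hL⟩ := single hB (fun i => hτ i.succ j) (p := fun i => p i.succ j)
        (act := fun i : Fin d => act i.succ j) (fun i => hp i.succ j) (fun i => hp' i.succ j)
      exact ⟨D, hD, hL⟩)
    have h2 := (limW_succ hB hf hD hL (fun j => hτ 0 j) (q := q 0) (univ.filter fun j => act 0 j)
      (p := p 0) (fun j hj => hp 0 j (by simpa using hj)) (fun j hj => hp' 0 j (by simpa using hj))
      (fun j hj j' hj' => hq 0 j j' (by simpa using hj) (by simpa using hj'))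
      (fun j hj j' hj' => hsub 0 j j' (by simpa using hj) (by simpa using hj')) h).comp (mp_tail B d)
    have e : (fun (j : ι) (f : X → ℝ) => if j ∈ (univ.filter fun j => act 0 j) then
        iE μ d (fun i => τ i.succ j) (fun i => act i.succ j) (ce μ (τ 0 j) f)
        else iE μ d (fun i => τ i.succ j) (fun i => act i.succ j) f) =
        fun j => iE μ (d + 1) (fun i => τ i j) (fun i => act i j) := by
      funext j f
      simp only [iE, mem_filter, mem_univ, true_and]
      split_ifs <;> rfl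
    rw [e] at h2
    exact h2

/-- several words, forming a tree -/
theorem tree (hB : 0 < B) {d : ℕ} {τ : Fin d → ι → ℝ → X → X} (hτ : ∀ i j, IsFlow μ (τ i j))
    {p : Fin d → ι → ℕ → ℝ} {act : Fin d → ι → Prop} {q : Fin d → ι → ℕ} (hp : ∀ i j, act i j → Tmc (p i j))
    (hp' : ∀ i j, ¬ act i j → ∀ n, p i j n = 0)
    (hq : ∀ i j j', act i j → act i j' → q i j = q i j' → ∀ l, i ≤ l → τ l j = τ l j' ∧ p l j = p l j')
    (hsub : ∀ i j j', act i j → act i j' → q i j < q i j' → Sub (p i j) (p i j')) :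
    ∃ TT : (ι → X → ℝ) → X → ℝ, (∀ f, (∀ j, BM (f j)) → BM (TT f)) ∧
      LimJ μ (Measure.pi fun _ : Fin d => lam B) (fun j => gw (fun i => τ i j) (fun i => p i j)) TT := by
  classical
  induction d with
  | zero => exact ⟨_, fun f hf => BM.prod _ fun j _ => hf j, limJ_zero⟩
  | succ d ih =>
    obtain ⟨TT, hTT, h⟩ := ih (fun i => hτ i.succ) (p := fun i => p i.succ) (act := fun i => act i.succ)
      (q := fun i => q i.succ) (fun i => hp i.succ) (fun i => hp' i.succ)
      (fun i j j' h1 h2 h3 l hl => hq i.succ j j' h1 h2 h3 l.succ (Fin.succ_le_succ_iff.2 hl)) (fun i => hsub i.succ)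
    have hf : ∀ j, Fam μ (gw (fun i : Fin d => τ i.succ j) (fun i => p i.succ j)) :=
      fun j => fam_gw (fun i => hτ i.succ j) (fun i => p i.succ j)
    choose D hD hL using fun j => (show ∃ D, Peel μ (Measure.pi fun _ : Fin d => lam B)
        (gw (fun i : Fin d => τ i.succ j) (fun i => p i.succ j)) D ∧
        Lim μ (Measure.pi fun _ : Fin d => lam B) (gw (fun i : Fin d => τ i.succ j) (fun i => p i.succ j))
          (iE μ d (fun i => τ i.succ j) (fun i => act i.succ j)) from by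
      obtain ⟨⟨D, hD⟩, hL⟩ := single hB (fun i => hτ i.succ j) (p := fun i => p i.succ j)
        (act := fun i : Fin d => act i.succ j) (fun i => hp i.succ j) (fun i => hp' i.succ j)
      exact ⟨D, hD, hL⟩)
    -- representatives
    set GG : ι → ℕ → ℝ × (Fin d → ℝ) → X → X := fun j n r x => τ 0 j (r.1 * p 0 j n)
      (gw (fun i : Fin d => τ i.succ j) (fun i => p i.succ j) n r.2 x) with hGG
    set s : Setoid ι := Setoid.ker GG with hs
    set κ : ι → ι := fun j => (Quotient.mk s j).out with hκd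
    have hκG : ∀ j, GG (κ j) = GG j := fun j => Quotient.mk_out (s := s) j
    have hκe : ∀ j j', GG j = GG j' → κ j = κ j' := by
      intro j j' hjj
      have : Quotient.mk s j = Quotient.mk s j' := Quotient.sound hjj
      simp only [hκd, this]
    have hκ : ∀ j, κ (κ j) = κ j := fun j => hκe _ _ (hκG j)
    have h2 := (limJ_succ hB hf hD hL (fun j => hτ 0 j) (q := q 0) hκ
      (fun j n r x => congrFun (congrFun (congrFun (hκG j) n) r) x)
      (univ.filter fun j => κ j = j ∧ act 0 j)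
      (p := p 0) (fun j hj => hp 0 j (by simpa using (mem_filter.1 hj).2.2))
      (fun j hj1 hj => hp' 0 j (fun hj2 => hj (mem_filter.2 ⟨mem_univ _, hj1, hj2⟩)))
      (fun j hj j' hj' hjj => by
        obtain ⟨_, h1, h2⟩ := mem_filter.1 hj
        obtain ⟨_, h3, h4⟩ := mem_filter.1 hj'
        rw [← h1, ← h3]
        refine hκe _ _ ?_
        have h5 := hq 0 j j' h2 h4 hjj
        have h6 : ∀ l, τ l j = τ l j' := fun l => (h5 l (Fin.zero_le l)).1
        have h7 : ∀ l, p l j = p l j' := fun l => (h5 l (Fin.zero_le l)).2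
        simp only [hGG, h6, h7])
      (fun j hj j' hj' => hsub 0 j j' (mem_filter.1 hj).2.2 (mem_filter.1 hj').2.2) h).comp (mp_tail B d)
    refine ⟨_, fun f hf' => hTT _ fun j => ?_, h2⟩
    split_ifs
    · exact ce_bm _
    · exact mrg_bm κ hf' j

end words

end Pool.Agent.W5h67.NF
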